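import Pool.Agent.H68.VD.St

/-! # Negative Sobolev norms on the torus -/

namespace Pool.Agent.H68.VD

open MeasureTheory Set
open scoped ENNReal ContDiff Pointwise

namespace HsA

variable {n : ℕ}

/-! ### The cube -/

/-- The standard basis. -/
noncomputable abbrev bs (n : ℕ) : Module.Basis (Fin n) ℝ (Eu n) :=
  (EuclideanSpace.basisFun (Fin n) ℝ).toBasis

theorem cube_eq : cube n = ZSpan.fundamentalDomain (bs n) := by
  ext x
  simp [cube, ZSpan.fundamentalDomain]

theorem cube_meas : MeasurableSet (cube n) := by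
  rw [cube_eq]
  exact ZSpan.fundamentalDomain_measurableSet _

theorem iv_apply (k : Fin n → ℤ) (i : Fin n) : iv k i = (k i : ℝ) := rfl

theorem ev_apply (i j : Fin n) : ev i j = if j = i then (1 : ℝ) else 0 := by
  simp [ev]

theorem iv_single (j : Fin n) : iv (Pi.single j 1) = ev j := by
  ext i
  rw [iv_apply, ev_apply, Pi.single_apply]
  split_ifs <;> simp

theorem per_vadd {F : Type*} (u : Eu n → F) (hu : Per u)
    (g : Submodule.span ℤ (Set.range (bs n))) (x : Eu n) : u (g +ᵥ x) = u x := by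
  obtain ⟨g, hg⟩ := g
  obtain ⟨c, rfl⟩ := Submodule.mem_span_range_iff_exists_fun ℤ |>.1 hg
  have h1 : (∑ i, c i • bs n i : Eu n) = iv c := by
    ext j
    simp [iv_apply, Pi.single_apply]
  show u ((∑ i, c i • bs n i : Eu n) + x) = u x
  rw [h1, add_comm]
  exact hu x c

theorem cube_dom : IsAddFundamentalDomain (Submodule.span ℤ (Set.range (bs n))) (cube n)
    (volume : Measure (Eu n)) := by
  rw [cube_eq]
  exact ZSpan.isAddFundamentalDomain _ _

theorem cube_dom_vadd (a : Eu n) :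
    IsAddFundamentalDomain (Submodule.span ℤ (Set.range (bs n))) (a +ᵥ cube n)
    (volume : Measure (Eu n)) :=
  cube_dom.vadd_of_comm a

theorem cube_trans {F : Type*} [NormedAddCommGroup F] [NormedSpace ℝ F] (f : Eu n → F)
    (hf : Per f) (a : Eu n) : ∫ x in cube n, f (a + x) = ∫ x in cube n, f x := by
  have h1 : ∫ x in cube n, f x = ∫ x in a +ᵥ cube n, f x := by
    have : VAddInvariantMeasure (Submodule.span ℤ (Set.range (bs n))) (Eu n) volume :=
      inferInstanceAs (VAddInvariantMeasure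
        (Submodule.span ℤ (Set.range (bs n))).toAddSubgroup (Eu n) volume)
    exact cube_dom.setIntegral_eq (cube_dom_vadd a) fun g x => per_vadd f hf g x
  rw [h1]
  exact ((measurePreserving_vadd a (volume : Measure (Eu n))).setIntegral_image_emb
    (measurableEmbedding_const_vadd a) f (cube n)).symm

theorem cube_sub_closed : cube n ⊆ {x : Eu n | ∀ i, x i ∈ Set.Icc (0 : ℝ) 1} :=
  fun _ hx i => ⟨(hx i).1, (hx i).2.le⟩

theorem closed_compact : IsCompact {x : Eu n | ∀ i, x i ∈ Set.Icc (0 : ℝ) 1} := by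
  have h : IsCompact (Set.pi Set.univ fun _ : Fin n => Set.Icc (0 : ℝ) 1) :=
    isCompact_univ_pi fun _ => isCompact_Icc
  have h3 : {x : Eu n | ∀ i, x i ∈ Set.Icc (0 : ℝ) 1} =
      (PiLp.continuousLinearEquiv 2 ℝ (fun _ : Fin n => ℝ)) ⁻¹'
        (Set.pi Set.univ fun _ : Fin n => Set.Icc (0 : ℝ) 1) := by
    ext x
    simp only [Set.mem_ofPred_eq, Set.mem_preimage, Set.mem_pi, Set.mem_univ, forall_true_left]
    rfl
  rw [h3]
  exact (PiLp.continuousLinearEquiv 2 ℝ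
    (fun _ : Fin n => ℝ)).toHomeomorph.isClosedEmbedding.isCompact_preimage h

theorem vol_cube : (volume : Measure (Eu n)) (cube n) = 1 := by
  have h1 : cube n = (MeasurableEquiv.toLp 2 (Fin n → ℝ)).symm ⁻¹'
      (Set.pi Set.univ fun _ : Fin n => Set.Ico (0 : ℝ) 1) := by
    ext x
    simp [cube]
  rw [h1, (EuclideanSpace.volume_preserving_symm_measurableEquiv_toLp (Fin n)).measure_preimage_equiv]
  rw [volume_pi_pi]
  simp

theorem int_cube {F : Type*} [NormedAddCommGroup F] {f : Eu n → F} (hf : Continuous f) :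
    IntegrableOn f (cube n) volume :=
  (hf.continuousOn.integrableOn_compact closed_compact).mono_set cube_sub_closed

/-! ### Exponentials -/

/-- The exponential `exp (- 2 π i k x)`. -/
noncomputable def ex (k : Fin n → ℤ) (x : Eu n) : ℂ :=
  Complex.exp (-(2 * Real.pi * Complex.I * ∑ j, (k j : ℂ) * (x j : ℂ)))

theorem ex_smooth (k : Fin n → ℤ) : ContDiff ℝ ∞ (ex k) := by
  unfold ex
  have h1 : ∀ j : Fin n, ContDiff ℝ ∞ (fun x : Eu n => (x j : ℂ)) := fun j =>
    Complex.ofRealCLM.contDiff.comp (contDiff_euclidean.1 contDiff_id j)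
  have h2 : ContDiff ℝ ∞ (fun x : Eu n => ∑ j, (k j : ℂ) * (x j : ℂ)) :=
    ContDiff.sum fun j _ => contDiff_const.mul (h1 j)
  exact (contDiff_const.mul h2).neg.cexp

theorem ex_cont (k : Fin n → ℤ) : Continuous (ex k) := (ex_smooth k).continuous

theorem ex_add (k : Fin n → ℤ) (x y : Eu n) : ex k (x + y) = ex k x * ex k y := by
  unfold ex
  rw [← Complex.exp_add]
  congr 1
  have : ∑ j, (k j : ℂ) * ((x + y) j : ℂ) =
      ∑ j, (k j : ℂ) * (x j : ℂ) + ∑ j, (k j : ℂ) * (y j : ℂ) := by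
    rw [← Finset.sum_add_distrib]
    refine Finset.sum_congr rfl fun j _ => ?_
    rw [PiLp.add_apply]
    push_cast
    ring
  rw [this]
  ring

theorem ex_iv (k l : Fin n → ℤ) : ex k (iv l) = 1 := by
  unfold ex
  have : ∑ j, (k j : ℂ) * ((iv l j : ℝ) : ℂ) = ((∑ j, k j * l j : ℤ) : ℂ) := by
    push_cast
    refine Finset.sum_congr rfl fun j _ => ?_
    rw [iv_apply]
    push_cast
    ring
  rw [this]
  have h2 : -(2 * Real.pi * Complex.I * ((∑ j, k j * l j : ℤ) : ℂ)) =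
      ((-(∑ j, k j * l j) : ℤ) : ℂ) * (2 * Real.pi * Complex.I) := by
    push_cast
    ring
  rw [h2]
  exact Complex.exp_int_mul_two_pi_mul_I _

theorem ex_per (k : Fin n → ℤ) : Per (ex k) := by
  intro x l
  rw [ex_add, ex_iv, mul_one]

theorem ex_norm (k : Fin n → ℤ) (x : Eu n) : ‖ex k x‖ = 1 := by
  unfold ex
  have : -(2 * Real.pi * Complex.I * ∑ j, (k j : ℂ) * (x j : ℂ)) =
      ((-(2 * Real.pi * ∑ j, (k j : ℝ) * x j) : ℝ) : ℂ) * Complex.I := by
    push_cast
    ring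
  rw [this]
  exact Complex.norm_exp_ofReal_mul_I _

theorem ex_mul (k l : Fin n → ℤ) (x : Eu n) : ex k x * ex l x = ex (k + l) x := by
  unfold ex
  rw [← Complex.exp_add]
  congr 1
  have : ∑ j, (((k + l) j : ℤ) : ℂ) * (x j : ℂ) =
      ∑ j, (k j : ℂ) * (x j : ℂ) + ∑ j, (l j : ℂ) * (x j : ℂ) := by
    rw [← Finset.sum_add_distrib]
    refine Finset.sum_congr rfl fun j _ => ?_
    rw [Pi.add_apply]
    push_cast
    ring
  rw [this]
  ring

theorem ex_zero (x : Eu n) : ex (0 : Fin n → ℤ) x = 1 := by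
  unfold ex
  simp

theorem ex_conj (k : Fin n → ℤ) (x : Eu n) : (starRingEnd ℂ) (ex k x) = ex (-k) x := by
  unfold ex
  rw [← Complex.exp_conj]
  congr 1
  simp only [map_neg, map_mul, map_sum, Complex.conj_I, Complex.conj_ofReal, map_ofNat,
    Pi.neg_apply, Int.cast_neg, neg_mul, Finset.sum_neg_distrib]
  have : ∀ j : Fin n, (starRingEnd ℂ) (k j : ℂ) = (k j : ℂ) := fun j => by
    rw [← Complex.ofReal_intCast, Complex.conj_ofReal]
  simp only [this]
  ring

theorem ex_smul_ev (k : Fin n → ℤ) (j : Fin n) (t : ℝ) :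
    ex k (t • ev j) = Complex.exp (-(2 * Real.pi * Complex.I * ((k j : ℂ) * t))) := by
  unfold ex
  congr 3
  rw [Finset.sum_eq_single j]
  · simp [ev_apply]
  · intro i _ hi
    simp [ev_apply, hi]
  · intro h
    exact absurd (Finset.mem_univ j) h

theorem ex_int (k : Fin n → ℤ) : ∫ x in cube n, ex k x = if k = 0 then 1 else 0 := by
  split_ifs with hk
  · subst hk
    simp only [ex_zero]
    rw [setIntegral_const, Measure.real, vol_cube]
    simp
  · obtain ⟨j, hj⟩ : ∃ j, k j ≠ 0 := by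
      by_contra h
      push Not at h
      exact hk (funext h)
    have hj' : (k j : ℝ) ≠ 0 := Int.cast_ne_zero.2 hj
    have h1 := cube_trans (ex k) (ex_per k) ((1 / (2 * (k j : ℝ))) • ev j)
    have h2 : ex k ((1 / (2 * (k j : ℝ))) • ev j) = -1 := by
      rw [ex_smul_ev]
      have : -(2 * Real.pi * Complex.I * ((k j : ℂ) * ((1 / (2 * (k j : ℝ)) : ℝ) : ℂ))) =
          -(Real.pi * Complex.I) := by
        have hk2 : (k j : ℂ) ≠ 0 := Int.cast_ne_zero.2 hj
        push_cast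
        field_simp
      rw [this, Complex.exp_neg, Complex.exp_pi_mul_I]
      norm_num
    simp only [ex_add, h2, neg_mul, one_mul] at h1
    rw [integral_neg] at h1
    have h3 : (2 : ℂ) * ∫ x in cube n, ex k x = 0 := by
      linear_combination -h1
    exact (mul_eq_zero.1 h3).resolve_left two_ne_zero

/-! ### Integration by parts -/

theorem int_deriv_zero (h : Eu n → ℂ) (hs : ContDiff ℝ ∞ h) (hp : Per h) (j : Fin n) :
    ∫ x in cube n, fderiv ℝ h x (ev j) = 0 := by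
  have hD : Continuous fun x => fderiv ℝ h x (ev j) :=
    (hs.continuous_fderiv (by simp)).clm_apply continuous_const
  have hK : IsCompact ((Set.Icc (-1 : ℝ) 1) ×ˢ {x : Eu n | ∀ i, x i ∈ Set.Icc (0 : ℝ) 1}) :=
    isCompact_Icc.prod closed_compact
  have hD2 : Continuous fun q : ℝ × Eu n => fderiv ℝ h (q.1 • ev j + q.2) (ev j) :=
    hD.comp (by fun_prop)
  obtain ⟨C, hC⟩ := hK.exists_bound_of_continuousOn hD2.continuousOn
  have hcomp : ∀ t : ℝ, Continuous fun x : Eu n => h (t • ev j + x) := fun t =>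
    hs.continuous.comp (by fun_prop)
  have hfin : IsFiniteMeasure ((volume : Measure (Eu n)).restrict (cube n)) :=
    ⟨by rw [Measure.restrict_apply_univ, vol_cube]; exact ENNReal.one_lt_top⟩
  have key := hasDerivAt_integral_of_dominated_loc_of_deriv_le (𝕜 := ℝ)
    (μ := (volume : Measure (Eu n)).restrict (cube n)) (x₀ := (0 : ℝ)) (s := Set.Ioo (-1) 1)
    (F := fun t x => h (t • ev j + x)) (F' := fun t x => fderiv ℝ h (t • ev j + x) (ev j))
    (bound := fun _ => C) (Ioo_mem_nhds (by norm_num) (by norm_num))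
    (Filter.Eventually.of_forall fun t => (hcomp t).aestronglyMeasurable)
    (int_cube (hcomp 0))
    (hD.comp (by fun_prop : Continuous fun x : Eu n => (0 : ℝ) • ev j + x)).aestronglyMeasurable
    ?_ (integrable_const C) ?_
  · have h1 := key.2
    have h2 : (fun t : ℝ => ∫ x in cube n, h (t • ev j + x)) = fun _ => ∫ x in cube n, h x :=
      funext fun t => cube_trans h hp _
    rw [h2] at h1
    have h3 := h1.unique (hasDerivAt_const (0 : ℝ) _)
    simpa using h3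
  · rw [ae_restrict_iff' cube_meas]
    exact Filter.Eventually.of_forall fun x hx t ht =>
      hC (t, x) ⟨⟨ht.1.le, ht.2.le⟩, cube_sub_closed hx⟩
  · refine Filter.Eventually.of_forall fun x t _ => ?_
    have h1 : HasDerivAt (fun t : ℝ => t • ev j + x) (ev j) t := by
      simpa using ((hasDerivAt_id t).smul_const (ev j)).add_const x
    exact ((hs.differentiable (by simp)).differentiableAt.hasFDerivAt).comp_hasDerivAt t h1

theorem ex_fderiv (k : Fin n → ℤ) (j : Fin n) (x : Eu n) :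
    fderiv ℝ (ex k) x (ev j) = -(2 * Real.pi * Complex.I * (k j : ℂ)) * ex k x := by
  have h1 : HasDerivAt (fun t : ℝ => x + t • ev j) (ev j) 0 := by
    simpa using ((hasDerivAt_id (0 : ℝ)).smul_const (ev j)).const_add x
  have h2 : HasFDerivAt (ex k) (fderiv ℝ (ex k) x) (x + (0 : ℝ) • ev j) := by
    rw [zero_smul, add_zero]
    exact ((ex_smooth k).differentiable (by simp)).differentiableAt.hasFDerivAt
  have h3 := h2.comp_hasDerivAt (0 : ℝ) h1
  have h4 : HasDerivAt (fun t : ℝ => ex k (x + t • ev j))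
      (-(2 * Real.pi * Complex.I * (k j : ℂ)) * ex k x) 0 := by
    have h5 : (fun t : ℝ => ex k (x + t • ev j)) =
        fun t : ℝ => ex k x * Complex.exp (-(2 * Real.pi * Complex.I * ((k j : ℂ) * t))) := by
      funext t
      rw [ex_add, ex_smul_ev]
    rw [h5]
    have h6 : HasDerivAt (fun t : ℝ => -(2 * Real.pi * Complex.I * ((k j : ℂ) * (t : ℂ))))
        (-(2 * Real.pi * Complex.I * (k j : ℂ))) 0 := by
      have := (((Complex.ofRealCLM.hasDerivAt (x := (0 : ℝ))).const_mul (k j : ℂ)).const_mul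
        (2 * Real.pi * Complex.I)).neg
      exact this.congr_deriv (by simp)
    have h7 := (h6.cexp).const_mul (ex k x)
    refine h7.congr_deriv ?_
    simp
    ring
  exact h3.unique h4

/-- Integration by parts. -/
theorem int_parts (g : Eu n → ℝ) (hs : ContDiff ℝ ∞ g) (hp : Per g) (k : Fin n → ℤ)
    (j : Fin n) : ∫ x in cube n, ((fderiv ℝ g x (ev j) : ℝ) : ℂ) * ex k x =
      2 * Real.pi * Complex.I * (k j : ℂ) * ∫ x in cube n, ((g x : ℝ) : ℂ) * ex k x := by
  have hgc : ContDiff ℝ ∞ fun x => ((g x : ℝ) : ℂ) := Complex.ofRealCLM.contDiff.comp hs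
  have hh : ContDiff ℝ ∞ fun x => ((g x : ℝ) : ℂ) * ex k x := hgc.mul (ex_smooth k)
  have hper : Per fun x => ((g x : ℝ) : ℂ) * ex k x := by
    intro x l
    show ((g (x + iv l) : ℝ) : ℂ) * ex k (x + iv l) = _
    rw [hp x l, ex_per k x l]
  have h0 := int_deriv_zero _ hh hper j
  have h1 : ∀ x, fderiv ℝ (fun x => ((g x : ℝ) : ℂ) * ex k x) x (ev j) =
      ((fderiv ℝ g x (ev j) : ℝ) : ℂ) * ex k x -
        2 * Real.pi * Complex.I * (k j : ℂ) * (((g x : ℝ) : ℂ) * ex k x) := by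
    intro x
    have hg1 : HasFDerivAt (fun x => ((g x : ℝ) : ℂ))
        (Complex.ofRealCLM.comp (fderiv ℝ g x)) x :=
      Complex.ofRealCLM.hasFDerivAt.comp x
        (hs.differentiable (by simp)).differentiableAt.hasFDerivAt
    have he1 : HasFDerivAt (ex k) (fderiv ℝ (ex k) x) x :=
      ((ex_smooth k).differentiable (by simp)).differentiableAt.hasFDerivAt
    have hm : HasFDerivAt (fun x => ((g x : ℝ) : ℂ) * ex k x) _ x := hg1.mul he1
    rw [hm.fderiv]
    simp only [add_apply, smul_apply,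
      ContinuousLinearMap.comp_apply, Complex.ofRealCLM_apply, smul_eq_mul, ex_fderiv]
    ring
  simp only [h1] at h0
  have hi1 : IntegrableOn (fun x => ((fderiv ℝ g x (ev j) : ℝ) : ℂ) * ex k x) (cube n) volume := by
    refine int_cube (Continuous.mul ?_ (ex_cont k))
    exact Complex.continuous_ofReal.comp
      ((hs.continuous_fderiv (by simp)).clm_apply continuous_const)
  have hi2 : IntegrableOn (fun x => 2 * Real.pi * Complex.I * (k j : ℂ) *
      (((g x : ℝ) : ℂ) * ex k x)) (cube n) volume :=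
    int_cube (continuous_const.mul hh.continuous)
  rw [integral_sub hi1 hi2, integral_const_mul] at h0
  exact sub_eq_zero.1 h0

/-! ### Bessel's inequality -/

instance cubeFin : IsFiniteMeasure ((volume : Measure (Eu n)).restrict (cube n)) :=
  ⟨by rw [Measure.restrict_apply_univ, vol_cube]; exact ENNReal.one_lt_top⟩

theorem memL2 {f : Eu n → ℂ} (hf : Continuous f) :
    MemLp f 2 ((volume : Measure (Eu n)).restrict (cube n)) := by
  obtain ⟨C, hC⟩ := closed_compact.exists_bound_of_continuousOn hf.continuousOn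
  refine MemLp.of_bound hf.aestronglyMeasurable C ?_
  rw [ae_restrict_iff' cube_meas]
  exact Filter.Eventually.of_forall fun x hx => hC x (cube_sub_closed hx)

theorem inner_toLp {f g : Eu n → ℂ} (hf : Continuous f) (hg : Continuous g) :
    inner ℂ (memL2 hf).toLp (memL2 hg).toLp = ∫ x in cube n, (starRingEnd ℂ) (f x) * g x := by
  rw [MeasureTheory.L2.inner_def]
  refine integral_congr_ae ?_
  filter_upwards [(memL2 hf).coeFn_toLp, (memL2 hg).coeFn_toLp] with x h1 h2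
  rw [h1, h2, RCLike.inner_apply']

/-- The orthonormal family of exponentials. -/
noncomputable def fam (n : ℕ) (k : Fin n → ℤ) :
    Lp ℂ 2 ((volume : Measure (Eu n)).restrict (cube n)) :=
  (memL2 (ex_cont (-k))).toLp

theorem fam_orth : Orthonormal ℂ (fam n) := by
  rw [orthonormal_iff_ite]
  intro k l
  unfold fam
  rw [inner_toLp (ex_cont _) (ex_cont _)]
  simp only [ex_conj, neg_neg, ex_mul]
  rw [ex_int]
  refine if_congr ?_ rfl rfl
  rw [← sub_eq_add_neg, sub_eq_zero]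

theorem bessel (g : Eu n → ℝ) (hg : Continuous g) (s : Finset (Fin n → ℤ)) :
    ∑ k ∈ s, ‖∫ x in cube n, ((g x : ℝ) : ℂ) * ex k x‖ ^ 2 ≤ ∫ x in cube n, g x ^ 2 := by
  have hgc : Continuous fun x => ((g x : ℝ) : ℂ) := Complex.continuous_ofReal.comp hg
  have h1 := fam_orth.sum_inner_products_le (s := s) ((memL2 hgc).toLp)
  have h2 : ∀ k, inner ℂ (fam n k) (memL2 hgc).toLp =
      ∫ x in cube n, ((g x : ℝ) : ℂ) * ex k x := by
    intro k
    unfold fam
    rw [inner_toLp (ex_cont _) hgc]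
    refine integral_congr_ae (Filter.Eventually.of_forall fun x => ?_)
    simp only [ex_conj, neg_neg]
    ring
  have h3 : ‖(memL2 hgc).toLp‖ ^ 2 = ∫ x in cube n, g x ^ 2 := by
    have h4 : ((‖(memL2 hgc).toLp‖ ^ 2 : ℝ) : ℂ) = ((∫ x in cube n, g x ^ 2 : ℝ) : ℂ) := by
      have h5 := inner_self_eq_norm_sq_to_K (𝕜 := ℂ) ((memL2 hgc).toLp)
      rw [inner_toLp hgc hgc] at h5
      rw [← integral_complex_ofReal, Complex.ofReal_pow]
      refine h5.symm.trans ?_
      refine integral_congr_ae (Filter.Eventually.of_forall fun x => ?_)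
      simp only [Complex.conj_ofReal]
      push_cast
      ring
    exact_mod_cast h4
  rw [← h3]
  refine le_trans (le_of_eq ?_) h1
  exact Finset.sum_congr rfl fun k _ => by rw [h2 k]

theorem fc_apply (u : Eu n → Eu n) (k : Fin n → ℤ) (i : Fin n) :
    fc u k i = ∫ x in cube n, ((u x i : ℝ) : ℂ) * ex k x := rfl

theorem norm_fc_sq (u : Eu n → Eu n) (k : Fin n → ℤ) :
    ‖fc u k‖ ^ 2 = ∑ i, ‖∫ x in cube n, ((u x i : ℝ) : ℂ) * ex k x‖ ^ 2 := by
  rw [EuclideanSpace.norm_sq_eq]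
  rfl

theorem coord_cont {u : Eu n → Eu n} (hu : Continuous u) (i : Fin n) :
    Continuous fun x => u x i := (EuclideanSpace.proj (𝕜 := ℝ) i).continuous.comp hu

theorem bessel_fc {u : Eu n → Eu n} (hu : Continuous u) (s : Finset (Fin n → ℤ)) :
    ∑ k ∈ s, ‖fc u k‖ ^ 2 ≤ ∫ x in cube n, ‖u x‖ ^ 2 := by
  have h1 : ∫ x in cube n, ‖u x‖ ^ 2 = ∑ i, ∫ x in cube n, u x i ^ 2 := by
    rw [← integral_finsetSum]
    · refine integral_congr_ae (Filter.Eventually.of_forall fun x => ?_)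
      show ‖u x‖ ^ 2 = ∑ i, u x i ^ 2
      rw [EuclideanSpace.norm_sq_eq]
      exact Finset.sum_congr rfl fun i _ => by rw [Real.norm_eq_abs, sq_abs]
    · exact fun i _ => int_cube ((coord_cont hu i).pow 2)
  rw [h1]
  simp only [norm_fc_sq]
  rw [Finset.sum_comm]
  exact Finset.sum_le_sum fun i _ => bessel (fun x => u x i) (coord_cont hu i) s

theorem bessel_tsum {u : Eu n → Eu n} (hu : Continuous u) :
    ∑' k : Fin n → ℤ, ‖fc u k‖ₑ ^ 2 ≤ ENNReal.ofReal (∫ x in cube n, ‖u x‖ ^ 2) := by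
  rw [ENNReal.tsum_eq_iSup_sum]
  refine iSup_le fun s => ?_
  have h1 : ∑ k ∈ s, ‖fc u k‖ₑ ^ 2 = ENNReal.ofReal (∑ k ∈ s, ‖fc u k‖ ^ 2) := by
    rw [ENNReal.ofReal_sum_of_nonneg fun k _ => sq_nonneg _]
    refine Finset.sum_congr rfl fun k _ => ?_
    rw [ENNReal.ofReal_pow (norm_nonneg _), ofReal_norm]
  rw [h1]
  exact ENNReal.ofReal_le_ofReal (bessel_fc hu s)

theorem ofReal_int {u : Eu n → Eu n} (hu : Continuous u) :
    ENNReal.ofReal (∫ x in cube n, ‖u x‖ ^ 2) = ∫⁻ x in cube n, ‖u x‖ₑ ^ (2 : ℝ) := by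
  rw [ofReal_integral_eq_lintegral_ofReal (f := fun x => ‖u x‖ ^ 2) (int_cube (hu.norm.pow 2))
    (Filter.Eventually.of_forall fun x => sq_nonneg _)]
  refine lintegral_congr fun x => ?_
  rw [ENNReal.ofReal_pow (norm_nonneg _), ofReal_norm, ENNReal.rpow_ofNat]

/-- The weight. -/
noncomputable def wt (s : ℝ) (k : Fin n → ℤ) : ℝ := (1 + ∑ j, (k j : ℝ) ^ 2) ^ s

theorem one_le_base (k : Fin n → ℤ) : 1 ≤ 1 + ∑ j, (k j : ℝ) ^ 2 := by
  have : 0 ≤ ∑ j, (k j : ℝ) ^ 2 := Finset.sum_nonneg fun j _ => sq_nonneg _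
  linarith

theorem wt_le_one {s : ℝ} (hs : s < 0) (k : Fin n → ℤ) : wt s k ≤ 1 :=
  Real.rpow_le_one_of_one_le_of_nonpos (one_le_base k) hs.le

theorem hsNorm_eq (s : ℝ) (u : Eu n → Eu n) :
    hsNorm s u = (∑' k : Fin n → ℤ, ENNReal.ofReal (wt s k) * ‖fc u k‖ₑ ^ 2) ^ (1 / 2 : ℝ) := rfl

theorem rpow_half_sq (a : ℝ≥0∞) : (a ^ 2) ^ (1 / 2 : ℝ) = a := by
  rw [← ENNReal.rpow_natCast, ← ENNReal.rpow_mul]
  norm_num

theorem fc_smul (c : ℝ) (u : Eu n → Eu n) (k : Fin n → ℤ) :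
    fc (fun x => c • u x) k = (c : ℂ) • fc u k := by
  ext i
  rw [PiLp.smul_apply, fc_apply, fc_apply, smul_eq_mul, ← integral_const_mul]
  refine integral_congr_ae (Filter.Eventually.of_forall fun x => ?_)
  show (((c • u x) i : ℝ) : ℂ) * ex k x = _
  rw [PiLp.smul_apply, smul_eq_mul]
  push_cast
  ring

theorem hs_smul (s c : ℝ) (u : Eu n → Eu n) :
    hsNorm s (fun x => c • u x) = ENNReal.ofReal |c| * hsNorm s u := by
  rw [hsNorm_eq, hsNorm_eq]
  have h1 : ∀ k : Fin n → ℤ, ENNReal.ofReal (wt s k) * ‖fc (fun x => c • u x) k‖ₑ ^ 2 =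
      ENNReal.ofReal |c| ^ 2 * (ENNReal.ofReal (wt s k) * ‖fc u k‖ₑ ^ 2) := by
    intro k
    rw [fc_smul, enorm_smul, mul_pow]
    have : ‖(c : ℂ)‖ₑ = ENNReal.ofReal |c| := by
      rw [← ofReal_norm, Complex.norm_real, Real.norm_eq_abs]
    rw [this]
    ring
  simp only [h1]
  rw [ENNReal.tsum_mul_left, ENNReal.mul_rpow_of_nonneg _ _ (by norm_num), rpow_half_sq]

theorem hs_bound {s : ℝ} (hs : s < 0) {u : Eu n → Eu n} (hu : Continuous u) :
    hsNorm s u ≤ (∫⁻ x in cube n, ‖u x‖ₑ ^ (2 : ℝ)) ^ (1 / 2 : ℝ) := by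
  rw [hsNorm_eq, ← ofReal_int hu]
  refine ENNReal.rpow_le_rpow ?_ (by norm_num)
  refine le_trans (ENNReal.tsum_le_tsum fun k => ?_) (bessel_tsum hu)
  have h1 : ENNReal.ofReal (wt s k) ≤ 1 := by
    rw [← ENNReal.ofReal_one]
    exact ENNReal.ofReal_le_ofReal (wt_le_one hs k)
  calc ENNReal.ofReal (wt s k) * ‖fc u k‖ₑ ^ 2 ≤ 1 * ‖fc u k‖ₑ ^ 2 := by gcongr
    _ = ‖fc u k‖ₑ ^ 2 := one_mul _

/-! ### Divergences of small matrix fields -/

theorem dv_cont {T : Eu n → (Eu n →L[ℝ] Eu n)} (hT : ContDiff ℝ ∞ T) : Continuous (dv T) := by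
  unfold dv
  refine continuous_finsetSum _ fun j _ => ?_
  exact ((hT.continuous_fderiv (by simp)).clm_apply continuous_const).clm_apply continuous_const

/-- The entry `(i, j)` of a matrix. -/
noncomputable def ent (i j : Fin n) : (Eu n →L[ℝ] Eu n) →L[ℝ] ℝ :=
  (EuclideanSpace.proj i : Eu n →L[ℝ] ℝ).comp (ContinuousLinearMap.apply ℝ (Eu n) (ev j))

theorem ent_apply (i j : Fin n) (A : Eu n →L[ℝ] Eu n) : ent i j A = A (ev j) i := rfl

theorem ev_norm (j : Fin n) : ‖ev j‖ = 1 := by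
  simp [ev]

theorem ent_le (i j : Fin n) (A : Eu n →L[ℝ] Eu n) : |ent i j A| ≤ ‖A‖ := by
  rw [ent_apply, ← Real.norm_eq_abs]
  calc ‖A (ev j) i‖ ≤ ‖A (ev j)‖ := PiLp.norm_apply_le _ i
    _ ≤ ‖A‖ * ‖ev j‖ := A.le_opNorm _
    _ = ‖A‖ := by rw [ev_norm, mul_one]

theorem dv_apply {T : Eu n → (Eu n →L[ℝ] Eu n)} (hT : ContDiff ℝ ∞ T) (x : Eu n) (i : Fin n) :
    dv T x i = ∑ j, fderiv ℝ (fun x => ent i j (T x)) x (ev j) := by
  unfold dv
  have h1 : (∑ j, (fderiv ℝ T x (ev j)) (ev j)) i = ∑ j, ((fderiv ℝ T x (ev j)) (ev j)) i := by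
    have := map_sum (EuclideanSpace.proj i : Eu n →L[ℝ] ℝ)
      (fun j => (fderiv ℝ T x (ev j)) (ev j)) Finset.univ
    exact this
  rw [h1]
  refine Finset.sum_congr rfl fun j _ => ?_
  have h2 : HasFDerivAt (fun x => ent i j (T x)) ((ent i j).comp (fderiv ℝ T x)) x :=
    (ent i j).hasFDerivAt.comp x (hT.differentiable (by simp)).differentiableAt.hasFDerivAt
  rw [h2.fderiv]
  rfl

theorem int_small {g : Eu n → ℝ} (δ : ℝ) (hd : ∀ x, |g x| ≤ δ) (k : Fin n → ℤ) :
    ‖∫ x in cube n, ((g x : ℝ) : ℂ) * ex k x‖ ≤ δ := by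
  have h1 : ∀ x ∈ cube n, ‖((g x : ℝ) : ℂ) * ex k x‖ ≤ δ := by
    intro x _
    rw [norm_mul, ex_norm, mul_one, Complex.norm_real, Real.norm_eq_abs]
    exact hd x
  have h2 := norm_setIntegral_le_of_norm_le_const (μ := (volume : Measure (Eu n)))
    (s := cube n) (by rw [vol_cube]; exact ENNReal.one_lt_top) h1
  rw [Measure.real, vol_cube] at h2
  simpa using h2

theorem fc_small {T : Eu n → (Eu n →L[ℝ] Eu n)} (hT : ContDiff ℝ ∞ T) (hp : Per T) (δ : ℝ)
    (hd : ∀ x, ‖T x‖ ≤ δ) (K : ℕ) (k : Fin n → ℤ) (hk : ∀ j, |k j| ≤ K) :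
    ‖fc (dv T) k‖ ^ 2 ≤ n * (n * (2 * Real.pi * K)) ^ 2 * δ ^ 2 := by
  have hδ : 0 ≤ δ := (norm_nonneg _).trans (hd 0)
  have hsm : ∀ i j, ContDiff ℝ ∞ fun x => ent i j (T x) := fun i j =>
    (ent i j).contDiff.comp hT
  have hcont : ∀ i j, Continuous fun x => fderiv ℝ (fun x => ent i j (T x)) x (ev j) := fun i j =>
    ((hsm i j).continuous_fderiv (by simp)).clm_apply continuous_const
  have h1 : ∀ i, ‖∫ x in cube n, ((dv T x i : ℝ) : ℂ) * ex k x‖ ≤
      n * (2 * Real.pi * K) * δ := by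
    intro i
    have h2 : ∫ x in cube n, ((dv T x i : ℝ) : ℂ) * ex k x =
        ∑ j, 2 * Real.pi * Complex.I * (k j : ℂ) *
          ∫ x in cube n, ((ent i j (T x) : ℝ) : ℂ) * ex k x := by
      have h3 : ∀ j, 2 * Real.pi * Complex.I * (k j : ℂ) *
          ∫ x in cube n, ((ent i j (T x) : ℝ) : ℂ) * ex k x =
          ∫ x in cube n, ((fderiv ℝ (fun x => ent i j (T x)) x (ev j) : ℝ) : ℂ) * ex k x := by
        intro j
        refine (int_parts _ (hsm i j) ?_ k j).symm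
        intro x l
        show ent i j (T (x + iv l)) = ent i j (T x)
        rw [hp x l]
      simp only [h3]
      rw [← integral_finsetSum]
      · refine integral_congr_ae (Filter.Eventually.of_forall fun x => ?_)
        show ((dv T x i : ℝ) : ℂ) * ex k x = _
        rw [dv_apply hT]
        push_cast
        rw [Finset.sum_mul]
      · exact fun j _ => int_cube
          ((Complex.continuous_ofReal.comp (hcont i j)).mul (ex_cont k))
    rw [h2]
    refine (norm_sum_le _ _).trans ?_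
    have h4 : ∀ j ∈ (Finset.univ : Finset (Fin n)), ‖2 * Real.pi * Complex.I * (k j : ℂ) *
        ∫ x in cube n, ((ent i j (T x) : ℝ) : ℂ) * ex k x‖ ≤ 2 * Real.pi * K * δ := by
      intro j _
      have h5 := int_small (g := fun x => ent i j (T x)) δ
        (fun x => (ent_le i j (T x)).trans (hd x)) k
      have h6 : ‖(2 : ℂ) * Real.pi * Complex.I * (k j : ℂ)‖ ≤ 2 * Real.pi * K := by
        rw [norm_mul, norm_mul, norm_mul, Complex.norm_I, Complex.norm_real, Complex.norm_intCast]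
        have h7 : |(k j : ℝ)| ≤ K := by
          have := hk j
          rw [← Int.cast_abs]
          exact_mod_cast this
        have h8 : ‖(2 : ℂ)‖ = 2 := by simp
        rw [h8, Real.norm_eq_abs, abs_of_pos Real.pi_pos, mul_one]
        exact mul_le_mul_of_nonneg_left h7 (by positivity)
      rw [norm_mul]
      exact mul_le_mul h6 h5 (norm_nonneg _) (by positivity)
    refine (Finset.sum_le_sum h4).trans (le_of_eq ?_)
    rw [Finset.sum_const, Finset.card_univ, Fintype.card_fin, nsmul_eq_mul]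
    ring
  rw [norm_fc_sq]
  calc ∑ i, ‖∫ x in cube n, ((dv T x i : ℝ) : ℂ) * ex k x‖ ^ 2
      ≤ ∑ _i : Fin n, (n * (2 * Real.pi * K) * δ) ^ 2 :=
        Finset.sum_le_sum fun i _ => pow_le_pow_left₀ (norm_nonneg _) (h1 i) 2
    _ = n * (n * (2 * Real.pi * K)) ^ 2 * δ ^ 2 := by
        rw [Finset.sum_const, Finset.card_univ, Fintype.card_fin, nsmul_eq_mul]
        ring

theorem exists_K {s : ℝ} (hs : s < 0) (B ε : ℝ) (hε : 0 < ε) :
    ∃ K : ℕ, (1 + (K : ℝ)) ^ s * B ^ 2 ≤ ε := by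
  have h1 : Filter.Tendsto (fun K : ℕ => (1 + (K : ℝ)) ^ s * B ^ 2) Filter.atTop
      (nhds (0 * B ^ 2)) := by
    refine Filter.Tendsto.mul_const _ ?_
    have h2 := tendsto_rpow_neg_atTop (y := -s) (by linarith)
    rw [neg_neg] at h2
    exact h2.comp (Filter.tendsto_atTop_add_const_left _ _ tendsto_natCast_atTop_atTop)
  rw [zero_mul] at h1
  exact ((h1.eventually (Iic_mem_nhds hε)).exists)

theorem hs_weak {s : ℝ} (hs : s < 0) (B ε : ℝ) (hε : 0 < ε) : ∃ δ : ℝ, 0 < δ ∧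
    ∀ T : Eu n → (Eu n →L[ℝ] Eu n), ContDiff ℝ ∞ T → Per T → (∀ x, ‖dv T x‖ ≤ B) →
    (∀ x, ‖T x‖ ≤ δ) → hsNorm s (dv T) ≤ ENNReal.ofReal ε := by
  classical
  obtain ⟨K, hK⟩ := exists_K hs B (ε ^ 2 / 2) (by positivity)
  set F : Finset (Fin n → ℤ) := Fintype.piFinset fun _ : Fin n => Finset.Icc (-(K : ℤ)) K with hF
  set D : ℝ := F.card * (n * (n * (2 * Real.pi * K)) ^ 2) with hD
  have hD0 : 0 ≤ D := by positivity
  refine ⟨ε / (2 * (D + 1)), by positivity, fun T hT hp hB hd => ?_⟩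
  set δ : ℝ := ε / (2 * (D + 1)) with hδ
  have hDδ : D * δ ^ 2 ≤ ε ^ 2 / 2 := by
    rw [hδ, div_pow, mul_div_assoc', div_le_div_iff₀ (by positivity) (by positivity)]
    have h1 : D * 2 ≤ (2 * (D + 1)) ^ 2 := by nlinarith
    have h2 := mul_le_mul_of_nonneg_left h1 (sq_nonneg ε)
    linarith
  have hcont := dv_cont hT
  set c : ℝ≥0∞ := ENNReal.ofReal ((1 + (K : ℝ)) ^ s) with hc
  have hpt : ∀ k : Fin n → ℤ, ENNReal.ofReal (wt s k) * ‖fc (dv T) k‖ₑ ^ 2 ≤
      (if k ∈ F then ‖fc (dv T) k‖ₑ ^ 2 else 0) + c * ‖fc (dv T) k‖ₑ ^ 2 := by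
    intro k
    split_ifs with hk
    · refine le_add_right ?_
      have h1 : ENNReal.ofReal (wt s k) ≤ 1 := by
        rw [← ENNReal.ofReal_one]
        exact ENNReal.ofReal_le_ofReal (wt_le_one hs k)
      calc ENNReal.ofReal (wt s k) * ‖fc (dv T) k‖ₑ ^ 2 ≤ 1 * ‖fc (dv T) k‖ₑ ^ 2 := by gcongr
        _ = ‖fc (dv T) k‖ₑ ^ 2 := one_mul _
    · rw [zero_add]
      have h1 : wt s k ≤ (1 + (K : ℝ)) ^ s := by
        refine Real.rpow_le_rpow_of_nonpos (by positivity) ?_ hs.le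
        rw [hF, Fintype.mem_piFinset] at hk
        push Not at hk
        obtain ⟨j, hj⟩ := hk
        rw [Finset.mem_Icc, not_and_or, not_le, not_le] at hj
        have h2 : (K : ℝ) ≤ (k j : ℝ) ^ 2 := by
          have h3 : (K : ℤ) ≤ (k j) ^ 2 := by
            rcases hj with hj | hj <;> nlinarith
          exact_mod_cast h3
        have h4 : (k j : ℝ) ^ 2 ≤ ∑ j, (k j : ℝ) ^ 2 :=
          Finset.single_le_sum (f := fun j => (k j : ℝ) ^ 2) (fun _ _ => sq_nonneg _)
            (Finset.mem_univ j)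
        linarith
      exact mul_le_mul_left (ENNReal.ofReal_le_ofReal h1) _
  have h1 : ∑' k : Fin n → ℤ, ENNReal.ofReal (wt s k) * ‖fc (dv T) k‖ₑ ^ 2 ≤
      ENNReal.ofReal (ε ^ 2) := by
    refine (ENNReal.tsum_le_tsum hpt).trans ?_
    rw [ENNReal.tsum_add, ENNReal.tsum_mul_left]
    have h2 : ∑' k : Fin n → ℤ, (if k ∈ F then ‖fc (dv T) k‖ₑ ^ 2 else 0) ≤
        ENNReal.ofReal (ε ^ 2 / 2) := by
      rw [tsum_eq_sum (s := F) fun k hk => if_neg hk]
      have h3 : ∑ k ∈ F, (if k ∈ F then ‖fc (dv T) k‖ₑ ^ 2 else 0) =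
          ENNReal.ofReal (∑ k ∈ F, ‖fc (dv T) k‖ ^ 2) := by
        rw [ENNReal.ofReal_sum_of_nonneg fun k _ => sq_nonneg _]
        refine Finset.sum_congr rfl fun k hk => ?_
        rw [if_pos hk, ENNReal.ofReal_pow (norm_nonneg _), ofReal_norm]
      rw [h3]
      refine ENNReal.ofReal_le_ofReal (le_trans ?_ hDδ)
      have h4 : ∀ k ∈ F, ‖fc (dv T) k‖ ^ 2 ≤ n * (n * (2 * Real.pi * K)) ^ 2 * δ ^ 2 := by
        intro k hk
        refine fc_small hT hp δ hd K k fun j => ?_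
        rw [hF, Fintype.mem_piFinset] at hk
        exact abs_le.2 (Finset.mem_Icc.1 (hk j))
      refine (Finset.sum_le_sum h4).trans (le_of_eq ?_)
      rw [Finset.sum_const, nsmul_eq_mul, hD]
      ring
    have h3 : c * ∑' k : Fin n → ℤ, ‖fc (dv T) k‖ₑ ^ 2 ≤ ENNReal.ofReal (ε ^ 2 / 2) := by
      have h4 : ∫ x in cube n, ‖dv T x‖ ^ 2 ≤ B ^ 2 := by
        have h5 : ∫ x in cube n, ‖dv T x‖ ^ 2 ≤ ∫ _x in cube n, B ^ 2 := by
          refine setIntegral_mono (int_cube (hcont.norm.pow 2)) (int_cube continuous_const) ?_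
          intro x
          exact pow_le_pow_left₀ (norm_nonneg _) (hB x) 2
        rw [setIntegral_const, Measure.real, vol_cube] at h5
        simpa using h5
      calc c * ∑' k : Fin n → ℤ, ‖fc (dv T) k‖ₑ ^ 2 ≤
          c * ENNReal.ofReal (∫ x in cube n, ‖dv T x‖ ^ 2) := by
            gcongr
            exact bessel_tsum hcont
        _ ≤ c * ENNReal.ofReal (B ^ 2) := by gcongr
        _ = ENNReal.ofReal ((1 + (K : ℝ)) ^ s * B ^ 2) := by
            rw [hc, ← ENNReal.ofReal_mul (by positivity)]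
        _ ≤ ENNReal.ofReal (ε ^ 2 / 2) := ENNReal.ofReal_le_ofReal hK
    calc _ ≤ ENNReal.ofReal (ε ^ 2 / 2) + ENNReal.ofReal (ε ^ 2 / 2) := add_le_add h2 h3
      _ = ENNReal.ofReal (ε ^ 2) := by
          rw [← ENNReal.ofReal_add (by positivity) (by positivity)]
          congr 1
          ring
  rw [hsNorm_eq]
  calc (∑' k : Fin n → ℤ, ENNReal.ofReal (wt s k) * ‖fc (dv T) k‖ₑ ^ 2) ^ (1 / 2 : ℝ) ≤
      (ENNReal.ofReal (ε ^ 2)) ^ (1 / 2 : ℝ) := ENNReal.rpow_le_rpow h1 (by norm_num)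
    _ = ENNReal.ofReal ε := by
        rw [ENNReal.ofReal_pow hε.le, rpow_half_sq]

/-! ### The mean -/

theorem int_coord {u : Eu n → Eu n} (hu : Continuous u) (i : Fin n) :
    (∫ x in cube n, u x) i = ∫ x in cube n, u x i := by
  have := ContinuousLinearMap.integral_comp_comm (EuclideanSpace.proj i : Eu n →L[ℝ] ℝ)
    (int_cube (n := n) hu)
  exact this.symm

theorem norm_fc_zero {u : Eu n → Eu n} (hu : Continuous u) :
    ‖fc u 0‖ = ‖∫ x in cube n, u x‖ := by
  have h1 : ‖fc u 0‖ ^ 2 = ‖∫ x in cube n, u x‖ ^ 2 := by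
    rw [norm_fc_sq, EuclideanSpace.norm_sq_eq]
    refine Finset.sum_congr rfl fun i _ => ?_
    rw [int_coord hu]
    simp only [ex_zero, mul_one]
    rw [integral_complex_ofReal, Complex.norm_real]
  exact (sq_eq_sq₀ (norm_nonneg _) (norm_nonneg _)).1 h1

theorem wt_zero (s : ℝ) : wt s (0 : Fin n → ℤ) = 1 := by
  simp [wt]

end HsA

theorem hsWeak : HsWeak := by
  intro n s _ hs
  refine ⟨by norm_num, HsA.hs_smul s, ⟨1, zero_le_one, fun u hu _ => ?_⟩, HsA.hs_weak hs⟩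
  rw [ENNReal.ofReal_one, one_mul]
  exact HsA.hs_bound hs hu

theorem hsMean : HsMean := by
  intro n s
  refine ⟨fun u hu => ?_, fun m => ?_⟩
  · rw [HsA.hsNorm_eq]
    have h1 : ENNReal.ofReal (HsA.wt s (0 : Fin n → ℤ)) * ‖fc u 0‖ₑ ^ 2 ≤
        ∑' k : Fin n → ℤ, ENNReal.ofReal (HsA.wt s k) * ‖fc u k‖ₑ ^ 2 :=
      ENNReal.le_tsum (f := fun k : Fin n → ℤ => ENNReal.ofReal (HsA.wt s k) * ‖fc u k‖ₑ ^ 2) 0
    rw [HsA.wt_zero, ENNReal.ofReal_one, one_mul] at h1
    calc ENNReal.ofReal ‖∫ x in cube n, u x‖ = (‖fc u 0‖ₑ ^ 2) ^ (1 / 2 : ℝ) := by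
          rw [HsA.rpow_half_sq, ← ofReal_norm, HsA.norm_fc_zero hu]
      _ ≤ _ := ENNReal.rpow_le_rpow h1 (by norm_num)
  · rw [HsA.hsNorm_eq]
    have h1 : ∀ k : Fin n → ℤ, k ≠ 0 →
        ENNReal.ofReal (HsA.wt s k) * ‖fc (fun _ : Eu n => m) k‖ₑ ^ 2 = 0 := by
      intro k hk
      have h2 : fc (fun _ : Eu n => m) k = 0 := by
        ext i
        rw [HsA.fc_apply, integral_const_mul, HsA.ex_int, if_neg hk, mul_zero]
        rfl
      rw [h2]
      simp
    rw [tsum_eq_single (0 : Fin n → ℤ) h1, HsA.wt_zero, ENNReal.ofReal_one, one_mul,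
      HsA.rpow_half_sq, ← ofReal_norm, HsA.norm_fc_zero continuous_const]
    rw [setIntegral_const, Measure.real, HsA.vol_cube]
    simp

end Pool.Agent.H68.VD
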