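import Pool.Agent.H68.VD.St
import Pool.Agent.H68.VD.Hs

/-! # Change of variables for periodic functions and the flux -/

namespace Pool.Agent.H68.VD

open MeasureTheory Set
open scoped ENNReal ContDiff

noncomputable section

namespace FluxA

variable {n : ℕ}

/-- The integer lattice. -/
abbrev Lt (n : ℕ) := Submodule.span ℤ (Set.range (HsA.bs n))

theorem iv_sum (c : Fin n → ℤ) : (∑ i, c i • HsA.bs n i : Eu n) = iv c := by
  ext j
  simp [HsA.iv_apply, Pi.single_apply]

theorem iv_mem (c : Fin n → ℤ) : (iv c : Eu n) ∈ Lt n := by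
  rw [← iv_sum]
  exact Submodule.mem_span_range_iff_exists_fun ℤ |>.2 ⟨c, rfl⟩

theorem iv_inj {k l : Fin n → ℤ} (h : (iv k : Eu n) = iv l) : k = l := by
  funext i
  have := congrArg (fun v : Eu n => v i) h
  simpa [HsA.iv_apply] using this

/-- The lattice is the set of the integer vectors. -/
def eqv (n : ℕ) : (Fin n → ℤ) ≃ Lt n :=
  Equiv.ofBijective (fun c => ⟨iv c, iv_mem c⟩) (by
    constructor
    · intro k l h
      exact iv_inj (congrArg Subtype.val h)
    · rintro ⟨g, hg⟩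
      obtain ⟨c, rfl⟩ := Submodule.mem_span_range_iff_exists_fun ℤ |>.1 hg
      exact ⟨c, Subtype.ext (iv_sum c).symm⟩)

/-- Change of variables. -/
theorem cov_gen {F' : Type*} [NormedAddCommGroup F'] [NormedSpace ℝ F'] (f : Eu n → Eu n)
    (hf : ContDiff ℝ ∞ f) (hb : Function.Bijective f) (hd : ∀ x, |(fderiv ℝ f x).det| = 1)
    (σ : (Fin n → ℤ) ≃ (Fin n → ℤ)) (hσ : ∀ x k, f (x + iv k) = f x + iv (σ k))
    (F : Eu n → F') (hF : Per F) : ∫ x in cube n, F (f x) = ∫ x in cube n, F x := by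
  have hemb : MeasurableEmbedding f := hf.continuous.measurableEmbedding hb.1
  have hmp : MeasurePreserving f (volume : Measure (Eu n)) volume := by
    refine ⟨hf.continuous.measurable, ?_⟩
    have h1 := map_withDensity_abs_det_fderiv_eq_addHaar (volume : Measure (Eu n))
      (f := f) (s := Set.univ) (f' := fun x => fderiv ℝ f x) MeasurableSet.univ.nullMeasurableSet
      (fun x _ => (hf.differentiable (by simp) x).hasFDerivAt.hasFDerivWithinAt) hb.1.injOn
    simp only [hd, ENNReal.ofReal_one, Measure.restrict_univ, Set.image_univ,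
      hb.2.range_eq] at h1
    have h2 : (volume : Measure (Eu n)).withDensity (fun _ => (1 : ℝ≥0∞)) = volume :=
      withDensity_one
    rwa [h2] at h1
  have hfd : IsAddFundamentalDomain (Lt n) (f ⁻¹' cube n) (volume : Measure (Eu n)) := by
    refine HsA.cube_dom.preimage_of_equiv hmp.quasiMeasurePreserving
      (e := fun g => eqv n (σ.symm ((eqv n).symm g))) ?_ ?_
    · exact (((eqv n).symm.trans (σ.symm.trans (eqv n)))).bijective
    · intro g x
      obtain ⟨k, rfl⟩ := (eqv n).surjective g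
      show f (((eqv n (σ.symm ((eqv n).symm (eqv n k))) : Lt n) : Eu n) + x) = (iv k : Eu n) + f x
      rw [Equiv.symm_apply_apply]
      show f (iv (σ.symm k) + x) = (iv k : Eu n) + f x
      rw [add_comm, hσ, Equiv.apply_symm_apply, add_comm]
  have hinv : VAddInvariantMeasure (Lt n) (Eu n) volume :=
    inferInstanceAs (VAddInvariantMeasure (Lt n).toAddSubgroup (Eu n) volume)
  have hper : Per (fun x => F (f x)) := by
    intro x k
    show F (f (x + iv k)) = F (f x)
    rw [hσ, hF]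
  rw [← hmp.setIntegral_preimage_emb hemb F (cube n)]
  exact HsA.cube_dom.setIntegral_eq hfd fun g x => HsA.per_vadd (fun x => F (f x)) hper g x

instance cubeFin : IsFiniteMeasure ((volume : Measure (Eu n)).restrict (cube n)) :=
  ⟨by rw [Measure.restrict_apply_univ, HsA.vol_cube]; exact ENNReal.one_lt_top⟩

/-- Differentiation under the integral. -/
theorem deriv_int (G : ℝ → Eu n → Eu n) (hG : ContDiff ℝ ∞ (fun q : ℝ × Eu n => G q.1 q.2))
    (t : ℝ) : HasDerivAt (fun τ => ∫ x in cube n, G τ x)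
      (∫ x in cube n, fderiv ℝ (fun q : ℝ × Eu n => G q.1 q.2) (t, x) (1, 0)) t := by
  set D : ℝ → Eu n → Eu n := fun τ x => fderiv ℝ (fun q : ℝ × Eu n => G q.1 q.2) (τ, x) (1, 0)
    with hDd
  have hD : Continuous fun q : ℝ × Eu n => D q.1 q.2 :=
    (hG.continuous_fderiv (by simp)).clm_apply continuous_const
  have hK : IsCompact ((Set.Icc (t - 1) (t + 1)) ×ˢ {x : Eu n | ∀ i, x i ∈ Set.Icc (0 : ℝ) 1}) :=
    isCompact_Icc.prod HsA.closed_compact
  obtain ⟨C, hC⟩ := hK.exists_bound_of_continuousOn hD.continuousOn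
  have hcomp : ∀ τ : ℝ, Continuous fun x : Eu n => G τ x := fun τ =>
    hG.continuous.comp (continuous_const.prodMk continuous_id)
  have key := hasDerivAt_integral_of_dominated_loc_of_deriv_le (𝕜 := ℝ)
    (μ := (volume : Measure (Eu n)).restrict (cube n)) (x₀ := t) (s := Set.Ioo (t - 1) (t + 1))
    (F := G) (F' := D) (bound := fun _ => C) (Ioo_mem_nhds (by linarith) (by linarith))
    (Filter.Eventually.of_forall fun τ => (hcomp τ).aestronglyMeasurable)
    (HsA.int_cube (hcomp t))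
    (hD.comp (continuous_const.prodMk continuous_id) :
      Continuous fun x : Eu n => D t x).aestronglyMeasurable
    ?_ (integrable_const C) ?_
  · exact key.2
  · rw [ae_restrict_iff' HsA.cube_meas]
    exact Filter.Eventually.of_forall fun x hx τ hτ =>
      hC (τ, x) ⟨⟨hτ.1.le, hτ.2.le⟩, HsA.cube_sub_closed hx⟩
  · refine Filter.Eventually.of_forall fun x τ _ => ?_
    have h1 : HasDerivAt (fun τ : ℝ => ((τ, x) : ℝ × Eu n)) ((1 : ℝ), (0 : Eu n)) τ :=
      (hasDerivAt_id τ).prodMk (hasDerivAt_const τ x)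
    exact ((hG.differentiable (by simp)).differentiableAt.hasFDerivAt).comp_hasDerivAt τ h1

/-- The integral of a smooth family is smooth. -/
theorem smooth_int_aux (m : ℕ) : ∀ G : ℝ → Eu n → Eu n,
    ContDiff ℝ ∞ (fun q : ℝ × Eu n => G q.1 q.2) → ContDiff ℝ m (fun τ => ∫ x in cube n, G τ x) := by
  induction m with
  | zero =>
    intro G hG
    rw [Nat.cast_zero, contDiff_zero]
    exact continuous_iff_continuousAt.2 fun t => (deriv_int G hG t).continuousAt
  | succ m ih =>
    intro G hG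
    rw [Nat.cast_succ, contDiff_succ_iff_deriv]
    refine ⟨fun t => (deriv_int G hG t).differentiableAt, by simp, ?_⟩
    have h1 : deriv (fun τ => ∫ x in cube n, G τ x) = fun t => ∫ x in cube n,
        fderiv ℝ (fun q : ℝ × Eu n => G q.1 q.2) (t, x) (1, 0) :=
      funext fun t => (deriv_int G hG t).deriv
    rw [h1]
    refine ih (fun t x => fderiv ℝ (fun q : ℝ × Eu n => G q.1 q.2) (t, x) (1, 0)) ?_
    exact (hG.fderiv_right (by simp)).clm_apply contDiff_const

theorem smooth_int (G : ℝ → Eu n → Eu n) (hG : ContDiff ℝ ∞ (fun q : ℝ × Eu n => G q.1 q.2)) :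
    ContDiff ℝ ∞ (fun τ => ∫ x in cube n, G τ x) :=
  contDiff_infty.2 fun m => smooth_int_aux m G hG

theorem trans_apply (w x : Eu n) : (AffineEquiv.constVAdd ℝ (Eu n) w) x = x + w := by
  simp [AffineEquiv.constVAdd_apply, add_comm]

theorem add_apply' (q : Eu n ≃ᵃ[ℝ] Eu n) (x v : Eu n) : q (x + v) = q x + q.linear v := by
  have := q.map_vadd x v
  simpa [add_comm] using this

theorem sub_apply' (q : Eu n ≃ᵃ[ℝ] Eu n) (x y : Eu n) : q.linear (x - y) = q x - q y := by
  have h := add_apply' q y (x - y)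
  rw [add_sub_cancel] at h
  rw [h]
  abel

theorem per_disp {P : Subgroup (Eu n ≃ᵃ[ℝ] Eu n)} (hP : Deck P) {f : Eu n → Eu n}
    (hf : ∀ g ∈ P, ∀ x, f (g x) = g (f x)) (x : Eu n) (k : Fin n → ℤ) :
    f (x + iv k) = f x + iv k := by
  have := hf _ (hP.trans k) x
  rwa [trans_apply, trans_apply] at this

/-- The linear part permutes the lattice. -/
theorem perm_lattice {P : Subgroup (Eu n ≃ᵃ[ℝ] Eu n)} (hP : Deck P) {g : Eu n ≃ᵃ[ℝ] Eu n}
    (hg : g ∈ P) : ∃ σ : (Fin n → ℤ) ≃ (Fin n → ℤ), ∀ k, g.linear (iv k) = iv (σ k) := by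
  choose a ha using hP.int g hg
  choose b hb using hP.int g⁻¹ (P.inv_mem hg)
  have h1 : ∀ v : Eu n, (g⁻¹ : Eu n ≃ᵃ[ℝ] Eu n).linear (g.linear v) = v := by
    intro v
    have h2 := add_apply' (g⁻¹ : Eu n ≃ᵃ[ℝ] Eu n) (g 0) (g.linear v)
    rw [← add_apply', zero_add] at h2
    have h3 : ∀ y, (g⁻¹ : Eu n ≃ᵃ[ℝ] Eu n) (g y) = y := fun y => g.symm_apply_apply y
    rw [h3, h3, zero_add] at h2
    exact h2.symm
  have h2 : ∀ v : Eu n, g.linear ((g⁻¹ : Eu n ≃ᵃ[ℝ] Eu n).linear v) = v := by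
    intro v
    have h2 := add_apply' g ((g⁻¹ : Eu n ≃ᵃ[ℝ] Eu n) 0) ((g⁻¹ : Eu n ≃ᵃ[ℝ] Eu n).linear v)
    rw [← add_apply', zero_add] at h2
    have h3 : ∀ y, g ((g⁻¹ : Eu n ≃ᵃ[ℝ] Eu n) y) = y := fun y => g.apply_symm_apply y
    rw [h3, h3, zero_add] at h2
    exact h2.symm
  refine ⟨⟨a, b, ?_, ?_⟩, ha⟩
  · intro k
    apply iv_inj
    rw [← hb, ← ha, h1]
  · intro k
    apply iv_inj
    rw [← ha, ← hb, h2]

/-- The determinant of a linear part. -/
theorem abs_det_linear {P : Subgroup (Eu n ≃ᵃ[ℝ] Eu n)} (hP : Deck P) {g : Eu n ≃ᵃ[ℝ] Eu n}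
    (hg : g ∈ P) : |LinearMap.det (g.linear : Eu n →ₗ[ℝ] Eu n)| = 1 := by
  have hint : ∀ q ∈ P, ∃ z : ℤ, LinearMap.det (q.linear : Eu n →ₗ[ℝ] Eu n) = z := by
    intro q hq
    choose a ha using hP.int q hq
    refine ⟨(Matrix.of fun i j => a (Pi.single j 1) i).det, ?_⟩
    rw [← LinearMap.det_toMatrix (HsA.bs n)]
    have h1 : LinearMap.toMatrix (HsA.bs n) (HsA.bs n) (q.linear : Eu n →ₗ[ℝ] Eu n) =
        (Matrix.of fun i j => a (Pi.single j 1) i).map (Int.castRingHom ℝ) := by
      ext i j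
      rw [LinearMap.toMatrix_apply]
      have h2 : HsA.bs n j = iv (Pi.single j 1) := by
        rw [HsA.iv_single]
        simp [ev]
      rw [h2]
      show (HsA.bs n).repr (q.linear (iv (Pi.single j 1))) i = _
      rw [ha]
      simp [HsA.iv_apply]
    rw [h1]
    exact ((Int.castRingHom ℝ).map_det _).symm
  obtain ⟨z, hz⟩ := hint g hg
  obtain ⟨w, hw⟩ := hint g⁻¹ (P.inv_mem hg)
  have hmul : LinearMap.det (g.linear : Eu n →ₗ[ℝ] Eu n) *
      LinearMap.det ((g⁻¹ : Eu n ≃ᵃ[ℝ] Eu n).linear : Eu n →ₗ[ℝ] Eu n) = 1 := by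
    rw [← LinearMap.det_comp]
    have : (g.linear : Eu n →ₗ[ℝ] Eu n) ∘ₗ ((g⁻¹ : Eu n ≃ᵃ[ℝ] Eu n).linear : Eu n →ₗ[ℝ] Eu n) =
        LinearMap.id := by
      ext1 v
      show g.linear ((g⁻¹ : Eu n ≃ᵃ[ℝ] Eu n).linear v) = v
      have h2 := add_apply' g ((g⁻¹ : Eu n ≃ᵃ[ℝ] Eu n) 0) ((g⁻¹ : Eu n ≃ᵃ[ℝ] Eu n).linear v)
      rw [← add_apply', zero_add] at h2
      have h3 : ∀ y, g ((g⁻¹ : Eu n ≃ᵃ[ℝ] Eu n) y) = y := fun y => g.apply_symm_apply y
      rw [h3, h3, zero_add] at h2
      exact h2.symm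
    rw [this, LinearMap.det_id]
  rw [hz, hw] at hmul
  have h3 : z * w = 1 := by exact_mod_cast hmul
  rw [hz]
  rcases Int.isUnit_iff.1 (IsUnit.of_mul_eq_one _ h3) with h | h
  · rw [h]; simp
  · rw [h]; simp

/-- A continuous version of an affine equivalence. -/
theorem aff_smooth (g : Eu n ≃ᵃ[ℝ] Eu n) : ContDiff ℝ ∞ (fun x => g x) ∧
    ∀ x, (fderiv ℝ (fun x => g x) x).det = LinearMap.det (g.linear : Eu n →ₗ[ℝ] Eu n) := by
  set L : Eu n →L[ℝ] Eu n := LinearMap.toContinuousLinearMap (g.linear : Eu n →ₗ[ℝ] Eu n) with hL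
  have h1 : (fun x => g x) = fun x => L x + g 0 := by
    funext x
    have := add_apply' g 0 x
    rw [zero_add] at this
    rw [this, add_comm]
    rfl
  constructor
  · rw [h1]
    exact L.contDiff.add contDiff_const
  · intro x
    rw [h1]
    have h2 : fderiv ℝ (fun x => L x + g 0) x = L := by
      rw [fderiv_add_const]
      exact L.fderiv
    rw [h2]
    rfl

/-- Invariance of the mean displacement. -/
theorem invt_gen {P : Subgroup (Eu n ≃ᵃ[ℝ] Eu n)} (hP : Deck P) {f : Eu n → Eu n}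
    (hfc : Continuous f) (hf : ∀ g ∈ P, ∀ x, f (g x) = g (f x)) {g : Eu n ≃ᵃ[ℝ] Eu n}
    (hg : g ∈ P) : g.linear (∫ x in cube n, (f x - x)) = ∫ x in cube n, (f x - x) := by
  obtain ⟨σ, hσ⟩ := perm_lattice hP hg
  have h1 := cov_gen (fun x => g x) (aff_smooth g).1 g.bijective
    (fun x => by rw [(aff_smooth g).2]; exact abs_det_linear hP hg) σ
    (fun x k => by
      show g (x + iv k) = g x + iv (σ k)
      rw [add_apply', hσ]) (fun x => f x - x) (by
      intro x k
      show f (x + iv k) - (x + iv k) = f x - x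
      rw [per_disp hP hf]
      abel)
  set L : Eu n →L[ℝ] Eu n := LinearMap.toContinuousLinearMap (g.linear : Eu n →ₗ[ℝ] Eu n) with hL
  have h2 : ∀ x, f (g x) - g x = L (f x - x) := by
    intro x
    rw [hf g hg]
    exact (sub_apply' g (f x) x).symm
  have h3 : ∫ x in cube n, L (f x - x) = L (∫ x in cube n, (f x - x)) :=
    L.integral_comp_comm (HsA.int_cube (hfc.sub continuous_id))
  simp only [h2] at h1
  rw [h3] at h1
  exact h1

end FluxA

open FluxA in
theorem fluxKit (F : FamKit) : FluxKit := by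
  have hcov : ∀ (n : ℕ) (f : Eu n → Eu n), ContDiff ℝ ∞ f → Function.Bijective f →
    (∀ x, (fderiv ℝ f x).det = 1) → (∀ x (k : Fin n → ℤ), f (x + iv k) = f x + iv k) →
    ∀ F : Eu n → Eu n, Continuous F → Per F →
    ∫ x in cube n, F (f x) = ∫ x in cube n, F x := by
    intro n f hf hb hd hk F _ hF
    exact cov_gen f hf hb (fun x => by rw [hd]; simp) (Equiv.refl _) hk F hF
  have hmean : ∀ (n : ℕ) (P : Subgroup (Eu n ≃ᵃ[ℝ] Eu n)), Deck P → ∀ φ : ℝ → Eu n → Eu n,
    IsPath P φ → ∀ t, HasDerivAt (fun τ => ∫ x in cube n, (φ τ x - x))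
      (∫ x in cube n, vel φ t x) t := by
    intro n P hP φ hφ t
    have hG : ContDiff ℝ ∞ (fun q : ℝ × Eu n => φ q.1 q.2 - q.2) := hφ.smooth.sub contDiff_snd
    have h1 := deriv_int (fun τ x => φ τ x - x) hG t
    have h2 : ∀ x, fderiv ℝ (fun q : ℝ × Eu n => φ q.1 q.2 - q.2) (t, x) (1, 0) =
        vel φ t (φ t x) := by
      intro x
      have h3 : HasDerivAt (fun τ : ℝ => ((τ, x) : ℝ × Eu n)) ((1 : ℝ), (0 : Eu n)) t :=
        (hasDerivAt_id t).prodMk (hasDerivAt_const t x)
      have h4 := ((hG.differentiable (by simp)).differentiableAt.hasFDerivAt).comp_hasDerivAt t h3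
      have h5 := (F.velEq n P φ hφ t x).sub_const x
      exact h4.unique h5
    have h3 : ∫ x in cube n, fderiv ℝ (fun q : ℝ × Eu n => φ q.1 q.2 - q.2) (t, x) (1, 0) =
        ∫ x in cube n, vel φ t x := by
      simp only [h2]
      have hs : ContDiff ℝ ∞ (φ t) := hφ.smooth.comp (contDiff_const.prodMk contDiff_id)
      refine hcov n (φ t) hs (hφ.bij t) (hφ.det t) (fun x k => per_disp hP (hφ.equi t) x k)
        (vel φ t) ?_ ?_
      · exact ((F.velSmooth n P φ hφ).comp (contDiff_const.prodMk contDiff_id)).continuous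
      · intro x k
        have h6 := F.velEqui n P φ hφ _ (hP.trans k) t x
        rw [trans_apply] at h6
        rw [h6]
        rfl
    rw [h3] at h1
    exact h1
  have hinvt : ∀ (n : ℕ) (P : Subgroup (Eu n ≃ᵃ[ℝ] Eu n)), Deck P → ∀ φ : ℝ → Eu n → Eu n,
    IsPath P φ → ∀ t, ∀ g ∈ P, g.linear (∫ x in cube n, (φ t x - x)) =
      ∫ x in cube n, (φ t x - x) := by
    intro n P hP φ hφ t g hg
    have hs : ContDiff ℝ ∞ (φ t) := hφ.smooth.comp (contDiff_const.prodMk contDiff_id)
    exact invt_gen hP hs.continuous (hφ.equi t) hg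
  refine ⟨hcov, ?_, hmean, ?_⟩
  · intro n P hP φ hφ h0 h1
    set M : ℝ → Eu n := fun t => ∫ x in cube n, (φ t x - x) with hM
    have hG : ContDiff ℝ ∞ (fun q : ℝ × Eu n => φ q.1 q.2 - q.2) := hφ.smooth.sub contDiff_snd
    have hMs : ContDiff ℝ ∞ M := smooth_int (fun τ x => φ τ x - x) hG
    have hψ : IsPath P (fun t x => φ t x - M t) := by
      refine ⟨?_, ?_, ?_, ?_⟩
      · exact hφ.smooth.sub (hMs.comp contDiff_fst)
      · intro t
        constructor
        · intro x y hxy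
          exact (hφ.bij t).1 (sub_left_injective hxy)
        · intro y
          obtain ⟨x, hx⟩ := (hφ.bij t).2 (y + M t)
          exact ⟨x, by show φ t x - M t = y; rw [hx]; abel⟩
      · intro t x
        have h2 : fderiv ℝ (fun x => φ t x - M t) x = fderiv ℝ (φ t) x := by
          rw [fderiv_sub_const]
        show (fderiv ℝ (fun x => φ t x - M t) x).det = 1
        rw [h2]
        exact hφ.det t x
      · intro t g hg x
        show φ t (g x) - M t = g (φ t x - M t)
        rw [hφ.equi t g hg x, sub_eq_add_neg (φ t x), add_apply', map_neg,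
          hinvt n P hP φ hφ t g hg]
        abel
    refine ⟨fun t x => φ t x - M t, hψ, ?_, ?_, ?_⟩
    · funext x
      show φ 0 x - M 0 = x
      have h2 : M 0 = 0 := by
        show ∫ x in cube n, (φ 0 x - x) = 0
        rw [h0]
        simp
      rw [h2, h0]
      simp
    · funext x
      show φ 1 x - M 1 = φ 1 x
      have h2 : M 1 = 0 := h1
      rw [h2, sub_zero]
    · intro t
      have h2 := hmean n P hP _ hψ t
      have h3 : (fun τ => ∫ x in cube n, ((fun t x => φ t x - M t) τ x - x)) = fun _ => 0 := by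
        funext τ
        have hs : ContDiff ℝ ∞ (φ τ) := hφ.smooth.comp (contDiff_const.prodMk contDiff_id)
        have h4 : ∀ x, (fun t x => φ t x - M t) τ x - x = (φ τ x - x) - M τ := fun x => by
          show φ τ x - M τ - x = _
          abel
        simp only [h4]
        have hi : IntegrableOn (fun x => φ τ x - x) (cube n) volume :=
          HsA.int_cube (hs.continuous.sub continuous_id)
        rw [integral_sub hi (integrable_const _), setIntegral_const, Measure.real, HsA.vol_cube]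
        simp [hM]
      rw [h3] at h2
      exact h2.unique (hasDerivAt_const t 0)
  · intro n P hP f hf g hg
    obtain ⟨φ, hφ, h0, rfl⟩ := hf
    exact hinvt n P hP φ hφ 1 g hg

end

end Pool.Agent.H68.VD
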