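import Pool.Agent.H68.VD.St

/-! # The calculus of costs -/

set_option autoImplicit false

namespace Pool.Agent.H68.VD.CostKA

open MeasureTheory Set
open scoped ENNReal ContDiff

noncomputable section

variable {n : ℕ}

/-- the first reparametrization -/
def chi1 (t : ℝ) : ℝ := Real.smoothTransition (2 * t)

/-- the second reparametrization -/
def chi2 (t : ℝ) : ℝ := Real.smoothTransition (2 * t - 1)

theorem chi1_smooth : ContDiff ℝ ∞ chi1 := by
  unfold chi1
  exact Real.smoothTransition.contDiff.comp (contDiff_const.mul contDiff_id)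

theorem chi2_smooth : ContDiff ℝ ∞ chi2 := by
  unfold chi2
  exact Real.smoothTransition.contDiff.comp ((contDiff_const.mul contDiff_id).sub contDiff_const)

theorem chi1_mono : Monotone chi1 := fun a b h => Real.smoothTransition.monotone (by linarith)

theorem chi2_mono : Monotone chi2 := fun a b h => Real.smoothTransition.monotone (by linarith)

theorem chi1_diff : Differentiable ℝ chi1 := chi1_smooth.differentiable (by simp)

theorem chi2_diff : Differentiable ℝ chi2 := chi2_smooth.differentiable (by simp)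

theorem chi1_deriv_cont : Continuous (deriv chi1) := chi1_smooth.continuous_deriv (by simp)

theorem chi2_deriv_cont : Continuous (deriv chi2) := chi2_smooth.continuous_deriv (by simp)

theorem chi1_deriv_nonneg (t : ℝ) : 0 ≤ deriv chi1 t := chi1_mono.deriv_nonneg

theorem chi2_deriv_nonneg (t : ℝ) : 0 ≤ deriv chi2 t := chi2_mono.deriv_nonneg

theorem chi1_zero : chi1 0 = 0 := by
  unfold chi1
  exact Real.smoothTransition.zero_of_nonpos (by norm_num)

theorem chi2_zero : chi2 0 = 0 := by
  unfold chi2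
  exact Real.smoothTransition.zero_of_nonpos (by norm_num)

theorem chi1_one : chi1 1 = 1 := by
  unfold chi1
  exact Real.smoothTransition.one_of_one_le (by norm_num)

theorem chi2_one : chi2 1 = 1 := by
  unfold chi2
  exact Real.smoothTransition.one_of_one_le (by norm_num)

theorem chi2_left {t : ℝ} (ht : t ≤ 1 / 2) : chi2 t = 0 ∧ deriv chi2 t = 0 := by
  have h1 : chi2 t = 0 := Real.smoothTransition.zero_of_nonpos (by linarith)
  refine ⟨h1, IsLocalMin.deriv_eq_zero (Filter.Eventually.of_forall fun s => ?_)⟩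
  rw [h1]
  exact Real.smoothTransition.nonneg _

theorem chi1_right {t : ℝ} (ht : 1 / 2 ≤ t) : chi1 t = 1 ∧ deriv chi1 t = 0 := by
  have h1 : chi1 t = 1 := Real.smoothTransition.one_of_one_le (by linarith)
  refine ⟨h1, IsLocalMax.deriv_eq_zero (Filter.Eventually.of_forall fun s => ?_)⟩
  rw [h1]
  exact Real.smoothTransition.le_one _

theorem chi1_mem {t : ℝ} : chi1 t ∈ Set.Icc (0 : ℝ) 1 :=
  ⟨Real.smoothTransition.nonneg _, Real.smoothTransition.le_one _⟩

theorem chi2_mem {t : ℝ} : chi2 t ∈ Set.Icc (0 : ℝ) 1 :=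
  ⟨Real.smoothTransition.nonneg _, Real.smoothTransition.le_one _⟩

theorem integral_sub1 (l : ℝ → ℝ) (hl : Continuous l) :
    ∫ t in (0 : ℝ)..1, deriv chi1 t * l (chi1 t) = ∫ t in (0 : ℝ)..1, l t := by
  have h := intervalIntegral.integral_comp_mul_deriv (a := 0) (b := 1) (f := chi1)
    (f' := deriv chi1) (g := l) (fun x _ => (chi1_diff x).hasDerivAt) chi1_deriv_cont.continuousOn hl
  rw [chi1_zero, chi1_one] at h
  rw [← h]
  congr 1
  funext t
  simp only [Function.comp]
  ring

theorem integral_sub2 (l : ℝ → ℝ) (hl : Continuous l) :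
    ∫ t in (0 : ℝ)..1, deriv chi2 t * l (chi2 t) = ∫ t in (0 : ℝ)..1, l t := by
  have h := intervalIntegral.integral_comp_mul_deriv (a := 0) (b := 1) (f := chi2)
    (f' := deriv chi2) (g := l) (fun x _ => (chi2_diff x).hasDerivAt) chi2_deriv_cont.continuousOn hl
  rw [chi2_zero, chi2_one] at h
  rw [← h]
  congr 1
  funext t
  simp only [Function.comp]
  ring

theorem cost_path (F : FamKit) (P : Subgroup (Eu n ≃ᵃ[ℝ] Eu n))
    (N : (Eu n → Eu n) → ℝ≥0∞) (p : ℝ) (hN : WeakNorm N p) (φ : ℝ → Eu n → Eu n)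
    (hφ : IsPath P φ) (h0 : φ 0 = id) (T C : ℝ) (hT : 0 ≤ T) (hC : 0 ≤ C)
    (hb : ∀ t ∈ Set.Icc (0 : ℝ) T, N (vel φ t) ≤ ENNReal.ofReal C) : Cost N P (φ T) (C * T) := by
  have hsm : ContDiff ℝ ∞ (fun t : ℝ => T * t) := contDiff_const.mul contDiff_id
  refine ⟨fun t => φ (T * t), fun _ => C * T, F.re n P ℝ ℝ φ (fun t => T * t) hφ hsm, ?_, ?_,
    continuous_const, fun _ => mul_nonneg hC hT, ?_, ?_⟩
  · simp only [mul_zero]
    exact h0
  · simp only [mul_one]
  · intro t ht
    have hder : HasDerivAt (fun t : ℝ => T * t) T t := by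
      simpa using (hasDerivAt_id t).const_mul T
    have h1 : vel (fun t => φ (T * t)) t = fun x => T • vel φ (T * t) x := by
      funext x
      have := F.velRe n P φ (fun t => T * t) hφ t hder.differentiableAt x
      rw [this, hder.deriv]
    rw [h1, hN.smul, abs_of_nonneg hT]
    have h2 : N (vel φ (T * t)) ≤ ENNReal.ofReal C := by
      apply hb
      constructor
      · exact mul_nonneg hT ht.1
      · calc T * t ≤ T * 1 := mul_le_mul_of_nonneg_left ht.2 hT
          _ = T := mul_one T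
    calc ENNReal.ofReal T * N (vel φ (T * t)) ≤ ENNReal.ofReal T * ENNReal.ofReal C := by gcongr
      _ = ENNReal.ofReal (C * T) := by rw [← ENNReal.ofReal_mul hT, mul_comm]
  · simp

theorem cost_inv (F : FamKit) (P : Subgroup (Eu n ≃ᵃ[ℝ] Eu n))
    (N : (Eu n → Eu n) → ℝ≥0∞) (p : ℝ) (hN : WeakNorm N p) (f : Eu n → Eu n) (a : ℝ)
    (h : Cost N P f a) : Cost N P (Function.invFun f) a := by
  obtain ⟨φ, l, hφ, h0, h1, hl, hl0, hb, hi⟩ := h
  have hsm : ContDiff ℝ ∞ (fun t : ℝ => 1 - t) := contDiff_const.sub contDiff_id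
  have hconst : IsFam P (fun (_ : ℝ) => f) := by
    have := F.re n P ℝ ℝ φ (fun _ => (1 : ℝ)) hφ contDiff_const
    rw [← h1]
    exact this
  have hinv : IsFam P (fun (_ : ℝ) => Function.invFun f) := F.inv n P ℝ (fun _ => f) hconst
  have hre : IsPath P (fun t => φ (1 - t)) := F.re n P ℝ ℝ φ (fun t => 1 - t) hφ hsm
  have hfb : Function.Bijective f := hconst.bij 0
  refine ⟨fun t x => φ (1 - t) (Function.invFun f x), fun t => l (1 - t),
    F.comp n P ℝ (fun t => φ (1 - t)) (fun _ => Function.invFun f) hre hinv, ?_, ?_,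
    hl.comp (continuous_const.sub continuous_id), fun t => hl0 _, ?_, ?_⟩
  · funext x
    simp only [sub_zero]
    rw [h1]
    exact Function.rightInverse_invFun hfb.2 x
  · funext x
    simp only [sub_self]
    rw [h0]
    rfl
  · intro t ht
    have hder : HasDerivAt (fun t : ℝ => 1 - t) (-1) t := by
      simpa using (hasDerivAt_id t).const_sub 1
    have h2 : vel (fun t x => φ (1 - t) (Function.invFun f x)) t =
        fun x => (-1 : ℝ) • vel φ (1 - t) x := by
      funext x
      rw [F.velConst n (fun t => φ (1 - t)) (Function.invFun f) (fun t => hφ.bij _)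
        (hinv.bij 0) t x]
      have := F.velRe n P φ (fun t => 1 - t) hφ t hder.differentiableAt x
      rw [this, hder.deriv]
    rw [h2, hN.smul]
    simp only [abs_neg, abs_one, ENNReal.ofReal_one, one_mul]
    exact hb _ ⟨by linarith [ht.2], by linarith [ht.1]⟩
  · have h3 := intervalIntegral.integral_comp_sub_left (a := 0) (b := 1) l 1
    simp only [sub_self, sub_zero] at h3
    rw [h3]
    exact hi

theorem cost_comp (F : FamKit) (P : Subgroup (Eu n ≃ᵃ[ℝ] Eu n))
    (N : (Eu n → Eu n) → ℝ≥0∞) (p : ℝ) (hN : WeakNorm N p) (f g : Eu n → Eu n) (a b : ℝ)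
    (hf : Cost N P f a) (hg : Cost N P g b) : Cost N P (fun x => f (g x)) (a + b) := by
  obtain ⟨φ, l, hφ, hφ0, hφ1, hl, hl0, hlb, hli⟩ := hf
  obtain ⟨ψ, m, hψ, hψ0, hψ1, hm, hm0, hmb, hmi⟩ := hg
  have hφ' : IsPath P (fun t => φ (chi2 t)) := F.re n P ℝ ℝ φ chi2 hφ chi2_smooth
  have hψ' : IsPath P (fun t => ψ (chi1 t)) := F.re n P ℝ ℝ ψ chi1 hψ chi1_smooth
  have hvφ : ∀ t x, vel (fun t => φ (chi2 t)) t x = deriv chi2 t • vel φ (chi2 t) x :=
    fun t x => F.velRe n P φ chi2 hφ t (chi2_diff t) x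
  have hvψ : ∀ t x, vel (fun t => ψ (chi1 t)) t x = deriv chi1 t • vel ψ (chi1 t) x :=
    fun t x => F.velRe n P ψ chi1 hψ t (chi1_diff t) x
  have hc1 : Continuous (fun t => deriv chi1 t * m (chi1 t)) :=
    chi1_deriv_cont.mul (hm.comp chi1_diff.continuous)
  have hc2 : Continuous (fun t => deriv chi2 t * l (chi2 t)) :=
    chi2_deriv_cont.mul (hl.comp chi2_diff.continuous)
  refine ⟨fun t x => φ (chi2 t) (ψ (chi1 t) x),
    fun t => deriv chi1 t * m (chi1 t) + deriv chi2 t * l (chi2 t),
    F.comp n P ℝ (fun t => φ (chi2 t)) (fun t => ψ (chi1 t)) hφ' hψ', ?_, ?_, hc1.add hc2, ?_, ?_,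
    ?_⟩
  · funext x
    simp only [chi1_zero, chi2_zero, hφ0, hψ0, id]
  · funext x
    simp only [chi1_one, chi2_one, hφ1, hψ1]
  · intro t
    exact add_nonneg (mul_nonneg (chi1_deriv_nonneg t) (hm0 _))
      (mul_nonneg (chi2_deriv_nonneg t) (hl0 _))
  · intro t _
    have hcomp := F.velComp n P (fun t => φ (chi2 t)) (fun t => ψ (chi1 t)) hφ' hψ' t
    have hn1 : 0 ≤ deriv chi1 t * m (chi1 t) := mul_nonneg (chi1_deriv_nonneg t) (hm0 _)
    have hn2 : 0 ≤ deriv chi2 t * l (chi2 t) := mul_nonneg (chi2_deriv_nonneg t) (hl0 _)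
    rcases le_total t (1 / 2) with ht | ht
    · obtain ⟨e1, e2⟩ := chi2_left ht
      have hid : φ (chi2 t) = id := by rw [e1, hφ0]
      have h2 : vel (fun t x => φ (chi2 t) (ψ (chi1 t) x)) t =
          fun x => deriv chi1 t • vel ψ (chi1 t) x := by
        funext x
        have h3 := hcomp x
        simp only [hvφ, hvψ, e2, zero_smul, zero_add] at h3
        rw [hid, fderiv_id] at h3
        exact h3
      rw [h2, hN.smul, abs_of_nonneg (chi1_deriv_nonneg t)]
      calc ENNReal.ofReal (deriv chi1 t) * N (vel ψ (chi1 t))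
          ≤ ENNReal.ofReal (deriv chi1 t) * ENNReal.ofReal (m (chi1 t)) := by
            gcongr
            exact hmb _ chi1_mem
        _ = ENNReal.ofReal (deriv chi1 t * m (chi1 t)) := by
            rw [← ENNReal.ofReal_mul (chi1_deriv_nonneg t)]
        _ ≤ _ := ENNReal.ofReal_le_ofReal (by linarith)
    · obtain ⟨e1, e2⟩ := chi1_right ht
      have h2 : vel (fun t x => φ (chi2 t) (ψ (chi1 t) x)) t =
          fun x => deriv chi2 t • vel φ (chi2 t) x := by
        funext y
        obtain ⟨x, rfl⟩ := (hφ'.bij t).2 y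
        have h3 := hcomp x
        simp only [hvφ, hvψ, e2, zero_smul, map_zero, add_zero] at h3
        exact h3
      rw [h2, hN.smul, abs_of_nonneg (chi2_deriv_nonneg t)]
      calc ENNReal.ofReal (deriv chi2 t) * N (vel φ (chi2 t))
          ≤ ENNReal.ofReal (deriv chi2 t) * ENNReal.ofReal (l (chi2 t)) := by
            gcongr
            exact hlb _ chi2_mem
        _ = ENNReal.ofReal (deriv chi2 t * l (chi2 t)) := by
            rw [← ENNReal.ofReal_mul (chi2_deriv_nonneg t)]
        _ ≤ _ := ENNReal.ofReal_le_ofReal (by linarith)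
  · rw [intervalIntegral.integral_add (hc1.intervalIntegrable _ _) (hc2.intervalIntegrable _ _),
      integral_sub1 m hm, integral_sub2 l hl]
    linarith

theorem cost_dist (F : FamKit) (P : Subgroup (Eu n ≃ᵃ[ℝ] Eu n))
    (N : (Eu n → Eu n) → ℝ≥0∞) (h f g : Eu n → Eu n) (a : ℝ) (hh : Cost N P h a) (hf : InG P f)
    (hγ : ∃ γ ∈ P, ∀ x, h (f x) = γ (g x)) : gdist N P f g ≤ ENNReal.ofReal a := by
  obtain ⟨φ, l, hφ, h0, h1, hl, hl0, hb, hi⟩ := hh
  obtain ⟨ψ, hψ, hψ0, hψ1⟩ := hf
  obtain ⟨γ, hγP, hγ⟩ := hγ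
  have hconst : IsFam P (fun (_ : ℝ) => f) := by
    have := F.re n P ℝ ℝ ψ (fun _ => (1 : ℝ)) hψ contDiff_const
    rw [← hψ1]
    exact this
  have hpath : IsPath P (fun t x => φ t (f x)) := F.comp n P ℝ φ (fun _ => f) hφ hconst
  have hle : len N (fun t x => φ t (f x)) ≤ ENNReal.ofReal a := by
    unfold len
    have hv : ∀ t, vel (fun t x => φ t (f x)) t = vel φ t := by
      intro t
      funext x
      exact F.velConst n φ f (fun t => hφ.bij t) (hconst.bij 0) t x
    simp only [hv]
    calc ∫⁻ t in Set.Icc (0 : ℝ) 1, N (vel φ t)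
        ≤ ∫⁻ t in Set.Icc (0 : ℝ) 1, ENNReal.ofReal (l t) := by
          apply setLIntegral_mono (hl.measurable.ennreal_ofReal) hb
      _ = ENNReal.ofReal (∫ t in Set.Icc (0 : ℝ) 1, l t) := by
          rw [ofReal_integral_eq_lintegral_ofReal]
          · exact (hl.continuousOn).integrableOn_Icc
          · exact Filter.Eventually.of_forall hl0
      _ ≤ ENNReal.ofReal a := by
          apply ENNReal.ofReal_le_ofReal
          rw [integral_Icc_eq_integral_Ioc, ← intervalIntegral.integral_of_le zero_le_one]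
          exact hi
  refine le_trans ?_ hle
  unfold gdist
  refine iInf₂_le (fun t x => φ t (f x)) ⟨hpath, ?_, γ, hγP, ?_⟩
  · funext x
    simp only [h0, id]
  · intro x
    simp only [h1]
    exact hγ x

end

end Pool.Agent.H68.VD.CostKA

namespace Pool.Agent.H68.VD

theorem costKit (F : FamKit) : CostKit where
  comp := fun _ P N p hN f g a b hf hg => CostKA.cost_comp F P N p hN f g a b hf hg
  inv := fun _ P N p hN f a h => CostKA.cost_inv F P N p hN f a h
  path := fun _ P N p hN φ hφ h0 T C hT hC hb => CostKA.cost_path F P N p hN φ hφ h0 T C hT hC hb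
  dist := fun _ P N h f g a hh hf hγ => CostKA.cost_dist F P N h f g a hh hf hγ

end Pool.Agent.H68.VD
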