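import Pool.Agent.H68.VD.Hs

/-! # Skew gradients of periodic functions are limits of sums of periodized swirls -/

namespace Pool.Agent.H68.VD

open MeasureTheory Set
open scoped ENNReal ContDiff

noncomputable section

variable {n : ℕ}

namespace DensBA

/-! ### Integer vectors -/

theorem iv_zero : iv (0 : Fin n → ℤ) = 0 := by
  ext i
  simp [HsA.iv_apply]

theorem iv_add (k l : Fin n → ℤ) : iv (k + l) = iv k + iv l := by
  ext i
  simp [HsA.iv_apply]

theorem iv_neg (k : Fin n → ℤ) : iv (-k) = -iv k := by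
  ext i
  simp [HsA.iv_apply]

theorem exists_cube (x : Eu n) : ∃ k : Fin n → ℤ, x + iv k ∈ cube n := by
  refine ⟨fun i => -⌊x i⌋, fun i => ?_⟩
  have h1 : (x + iv fun i => -⌊x i⌋) i = Int.fract (x i) := by
    rw [PiLp.add_apply, HsA.iv_apply]
    push_cast
    rw [← sub_eq_add_neg]
    rfl
  rw [h1]
  exact ⟨Int.fract_nonneg _, Int.fract_lt_one _⟩

/-- Finitely many integer vectors are bounded. -/
theorem fin_box (R : ℝ) : ∃ s : Finset (Fin n → ℤ), ∀ l, ‖iv l‖ ≤ R → l ∈ s := by
  refine ⟨Fintype.piFinset fun _ : Fin n => Finset.Icc (-⌈R⌉) ⌈R⌉, fun l hl => ?_⟩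
  rw [Fintype.mem_piFinset]
  intro i
  have h1 : |(l i : ℝ)| ≤ R := by
    have := PiLp.norm_apply_le (iv l) i
    rw [HsA.iv_apply, Real.norm_eq_abs] at this
    exact this.trans hl
  rw [Finset.mem_Icc]
  have h2 := abs_le.1 h1
  have h3 := Int.le_ceil R
  constructor
  · have : ((-⌈R⌉ : ℤ) : ℝ) ≤ (l i : ℝ) := by
      push_cast
      linarith
    exact_mod_cast this
  · have : (l i : ℝ) ≤ ((⌈R⌉ : ℤ) : ℝ) := by linarith
    exact_mod_cast this

/-! ### Continuous periodic functions -/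

/-- Continuous periodic functions are bounded. -/
theorem per_bdd {F : Type*} [NormedAddCommGroup F] {g : Eu n → F} (hg : Continuous g)
    (hp : Per g) : ∃ M : ℝ, 0 ≤ M ∧ ∀ x, ‖g x‖ ≤ M := by
  obtain ⟨C, hC⟩ := HsA.closed_compact.exists_bound_of_continuousOn (s := {x : Eu n | ∀ i,
    x i ∈ Set.Icc (0 : ℝ) 1}) hg.continuousOn
  refine ⟨max C 0, le_max_right _ _, fun x => ?_⟩
  obtain ⟨k, hk⟩ := exists_cube x
  rw [← hp x k]
  exact (hC _ (HsA.cube_sub_closed hk)).trans (le_max_left _ _)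

/-- Continuous periodic functions are uniformly continuous. -/
theorem per_unif {F : Type*} [NormedAddCommGroup F] {g : Eu n → F} (hg : Continuous g)
    (hp : Per g) {ε : ℝ} (hε : 0 < ε) : ∃ δ : ℝ, 0 < δ ∧ ∀ x y, ‖x - y‖ < δ → ‖g x - g y‖ ≤ ε := by
  have hK : IsCompact (Metric.cthickening 1 {x : Eu n | ∀ i, x i ∈ Set.Icc (0 : ℝ) 1}) :=
    HsA.closed_compact.cthickening
  have hU := hK.uniformContinuousOn_of_continuous hg.continuousOn
  rw [Metric.uniformContinuousOn_iff] at hU
  obtain ⟨δ, hδ, h⟩ := hU ε hε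
  refine ⟨min δ 1, lt_min hδ one_pos, fun x y hxy => ?_⟩
  obtain ⟨k, hk⟩ := exists_cube x
  rw [← hp x k, ← hp y k]
  have h1 : dist (x + iv k) (y + iv k) = ‖x - y‖ := by
    rw [dist_add_right, dist_eq_norm]
  have h2 := h (x + iv k) (Metric.self_subset_cthickening _ (HsA.cube_sub_closed hk)) (y + iv k)
    (Metric.mem_cthickening_of_dist_le _ (x + iv k) _ _ (HsA.cube_sub_closed hk) (by
      rw [dist_comm, h1]
      exact (hxy.trans_le (min_le_right _ _)).le)) (by
      rw [h1]
      exact hxy.trans_le (min_le_left _ _))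
  rw [dist_eq_norm] at h2
  exact h2.le

/-! ### Periodization -/

/-- The periodization. -/
def pz {F : Type*} [AddCommMonoid F] (u : Eu n → F) (z : Eu n) : F :=
  ∑ᶠ l : Fin n → ℤ, u (z + iv l)

theorem pz_per {F : Type*} [AddCommMonoid F] (u : Eu n → F) : Per (pz u) := by
  intro x k
  unfold pz
  refine Eq.trans ?_ (finsum_comp_equiv (Equiv.addLeft k) (f := fun l => u (x + iv l)))
  refine finsum_congr fun l => ?_
  rw [Equiv.coe_addLeft, iv_add, add_assoc]

/-- Near a point the periodization is a finite sum. -/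
theorem pz_fin (x0 : Eu n) : ∃ s : Finset (Fin n → ℤ), 0 ∈ s ∧ ∀ (F : Type) [AddCommMonoid F]
    (u : Eu n → F), (∀ z, 1 ≤ ‖z‖ → u z = 0) → ∀ z, ‖z - x0‖ < 1 →
    pz u z = ∑ l ∈ s, u (z + iv l) := by
  obtain ⟨s, hs⟩ := fin_box (n := n) (‖x0‖ + 2)
  refine ⟨s, hs 0 (by rw [iv_zero, norm_zero]; positivity), fun F _ u hu z hz => ?_⟩
  unfold pz
  refine finsum_eq_sum_of_support_subset _ fun l hl => ?_
  rw [Function.mem_support] at hl
  rw [Finset.mem_coe]
  refine hs l ?_
  by_contra hc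
  push Not at hc
  refine hl (hu _ ?_)
  have h1 : iv l = (z + iv l) - (z - x0) - x0 := by abel
  have h2 : ‖iv l‖ ≤ ‖z + iv l‖ + ‖z - x0‖ + ‖x0‖ := by
    calc ‖iv l‖ = ‖(z + iv l) - (z - x0) - x0‖ := by rw [← h1]
      _ ≤ ‖(z + iv l) - (z - x0)‖ + ‖x0‖ := norm_sub_le _ _
      _ ≤ ‖z + iv l‖ + ‖z - x0‖ + ‖x0‖ := by
        have := norm_sub_le (z + iv l) (z - x0)
        linarith
  linarith

theorem pz_smooth {F : Type} [NormedAddCommGroup F] [NormedSpace ℝ F] {u : Eu n → F}
    (hu : ContDiff ℝ ∞ u) (h0 : ∀ z, 1 ≤ ‖z‖ → u z = 0) : ContDiff ℝ ∞ (pz u) := by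
  rw [contDiff_iff_contDiffAt]
  intro x0
  obtain ⟨s, -, hs⟩ := pz_fin x0
  have h1 : ContDiff ℝ ∞ fun z => ∑ l ∈ s, u (z + iv l) :=
    ContDiff.sum fun l _ => hu.comp (contDiff_id.add contDiff_const)
  refine h1.contDiffAt.congr_of_eventuallyEq ?_
  filter_upwards [Metric.ball_mem_nhds x0 one_pos] with z hz
  exact hs F u h0 z (by rwa [Metric.mem_ball, dist_eq_norm] at hz)

/-- The skew gradient of the periodization. -/
theorem pz_jgrad {u : Eu n → ℝ} (hu : ContDiff ℝ ∞ u) (h0 : ∀ z, 1 ≤ ‖z‖ → u z = 0) (i m : Fin n)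
    (hj : ∀ z, 1 ≤ ‖z‖ → jgrad i m u z = 0) (x : Eu n) :
    jgrad i m (pz u) x = pz (jgrad i m u) x := by
  obtain ⟨s, -, hs⟩ := pz_fin x
  rw [hs _ (jgrad i m u) hj x (by simp)]
  have h1 : HasFDerivAt (fun z => ∑ l ∈ s, u (z + iv l)) (∑ l ∈ s, fderiv ℝ u (x + iv l)) x := by
    refine HasFDerivAt.fun_sum fun l _ => ?_
    have h2 : HasFDerivAt u (fderiv ℝ u (x + iv l)) (x + iv l) :=
      (hu.differentiable (by simp)).differentiableAt.hasFDerivAt
    exact (hasFDerivAt_comp_add_right (iv l)).2 h2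
  have h2 : HasFDerivAt (pz u) (∑ l ∈ s, fderiv ℝ u (x + iv l)) x := by
    refine h1.congr_of_eventuallyEq ?_
    filter_upwards [Metric.ball_mem_nhds x one_pos] with z hz
    exact hs ℝ u h0 z (by rwa [Metric.mem_ball, dist_eq_norm] at hz)
  unfold jgrad
  rw [h2.fderiv, Finset.sum_sub_distrib]
  simp only [sum_apply, Finset.sum_smul]

/-! ### The bump -/

/-- The profile of the bump. -/
def bp (r ρ : ℝ) : ℝ := Real.smoothTransition (1 - ρ / r ^ 2)

theorem bp_smooth (r : ℝ) : ContDiff ℝ ∞ (bp r) := by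
  unfold bp
  exact Real.smoothTransition.contDiff.comp
    (contDiff_const.sub (contDiff_id.div_const _))

theorem bp_zero {r ρ : ℝ} (hr : 0 < r) (h : r ^ 2 ≤ ρ) : bp r ρ = 0 := by
  unfold bp
  refine Real.smoothTransition.zero_of_nonpos ?_
  have : 1 ≤ ρ / r ^ 2 := by
    rw [le_div_iff₀ (by positivity)]
    linarith
  linarith

theorem bp_pos {r ρ : ℝ} (hr : 0 < r) (h : ρ < r ^ 2) : 0 < bp r ρ := by
  unfold bp
  refine Real.smoothTransition.pos_of_pos ?_
  have : ρ / r ^ 2 < 1 := by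
    rw [div_lt_iff₀ (by positivity)]
    linarith
  linarith

theorem bp_nonneg (r ρ : ℝ) : 0 ≤ bp r ρ := Real.smoothTransition.nonneg _

theorem dbp_smooth (r : ℝ) : ContDiff ℝ ∞ (deriv (bp r)) :=
  (contDiff_infty_iff_deriv.1 (bp_smooth r)).2

theorem dbp_zero {r ρ : ℝ} (hr : 0 < r) (h : r ^ 2 < ρ) : deriv (bp r) ρ = 0 := by
  have h1 : bp r =ᶠ[nhds ρ] fun _ => (0 : ℝ) := by
    filter_upwards [Ioi_mem_nhds h] with y hy
    exact bp_zero hr (le_of_lt hy)
  rw [h1.deriv_eq]
  simp

/-- The bump. -/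
def bu (r : ℝ) (z : Eu n) : ℝ := bp r (‖z‖ ^ 2)

theorem bu_smooth (r : ℝ) : ContDiff ℝ ∞ (bu (n := n) r) := by
  unfold bu
  exact (bp_smooth r).comp (contDiff_norm_sq ℝ)

theorem bu_jgrad (r : ℝ) (i m : Fin n) (z : Eu n) :
    jgrad i m (bu r) z = (-2 * deriv (bp r) (‖z‖ ^ 2)) • rotJ i m z := by
  have h1 : HasFDerivAt (bu (n := n) r)
      (deriv (bp r) (‖z‖ ^ 2) • (2 • (innerSL ℝ z))) z := by
    have h2 : HasDerivAt (bp r) (deriv (bp r) (‖z‖ ^ 2)) (‖z‖ ^ 2) :=
      ((bp_smooth r).differentiable (by simp)).differentiableAt.hasDerivAt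
    exact h2.comp_hasFDerivAt z (hasStrictFDerivAt_norm_sq z).hasFDerivAt
  have h3 : ∀ j : Fin n, fderiv ℝ (bu (n := n) r) z (ev j) =
      2 * deriv (bp r) (‖z‖ ^ 2) * z j := by
    intro j
    rw [h1.fderiv]
    simp only [smul_apply, innerSL_apply_apply, ev, EuclideanSpace.inner_single_right]
    simp
    ring
  unfold jgrad rotJ
  rw [h3, h3]
  have h4 : ∀ j : Fin n, (EuclideanSpace.proj j : Eu n →L[ℝ] ℝ) z = z j := fun j => rfl
  simp only [sub_apply, ContinuousLinearMap.smulRight_apply, h4]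
  module

theorem bu_zero {r : ℝ} (hr : 0 < r) {z : Eu n} (h : r ≤ ‖z‖) : bu r z = 0 :=
  bp_zero hr (by gcongr)

theorem bu_pos {r : ℝ} (hr : 0 < r) {z : Eu n} (h : ‖z‖ < r) : 0 < bu r z :=
  bp_pos hr (by gcongr)

theorem bu_nonneg (r : ℝ) (z : Eu n) : 0 ≤ bu r z := bp_nonneg _ _

theorem bu_zero_one {r : ℝ} (hr : 0 < r) (hr1 : r < 1) (z : Eu n) (h : 1 ≤ ‖z‖) : bu r z = 0 :=
  bu_zero hr (by linarith)

theorem bu_jgrad_zero {r : ℝ} (hr : 0 < r) (hr1 : r < 1) (i m : Fin n) (z : Eu n)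
    (h : 1 ≤ ‖z‖) : jgrad i m (bu r) z = 0 := by
  rw [bu_jgrad, dbp_zero hr (by nlinarith)]
  simp

theorem pu_smooth {r : ℝ} (hr : 0 < r) (hr1 : r < 1) : ContDiff ℝ ∞ (pz (bu (n := n) r)) :=
  pz_smooth (bu_smooth r) (bu_zero_one hr hr1)

theorem pu_nonneg {r : ℝ} (z : Eu n) : 0 ≤ pz (bu r) z := by
  unfold pz
  exact finsum_nonneg fun l => bu_nonneg _ _

/-- If the periodized bump does not vanish, some translate is in the small ball. -/
theorem pu_supp {r : ℝ} (hr : 0 < r) {z : Eu n} (h : pz (bu r) z ≠ 0) :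
    ∃ l : Fin n → ℤ, ‖z + iv l‖ < r := by
  by_contra hc
  push Not at hc
  refine h ?_
  unfold pz
  rw [finsum_congr fun l => bu_zero hr (hc l)]
  simp

theorem pu_pos {r : ℝ} (hr : 0 < r) (hr1 : r < 1) {z : Eu n} (h : ‖z‖ < r) :
    0 < pz (bu r) z := by
  obtain ⟨s, h2, hs⟩ := pz_fin z
  rw [hs ℝ (bu r) (bu_zero_one hr hr1) z (by simp)]
  exact Finset.sum_pos' (fun l _ => bu_nonneg _ _) ⟨0, h2, by
    rw [iv_zero, add_zero]
    exact bu_pos hr h⟩

/-! ### The mean value -/

/-- The integral of the periodized bump. -/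
def cb (n : ℕ) (r : ℝ) : ℝ := ∫ y in cube n, pz (bu (n := n) r) (-y)

theorem cb_eq (r : ℝ) (x : Eu n) : ∫ y in cube n, pz (bu (n := n) r) (x - y) = cb n r := by
  have h1 : Per fun y => pz (bu (n := n) r) (x - y) := by
    intro y k
    show pz (bu r) (x - (y + iv k)) = pz (bu r) (x - y)
    have h2 : x - (y + iv k) = x - y + iv (-k) := by
      rw [iv_neg]
      abel
    rw [h2, pz_per]
  have h3 := HsA.cube_trans _ h1 x
  rw [← h3]
  unfold cb
  refine integral_congr_ae (Filter.Eventually.of_forall fun y => ?_)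
  show pz (bu r) (x - (x + y)) = pz (bu r) (-y)
  congr 1
  abel

theorem cb_pos {r : ℝ} (hr : 0 < r) (hr1 : r < 1) : 0 < cb n r := by
  set y0 : Eu n := WithLp.toLp 2 fun _ => (1 / 2 : ℝ) with hy0
  rw [← cb_eq r y0]
  have hc : Continuous fun y : Eu n => pz (bu (n := n) r) (y0 - y) :=
    (pu_smooth hr hr1).continuous.comp (by fun_prop)
  rw [setIntegral_pos_iff_support_of_nonneg_ae
    (Filter.Eventually.of_forall fun y => pu_nonneg _) (HsA.int_cube hc)]
  have hopen : IsOpen {y : Eu n | (∀ i, y i ∈ Set.Ioo (0 : ℝ) 1) ∧ ‖y0 - y‖ < r} := by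
    have h1 : IsOpen {y : Eu n | ∀ i, y i ∈ Set.Ioo (0 : ℝ) 1} := by
      have : {y : Eu n | ∀ i, y i ∈ Set.Ioo (0 : ℝ) 1} =
          ⋂ i, (fun y : Eu n => y i) ⁻¹' Set.Ioo 0 1 := by
        ext y
        simp
      rw [this]
      refine isOpen_iInter_of_finite fun i => isOpen_Ioo.preimage ?_
      exact (EuclideanSpace.proj (𝕜 := ℝ) i).continuous
    have h2 : IsOpen {y : Eu n | ‖y0 - y‖ < r} := isOpen_lt (by fun_prop) continuous_const
    exact h1.inter h2
  have hne : ({y : Eu n | (∀ i, y i ∈ Set.Ioo (0 : ℝ) 1) ∧ ‖y0 - y‖ < r}).Nonempty := by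
    refine ⟨y0, fun i => ?_, ?_⟩
    · rw [hy0]
      constructor <;> norm_num
    · simpa using hr
  refine lt_of_lt_of_le (hopen.measure_pos volume hne) (measure_mono ?_)
  intro y hy
  refine ⟨?_, fun i => ⟨(hy.1 i).1.le, (hy.1 i).2⟩⟩
  rw [Function.mem_support]
  exact (pu_pos hr hr1 hy.2).ne'

/-- The mean value of a periodic function against the periodized bump. -/
theorem avg_est {r : ℝ} (hr : 0 < r) (hr1 : r < 1) {F : Type*} [NormedAddCommGroup F]
    [NormedSpace ℝ F] [CompleteSpace F] {g : Eu n → F} (hg : Continuous g) (hp : Per g) {ε : ℝ}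
    (hε : ∀ x y, ‖x - y‖ < r → ‖g x - g y‖ ≤ ε) (x : Eu n) :
    ‖cb n r • g x - ∫ y in cube n, pz (bu (n := n) r) (x - y) • g y‖ ≤ cb n r * ε := by
  have hc : Continuous fun y : Eu n => pz (bu (n := n) r) (x - y) :=
    (pu_smooth hr hr1).continuous.comp (by fun_prop)
  have h1 : cb n r • g x = ∫ y in cube n, pz (bu (n := n) r) (x - y) • g x := by
    rw [integral_smul_const, cb_eq]
  have i1 : IntegrableOn (fun y : Eu n => pz (bu (n := n) r) (x - y) • g x) (cube n) volume :=
    HsA.int_cube (hc.smul continuous_const)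
  have i2 : IntegrableOn (fun y : Eu n => pz (bu (n := n) r) (x - y) • g y) (cube n) volume :=
    HsA.int_cube (hc.smul hg)
  rw [h1, ← integral_sub i1 i2, ← cb_eq r x, ← integral_mul_const]
  refine norm_integral_le_of_norm_le (HsA.int_cube (hc.mul continuous_const)) ?_
  refine Filter.Eventually.of_forall fun y => ?_
  rw [← smul_sub, norm_smul, Real.norm_of_nonneg (pu_nonneg _)]
  by_cases h0 : pz (bu r) (x - y) = 0
  · rw [h0]
    simp
  · refine mul_le_mul_of_nonneg_left ?_ (pu_nonneg _)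
    obtain ⟨l, hl⟩ := pu_supp hr h0
    have h2 : g y = g (y + iv (-l)) := (hp y (-l)).symm
    rw [h2]
    refine hε _ _ ?_
    rw [iv_neg]
    have h3 : x - (y + -iv l) = x - y + iv l := by abel
    rwa [h3]

/-! ### Integration by parts -/

theorem parts (f U : Eu n → ℝ) (hf : ContDiff ℝ ∞ f) (hfp : Per f) (hU : ContDiff ℝ ∞ U)
    (hUp : Per U) (j : Fin n) (x : Eu n) :
    ∫ y in cube n, U (x - y) * fderiv ℝ f y (ev j) =
      ∫ y in cube n, f y * fderiv ℝ U (x - y) (ev j) := by
  have hUx : ContDiff ℝ ∞ fun y : Eu n => U (x - y) := hU.comp (contDiff_const.sub contDiff_id)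
  have hs : ContDiff ℝ ∞ fun y => ((f y * U (x - y) : ℝ) : ℂ) :=
    Complex.ofRealCLM.contDiff.comp (hf.mul hUx)
  have hper : Per fun y => ((f y * U (x - y) : ℝ) : ℂ) := by
    intro y k
    show ((f (y + iv k) * U (x - (y + iv k)) : ℝ) : ℂ) = _
    have h2 : x - (y + iv k) = x - y + iv (-k) := by
      rw [iv_neg]
      abel
    rw [hfp y k, h2, hUp]
  have h0 := HsA.int_deriv_zero _ hs hper j
  have h1 : ∀ y, fderiv ℝ (fun y => ((f y * U (x - y) : ℝ) : ℂ)) y (ev j) =
      ((U (x - y) * fderiv ℝ f y (ev j) - f y * fderiv ℝ U (x - y) (ev j) : ℝ) : ℂ) := by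
    intro y
    have ha : HasFDerivAt f (fderiv ℝ f y) y :=
      (hf.differentiable (by simp)).differentiableAt.hasFDerivAt
    have hb : HasFDerivAt U (fderiv ℝ U (x - y)) (x - y) :=
      (hU.differentiable (by simp)).differentiableAt.hasFDerivAt
    have hc : HasFDerivAt (fun y : Eu n => x - y) (-ContinuousLinearMap.id ℝ (Eu n)) y := by
      simpa using (hasFDerivAt_id y).const_sub x
    have hd := hb.comp y hc
    have he := Complex.ofRealCLM.hasFDerivAt.comp y (ha.mul hd)
    have he' : HasFDerivAt (fun y => ((f y * U (x - y) : ℝ) : ℂ)) _ y := he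
    rw [he'.fderiv]
    simp only [add_apply, smul_apply, neg_apply, ContinuousLinearMap.comp_apply,
      Complex.ofRealCLM_apply, smul_eq_mul, Function.comp_apply, ContinuousLinearMap.id_apply,
      map_neg]
    push_cast
    ring
  simp only [h1] at h0
  rw [integral_complex_ofReal] at h0
  have h2 : ∫ y in cube n, (U (x - y) * fderiv ℝ f y (ev j) - f y * fderiv ℝ U (x - y) (ev j)) = 0 := by
    exact_mod_cast h0
  rw [integral_sub] at h2
  · linarith
  · exact HsA.int_cube (hUx.continuous.mul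
      ((hf.continuous_fderiv (by simp)).clm_apply continuous_const))
  · refine HsA.int_cube (hf.continuous.mul (Continuous.clm_apply ?_ continuous_const))
    exact (hU.continuous_fderiv (by simp)).comp (by fun_prop)

theorem jparts (f U : Eu n → ℝ) (hf : ContDiff ℝ ∞ f) (hfp : Per f) (hU : ContDiff ℝ ∞ U)
    (hUp : Per U) (i m : Fin n) (x : Eu n) :
    ∫ y in cube n, U (x - y) • jgrad i m f y = ∫ y in cube n, f y • jgrad i m U (x - y) := by
  have hUx : Continuous fun y : Eu n => U (x - y) := hU.continuous.comp (by fun_prop)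
  have hfd : ∀ j, Continuous fun y : Eu n => fderiv ℝ f y (ev j) := fun j =>
    (hf.continuous_fderiv (by simp)).clm_apply continuous_const
  have hUd : ∀ j, Continuous fun y : Eu n => fderiv ℝ U (x - y) (ev j) := fun j =>
    Continuous.clm_apply ((hU.continuous_fderiv (by simp)).comp (by fun_prop)) continuous_const
  have e1 : ∀ y, U (x - y) • jgrad i m f y =
      (U (x - y) * fderiv ℝ f y (ev m)) • ev i - (U (x - y) * fderiv ℝ f y (ev i)) • ev m := by
    intro y
    unfold jgrad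
    module
  have e2 : ∀ y, f y • jgrad i m U (x - y) =
      (f y * fderiv ℝ U (x - y) (ev m)) • ev i - (f y * fderiv ℝ U (x - y) (ev i)) • ev m := by
    intro y
    unfold jgrad
    module
  simp only [e1, e2]
  rw [integral_sub, integral_sub, integral_smul_const, integral_smul_const, integral_smul_const,
    integral_smul_const, parts f U hf hfp hU hUp, parts f U hf hfp hU hUp]
  · exact HsA.int_cube ((hf.continuous.mul (hUd m)).smul continuous_const)
  · exact HsA.int_cube ((hf.continuous.mul (hUd i)).smul continuous_const)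
  · exact HsA.int_cube ((hUx.mul (hfd m)).smul continuous_const)
  · exact HsA.int_cube ((hUx.mul (hfd i)).smul continuous_const)

/-! ### The Riemann sum -/

/-- A measurable choice of finitely many points that are near to the points of the cube. -/
theorem exists_near {δ : ℝ} (hδ : 0 < δ) : ∃ s : SimpleFunc (Eu n) (Eu n),
    ∀ y ∈ cube n, ‖y - s y‖ < δ := by
  have hcov : {x : Eu n | ∀ i, x i ∈ Set.Icc (0 : ℝ) 1} ⊆
      ⋃ k : ℕ, Metric.ball (TopologicalSpace.denseSeq (Eu n) k) δ := by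
    intro x _
    obtain ⟨k, hk⟩ := (TopologicalSpace.denseRange_denseSeq (Eu n)).exists_dist_lt x hδ
    exact mem_iUnion.2 ⟨k, hk⟩
  obtain ⟨t, ht⟩ := HsA.closed_compact.elim_finite_subcover _ (fun _ => Metric.isOpen_ball) hcov
  refine ⟨SimpleFunc.nearestPt (TopologicalSpace.denseSeq (Eu n)) (t.sup id), fun y hy => ?_⟩
  obtain ⟨k, hk, hy2⟩ := mem_iUnion₂.1 (ht (HsA.cube_sub_closed hy))
  have h1 := SimpleFunc.edist_nearestPt_le (TopologicalSpace.denseSeq (Eu n)) y
    (Finset.le_sup (f := id) hk : k ≤ t.sup id)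
  have h2 : edist (TopologicalSpace.denseSeq (Eu n) k) y < ENNReal.ofReal δ := by
    rw [edist_dist]
    refine (ENNReal.ofReal_lt_ofReal_iff hδ).2 ?_
    rw [dist_comm]
    exact hy2
  have h3 := h1.trans_lt h2
  rw [edist_dist, ENNReal.ofReal_lt_ofReal_iff hδ, dist_comm, dist_eq_norm] at h3
  exact h3

/-- The integral of a function of a simple function. -/
theorem int_simple (s : SimpleFunc (Eu n) (Eu n)) {F : Type*} [NormedAddCommGroup F]
    [NormedSpace ℝ F] [CompleteSpace F] (h : Eu n → F) :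
    ∫ y in cube n, h (s y) =
      ∑ v ∈ s.range, (volume.restrict (cube n)).real (s ⁻¹' {v}) • h v ∧
    IntegrableOn (fun y => h (s y)) (cube n) volume := by
  have e1 : (fun y => h (s y)) = fun y => ∑ v ∈ s.range,
      (s ⁻¹' {v}).indicator (fun _ => h v) y := by
    funext y
    rw [Finset.sum_eq_single (s y)]
    · rw [indicator_of_mem]
      simp
    · intro v _ hv
      rw [indicator_of_notMem]
      simpa using fun h => hv h.symm
    · intro hy
      exact absurd (s.mem_range_self y) hy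
  have hi : ∀ v ∈ s.range, Integrable ((s ⁻¹' {v}).indicator (fun _ => h v))
      ((volume : Measure (Eu n)).restrict (cube n)) := fun v _ =>
    (integrable_const (h v)).indicator (s.measurableSet_fiber v)
  constructor
  · rw [e1, integral_finsetSum _ hi]
    refine Finset.sum_congr rfl fun v _ => ?_
    rw [integral_indicator_const _ (s.measurableSet_fiber v)]
  · show Integrable _ _
    rw [e1]
    exact integrable_finsetSum _ hi

/-- Uniform Riemann sums for a convolution. -/
theorem riemann (f : Eu n → ℝ) (hf : Continuous f) (hfp : Per f) {F : Type*}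
    [NormedAddCommGroup F] [NormedSpace ℝ F] [CompleteSpace F] (J : Eu n → F) (hJ : Continuous J)
    (hJp : Per J) {ε : ℝ} (hε : 0 < ε) : ∃ (s : Finset (Eu n)) (w : Eu n → ℝ), ∀ x,
    ‖(∫ y in cube n, f y • J (x - y)) - ∑ v ∈ s, (w v * f v) • J (x - v)‖ ≤ ε := by
  obtain ⟨Mf, hMf0, hMf⟩ := per_bdd hf hfp
  obtain ⟨MJ, hMJ0, hMJ⟩ := per_bdd hJ hJp
  obtain ⟨δ1, hδ1, h1⟩ := per_unif hf hfp (ε := ε / (2 * (MJ + 1))) (by positivity)
  obtain ⟨δ2, hδ2, h2⟩ := per_unif hJ hJp (ε := ε / (2 * (Mf + 1))) (by positivity)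
  obtain ⟨s, hs⟩ := exists_near (n := n) (lt_min hδ1 hδ2)
  refine ⟨s.range, fun v => (volume.restrict (cube n)).real (s ⁻¹' {v}), fun x => ?_⟩
  have h3 := (int_simple s fun v => f v • J (x - v)).1
  have h4 := (int_simple s fun v => f v • J (x - v)).2
  have h5 : ∑ v ∈ s.range, ((volume.restrict (cube n)).real (s ⁻¹' {v}) * f v) • J (x - v) =
      ∑ v ∈ s.range, (volume.restrict (cube n)).real (s ⁻¹' {v}) • f v • J (x - v) :=
    Finset.sum_congr rfl fun v _ => by rw [mul_smul]
  rw [h5, ← h3, ← integral_sub _ h4]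
  · have h6 : ∀ᵐ y ∂((volume : Measure (Eu n)).restrict (cube n)),
        ‖f y • J (x - y) - f (s y) • J (x - s y)‖ ≤ ε := by
      rw [ae_restrict_iff' HsA.cube_meas]
      refine Filter.Eventually.of_forall fun y hy => ?_
      have hd := hs y hy
      have e1 : f y • J (x - y) - f (s y) • J (x - s y) =
          (f y - f (s y)) • J (x - y) + f (s y) • (J (x - y) - J (x - s y)) := by
        module
      have a1 := h1 y (s y) (hd.trans_le (min_le_left _ _))
      have a2 := h2 (x - y) (x - s y) (by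
        have : x - y - (x - s y) = -(y - s y) := by abel
        rw [this, norm_neg]
        exact hd.trans_le (min_le_right _ _))
      have b1 : ‖f y - f (s y)‖ * ‖J (x - y)‖ ≤ ε / (2 * (MJ + 1)) * (MJ + 1) := by
        refine mul_le_mul a1 ((hMJ _).trans (by linarith)) (norm_nonneg _) (by positivity)
      have b2 : ‖f (s y)‖ * ‖J (x - y) - J (x - s y)‖ ≤ (Mf + 1) * (ε / (2 * (Mf + 1))) := by
        refine mul_le_mul ((hMf _).trans (by linarith)) a2 (norm_nonneg _) (by positivity)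
      have c1 : ε / (2 * (MJ + 1)) * (MJ + 1) = ε / 2 := by
        field_simp
      have c2 : (Mf + 1) * (ε / (2 * (Mf + 1))) = ε / 2 := by
        field_simp
      rw [e1]
      refine (norm_add_le _ _).trans ?_
      rw [norm_smul, norm_smul]
      linarith
    have h7 := norm_integral_le_of_norm_le_const h6
    rw [Measure.real, Measure.restrict_apply_univ, HsA.vol_cube] at h7
    simpa using h7
  · exact HsA.int_cube (hf.smul (hJ.comp (by fun_prop)))

end DensBA

open DensBA in
theorem densB : DensB := by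
  intro n i m _ f hf hfp r0 η hr0 hη
  have hgc : Continuous (jgrad i m f) := by
    unfold jgrad
    have h1 : ∀ j, Continuous fun y : Eu n => fderiv ℝ f y (ev j) := fun j =>
      (hf.continuous_fderiv (by simp)).clm_apply continuous_const
    exact ((h1 m).smul continuous_const).sub ((h1 i).smul continuous_const)
  have hfd : ∀ (x : Eu n) (k : Fin n → ℤ), fderiv ℝ f (x + iv k) = fderiv ℝ f x := by
    intro x k
    rw [← fderiv_comp_add_right]
    congr 1
    funext y
    exact hfp y k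
  have hgp : Per (jgrad i m f) := by
    intro x k
    unfold jgrad
    rw [hfd]
  obtain ⟨δ, hδ, hδ2⟩ := per_unif hgc hgp (half_pos hη)
  obtain ⟨r, hr, hr1⟩ := exists_between (lt_min (lt_min hδ hr0) one_pos)
  have hrδ : r < δ := hr1.trans_le ((min_le_left _ _).trans (min_le_left _ _))
  have hrr : r < r0 := hr1.trans_le ((min_le_left _ _).trans (min_le_right _ _))
  have hr2 : r < 1 := hr1.trans_le (min_le_right _ _)
  have hc := cb_pos (n := n) hr hr2
  set c := cb n r with hcdef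
  have hU := pu_smooth (n := n) hr hr2
  have hUp : Per (pz (bu (n := n) r)) := pz_per _
  have hJ : jgrad i m (pz (bu (n := n) r)) = pz (jgrad i m (bu r)) :=
    funext fun x => pz_jgrad (bu_smooth r) (bu_zero_one hr hr2) i m
      (bu_jgrad_zero hr hr2 i m) x
  have hJc : Continuous (jgrad i m (pz (bu (n := n) r))) := by
    unfold jgrad
    have h1 : ∀ j, Continuous fun y : Eu n => fderiv ℝ (pz (bu (n := n) r)) y (ev j) := fun j =>
      (hU.continuous_fderiv (by simp)).clm_apply continuous_const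
    exact ((h1 m).smul continuous_const).sub ((h1 i).smul continuous_const)
  have hJp : Per (jgrad i m (pz (bu (n := n) r))) := by
    rw [hJ]
    exact pz_per _
  obtain ⟨s, w, hs⟩ := riemann f hf.continuous hfp _ hJc hJp (ε := c * (η / 2)) (by positivity)
  refine ⟨s.card, fun k => (s.equivFin.symm k : Eu n),
    fun k ρ => (w (s.equivFin.symm k : Eu n) * f (s.equivFin.symm k : Eu n) / c) *
      (-2 * deriv (bp r) ρ), fun k => ?_, fun k ρ hρ => ?_, fun x => ?_⟩
  · exact contDiff_const.mul (contDiff_const.mul (dbp_smooth r))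
  · show _ * (-2 * deriv (bp r) ρ) = 0
    rw [dbp_zero hr (by nlinarith)]
    simp
  · have e1 : ∀ v : Eu n, ∑ᶠ l : Fin n → ℤ, swirl v i m
        (fun ρ => (w v * f v / c) * (-2 * deriv (bp r) ρ)) (x + iv l) =
        c⁻¹ • ((w v * f v) • jgrad i m (pz (bu (n := n) r)) (x - v)) := by
      intro v
      rw [hJ, smul_smul]
      unfold pz
      rw [smul_finsum]
      refine finsum_congr fun l => ?_
      rw [bu_jgrad]
      unfold swirl
      have : x + iv l - v = x - v + iv l := by abel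
      rw [this, smul_smul]
      congr 1
      ring
    have e2 : ∑ k : Fin s.card, ∑ᶠ l : Fin n → ℤ, swirl (s.equivFin.symm k : Eu n) i m
        (fun ρ => (w (s.equivFin.symm k : Eu n) * f (s.equivFin.symm k : Eu n) / c) *
          (-2 * deriv (bp r) ρ)) (x + iv l) =
        c⁻¹ • ∑ v ∈ s, (w v * f v) • jgrad i m (pz (bu (n := n) r)) (x - v) := by
      rw [Finset.smul_sum, ← Finset.sum_coe_sort s, ← s.equivFin.symm.sum_comp]
      exact Finset.sum_congr rfl fun k _ => e1 _
    rw [e2]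
    have a1 := avg_est hr hr2 hgc hgp (ε := η / 2)
      (fun x y hxy => hδ2 x y (hxy.trans hrδ)) x
    rw [jparts f _ hf hfp hU hUp i m x] at a1
    have a2 := hs x
    have e3 : jgrad i m f x - c⁻¹ • ∑ v ∈ s, (w v * f v) • jgrad i m (pz (bu (n := n) r)) (x - v)
        = c⁻¹ • ((c • jgrad i m f x - ∫ y in cube n, f y • jgrad i m (pz (bu (n := n) r)) (x - y)) +
          ((∫ y in cube n, f y • jgrad i m (pz (bu (n := n) r)) (x - y)) -
            ∑ v ∈ s, (w v * f v) • jgrad i m (pz (bu (n := n) r)) (x - v))) := by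
      rw [sub_add_sub_cancel, smul_sub, smul_smul, inv_mul_cancel₀ hc.ne', one_smul]
    rw [e3, norm_smul, norm_inv, Real.norm_of_nonneg hc.le]
    have a3 := (norm_add_le (c • jgrad i m f x -
      ∫ y in cube n, f y • jgrad i m (pz (bu (n := n) r)) (x - y)) (
        (∫ y in cube n, f y • jgrad i m (pz (bu (n := n) r)) (x - y)) -
            ∑ v ∈ s, (w v * f v) • jgrad i m (pz (bu (n := n) r)) (x - v)))
    have a4 : c⁻¹ * (c * η) = η := by
      field_simp
    rw [← a4]
    refine mul_le_mul_of_nonneg_left (a3.trans ?_) (by positivity)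
    linarith

end

end Pool.Agent.H68.VD
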