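import Pool.Agent.H68.VD.St

/-! # Density of the sums of extended swirls -/

namespace Pool.Agent.H68.VD.DensCA

open MeasureTheory Set
open scoped ENNReal ContDiff

noncomputable section

variable {n : ℕ} {P : Subgroup (Eu n ≃ᵃ[ℝ] Eu n)}

/-- The pairs of different indices. -/
abbrev PI (n : ℕ) : Type := {q : Fin n × Fin n // q.1 ≠ q.2}

theorem iv_zero : iv (0 : Fin n → ℤ) = 0 := by
  ext i
  simp [iv]

theorem iv_add (k l : Fin n → ℤ) : iv (k + l) = iv k + iv l := by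
  ext i
  simp [iv]

theorem iv_neg (k : Fin n → ℤ) : iv (-k) = -iv k := by
  ext i
  simp [iv]

theorem iv_inj {k l : Fin n → ℤ} (h : iv k = iv l) : k = l := by
  funext i
  have h1 : (iv k) i = (iv l) i := by rw [h]
  have h2 : ((k i : ℤ) : ℝ) = (l i : ℝ) := h1
  exact_mod_cast h2

/-- The translation by `k` as an element of `P`. -/
def tr (hP : Deck P) (k : Fin n → ℤ) : P := ⟨AffineEquiv.constVAdd ℝ (Eu n) (iv k), hP.trans k⟩

theorem tr_apply (hP : Deck P) (k : Fin n → ℤ) (x : Eu n) :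
    ((tr hP k : P) : Eu n ≃ᵃ[ℝ] Eu n) x = x + iv k := by
  show (AffineEquiv.constVAdd ℝ (Eu n) (iv k)) x = _
  rw [AffineEquiv.constVAdd_apply, vadd_eq_add, add_comm]

theorem ext_P {g h : P} (H : ∀ x, (g : Eu n ≃ᵃ[ℝ] Eu n) x = (h : Eu n ≃ᵃ[ℝ] Eu n) x) : g = h :=
  Subtype.ext (AffineEquiv.ext H)

theorem mul_app (g h : P) (x : Eu n) : ((g * h : P) : Eu n ≃ᵃ[ℝ] Eu n) x =
    (g : Eu n ≃ᵃ[ℝ] Eu n) ((h : Eu n ≃ᵃ[ℝ] Eu n) x) := rfl

theorem mul_lin (g h : P) (x : Eu n) : ((g * h : P) : Eu n ≃ᵃ[ℝ] Eu n).linear x =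
    (g : Eu n ≃ᵃ[ℝ] Eu n).linear ((h : Eu n ≃ᵃ[ℝ] Eu n).linear x) := rfl

theorem inv_app (g : P) (x : Eu n) : ((g : P) : Eu n ≃ᵃ[ℝ] Eu n)
    (((g⁻¹ : P) : Eu n ≃ᵃ[ℝ] Eu n) x) = x := by
  rw [← mul_app, mul_inv_cancel]
  rfl

theorem inv_app' (g : P) (x : Eu n) : (((g⁻¹ : P) : Eu n ≃ᵃ[ℝ] Eu n))
    ((g : Eu n ≃ᵃ[ℝ] Eu n) x) = x := by
  rw [← mul_app, inv_mul_cancel]
  rfl

/-- The subgroup of the integer translations. -/
def TS (hP : Deck P) : Subgroup P where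
  carrier := Set.range (tr hP)
  one_mem' := ⟨0, ext_P fun x => by rw [tr_apply, iv_zero, add_zero]; rfl⟩
  mul_mem' := by
    rintro _ _ ⟨k, rfl⟩ ⟨l, rfl⟩
    exact ⟨k + l, ext_P fun x => by rw [mul_app, tr_apply, tr_apply, tr_apply, iv_add]; abel⟩
  inv_mem' := by
    rintro _ ⟨k, rfl⟩
    refine ⟨-k, ?_⟩
    rw [eq_comm, inv_eq_iff_mul_eq_one]
    exact ext_P fun x => by rw [mul_app, tr_apply, tr_apply, iv_neg]; simp

theorem tr_mem (hP : Deck P) (k : Fin n → ℤ) : tr hP k ∈ TS hP := ⟨k, rfl⟩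

theorem tr_inj (hP : Deck P) {k l : Fin n → ℤ} (h : tr hP k = tr hP l) : k = l := by
  have h1 := congrArg (fun g : P => (g : Eu n ≃ᵃ[ℝ] Eu n) 0) h
  simp only [tr_apply, zero_add] at h1
  exact iv_inj h1

theorem tr_inv_app (hP : Deck P) (k : Fin n → ℤ) (x : Eu n) :
    (((tr hP k)⁻¹ : P) : Eu n ≃ᵃ[ℝ] Eu n) x = x + iv (-k) := by
  have h1 : (tr hP k)⁻¹ = tr hP (-k) := by
    rw [inv_eq_iff_mul_eq_one]
    exact ext_P fun x => by rw [mul_app, tr_apply, tr_apply, iv_neg]; simp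
  rw [h1, tr_apply]

theorem tr_lin (hP : Deck P) (k : Fin n → ℤ) (x : Eu n) :
    ((tr hP k : P) : Eu n ≃ᵃ[ℝ] Eu n).linear x = x := rfl

theorem finite_quot (hP : Deck P) : Finite (P ⧸ TS hP) := by
  classical
  obtain ⟨R, hR⟩ := hP.fin
  let f : R → P ⧸ TS hP := fun r => if h : (r : Eu n ≃ᵃ[ℝ] Eu n) ∈ P then
    (QuotientGroup.mk ((⟨r, h⟩ : P)⁻¹)) else QuotientGroup.mk 1
  refine Finite.of_surjective f fun q => ?_
  obtain ⟨g, rfl⟩ := QuotientGroup.mk_surjective q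
  obtain ⟨r, hr, k, hk⟩ := hR _ (g⁻¹).2
  have h1 : r = ((tr hP (-k) * g⁻¹ : P) : Eu n ≃ᵃ[ℝ] Eu n) := by
    apply AffineEquiv.ext
    intro x
    rw [mul_app, tr_apply, hk, iv_neg]
    simp
  have h2 : r ∈ P := by rw [h1]; exact (tr hP (-k) * g⁻¹ : P).2
  refine ⟨⟨r, hr⟩, ?_⟩
  show (if h : r ∈ P then (QuotientGroup.mk ((⟨r, h⟩ : P)⁻¹)) else QuotientGroup.mk 1) = _
  rw [dif_pos h2, QuotientGroup.eq]
  have h3 : (⟨r, h2⟩ : P) = tr hP (-k) * g⁻¹ := Subtype.ext h1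
  rw [h3, inv_inv, mul_assoc, inv_mul_cancel, mul_one]
  exact tr_mem hP _

/-- The decomposition of `P`. -/
def dec (hP : Deck P) (x : (P ⧸ TS hP) × (Fin n → ℤ)) : P := x.1.out * tr hP x.2

theorem dec_bij (hP : Deck P) : Function.Bijective (dec hP) := by
  constructor
  · rintro ⟨q, k⟩ ⟨q', k'⟩ h
    have h0 : q.out * tr hP k = q'.out * tr hP k' := h
    have h1 : q = q' := by
      have h2 : (QuotientGroup.mk (q.out * tr hP k) : P ⧸ TS hP) = q := by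
        rw [QuotientGroup.mk_mul_of_mem _ (tr_mem hP k), QuotientGroup.out_eq']
      have h3 : (QuotientGroup.mk (q'.out * tr hP k') : P ⧸ TS hP) = q' := by
        rw [QuotientGroup.mk_mul_of_mem _ (tr_mem hP k'), QuotientGroup.out_eq']
      rw [← h2, ← h3, h0]
    subst h1
    have h4 := mul_left_cancel h0
    rw [tr_inj hP h4]
  · intro g
    set q : P ⧸ TS hP := QuotientGroup.mk g with hq
    have h1 : (QuotientGroup.mk q.out : P ⧸ TS hP) = QuotientGroup.mk g := by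
      rw [QuotientGroup.out_eq']
    rw [QuotientGroup.eq] at h1
    obtain ⟨k, hk⟩ := h1
    refine ⟨(q, k), ?_⟩
    show q.out * tr hP k = g
    rw [hk, mul_inv_cancel_left]

/-- At most one term is not zero. -/
theorem supp_fin {c : Eu n} {r : ℝ} (hS : Sep P c r) {u : Eu n → Eu n}
    (hu : ∀ x, r ≤ dist x c → u x = 0) (x : Eu n) :
    (Function.support fun g : P => (g : Eu n ≃ᵃ[ℝ] Eu n).linear
      (u (((g⁻¹ : P) : Eu n ≃ᵃ[ℝ] Eu n) x))).Finite := by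
  refine Set.Subsingleton.finite fun g hg g' hg' => ?_
  have key : ∀ g : P, (g : Eu n ≃ᵃ[ℝ] Eu n).linear (u (((g⁻¹ : P) : Eu n ≃ᵃ[ℝ] Eu n) x)) ≠ 0 →
      dist (((g⁻¹ : P) : Eu n ≃ᵃ[ℝ] Eu n) x) c < r := by
    intro g hg
    by_contra hcon
    rw [hu _ (not_lt.mp hcon), map_zero] at hg
    exact hg rfl
  by_contra hne
  have h1 := key g hg
  have h2 := key g' hg'
  have h3 : ((g'⁻¹ * g : P) : Eu n ≃ᵃ[ℝ] Eu n) ≠ 1 := by
    intro h
    apply hne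
    have h4 : g'⁻¹ * g = 1 := Subtype.ext h
    exact (inv_mul_eq_one.mp h4).symm
  refine hS.2 _ (g'⁻¹ * g : P).2 h3 _ h1 ?_
  rw [mul_app, inv_app]
  exact h2

/-- The extension is a sum over the cosets of periodizations. -/
theorem ext_eq (hP : Deck P) [Fintype (P ⧸ TS hP)] {c : Eu n} {r : ℝ} (hS : Sep P c r)
    {u : Eu n → Eu n} (hu : ∀ x, r ≤ dist x c → u x = 0) (x : Eu n) :
    ext P u x = ∑ q : P ⧸ TS hP, ((q.out : P) : Eu n ≃ᵃ[ℝ] Eu n).linear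
      (∑ᶠ l : Fin n → ℤ, u ((((q.out : P)⁻¹ : P) : Eu n ≃ᵃ[ℝ] Eu n) x + iv l)) := by
  have hfin := supp_fin hS hu x
  rw [ext, ← finsum_comp (dec hP) (dec_bij hP), finsum_curry, finsum_eq_sum_of_fintype]
  · refine Finset.sum_congr rfl fun q _ => ?_
    have hinj : Function.Injective ((q.out : P) : Eu n ≃ᵃ[ℝ] Eu n).linear :=
      ((q.out : P) : Eu n ≃ᵃ[ℝ] Eu n).linear.injective
    have h1 := (((q.out : P) : Eu n ≃ᵃ[ℝ] Eu n).linear.toLinearMap.toAddMonoidHom).map_finsum_of_injective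
      hinj (fun l : Fin n → ℤ => u ((((q.out : P)⁻¹ : P) : Eu n ≃ᵃ[ℝ] Eu n) x + iv l))
    have h2 : ((q.out : P) : Eu n ≃ᵃ[ℝ] Eu n).linear
        (∑ᶠ l : Fin n → ℤ, u ((((q.out : P)⁻¹ : P) : Eu n ≃ᵃ[ℝ] Eu n) x + iv l)) =
        ∑ᶠ l : Fin n → ℤ, ((q.out : P) : Eu n ≃ᵃ[ℝ] Eu n).linear
          (u ((((q.out : P)⁻¹ : P) : Eu n ≃ᵃ[ℝ] Eu n) x + iv l)) := h1
    rw [h2]
    symm
    rw [← finsum_comp (fun k : Fin n → ℤ => -k) neg_involutive.bijective]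
    refine finsum_congr fun k => ?_
    show _ = ((q.out * tr hP k : P) : Eu n ≃ᵃ[ℝ] Eu n).linear
      (u ((((q.out * tr hP k : P)⁻¹ : P) : Eu n ≃ᵃ[ℝ] Eu n) x))
    rw [mul_lin, tr_lin, mul_inv_rev, mul_app, tr_inv_app]
  · exact hfin.preimage (dec_bij hP).1.injOn

/-- A field which commutes with `P` is an average. -/
theorem avg (hP : Deck P) [Fintype (P ⧸ TS hP)] {v : Eu n → Eu n}
    (hv : ∀ g ∈ P, ∀ x, v (g x) = g.linear (v x)) (x : Eu n) :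
    (Fintype.card (P ⧸ TS hP) : ℝ) • v x = ∑ q : P ⧸ TS hP,
      ((q.out : P) : Eu n ≃ᵃ[ℝ] Eu n).linear
        (v ((((q.out : P)⁻¹ : P) : Eu n ≃ᵃ[ℝ] Eu n) x)) := by
  have h1 : ∀ q : P ⧸ TS hP, ((q.out : P) : Eu n ≃ᵃ[ℝ] Eu n).linear
      (v ((((q.out : P)⁻¹ : P) : Eu n ≃ᵃ[ℝ] Eu n) x)) = v x := by
    intro q
    rw [← hv _ (q.out : P).2, inv_app]
  rw [Finset.sum_congr rfl fun q _ => h1 q, Finset.sum_const, Finset.card_univ, ← Nat.cast_smul_eq_nsmul ℝ]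

/-- The linear parts of the representatives are bounded. -/
theorem exists_bd (hP : Deck P) [Fintype (P ⧸ TS hP)] : ∃ C : ℝ, 0 ≤ C ∧
    ∀ (y : P ⧸ TS hP → Eu n) (b : ℝ), 0 ≤ b → (∀ q, ‖y q‖ ≤ b) →
      ‖∑ q : P ⧸ TS hP, ((q.out : P) : Eu n ≃ᵃ[ℝ] Eu n).linear (y q)‖ ≤ C * b := by
  refine ⟨∑ q : P ⧸ TS hP, ‖LinearMap.toContinuousLinearMap
    ((q.out : P) : Eu n ≃ᵃ[ℝ] Eu n).linear.toLinearMap‖, Finset.sum_nonneg fun q _ => norm_nonneg _,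
    fun y b hb hy => ?_⟩
  refine (norm_sum_le _ _).trans ?_
  rw [Finset.sum_mul]
  refine Finset.sum_le_sum fun q _ => ?_
  have h1 := (LinearMap.toContinuousLinearMap
    ((q.out : P) : Eu n ≃ᵃ[ℝ] Eu n).linear.toLinearMap).le_opNorm (y q)
  exact h1.trans (mul_le_mul_of_nonneg_left (hy q) (norm_nonneg _))

theorem swirl_out {c : Eu n} {i j : Fin n} {β : ℝ → ℝ} {s r : ℝ} (hs : 0 ≤ s) (hsr : s ≤ r)
    (hβ : ∀ ρ, s ^ 2 ≤ ρ → β ρ = 0) (x : Eu n) (hx : r ≤ dist x c) : swirl c i j β x = 0 := by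
  rw [swirl, hβ, zero_smul]
  rw [← dist_eq_norm]
  exact pow_le_pow_left₀ hs (hsr.trans hx) 2

theorem swirl_smul (c : Eu n) (i j : Fin n) (β : ℝ → ℝ) (s : ℝ) :
    swirl c i j (fun ρ => s * β ρ) = fun x => s • swirl c i j β x := by
  funext x
  rw [swirl, swirl, mul_smul]

theorem ext_smul (P : Subgroup (Eu n ≃ᵃ[ℝ] Eu n)) (u : Eu n → Eu n) (s : ℝ) (x : Eu n) :
    ext P (fun x => s • u x) x = s • ext P u x := by
  rw [ext, ext, smul_finsum]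
  exact finsum_congr fun g => map_smul _ _ _

end

end Pool.Agent.H68.VD.DensCA

namespace Pool.Agent.H68.VD

open MeasureTheory Set DensCA
open scoped ENNReal ContDiff

/-- **Density of the sums of extended swirls.** -/
theorem dens (S : Stream) (B : DensB) (_X : ExtKit) (_Y : ExtNorm) : Dens := by
  classical
  intro n P hP v hv hvP hdiv hmean r0 η hr0 hη hSep
  have hfq := finite_quot hP
  let _ : Fintype (P ⧸ TS hP) := Fintype.ofFinite _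
  have hper : Per v := by
    intro x k
    have h1 := hvP _ (tr hP k).2 x
    rw [tr_apply, tr_lin] at h1
    exact h1
  obtain ⟨f, hf1, hf2, hf3⟩ := S n v hv hper hdiv hmean
  obtain ⟨C, hC0, hC⟩ := exists_bd hP
  obtain ⟨N, hN⟩ : ∃ N : ℝ, N = (Fintype.card (P ⧸ TS hP) : ℝ) := ⟨_, rfl⟩
  have hN1 : 1 ≤ N := by
    have : 0 < Fintype.card (P ⧸ TS hP) := Fintype.card_pos
    rw [hN]
    exact_mod_cast this
  have hN0 : 0 < N := lt_of_lt_of_le one_pos hN1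
  obtain ⟨mI, hmI⟩ : ∃ m : ℝ, m = (Fintype.card (PI n) : ℝ) := ⟨_, rfl⟩
  have hmI0 : 0 ≤ mI := by rw [hmI]; positivity
  set η₁ : ℝ := η / (C * mI + 1) with hη₁
  have hden : 0 < C * mI + 1 := by positivity
  have hη₁0 : 0 < η₁ := div_pos hη hden
  choose K c β hβ1 hβ2 hβ3 using fun q : PI n => B n q.1.1 q.1.2 q.2 (f q.1.1 q.1.2) (hf1 _ _) (hf2 _ _)
    (r0 / 2) η₁ (by positivity) hη₁0
  -- the field is a sum over the pairs
  have hsum : ∀ x, v x = ∑ q : PI n, jgrad q.1.1 q.1.2 (f q.1.1 q.1.2) x := by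
    intro x
    rw [hf3 x, ← Fintype.sum_prod_type' (f := fun i m => jgrad i m (f i m) x)]
    have h1 : ∀ q : Fin n × Fin n, ¬ q.1 ≠ q.2 → jgrad q.1 q.2 (f q.1 q.2) x = 0 := by
      intro q hq
      rw [not_not] at hq
      rw [jgrad, hq, sub_self]
    have h2 := Finset.sum_subtype (F := inferInstanceAs (Fintype (PI n))) (Finset.univ.filter fun q : Fin n × Fin n => q.1 ≠ q.2)
      (p := fun q => q.1 ≠ q.2) (fun q => by simp) (fun q => jgrad q.1 q.2 (f q.1 q.2) x)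
    rw [Finset.sum_filter] at h2
    refine Eq.trans ?_ h2
    refine Finset.sum_congr rfl fun q _ => ?_
    by_cases hq : q.1 ≠ q.2
    · rw [if_pos hq]
    · rw [if_neg hq, h1 q hq]
  -- the periodized swirls
  set U : (Σ q : PI n, Fin (K q)) → Eu n → Eu n := fun s => swirl (c s.1 s.2) s.1.1.1 s.1.1.2 (β s.1 s.2)
    with hU
  have hUout : ∀ s x, r0 ≤ dist x (c s.1 s.2) → U s x = 0 := fun s x hx =>
    swirl_out (s := r0 / 2) (by positivity) (by linarith) (hβ2 s.1 s.2) x hx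
  have happ : ∀ x, ‖v x - ∑ s : (Σ q : PI n, Fin (K q)), ∑ᶠ l : Fin n → ℤ, U s (x + iv l)‖ ≤ mI * η₁ := by
    intro x
    rw [hsum x, Fintype.sum_sigma, ← Finset.sum_sub_distrib]
    refine (norm_sum_le _ _).trans ?_
    refine (Finset.sum_le_sum fun q _ => hβ3 q x).trans ?_
    rw [Finset.sum_const, Finset.card_univ, nsmul_eq_mul, hmI]
  have hfinal : ∀ x, ‖v x - ∑ s : (Σ q : PI n, Fin (K q)), ext P (swirl (c s.1 s.2) s.1.1.1 s.1.1.2
      (fun ρ => N⁻¹ * β s.1 s.2 ρ)) x‖ ≤ η := by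
    intro x
    have h1 : ∀ s : (Σ q : PI n, Fin (K q)), ext P (swirl (c s.1 s.2) s.1.1.1 s.1.1.2 (fun ρ => N⁻¹ * β s.1 s.2 ρ)) x =
        N⁻¹ • ext P (U s) x := fun s => by
      rw [swirl_smul, ext_smul]
    have h2 : v x = N⁻¹ • ((Fintype.card (P ⧸ TS hP) : ℝ) • v x) := by
      rw [← hN, inv_smul_smul₀ hN0.ne']
    have h3 : ∑ s, ext P (U s) x = ∑ q : P ⧸ TS hP, ((q.out : P) : Eu n ≃ᵃ[ℝ] Eu n).linear
        (∑ s : (Σ q : PI n, Fin (K q)), ∑ᶠ l : Fin n → ℤ, U s ((((q.out : P)⁻¹ : P) : Eu n ≃ᵃ[ℝ] Eu n) x + iv l)) := by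
      simp_rw [map_sum]
      rw [Finset.sum_comm]
      exact Finset.sum_congr rfl fun s _ => ext_eq hP (hSep (c s.1 s.2)) (hUout s) x
    rw [Finset.sum_congr rfl fun s _ => h1 s, ← Finset.smul_sum, h2, ← smul_sub, avg hP hvP, h3,
      ← Finset.sum_sub_distrib]
    simp_rw [← map_sub]
    rw [norm_smul, Real.norm_eq_abs, abs_of_pos (inv_pos.mpr hN0)]
    have h4 := hC (fun q => v ((((q.out : P)⁻¹ : P) : Eu n ≃ᵃ[ℝ] Eu n) x) -
      ∑ s : (Σ q : PI n, Fin (K q)), ∑ᶠ l : Fin n → ℤ, U s ((((q.out : P)⁻¹ : P) : Eu n ≃ᵃ[ℝ] Eu n) x + iv l)) (mI * η₁)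
      (by positivity) (fun q => happ _)
    have h5 : C * (mI * η₁) ≤ η := by
      rw [hη₁]
      have h6 : C * (mI * (η / (C * mI + 1))) = η * (C * mI / (C * mI + 1)) := by ring
      rw [h6]
      refine mul_le_of_le_one_right hη.le ?_
      rw [div_le_one hden]
      linarith
    have h7 : N⁻¹ ≤ 1 := inv_le_one_of_one_le₀ hN1
    calc N⁻¹ * _ ≤ 1 * (C * (mI * η₁)) :=
          mul_le_mul h7 h4 (norm_nonneg _) zero_le_one
      _ ≤ η := by rw [one_mul]; exact h5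
  -- reindexing
  let e := (Fintype.equivFin (Σ q : PI n, Fin (K q))).symm
  refine ⟨_, fun k => c (e k).1 (e k).2, fun k => (e k).1.1.1, fun k => (e k).1.1.2,
    fun k ρ => N⁻¹ * β (e k).1 (e k).2 ρ, fun k => (e k).1.2, fun k => ?_, fun k ρ hρ => ?_,
    fun x => ?_⟩
  · exact contDiff_const.mul (hβ1 _ _)
  · show N⁻¹ * β (e k).1 (e k).2 ρ = 0
    rw [hβ2 _ _ ρ hρ, mul_zero]
  · rw [e.sum_comp (fun s => ext P (swirl (c s.1 s.2) s.1.1.1 s.1.1.2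
      (fun ρ => N⁻¹ * β s.1 s.2 ρ)) x)]
    exact hfinal x

end Pool.Agent.H68.VD
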