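import Pool.Agent.H68.VD.St2

/-! # The diameter for weak norms -/

namespace Pool.Agent.H68.VD.DiamWA

open MeasureTheory Set
open scoped ENNReal ContDiff

noncomputable section

variable {n : ℕ}

/-- The closed unit cube. -/
def ccube (n : ℕ) : Set (Eu n) := {x | ∀ i, x i ∈ Set.Icc (0 : ℝ) 1}

theorem compact_ccube : IsCompact (ccube n) := by
  have h1 : IsCompact (Set.pi Set.univ (fun _ : Fin n => Set.Icc (0 : ℝ) 1)) :=
    isCompact_univ_pi (fun _ => isCompact_Icc)
  have h2 : ccube n = (EuclideanSpace.equiv (Fin n) ℝ).symm ''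
      (Set.pi Set.univ (fun _ : Fin n => Set.Icc (0 : ℝ) 1)) := by
    ext x
    constructor
    · intro hx
      exact ⟨EuclideanSpace.equiv (Fin n) ℝ x, fun i _ => hx i, by simp⟩
    · rintro ⟨y, hy, rfl⟩ i
      exact hy i (Set.mem_univ i)
  rw [h2]
  exact h1.image (EuclideanSpace.equiv (Fin n) ℝ).symm.continuous

theorem cube_sub : cube n ⊆ ccube n := fun _ hx i => ⟨(hx i).1, (hx i).2.le⟩

theorem intOn {u : Eu n → Eu n} (hu : Continuous u) : IntegrableOn u (cube n) :=
  (hu.continuousOn.integrableOn_compact compact_ccube).mono_set cube_sub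

theorem volume_cube : volume (cube n) = 1 := by
  have h1 : cube n = (WithLp.ofLp : Eu n → (Fin n → ℝ)) ⁻¹'
      (Set.pi Set.univ (fun _ : Fin n => Set.Ico (0 : ℝ) 1)) := by
    ext x
    simp only [cube, Set.mem_ofPred_eq, Set.mem_preimage, Set.mem_univ_pi]
  rw [h1, (PiLp.volume_preserving_ofLp (Fin n)).measure_preimage
    (MeasurableSet.univ_pi (fun _ => measurableSet_Ico)).nullMeasurableSet]
  rw [Real.volume_pi_Ico]
  simp

theorem intCube_const (m : Eu n) : ∫ _x in cube n, m = m := by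
  simp [Measure.real, volume_cube]

theorem cont_of_inG {P : Subgroup (Eu n ≃ᵃ[ℝ] Eu n)} {f : Eu n → Eu n} (hf : InG P f) :
    Continuous f := by
  obtain ⟨φ, hφ, _, rfl⟩ := hf
  have h := hφ.smooth.continuous
  exact h.comp (Continuous.prodMk_right (1 : ℝ))

theorem mean_sub {P : Subgroup (Eu n ≃ᵃ[ℝ] Eu n)} {f g : Eu n → Eu n} (hf : InG P f)
    (hg : InG P g) : ∫ x in cube n, (g x - f x) =
      (∫ x in cube n, (g x - x)) - ∫ x in cube n, (f x - x) := by
  have h := integral_sub (μ := volume.restrict (cube n)) (f := fun x => g x - x)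
    (g := fun x => f x - x) (intOn ((cont_of_inG hg).sub continuous_id))
    (intOn ((cont_of_inG hf).sub continuous_id))
  rw [← h]
  congr 1
  ext1 x
  abel_nf

theorem mean_inv (K : FluxKit) {P : Subgroup (Eu n ≃ᵃ[ℝ] Eu n)} (hP : Deck P) {f g : Eu n → Eu n}
    (hf : InG P f) (hg : InG P g) : ∀ γ ∈ P, γ.linear (∫ x in cube n, (g x - f x)) =
      ∫ x in cube n, (g x - f x) := by
  intro γ hγ
  rw [mean_sub hf hg, map_sub, K.invt n P hP f hf γ hγ, K.invt n P hP g hg γ hγ]

theorem ctr_zero (P : Subgroup (Eu n ≃ᵃ[ℝ] Eu n)) : Ctr P (0 : Eu n) := by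
  refine ⟨?_, fun g _ => map_zero _⟩
  have : AffineEquiv.constVAdd ℝ (Eu n) (0 : Eu n) = 1 := by
    ext x
    simp
  rw [this]
  exact P.one_mem

theorem ctr_large {P : Subgroup (Eu n ≃ᵃ[ℝ] Eu n)} {r : ℝ} (hr : Sep P 0 r) {w : Eu n}
    (hw : Ctr P w) (h0 : w ≠ 0) : r ≤ ‖w‖ := by
  by_contra hlt
  push Not at hlt
  refine hr.2 _ hw.1 ?_ 0 (by simpa using hr.1) ?_
  · intro h
    apply h0
    have := congrArg (fun e : Eu n ≃ᵃ[ℝ] Eu n => e 0) h
    simpa using this
  · simpa using hlt

theorem fderiv_tr (v : Eu n) (x : Eu n) : (fderiv ℝ (fun y : Eu n => y + v) x).det = 1 := by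
  rw [fderiv_add_const, fderiv_fun_id]
  exact LinearMap.det_id

/-- The translations by invariant vectors. -/
theorem tr_path {P : Subgroup (Eu n ≃ᵃ[ℝ] Eu n)} {m : Eu n} (hm : ∀ g ∈ P, g.linear m = m) :
    IsPath P (fun (t : ℝ) (x : Eu n) => x + t • m) where
  smooth := by fun_prop
  bij := fun t => (Equiv.addRight (t • m)).bijective
  det := fun t x => fderiv_tr _ _
  equi := by
    intro t g hg x
    have h1 : g (x + t • m) = g x + g.linear (t • m) := by
      have := g.map_vadd x (t • m)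
      simp only [vadd_eq_add] at this
      rw [add_comm x, this, add_comm]
    rw [h1, map_smul, hm g hg]

theorem inG_tr {P : Subgroup (Eu n ≃ᵃ[ℝ] Eu n)} {m : Eu n} (hm : ∀ g ∈ P, g.linear m = m) :
    InG P (fun x : Eu n => x + m) :=
  ⟨_, tr_path hm, by ext1 x; simp, by ext1 x; simp⟩

theorem inG_id (F : FamKit) (P : Subgroup (Eu n ≃ᵃ[ℝ] Eu n)) : InG P (id : Eu n → Eu n) :=
  ⟨fun _ x => x, F.id n P ℝ, rfl, rfl⟩

end

end Pool.Agent.H68.VD.DiamWA

namespace Pool.Agent.H68.VD

open MeasureTheory Set DiamWA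
open scoped ENNReal ContDiff

/-- The diameter for weak norms. -/
theorem diamWeak (F : FamKit) (E : Exact) (L : LatFix) (U : SepU) (K : FluxKit) : DiamWeak := by
  intro n hn P hP N p hN hlow hup
  have hE := E n hn P hP N p hN hlow hup
  refine ⟨?_, ?_, ?_⟩
  · obtain ⟨C, hC⟩ := L n P hP
    refine lt_of_le_of_lt ?_ (ENNReal.ofReal_lt_top (r := C))
    refine iSup₂_le fun f hf => iSup₂_le fun g hg => ?_
    rw [hE f g hf hg]
    obtain ⟨w, hw, hwC⟩ := hC _ (mean_inv K hP hf hg)
    exact (iInf₂_le w hw).trans (ENNReal.ofReal_le_ofReal hwC)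
  · intro hd m hm
    by_contra hm0
    obtain ⟨r, hr, hS⟩ := U n P hP
    have hmn : 0 < ‖m‖ := norm_pos_iff.mpr hm0
    set m' : Eu n := (r / 2 / ‖m‖) • m with hm'
    have hinv : ∀ g ∈ P, g.linear m' = m' := by
      intro g hg
      rw [hm', map_smul, hm g hg]
    have hnorm : ‖m'‖ = r / 2 := by
      rw [hm', norm_smul, Real.norm_of_nonneg (by positivity)]
      field_simp
    have h1 : ENNReal.ofReal (r / 2) ≤ gdist N P id (fun x : Eu n => x + m') := by
      rw [hE _ _ (inG_id F P) (inG_tr hinv)]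
      have h2 : ∫ x in cube n, ((fun x : Eu n => x + m') x - id x) = m' := by
        have : (fun x : Eu n => (fun x : Eu n => x + m') x - id x) = fun _ => m' := by
          ext1 x
          simp
        rw [this]
        exact intCube_const m'
      rw [h2]
      refine le_iInf₂ fun w hw => ENNReal.ofReal_le_ofReal ?_
      by_cases hw0 : w = 0
      · rw [hw0, add_zero, hnorm]
      · have h3 := ctr_large (hS 0) hw hw0
        have h4 : ‖w‖ ≤ ‖m' + w‖ + ‖m'‖ := by
          have := norm_sub_le (m' + w) m'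
          simpa using this
        rw [hnorm] at h4
        linarith
    have h2 : gdist N P id (fun x : Eu n => x + m') ≤ diam N P :=
      le_iSup₂_of_le id (inG_id F P) (le_iSup₂_of_le _ (inG_tr hinv) le_rfl)
    rw [hd] at h2
    have h3 := h1.trans h2
    rw [nonpos_iff_eq_zero, ENNReal.ofReal_eq_zero] at h3
    linarith
  · intro h0
    rw [← nonpos_iff_eq_zero]
    refine iSup₂_le fun f hf => iSup₂_le fun g hg => ?_
    rw [hE f g hf hg]
    refine (iInf₂_le 0 (ctr_zero P)).trans ?_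
    rw [h0 _ (mean_inv K hP hf hg)]
    simp

end Pool.Agent.H68.VD
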