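import Pool.Agent.H68.VD.St2

/-! # The length is at least the displacement -/

set_option autoImplicit false

namespace Pool.Agent.H68.VD.DispLowA

open MeasureTheory Set
open scoped ENNReal ContDiff

noncomputable section

variable {n : ℕ}

theorem cube_sub : cube n ⊆ Metric.closedBall (0 : Eu n) (Real.sqrt n) := by
  intro x hx
  rw [mem_closedBall_zero_iff, EuclideanSpace.norm_eq]
  apply Real.sqrt_le_sqrt
  calc ∑ i, ‖x i‖ ^ 2 ≤ ∑ _i : Fin n, (1 : ℝ) := by
        apply Finset.sum_le_sum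
        intro i _
        have h1 := (hx i).1
        have h2 := (hx i).2
        rw [Real.norm_eq_abs, sq_abs]
        nlinarith
    _ = n := by simp

theorem integrableOn_cube {F : Type*} [NormedAddCommGroup F] {u : Eu n → F} (hu : Continuous u) :
    IntegrableOn u (cube n) :=
  (hu.continuousOn.integrableOn_compact (isCompact_closedBall (0 : Eu n) (Real.sqrt n))).mono_set
    cube_sub

theorem lint_eq {u : Eu n → Eu n} (hu : Continuous u) :
    ∫⁻ x in cube n, ‖u x‖ₑ = ENNReal.ofReal (∫ x in cube n, ‖u x‖) := by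
  rw [ofReal_integral_norm_eq_lintegral_enorm (integrableOn_cube hu)]

theorem cov_norm (K : FluxKit) (hn : 0 < n) (f : Eu n → Eu n) (hf : ContDiff ℝ ∞ f)
    (hb : Function.Bijective f) (hd : ∀ x, (fderiv ℝ f x).det = 1)
    (hk : ∀ x (k : Fin n → ℤ), f (x + iv k) = f x + iv k) (u : Eu n → Eu n) (hu : Continuous u)
    (hp : Per u) : ∫⁻ x in cube n, ‖u (f x)‖ₑ = ∫⁻ x in cube n, ‖u x‖ₑ := by
  have hne : ev (⟨0, hn⟩ : Fin n) ≠ 0 := by
    intro h
    have := congrArg (fun v : Eu n => v ⟨0, hn⟩) h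
    simp [ev] at this
  have h1 := K.cov n f hf hb hd hk (fun x => ‖u x‖ • ev ⟨0, hn⟩)
    (hu.norm.smul continuous_const) (fun x k => by
      change ‖u (x + iv k)‖ • ev (⟨0, hn⟩ : Fin n) = ‖u x‖ • ev (⟨0, hn⟩ : Fin n)
      rw [hp x k])
  change ∫ x in cube n, ‖u (f x)‖ • ev (⟨0, hn⟩ : Fin n) =
    ∫ x in cube n, ‖u x‖ • ev (⟨0, hn⟩ : Fin n) at h1
  rw [integral_smul_const, integral_smul_const] at h1
  have h2 : ∫ x in cube n, ‖u (f x)‖ = ∫ x in cube n, ‖u x‖ := smul_left_injective ℝ hne h1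
  rw [lint_eq hu, ← h2]
  exact lint_eq (u := fun x => u (f x)) (hu.comp hf.continuous)

theorem disp (F : FamKit) (K : FluxKit) (P : Subgroup (Eu n ≃ᵃ[ℝ] Eu n)) (hP : Deck P)
    (φ : ℝ → Eu n → Eu n) (hφ : IsPath P φ) : ∫⁻ x in cube n, ‖φ 1 x - φ 0 x‖ₑ ≤
    ∫⁻ t in Set.Icc (0 : ℝ) 1, ∫⁻ x in cube n, ‖vel φ t x‖ₑ := by
  have hvel : Continuous (fun q : ℝ × Eu n => vel φ q.1 q.2) := (F.velSmooth n P φ hφ).continuous
  have hφc : Continuous (fun q : ℝ × Eu n => φ q.1 q.2) := hφ.smooth.continuous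
  have hvt : ∀ t, Continuous (vel φ t) := fun t => hvel.comp (Continuous.prodMk_right t)
  have hφt : ∀ t, ContDiff ℝ ∞ (φ t) := fun t =>
    hφ.smooth.comp (contDiff_prodMk_right t)
  -- the displacement of a point
  have hcont : Continuous (fun q : Eu n × ℝ => vel φ q.2 (φ q.2 q.1)) :=
    hvel.comp (continuous_snd.prodMk (hφc.comp (continuous_snd.prodMk continuous_fst)))
  have h1 : ∀ x, ‖φ 1 x - φ 0 x‖ₑ ≤ ∫⁻ t in Set.Icc (0 : ℝ) 1, ‖vel φ t (φ t x)‖ₑ := by
    intro x
    have hc : Continuous (fun t => vel φ t (φ t x)) := hcont.comp (Continuous.prodMk_right x)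
    have h2 : ∫ t in (0 : ℝ)..1, vel φ t (φ t x) = φ 1 x - φ 0 x :=
      intervalIntegral.integral_eq_sub_of_hasDerivAt (fun t _ => F.velEq n P φ hφ t x)
        (hc.intervalIntegrable _ _)
    rw [← h2, intervalIntegral.integral_of_le zero_le_one, ← integral_Icc_eq_integral_Ioc]
    exact enorm_integral_le_lintegral_enorm _
  calc ∫⁻ x in cube n, ‖φ 1 x - φ 0 x‖ₑ
      ≤ ∫⁻ x in cube n, ∫⁻ t in Set.Icc (0 : ℝ) 1, ‖vel φ t (φ t x)‖ₑ := lintegral_mono h1
    _ = ∫⁻ t in Set.Icc (0 : ℝ) 1, ∫⁻ x in cube n, ‖vel φ t (φ t x)‖ₑ := by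
        apply lintegral_lintegral_swap
        exact hcont.enorm.measurable.aemeasurable
    _ = ∫⁻ t in Set.Icc (0 : ℝ) 1, ∫⁻ x in cube n, ‖vel φ t x‖ₑ := by
        apply lintegral_congr
        intro t
        rcases Nat.eq_zero_or_pos n with rfl | hn
        · have h0 : ∀ v : Eu 0, v = 0 := fun v => Subsingleton.elim _ _
          simp only [h0]
        · apply cov_norm K hn (φ t) (hφt t) (hφ.bij t) (hφ.det t) _ (vel φ t) (hvt t)
          · intro x k
            have h2 := F.velEqui n P φ hφ _ (hP.trans k) t x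
            rw [AffineEquiv.constVAdd_apply, vadd_eq_add, add_comm] at h2
            rw [h2]
            simp
          · intro x k
            have h2 := hφ.equi t _ (hP.trans k) x
            rw [AffineEquiv.constVAdd_apply, AffineEquiv.constVAdd_apply, vadd_eq_add,
              vadd_eq_add, add_comm, add_comm (iv k) (φ t x)] at h2
            exact h2

end

end Pool.Agent.H68.VD.DispLowA

namespace Pool.Agent.H68.VD

theorem dispLow (F : FamKit) (K : FluxKit) : DispLow :=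
  fun _ P hP φ hφ => DispLowA.disp F K P hP φ hφ

end Pool.Agent.H68.VD
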