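import Pool.Agent.H68.VD.St

/-! # Exact paths have cost zero -/

namespace Pool.Agent.H68.VD

open MeasureTheory Set Filter Topology
open scoped ENNReal ContDiff

noncomputable section

namespace MainA

variable {n : ℕ}

theorem Cost.mono {N : (Eu n → Eu n) → ℝ≥0∞} {P : Subgroup (Eu n ≃ᵃ[ℝ] Eu n)} {f : Eu n → Eu n}
    {a b : ℝ} (h : Cost N P f a) (hab : a ≤ b) : Cost N P f b := by
  obtain ⟨φ, l, h1, h2, h3, h4, h5, h6, h7⟩ := h
  exact ⟨φ, l, h1, h2, h3, h4, h5, h6, h7.trans hab⟩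

theorem cost_id (F : FamKit) (K : CostKit) {N : (Eu n → Eu n) → ℝ≥0∞} {p : ℝ} (hN : WeakNorm N p)
    (P : Subgroup (Eu n ≃ᵃ[ℝ] Eu n)) : Cost N P id 0 := by
  have h := K.path n P N p hN (fun _ x => x) (F.id n P ℝ) rfl 1 0 zero_le_one le_rfl (by
    intro t _
    have h1 : (vel (fun (_ : ℝ) (x : Eu n) => x) t) = fun x => (0 : ℝ) • (0 : Eu n) := by
      funext x
      simp [vel]
    rw [h1, hN.smul 0 (fun _ => 0)]
    simp)
  have h2 : (fun x : Eu n => x) = id := rfl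
  rw [h2] at h
  simpa using h

/-- The approximating path. -/
theorem exists_pi (F : FamKit) (CK : CostKit) (TF : TwistFam) (TV : TwistVel) (R : RotKit)
    (X : ExtKit) (SC : SwirlCost) (hn : 3 ≤ n) (P : Subgroup (Eu n ≃ᵃ[ℝ] Eu n)) (hP : Deck P)
    {N : (Eu n → Eu n) → ℝ≥0∞} {p : ℝ} (hN : WeakNorm N p) (r0 : ℝ) (hr0 : 0 < r0)
    (hS : ∀ c : Eu n, Sep P c r0) :
    ∀ (K : ℕ) (c : Fin K → Eu n) (i j : Fin K → Fin n) (β : Fin K → ℝ → ℝ), (∀ k, i k ≠ j k) →
    (∀ k, ContDiff ℝ ∞ (β k)) → (∀ k ρ, (r0 / 2) ^ 2 ≤ ρ → β k ρ = 0) →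
    ∃ Pi' : ℝ → Eu n → Eu n, IsPath P Pi' ∧ Pi' 0 = id ∧
      (∀ z, vel Pi' 0 z = ∑ k, ext P (swirl (c k) (i k) (j k) (β k)) z) ∧
      ∀ θ ε, 0 < ε → Cost N P (Pi' θ) ε := by
  intro K
  induction K with
  | zero =>
    intro c i j β _ _ _
    refine ⟨fun _ x => x, F.id n P ℝ, rfl, ?_, ?_⟩
    · intro z
      simp [vel]
    · intro θ ε hε
      exact Cost.mono (cost_id F CK hN P) hε.le
  | succ K ih =>
    intro c i j β hij hβ hβ0
    obtain ⟨Pi', hPi', hPi'0, hPi'v, hPi'c⟩ := ih (fun k => c k.castSucc) (fun k => i k.castSucc)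
      (fun k => j k.castSucc) (fun k => β k.castSucc) (fun k => hij _) (fun k => hβ _)
      (fun k => hβ0 _)
    set c' := c (Fin.last K)
    set i' := i (Fin.last K)
    set j' := j (Fin.last K)
    set β' := β (Fin.last K)
    have hij' : i' ≠ j' := hij _
    have hβ' : ContDiff ℝ ∞ β' := hβ _
    have hβ0' : ∀ ρ, (r0 / 2) ^ 2 ≤ ρ → β' ρ = 0 := hβ0 _
    have hrot0 : rotR i' j' (0 : ℝ) = ContinuousLinearMap.id ℝ (Eu n) := by
      have := R.per n i' j' 0
      simpa using this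
    have hA1 : ContDiff ℝ ∞ (fun q : ℝ × ℝ => rotR i' j' (q.1 * β' q.2)) :=
      (R.smooth n i' j').comp (contDiff_fst.mul (hβ'.comp contDiff_snd))
    have hA2 : ∀ (e ρ : ℝ) (x : Eu n), ‖rotR i' j' (e * β' ρ) x‖ = ‖x‖ := fun e ρ x =>
      R.iso n i' j' hij' _ x
    have hA3 : ∀ (e ρ : ℝ), (rotR i' j' (e * β' ρ)).det = 1 := fun e ρ => R.det n i' j' hij' _
    have hA4 : ∀ (e ρ : ℝ), (r0 / 2) ^ 2 ≤ ρ →
        rotR i' j' (e * β' ρ) = ContinuousLinearMap.id ℝ (Eu n) := by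
      intro e ρ hρ
      rw [hβ0' ρ hρ, mul_zero, hrot0]
    have hB : BallFam c' (r0 / 2) (fun e : ℝ => twist c' (fun ρ => rotR i' j' (e * β' ρ))) :=
      TF n ℝ c' (r0 / 2) (fun e ρ => rotR i' j' (e * β' ρ)) (by positivity) hA1 hA2 hA3 hA4
    have hT : IsPath P (fun e : ℝ => extMap P (twist c' (fun ρ => rotR i' j' (e * β' ρ)))) :=
      X.fam n P hP c' r0 (r0 / 2) (hS c') (by positivity) (by linarith) ℝ _ hB
    have htw0 : twist c' (fun ρ => rotR i' j' ((0 : ℝ) * β' ρ)) = id := by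
      funext x
      simp [twist, hrot0]
    have hT0 : extMap P (twist c' (fun ρ => rotR i' j' ((0 : ℝ) * β' ρ))) = id := by
      funext x
      rw [htw0]
      have : ext P (fun y : Eu n => id y - y) x = 0 := by
        apply X.outside
        intro g _
        simp
      show x + ext P (fun y : Eu n => id y - y) x = x
      rw [this, add_zero]
    have hvT : ∀ z, vel (fun e : ℝ => extMap P (twist c' (fun ρ => rotR i' j' (e * β' ρ)))) 0 z =
        ext P (swirl c' i' j' β') z := by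
      intro z
      rw [X.velExt n P hP c' r0 (r0 / 2) (hS c') (by positivity) (by linarith) _ hB]
      congr 1
      funext y
      have h1 := TV n c' (r0 / 2) (fun e ρ => rotR i' j' (e * β' ρ)) (by positivity) hA1 hA2 hA3
        hA4 0 y
      have h2 : twist c' ((fun e ρ => rotR i' j' (e * β' ρ)) 0) y = y := by
        have := congrFun htw0 y
        simpa using this
      rw [h2] at h1
      rw [h1]
      have h3 : HasDerivAt (fun τ : ℝ => rotR i' j' (τ * β' (‖y - c'‖ ^ 2)))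
          (β' (‖y - c'‖ ^ 2) • (rotJ i' j' ∘L rotR i' j' (0 * β' (‖y - c'‖ ^ 2)))) 0 := by
        have h4 : HasDerivAt (fun τ : ℝ => τ * β' (‖y - c'‖ ^ 2)) (β' (‖y - c'‖ ^ 2)) 0 := by
          simpa using (hasDerivAt_id (0 : ℝ)).mul_const (β' (‖y - c'‖ ^ 2))
        exact (R.deriv n i' j' hij' (0 * β' (‖y - c'‖ ^ 2))).scomp (0 : ℝ) h4
      rw [h3.deriv]
      simp [swirl, hrot0]
    refine ⟨fun θ x => extMap P (twist c' (fun ρ => rotR i' j' (θ * β' ρ))) (Pi' θ x),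
      F.comp n P ℝ _ _ hT hPi', ?_, ?_, ?_⟩
    · funext x
      have := congrFun hT0 (Pi' 0 x)
      show extMap P (twist c' (fun ρ => rotR i' j' ((0 : ℝ) * β' ρ))) (Pi' 0 x) = x
      rw [this, hPi'0, id, id]
    · intro z
      have h1 := F.velComp n P _ _ hT hPi' 0 z
      have h2 : ∀ x, extMap P (twist c' (fun ρ => rotR i' j' ((0 : ℝ) * β' ρ))) x = x :=
        fun x => congrFun hT0 x
      rw [h2 z] at h1
      rw [h1, hvT z, hT0, Fin.sum_univ_castSucc, hPi'v z]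
      simp only [fderiv_id, ContinuousLinearMap.id_apply]
      rw [add_comm]
    · intro θ ε hε
      have h1 : Cost N P (extMap P (twist c' (fun ρ => rotR i' j' (θ * β' ρ)))) (ε / 2) :=
        SC n hn P hP N p hN c' r0 (r0 / 2) (hS c') (by positivity) (by linarith) i' j' hij'
          (fun ρ => θ * β' ρ) (contDiff_const.mul hβ') (fun ρ hρ => by simp [hβ0' ρ hρ]) (ε / 2)
          (by positivity)
      have h2 := CK.comp n P N p hN _ _ _ _ h1 (hPi'c θ (ε / 2) (by positivity))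
      exact Cost.mono h2 (by linarith)

/-- The cube is bounded. -/
theorem cube_sub : cube n ⊆ Metric.closedBall (0 : Eu n) (n : ℝ) := by
  intro x hx
  rw [mem_closedBall_zero_iff, EuclideanSpace.norm_eq]
  have h1 : ∑ i, ‖x i‖ ^ 2 ≤ (n : ℝ) := by
    calc ∑ i, ‖x i‖ ^ 2 ≤ ∑ i : Fin n, (1 : ℝ) := by
          apply Finset.sum_le_sum
          intro i _
          have := hx i
          rw [Real.norm_eq_abs, sq_abs]
          have h0 := this.1
          have h1 := this.2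
          nlinarith
      _ = n := by simp
  rw [Real.sqrt_le_left (by positivity)]
  refine h1.trans ?_
  rcases Nat.eq_zero_or_pos n with h | h
  · subst h
    simp
  · have : (1 : ℝ) ≤ n := by exact_mod_cast h
    nlinarith

theorem exists_cube (x : Eu n) : ∃ k : Fin n → ℤ, ∃ y ∈ cube n, x = y + iv k := by
  refine ⟨fun i => ⌊x i⌋, WithLp.toLp 2 (fun i => Int.fract (x i)), ?_, ?_⟩
  · intro i
    exact ⟨Int.fract_nonneg _, Int.fract_lt_one _⟩
  · ext i
    simp [iv]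

theorem vel_per (F : FamKit) {P : Subgroup (Eu n ≃ᵃ[ℝ] Eu n)} (hP : Deck P)
    {φ : ℝ → Eu n → Eu n} (h : IsPath P φ) (t : ℝ) : Per (vel φ t) := by
  intro x k
  have h1 := F.velEqui n P φ h _ (hP.trans k) t x
  have h2 : (AffineEquiv.constVAdd ℝ (Eu n) (iv k)) x = x + iv k := by
    simp [AffineEquiv.constVAdd_apply, add_comm]
  rw [h2] at h1
  rw [h1]
  simp

/-- the local step -/
theorem step_local (F : FamKit) (CK : CostKit) (TF : TwistFam) (TV : TwistVel) (R : RotKit)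
    (X : ExtKit) (SC : SwirlCost) (SU : SepU) (VD : VelDiv) (D : Dens) (hn : 3 ≤ n)
    (P : Subgroup (Eu n ≃ᵃ[ℝ] Eu n)) (hP : Deck P)
    {N : (Eu n → Eu n) → ℝ≥0∞} {p : ℝ} (hN : WeakNorm N p) (φ : ℝ → Eu n → Eu n)
    (hφ : IsPath P φ) (hmean : ∀ t, ∫ x in cube n, vel φ t x = 0) (C : ℝ) (hC0 : 0 ≤ C)
    (hC : ∀ u : Eu n → Eu n, Continuous u → Per u → ∀ b : ℝ, 0 ≤ b → (∀ x, ‖u x‖ ≤ b) →
      N u ≤ ENNReal.ofReal (C * b)) (η : ℝ) (hη : 0 < η) (t0 : ℝ) :
    ∃ δ : ℝ, 0 < δ ∧ ∀ t, |t - t0| < δ → ∀ θ, 0 ≤ θ → θ < δ → ∀ ε, 0 < ε →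
      Cost N P (fun x => φ (t + θ) (Function.invFun (φ t) x)) (C * (2 * η) * θ + ε) := by
  obtain ⟨r0, hr0, hS⟩ := SU n P hP
  -- the field `-vel φ t0`
  have hv : ContDiff ℝ ∞ (vel φ t0) :=
    (F.velSmooth n P φ hφ).comp (contDiff_const.prodMk contDiff_id)
  obtain ⟨K, c, i, j, β, hij, hβ, hβ0, happ⟩ := D n P hP (fun x => - vel φ t0 x) hv.neg
    (by
      intro g hg x
      rw [F.velEqui n P φ hφ g hg t0 x, map_neg])
    (by
      intro x
      have h1 := VD n P φ hφ t0 x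
      have h2 : fderiv ℝ (fun x => - vel φ t0 x) x = - fderiv ℝ (vel φ t0) x := fderiv_fun_neg
      rw [h2]
      simp only [ContinuousLinearMap.neg_apply, PiLp.neg_apply, Finset.sum_neg_distrib, h1,
        neg_zero])
    (by rw [integral_neg, hmean t0, neg_zero]) r0 η hr0 hη hS
  obtain ⟨Pi', hPi', hPi'0, hPi'v, hPi'c⟩ := exists_pi F CK TF TV R X SC hn P hP hN r0 hr0 hS K c i j β
    hij hβ hβ0
  have hinv : IsPath P (fun e => Function.invFun (φ e)) := F.inv n P ℝ φ hφ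
  -- the two parameter family
  have hH : IsFam P (fun (q : ℝ × ℝ) x => φ (q.1 + q.2) (Function.invFun (φ q.1) (Pi' q.2 x))) := by
    have h1 : IsFam P (fun (q : ℝ × ℝ) => φ (q.1 + q.2)) :=
      F.re n P ℝ (ℝ × ℝ) φ (fun q => q.1 + q.2) hφ (contDiff_fst.add contDiff_snd)
    have h2 : IsFam P (fun (q : ℝ × ℝ) => Function.invFun (φ q.1)) :=
      F.re n P ℝ (ℝ × ℝ) _ (fun q => q.1) hinv contDiff_fst
    have h3 : IsFam P (fun (q : ℝ × ℝ) => Pi' q.2) :=
      F.re n P ℝ (ℝ × ℝ) _ (fun q => q.2) hPi' contDiff_snd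
    exact F.comp n P (ℝ × ℝ) _ _ h1 (F.comp n P (ℝ × ℝ) _ _ h2 h3)
  set H : ℝ × ℝ → Eu n → Eu n :=
    fun q x => φ (q.1 + q.2) (Function.invFun (φ q.1) (Pi' q.2 x)) with hHdef
  have hHt : ∀ t, IsPath P (fun θ => H (t, θ)) := fun t =>
    F.re n P (ℝ × ℝ) ℝ H (fun θ => (t, θ)) hH (contDiff_const.prodMk contDiff_id)
  have hcont := F.velFam n P H hH
  have hbij : ∀ t, Function.Bijective (φ t) := hφ.bij
  have hcancel : ∀ t x, φ t (Function.invFun (φ t) x) = x := fun t x =>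
    Function.rightInverse_invFun (hbij t).2 x
  -- the velocity at `(t0, 0)`
  have hV0 : ∀ z, ‖vel (fun θ => H (t0, θ)) 0 z‖ ≤ η := by
    intro z
    have hΦ : IsPath P (fun θ x => φ (t0 + θ) (Function.invFun (φ t0) x)) := by
      have h1 : IsFam P (fun θ : ℝ => φ (t0 + θ)) :=
        F.re n P ℝ ℝ φ (fun q => t0 + q) hφ (contDiff_const.add contDiff_id)
      have h2 : IsFam P (fun _ : ℝ => Function.invFun (φ t0)) :=
        F.re n P ℝ ℝ _ (fun _ => t0) hinv contDiff_const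
      exact F.comp n P ℝ _ _ h1 h2
    have h1 := F.velComp n P _ _ hΦ hPi' 0 z
    have h2 : (fun x => φ (t0 + 0) (Function.invFun (φ t0) x)) = id := by
      funext x
      simp [hcancel]
    have h2' : φ (t0 + 0) (Function.invFun (φ t0) z) = z := congrFun h2 z
    rw [h2, h2'] at h1
    have h3 : vel (fun θ x => φ (t0 + θ) (Function.invFun (φ t0) x)) 0 z = vel φ t0 z := by
      have h4 := F.velConst n (fun θ => φ (t0 + θ)) (Function.invFun (φ t0))
        (fun t => hbij _) (hinv.bij t0) 0 z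
      rw [h4]
      have h5 := F.velRe n P φ (fun θ => t0 + θ) hφ 0 (by fun_prop) z
      rw [h5]
      have h6 : deriv (fun θ : ℝ => t0 + θ) 0 = 1 := by
        simp
      rw [h6, one_smul, add_zero]
    rw [h3, hPi'v z] at h1
    have h7 : vel (fun θ => H (t0, θ)) 0 z = vel φ t0 z +
        ∑ k, ext P (swirl (c k) (i k) (j k) (β k)) z := by
      have : (fun θ => H (t0, θ)) =
          (fun t x => (fun θ x => φ (t0 + θ) (Function.invFun (φ t0) x)) t (Pi' t x)) := rfl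
      rw [this, h1]
      simp
    rw [h7]
    have h8 := happ z
    rw [← norm_neg] at h8
    have h9 : -(-vel φ t0 z - ∑ k, ext P (swirl (c k) (i k) (j k) (β k)) z) =
        vel φ t0 z + ∑ k, ext P (swirl (c k) (i k) (j k) (β k)) z := by
      rw [neg_sub, sub_neg_eq_add, add_comm]
    rw [h9] at h8
    exact h8
  -- compactness
  have hev : ∀ᶠ q : ℝ × ℝ in 𝓝 (t0, 0), ∀ z ∈ Metric.closedBall (0 : Eu n) (n : ℝ),
      ‖vel (fun θ => H (q.1, θ)) q.2 z‖ < 2 * η := by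
    apply (isCompact_closedBall (0 : Eu n) (n : ℝ)).eventually_forall_of_forall_eventually
    intro z _
    have h1 : Continuous (fun q : (ℝ × ℝ) × Eu n => ‖vel (fun θ => H (q.1.1, θ)) q.1.2 q.2‖) :=
      hcont.norm
    have h3 := h1.continuousAt (x := ((t0, 0), z))
    have h4 : ‖vel (fun θ => H (t0, θ)) 0 z‖ < 2 * η := lt_of_le_of_lt (hV0 z) (by linarith)
    exact h3.eventually_lt continuousAt_const h4
  obtain ⟨δ, hδ, hball⟩ := Metric.eventually_nhds_iff_ball.mp hev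
  refine ⟨δ, hδ, ?_⟩
  intro t ht θ hθ0 hθ ε hε
  have hper : ∀ q : ℝ × ℝ, Per (vel (fun θ => H (q.1, θ)) q.2) := fun q => vel_per F hP (hHt q.1) q.2
  have hsup : ∀ τ ∈ Set.Icc (0 : ℝ) θ, ∀ z, ‖vel (fun θ => H (t, θ)) τ z‖ ≤ 2 * η := by
    intro τ hτ z
    obtain ⟨k, y, hy, rfl⟩ := exists_cube z
    have h1 := hper (t, τ) y k
    simp only at h1
    rw [h1]
    have h2 : ((t, τ) : ℝ × ℝ) ∈ Metric.ball (t0, (0 : ℝ)) δ := by
      rw [Metric.mem_ball, Prod.dist_eq, max_lt_iff]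
      refine ⟨by simpa [Real.dist_eq] using ht, ?_⟩
      simp only [Real.dist_eq, sub_zero]
      rw [abs_of_nonneg hτ.1]
      exact lt_of_le_of_lt hτ.2 hθ
    exact (hball _ h2 y (cube_sub hy)).le
  have hvc : ∀ τ, Continuous (vel (fun θ => H (t, θ)) τ) := fun τ =>
    ((F.velSmooth n P _ (hHt t)).comp (contDiff_const.prodMk contDiff_id)).continuous
  have h0 : H (t, 0) = id := by
    funext x
    have : Pi' 0 x = x := congrFun hPi'0 x
    simp only [hHdef, this, add_zero, hcancel, id]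
  have hcost := CK.path n P N p hN (fun θ => H (t, θ)) (hHt t) h0 θ (C * (2 * η)) hθ0
    (by positivity) (fun τ hτ => hC _ (hvc τ) (hper (t, τ)) (2 * η) (by positivity) (hsup τ hτ))
  have hcost2 := CK.inv n P N p hN _ _ (hPi'c θ ε hε)
  have h3 := CK.comp n P N p hN _ _ _ _ hcost hcost2
  convert h3 using 1
  funext x
  have h4 : Pi' θ (Function.invFun (Pi' θ) x) = x :=
    Function.rightInverse_invFun (hPi'.bij θ).2 x
  simp only [hHdef, h4]

/-- the uniform step -/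
theorem step_unif (Q : ℝ → ℝ → Prop)
    (h : ∀ t0 : ℝ, ∃ δ : ℝ, 0 < δ ∧ ∀ t, |t - t0| < δ → ∀ θ, 0 ≤ θ → θ < δ → Q t θ) :
    ∃ δ : ℝ, 0 < δ ∧ ∀ t ∈ Set.Icc (0 : ℝ) 1, ∀ θ, 0 ≤ θ → θ < δ → Q t θ := by
  have hK : IsCompact (Set.Icc (0 : ℝ) 1) := isCompact_Icc
  refine hK.induction_on (p := fun s => ∃ δ : ℝ, 0 < δ ∧ ∀ t ∈ s, ∀ θ, 0 ≤ θ → θ < δ → Q t θ)
    ?_ ?_ ?_ ?_
  · exact ⟨1, one_pos, by simp⟩
  · rintro s t hst ⟨δ, hδ, h⟩
    exact ⟨δ, hδ, fun x hx => h x (hst hx)⟩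
  · rintro s t ⟨δ, hδ, h1⟩ ⟨δ', hδ', h2⟩
    refine ⟨min δ δ', lt_min hδ hδ', ?_⟩
    rintro x (hx | hx) θ hθ hθ'
    · exact h1 x hx θ hθ (lt_of_lt_of_le hθ' (min_le_left _ _))
    · exact h2 x hx θ hθ (lt_of_lt_of_le hθ' (min_le_right _ _))
  · intro t0 _
    obtain ⟨δ, hδ, h1⟩ := h t0
    refine ⟨Metric.ball t0 δ, mem_nhdsWithin_of_mem_nhds (Metric.ball_mem_nhds t0 hδ), δ, hδ, ?_⟩
    intro t ht θ hθ hθ'
    exact h1 t (by simpa [Real.dist_eq] using ht) θ hθ hθ'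

end MainA

open MainA in
/-- Exact paths have cost zero. -/
theorem mainCost (F : FamKit) (CK : CostKit) (TF : TwistFam) (TV : TwistVel) (R : RotKit)
    (X : ExtKit) (SC : SwirlCost) (SU : SepU) (VD : VelDiv) (D : Dens) : MainCost := by
  intro n hn P hP N p hN φ hφ h0 hmean ε hε
  obtain ⟨C0, hC0, hbound⟩ := hN.bound
  -- the sup bound
  have hvol : volume (cube n) < ⊤ := lt_of_le_of_lt (measure_mono cube_sub)
    (isCompact_closedBall (0 : Eu n) (n : ℝ)).measure_lt_top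
  have hp0 : 0 < p := lt_of_lt_of_le one_pos hN.hp
  set V : ℝ := (volume (cube n)).toReal ^ (1 / p) with hV
  have hV0 : 0 ≤ V := by positivity
  have hC : ∀ u : Eu n → Eu n, Continuous u → Per u → ∀ b : ℝ, 0 ≤ b → (∀ x, ‖u x‖ ≤ b) →
      N u ≤ ENNReal.ofReal ((C0 * V) * b) := by
    intro u hu hper b hb hub
    refine (hbound u hu hper).trans ?_
    have h1 : ∫⁻ x in cube n, ‖u x‖ₑ ^ p ≤ (ENNReal.ofReal b) ^ p * volume (cube n) := by
      rw [← setLIntegral_const]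
      apply lintegral_mono
      intro x
      apply ENNReal.rpow_le_rpow _ hp0.le
      rw [← ofReal_norm_eq_enorm]
      exact ENNReal.ofReal_le_ofReal (hub x)
    have h2 : (∫⁻ x in cube n, ‖u x‖ₑ ^ p) ^ (1 / p) ≤ ENNReal.ofReal (V * b) := by
      refine (ENNReal.rpow_le_rpow h1 (by positivity)).trans ?_
      rw [ENNReal.mul_rpow_of_nonneg _ _ (by positivity), ← ENNReal.rpow_mul,
        mul_one_div_cancel hp0.ne', ENNReal.rpow_one, mul_comm, ENNReal.ofReal_mul hV0, hV]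
      apply mul_le_mul_left
      rw [← ENNReal.ofReal_rpow_of_nonneg (by positivity) (by positivity),
        ENNReal.ofReal_toReal hvol.ne]
    calc ENNReal.ofReal C0 * (∫⁻ x in cube n, ‖u x‖ₑ ^ p) ^ (1 / p)
        ≤ ENNReal.ofReal C0 * ENNReal.ofReal (V * b) := mul_le_mul_right h2 _
      _ = ENNReal.ofReal ((C0 * V) * b) := by
        rw [← ENNReal.ofReal_mul hC0]
        ring_nf
  set C := C0 * V with hCdef
  have hCpos : 0 ≤ C := by positivity
  obtain ⟨η, hη, hη2⟩ : ∃ η : ℝ, 0 < η ∧ C * (2 * η) ≤ ε / 2 := by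
    refine ⟨ε / (4 * (C + 1)), by positivity, ?_⟩
    have : C * (2 * (ε / (4 * (C + 1)))) = (C / (C + 1)) * (ε / 2) := by
      field_simp
      ring
    rw [this]
    have h1 : C / (C + 1) ≤ 1 := by
      rw [div_le_one (by positivity)]
      linarith
    nlinarith
  obtain ⟨δ, hδ, hstep⟩ := step_unif (fun t θ => ∀ ε, 0 < ε →
      Cost N P (fun x => φ (t + θ) (Function.invFun (φ t) x)) (C * (2 * η) * θ + ε))
    (fun t0 => step_local F CK TF TV R X SC SU VD D hn P hP hN φ hφ hmean C hCpos hC η hη t0)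
  obtain ⟨M, hM⟩ := exists_nat_gt (1 / δ)
  have hM0 : (0 : ℝ) < M := lt_trans (by positivity) hM
  have hMδ : 1 / (M : ℝ) < δ := by
    rw [div_lt_iff₀ hM0]
    rw [div_lt_iff₀ hδ] at hM
    linarith
  have hind : ∀ k : ℕ, k ≤ M → Cost N P (φ (k / M)) (k * (C * (2 * η) * (1 / M) + ε / (2 * M))) := by
    intro k
    induction k with
    | zero =>
      intro _
      have h1 := cost_id F CK hN P
      simpa [h0] using h1
    | succ k ih =>
      intro hk
      have hk1 : (k : ℝ) + 1 ≤ M := by exact_mod_cast hk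
      have h1 := ih (by omega)
      have h2 := hstep (k / M) ⟨by positivity, by rw [div_le_one hM0]; linarith⟩ (1 / M)
        (by positivity) hMδ (ε / (2 * M)) (by positivity)
      have h3 := CK.comp n P N p hN _ _ _ _ h2 h1
      convert h3 using 1
      · funext x
        have h4 : Function.invFun (φ (k / M)) (φ (k / M) x) = x :=
          Function.leftInverse_invFun (hφ.bij _).1 x
        rw [h4]
        congr 1
        push_cast
        ring
      · push_cast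
        ring
  have hfin := hind M le_rfl
  rw [div_self hM0.ne'] at hfin
  refine Cost.mono hfin ?_
  have : (M : ℝ) * (C * (2 * η) * (1 / M) + ε / (2 * M)) = C * (2 * η) + ε / 2 := by
    field_simp
  rw [this]
  linarith

end

end Pool.Agent.H68.VD
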