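import Pool.Agent.H68.VD.St2
import Pool.Agent.H68.VD.Main

/-! # The exact formula of the distance -/

namespace Pool.Agent.H68.VD

open MeasureTheory Set Filter Topology
open scoped ENNReal ContDiff

noncomputable section

namespace ExactA

variable {n : ℕ}

theorem cube_eq : cube n = (WithLp.ofLp (p := 2)) ⁻¹' (Set.pi Set.univ fun _ : Fin n => Set.Ico (0 : ℝ) 1) := by
  ext x
  simp [cube]

theorem measurableSet_cube : MeasurableSet (cube n) := by
  rw [cube_eq]
  exact (PiLp.volume_preserving_ofLp (Fin n)).measurable
    (MeasurableSet.univ_pi fun _ => measurableSet_Ico)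

theorem volume_cube : volume (cube n) = 1 := by
  rw [cube_eq, (PiLp.volume_preserving_ofLp (Fin n)).measure_preimage
    (MeasurableSet.univ_pi fun _ => measurableSet_Ico).nullMeasurableSet]
  have := Real.volume_pi_Ico (a := fun _ : Fin n => (0 : ℝ)) (b := fun _ => 1)
  rw [this]
  simp

theorem integrableOn_cube {F : Type*} [NormedAddCommGroup F] {u : Eu n → F} (hu : Continuous u) :
    IntegrableOn u (cube n) :=
  (hu.continuousOn.integrableOn_compact (isCompact_closedBall (0 : Eu n) (n : ℝ))).mono_set
    MainA.cube_sub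

theorem integral_const_cube (m : Eu n) : ∫ _ in cube n, m = m := by
  rw [setIntegral_const]
  simp [Measure.real, volume_cube]

theorem constVAdd_apply' (w x : Eu n) : (AffineEquiv.constVAdd ℝ (Eu n) w) x = x + w := by
  simp [AffineEquiv.constVAdd_apply, add_comm]

theorem iv_add (k l : Fin n → ℤ) : (iv (k + l) : Eu n) = iv k + iv l := by
  ext i
  simp [iv]

/-- translations by invariant vectors are families -/
theorem trans_fam {P : Subgroup (Eu n ≃ᵃ[ℝ] Eu n)} {E : Type} [NormedAddCommGroup E]
    [NormedSpace ℝ E] (h : E → Eu n) (hh : ContDiff ℝ ∞ h)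
    (hinv : ∀ e, ∀ g ∈ P, g.linear (h e) = h e) : IsFam P (fun e x => x + h e) := by
  refine ⟨?_, ?_, ?_, ?_⟩
  · exact contDiff_snd.add (hh.comp contDiff_fst)
  · intro e
    refine ⟨fun x y hxy => by simpa using hxy, fun y => ⟨y - h e, by simp⟩⟩
  · intro e x
    have : fderiv ℝ (fun x : Eu n => x + h e) x = ContinuousLinearMap.id ℝ (Eu n) := by
      rw [fderiv_add_const]
      exact fderiv_id
    rw [this]
    simp [ContinuousLinearMap.det]
  · intro e g hg x
    have h1 : g (x + h e) = g x + g.linear (h e) := by
      have := g.map_vadd x (h e)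
      simpa [add_comm] using this
    rw [h1, hinv e g hg]

theorem per_disp {P : Subgroup (Eu n ≃ᵃ[ℝ] Eu n)} (hP : Deck P) {f : Eu n → Eu n}
    (hf : ∀ g ∈ P, ∀ x, f (g x) = g (f x)) (x : Eu n) (k : Fin n → ℤ) :
    f (x + iv k) = f x + iv k := by
  have := hf _ (hP.trans k) x
  rwa [constVAdd_apply', constVAdd_apply'] at this

/-- an element of the deck group that commutes with the integer translations is a translation -/
theorem eq_trans {P : Subgroup (Eu n ≃ᵃ[ℝ] Eu n)} (hP : Deck P) {γ : Eu n ≃ᵃ[ℝ] Eu n} (hγ : γ ∈ P)
    (hcomm : ∀ q ∈ P, ∀ y, γ (q y) = q (γ y)) :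
    ∃ w, Ctr P w ∧ ∀ y, γ y = y + w := by
  have hadd : ∀ (q : Eu n ≃ᵃ[ℝ] Eu n) (x v : Eu n), q (x + v) = q x + q.linear v := by
    intro q x v
    have := q.map_vadd x v
    simpa [add_comm] using this
  have h1 : ∀ k : Fin n → ℤ, γ.linear (iv k) = iv k := by
    intro k
    have h2 := hcomm _ (hP.trans k) 0
    rw [constVAdd_apply', constVAdd_apply', hadd] at h2
    exact add_left_cancel h2
  have h2 : ∀ v : Eu n, γ.linear v = v := by
    intro v
    have h3 : v = ∑ i, v i • (ev i : Eu n) := by
      ext j
      simp [ev, Finset.sum_apply, Pi.single_apply]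
    have h4 : ∀ i : Fin n, γ.linear (ev i : Eu n) = ev i := by
      intro i
      have h5 : (ev i : Eu n) = iv (Pi.single i 1) := by
        ext j
        simp only [ev, iv, EuclideanSpace.single_apply, Pi.single_apply]
        split_ifs <;> simp
      rw [h5]
      exact h1 _
    conv_lhs => rw [h3]
    rw [map_sum]
    simp only [map_smul, h4]
    exact h3.symm
  have h3 : ∀ y, γ y = y + γ 0 := by
    intro y
    have := hadd γ 0 y
    rw [zero_add, h2] at this
    rw [this, add_comm]
  have h4 : γ = AffineEquiv.constVAdd ℝ (Eu n) (γ 0) := by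
    ext1 y
    rw [constVAdd_apply', h3 y]
  refine ⟨γ 0, ⟨h4 ▸ hγ, ?_⟩, h3⟩
  intro q hq
  have h5 := hcomm q hq 0
  rw [h3 (q 0)] at h5
  have h6 := hadd q 0 (γ 0)
  rw [zero_add] at h6
  rw [← h5] at h6
  exact (add_left_cancel h6).symm

theorem inG_fam (F : FamKit) {P : Subgroup (Eu n ≃ᵃ[ℝ] Eu n)} {f : Eu n → Eu n} (hf : InG P f) :
    IsPath P (fun _ => f) := by
  obtain ⟨φ, h1, h2, rfl⟩ := hf
  exact F.re n P ℝ ℝ φ (fun _ => 1) h1 contDiff_const

/-- the quotient of two elements -/
theorem inG_div (F : FamKit) {P : Subgroup (Eu n ≃ᵃ[ℝ] Eu n)} {f g : Eu n → Eu n} (hf : InG P f)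
    (hg : InG P g) : InG P (fun x => g (Function.invFun f x)) := by
  obtain ⟨φ, h1, h2, rfl⟩ := hf
  obtain ⟨ψ, h3, h4, rfl⟩ := hg
  refine ⟨fun t x => ψ t (Function.invFun (φ t) x), F.comp n P ℝ _ _ h3 (F.inv n P ℝ φ h1), ?_, rfl⟩
  funext x
  have : Function.invFun (id : Eu n → Eu n) x = x :=
    Function.leftInverse_invFun Function.injective_id x
  show ψ 0 (Function.invFun (φ 0) x) = x
  rw [h2, h4, this, id]

/-- flux of the quotient -/
theorem flux_div (F : FamKit) (K : FluxKit) {P : Subgroup (Eu n ≃ᵃ[ℝ] Eu n)} (hP : Deck P)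
    {f g : Eu n → Eu n} (hf : InG P f) (hg : InG P g) :
    ∫ x in cube n, (g (Function.invFun f x) - x) = ∫ x in cube n, (g x - f x) := by
  have hfF := inG_fam F hf
  have hgF := inG_fam F hg
  have hdF := inG_fam F (inG_div F hf hg)
  have hfs : ContDiff ℝ ∞ f := hfF.smooth.comp (contDiff_const (c := (0 : ℝ)).prodMk contDiff_id)
  have hds : ContDiff ℝ ∞ (fun x => g (Function.invFun f x)) :=
    hdF.smooth.comp (contDiff_const (c := (0 : ℝ)).prodMk contDiff_id)
  have h1 := K.cov n f hfs (hfF.bij 0) (hfF.det 0) (fun x k => per_disp hP (hfF.equi 0) x k)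
    (fun x => g (Function.invFun f x) - x) (hds.continuous.sub continuous_id)
    (by
      intro x k
      have := per_disp hP (f := fun x => g (Function.invFun f x)) (fun q hq y => hdF.equi 0 q hq y) x k
      show g (Function.invFun f (x + iv k)) - (x + iv k) = g (Function.invFun f x) - x
      rw [this]
      abel)
  rw [← h1]
  congr 1
  funext x
  rw [Function.leftInverse_invFun (hfF.bij 0).1 x]

theorem cont_mean (F : FamKit) {P : Subgroup (Eu n ≃ᵃ[ℝ] Eu n)} {φ : ℝ → Eu n → Eu n}
    (hφ : IsPath P φ) : Continuous (fun t => ∫ x in cube n, vel φ t x) := by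
  have hv : Continuous (fun q : ℝ × Eu n => vel φ q.1 q.2) := (F.velSmooth n P φ hφ).continuous
  rw [continuous_iff_continuousAt]
  intro t0
  have hK : IsCompact (Set.Icc (t0 - 1) (t0 + 1) ×ˢ Metric.closedBall (0 : Eu n) (n : ℝ)) :=
    isCompact_Icc.prod (isCompact_closedBall _ _)
  obtain ⟨C, hC⟩ := hK.exists_bound_of_continuousOn hv.continuousOn
  apply continuousAt_of_dominated (bound := fun _ => C)
  · exact Eventually.of_forall fun t =>
      (hv.comp (continuous_const.prodMk continuous_id)).aestronglyMeasurable
  · filter_upwards [Icc_mem_nhds (show t0 - 1 < t0 by linarith) (show t0 < t0 + 1 by linarith)]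
      with t ht
    refine (ae_restrict_iff' measurableSet_cube).mpr (Eventually.of_forall fun x hx => ?_)
    exact hC (t, x) ⟨ht, MainA.cube_sub hx⟩
  · have : volume (cube n) ≠ ⊤ := by rw [volume_cube]; simp
    exact integrableOn_const this
  · exact Eventually.of_forall fun x =>
      (hv.comp (continuous_id.prodMk continuous_const)).continuousAt

end ExactA

open ExactA in
theorem exact (F : FamKit) (CK : CostKit) (K : FluxKit) (MC : MainCost) : Exact := by
  intro n hn P hP N p hN hlow hconst f g hf hg
  have hfF := inG_fam F hf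
  have hgF := inG_fam F hg
  apply le_antisymm
  · -- upper bound
    apply le_iInf
    intro w
    apply le_iInf
    intro hw
    set h : Eu n → Eu n := fun x => g (Function.invFun f x) with hh
    have hhG : InG P h := inG_div F hf hg
    set M : Eu n := ∫ x in cube n, (h x - x) with hM
    have hMeq : M = ∫ x in cube n, (g x - f x) := flux_div F K hP hf hg
    have hMinv : ∀ q ∈ P, q.linear M = M := K.invt n P hP h hhG
    set m : Eu n := M + w with hm
    have hminv : ∀ q ∈ P, q.linear m = m := by
      intro q hq
      rw [hm, map_add, hMinv q hq, hw.2 q hq]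
    rw [← hMeq]
    change gdist N P f g ≤ ENNReal.ofReal ‖m‖
    -- the exact part
    have hcost1 : ∀ ε : ℝ, 0 < ε → Cost N P (fun x => h x - M) ε := by
      intro ε hε
      obtain ⟨ψ, h1, h2, h3⟩ := hhG
      have hφ : IsPath P (fun t x => ψ t x + t • (-M)) :=
        F.comp n P ℝ (fun t x => x + t • (-M)) ψ
          (trans_fam (fun t : ℝ => t • (-M)) (contDiff_id.smul contDiff_const)
            (fun t q hq => by rw [map_smul, map_neg, hMinv q hq])) h1
      have hint : ∫ x in cube n, ((fun t x => ψ t x + t • (-M)) 1 x - x) = 0 := by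
        have h4 : (fun x => (fun t x => ψ t x + t • (-M)) 1 x - x) = fun x => (h x - x) - M := by
          funext x
          simp only [one_smul, h3]
          abel
        rw [h4]
        have hhs : ContDiff ℝ ∞ h := by
          have := (inG_fam F (inG_div F hf hg)).smooth.comp
            (contDiff_const (c := (0 : ℝ)).prodMk contDiff_id)
          exact this
        have hc1 : Continuous (fun x => h x - x) := hhs.continuous.sub continuous_id
        rw [integral_sub (integrableOn_cube hc1) (integrableOn_cube continuous_const),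
          integral_const_cube, ← hM, sub_self]
      obtain ⟨ξ, h5, h6, h7, h8⟩ := K.exact n P hP (fun t x => ψ t x + t • (-M)) hφ
        (by funext x; simp [h2]) hint
      have h9 := MC n hn P hP N p hN ξ h5 h6 h8 ε hε
      convert h9 using 1
      rw [h7]
      funext x
      simp only [one_smul, h3]
      abel
    have hcost2 : Cost N P (fun x => x + m) (‖m‖ * 1) := by
      have hφ : IsPath P (fun t x => x + t • m) :=
        trans_fam (fun t : ℝ => t • m) (contDiff_id.smul contDiff_const)
            (fun t q hq => by rw [map_smul, hminv q hq])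
      have h4 := CK.path n P N p hN (fun t x => x + t • m) hφ (by funext x; simp) 1 ‖m‖ zero_le_one
        (norm_nonneg _) (by
          intro t _
          have h5 : vel (fun (t : ℝ) (x : Eu n) => x + t • m) t = fun _ => m := by
            funext y
            have h6 := (F.velEq n P _ hφ t (y - t • m)).unique
              (((hasDerivAt_id t).smul_const m).const_add (y - t • m))
            simpa using h6
          rw [h5]
          exact hconst m)
      simpa using h4
    refine ENNReal.le_of_forall_pos_le_add ?_
    intro ε hε _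
    have h10 := CK.comp n P N p hN _ _ _ _ hcost2 (hcost1 ε hε)
    have h11 := CK.dist n P N _ f g _ h10 hf ⟨_, hw.1, by
      intro x
      rw [constVAdd_apply']
      have h12 : h (f x) = g x := by
        simp only [hh]
        rw [Function.leftInverse_invFun (hfF.bij 0).1 x]
      rw [h12, hm]
      abel⟩
    refine h11.trans ?_
    rw [mul_one, ENNReal.ofReal_add (norm_nonneg m) (NNReal.coe_nonneg ε),
      ENNReal.ofReal_coe_nnreal]
  · -- lower bound
    apply le_iInf
    intro φ
    apply le_iInf
    rintro ⟨h1, h2, γ, hγ, h3⟩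
    have hγc : ∀ q ∈ P, ∀ y, γ (q y) = q (γ y) := by
      intro q hq y
      obtain ⟨x, rfl⟩ := (hgF.bij 0).2 y
      have h4 := h1.equi 1 q hq x
      rw [h3, h3, hgF.equi 0 q hq x] at h4
      exact h4
    obtain ⟨w, hw, hγw⟩ := eq_trans hP hγ hγc
    refine (iInf₂_le w hw).trans ?_
    have hmean := K.mean n P hP φ h1
    set Mf : ℝ → Eu n := fun τ => ∫ x in cube n, (φ τ x - x) with hMf
    have hderiv : deriv Mf = fun t => ∫ x in cube n, vel φ t x := by
      funext t
      exact (hmean t).deriv
    have hC1 : ContDiff ℝ 1 Mf := by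
      rw [contDiff_one_iff_deriv]
      exact ⟨fun t => (hmean t).differentiableAt, by rw [hderiv]; exact cont_mean F h1⟩
    have hphis : ∀ t, Continuous (φ t) := fun t =>
      (h1.smooth.comp (contDiff_const (c := t).prodMk contDiff_id)).continuous
    have hdiff : Mf 1 - Mf 0 = (∫ x in cube n, (g x - f x)) + w := by
      have hgc : Continuous g := (hgF.smooth.comp
        (contDiff_const (c := (0 : ℝ)).prodMk contDiff_id)).continuous
      have hfc : Continuous f := (hfF.smooth.comp
        (contDiff_const (c := (0 : ℝ)).prodMk contDiff_id)).continuous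
      simp only [hMf]
      have hc1 : Continuous (fun x => φ 1 x - x) := (hphis 1).sub continuous_id
      have hc0 : Continuous (fun x => φ 0 x - x) := (hphis 0).sub continuous_id
      rw [← integral_sub (integrableOn_cube hc1) (integrableOn_cube hc0)]
      have h5 : (fun x => φ 1 x - x - (φ 0 x - x)) = fun x => (g x - f x) + w := by
        funext x
        rw [h3, hγw, h2]
        abel
      have hc2 : Continuous (fun x => g x - f x) := hgc.sub hfc
      rw [h5, integral_add (integrableOn_cube hc2) (integrableOn_cube continuous_const),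
        integral_const_cube]
    rw [← hdiff, ofReal_norm]
    refine (enorm_sub_le_lintegral_deriv_of_contDiffOn_Icc hC1.contDiffOn zero_le_one).trans ?_
    rw [hderiv]
    apply lintegral_mono
    intro t
    show ‖∫ x in cube n, vel φ t x‖ₑ ≤ N (vel φ t)
    rw [← ofReal_norm]
    exact hlow _ ((F.velSmooth n P φ h1).comp (contDiff_const.prodMk contDiff_id)).continuous
      (MainA.vel_per F hP h1 t)

end

end Pool.Agent.H68.VD
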