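import Pool.Agent.H68.VD.St

/-! # Extension from small balls -/

namespace Pool.Agent.H68.VD

open MeasureTheory Set
open scoped ENNReal ContDiff

noncomputable section

namespace ExtKA

variable {n : ℕ}

/-! ### The group -/

theorem mul_ap (g h : Eu n ≃ᵃ[ℝ] Eu n) (x : Eu n) : (g * h) x = g (h x) := rfl

theorem inv_ap (g : Eu n ≃ᵃ[ℝ] Eu n) (x : Eu n) : g (g⁻¹ x) = x := g.apply_symm_apply x

theorem inv_ap' (g : Eu n ≃ᵃ[ℝ] Eu n) (x : Eu n) : g⁻¹ (g x) = x := g.symm_apply_apply x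

theorem lin_mul (g h : Eu n ≃ᵃ[ℝ] Eu n) (x : Eu n) : (g * h).linear x = g.linear (h.linear x) := rfl

theorem lin_one (x : Eu n) : (1 : Eu n ≃ᵃ[ℝ] Eu n).linear x = x := rfl

theorem aff_add (g : Eu n ≃ᵃ[ℝ] Eu n) (x v : Eu n) : g (x + v) = g x + g.linear v := by
  have := g.map_vadd x v
  simp only [vadd_eq_add] at this
  rw [add_comm x v, this, add_comm]

theorem ext_term (P : Subgroup (Eu n ≃ᵃ[ℝ] Eu n)) (u : Eu n → Eu n) (x : Eu n) :
    ext P u x = ∑ᶠ g : P, (g : Eu n ≃ᵃ[ℝ] Eu n).linear (u ((g : Eu n ≃ᵃ[ℝ] Eu n)⁻¹ x)) := rfl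

/-- The extension is equivariant. -/
theorem equi (P : Subgroup (Eu n ≃ᵃ[ℝ] Eu n)) (u : Eu n → Eu n) (g : Eu n ≃ᵃ[ℝ] Eu n)
    (hg : g ∈ P) (x : Eu n) : ext P u (g x) = g.linear (ext P u x) := by
  rw [ext_term, ext_term]
  have h1 : g.linear (∑ᶠ h : P, (h : Eu n ≃ᵃ[ℝ] Eu n).linear (u ((h : Eu n ≃ᵃ[ℝ] Eu n)⁻¹ x))) =
      ∑ᶠ h : P, g.linear ((h : Eu n ≃ᵃ[ℝ] Eu n).linear (u ((h : Eu n ≃ᵃ[ℝ] Eu n)⁻¹ x))) :=
    (g.linear.toAddEquiv).map_finsum
      (fun h : P => (h : Eu n ≃ᵃ[ℝ] Eu n).linear (u ((h : Eu n ≃ᵃ[ℝ] Eu n)⁻¹ x)))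
  rw [h1]
  rw [← finsum_comp_equiv (Equiv.mulLeft (⟨g, hg⟩ : P))]
  refine finsum_congr fun h => ?_
  have e1 : ((Equiv.mulLeft (⟨g, hg⟩ : P) h : P) : Eu n ≃ᵃ[ℝ] Eu n) = g * h := rfl
  have e2 : (g * (h : Eu n ≃ᵃ[ℝ] Eu n))⁻¹ (g x) = (h : Eu n ≃ᵃ[ℝ] Eu n)⁻¹ x := by
    rw [mul_inv_rev, mul_ap, inv_ap']
  rw [e1, e2, lin_mul]

theorem inside (P : Subgroup (Eu n ≃ᵃ[ℝ] Eu n)) (c : Eu n) (r : ℝ) (hs : Sep P c r)
    (u : Eu n → Eu n) (hu : ∀ x, r ≤ dist x c → u x = 0) (x : Eu n) (hx : dist x c < r) :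
    ext P u x = u x := by
  rw [ext_term, finsum_eq_single _ (1 : P)]
  · simp [lin_one]
  · intro g hg
    have h1 : (g : Eu n ≃ᵃ[ℝ] Eu n)⁻¹ ∈ P := P.inv_mem g.2
    have h2 : (g : Eu n ≃ᵃ[ℝ] Eu n)⁻¹ ≠ 1 := by
      intro h
      apply hg
      have := inv_eq_one.1 h
      exact Subtype.ext this
    have h3 := hs.2 _ h1 h2 x hx
    rw [hu _ (not_lt.1 h3), map_zero]

theorem outside (P : Subgroup (Eu n ≃ᵃ[ℝ] Eu n)) (u : Eu n → Eu n) (x : Eu n)
    (h : ∀ g ∈ P, u (g x) = 0) : ext P u x = 0 := by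
  rw [ext_term]
  have : ∀ g : P, (g : Eu n ≃ᵃ[ℝ] Eu n).linear (u ((g : Eu n ≃ᵃ[ℝ] Eu n)⁻¹ x)) = 0 := by
    intro g
    rw [h _ (P.inv_mem g.2), map_zero]
  rw [finsum_congr this, finsum_zero]

/-- The value at `g z` with `z` in the ball. -/
theorem ext_at (P : Subgroup (Eu n ≃ᵃ[ℝ] Eu n)) (c : Eu n) (r : ℝ) (hs : Sep P c r)
    (u : Eu n → Eu n) (hu : ∀ x, r ≤ dist x c → u x = 0) (g : Eu n ≃ᵃ[ℝ] Eu n) (hg : g ∈ P)
    (z : Eu n) (hz : dist z c < r) : ext P u (g z) = g.linear (u z) := by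
  rw [equi P u g hg, inside P c r hs u hu z hz]

/-! ### Topology -/

theorem cont (g : Eu n ≃ᵃ[ℝ] Eu n) : Continuous g :=
  g.toAffineMap.continuous_of_finiteDimensional

/-- The linear part as a continuous linear map. -/
def L (g : Eu n ≃ᵃ[ℝ] Eu n) : Eu n →L[ℝ] Eu n :=
  LinearMap.toContinuousLinearMap (g.linear : Eu n →ₗ[ℝ] Eu n)

theorem L_ap (g : Eu n ≃ᵃ[ℝ] Eu n) (x : Eu n) : L g x = g.linear x := rfl

theorem aff_eq (g : Eu n ≃ᵃ[ℝ] Eu n) (x : Eu n) : g x = L g x + g 0 := by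
  have := aff_add g 0 x
  rw [zero_add] at this
  rw [this, L_ap, add_comm]

theorem hasFDeriv (g : Eu n ≃ᵃ[ℝ] Eu n) (x : Eu n) : HasFDerivAt g (L g) x := by
  have h : HasFDerivAt (fun y => L g y + g 0) (L g) x := (L g).hasFDerivAt.add_const _
  have e : (g : Eu n → Eu n) = fun y => L g y + g 0 := funext fun y => aff_eq g y
  rw [e]
  exact h

theorem smoothAff (g : Eu n ≃ᵃ[ℝ] Eu n) : ContDiff ℝ ∞ g := by
  have e : (g : Eu n → Eu n) = fun y => L g y + g 0 := funext fun y => aff_eq g y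
  rw [e]
  exact (L g).contDiff.add contDiff_const

/-- The local structure: near a point which is in no translate of the open ball of radius `r`, there
are no points of the translates of the ball of radius `r'`. -/
theorem away (P : Subgroup (Eu n ≃ᵃ[ℝ] Eu n)) (hP : Deck P) (c : Eu n) (r r' : ℝ) (hr : r' < r)
    (x : Eu n) (hx : ∀ g ∈ P, r ≤ dist (g x) c) :
    ∃ U : Set (Eu n), IsOpen U ∧ x ∈ U ∧ ∀ y ∈ U, ∀ g ∈ P, r' ≤ dist (g y) c := by
  obtain ⟨R, hR⟩ := hP.fin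
  refine ⟨⋂ ρ ∈ R, {y | dist (ρ y) (ρ x) < r - r'}, ?_, ?_, ?_⟩
  · refine isOpen_biInter_finset fun ρ _ => ?_
    exact isOpen_lt ((cont ρ).dist continuous_const) continuous_const
  · simp only [mem_iInter, mem_ofPred_eq, dist_self]
    intro ρ _
    linarith
  · intro y hy g hg
    simp only [mem_iInter, mem_ofPred_eq] at hy
    obtain ⟨ρ, hρ, k, hk⟩ := hR g hg
    have h1 := hy ρ hρ
    have h2 := hx g hg
    have h3 : dist (g y) (g x) = dist (ρ y) (ρ x) := by rw [hk, hk, dist_add_right]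
    have h4 := dist_triangle (g x) (g y) c
    rw [dist_comm (g x) (g y), h3] at h4
    linarith

/-- Either a point is in a translate of the ball, or it is not. -/
theorem cases (P : Subgroup (Eu n ≃ᵃ[ℝ] Eu n)) (c : Eu n) (r : ℝ) (x : Eu n) :
    (∃ g ∈ P, ∃ z, dist z c < r ∧ x = g z) ∨ ∀ g ∈ P, r ≤ dist (g x) c := by
  by_cases h : ∀ g ∈ P, r ≤ dist (g x) c
  · exact Or.inr h
  · push Not at h
    obtain ⟨g, hg, hx⟩ := h
    exact Or.inl ⟨g⁻¹, P.inv_mem hg, g x, hx, (inv_ap' g x).symm⟩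

theorem smooth (P : Subgroup (Eu n ≃ᵃ[ℝ] Eu n)) (hP : Deck P) (c : Eu n) (r r' : ℝ)
    (hs : Sep P c r) (hr : r' < r) {E : Type*} [NormedAddCommGroup E] [NormedSpace ℝ E]
    (u : E → Eu n → Eu n) (hu : ContDiff ℝ ∞ (fun q : E × Eu n => u q.1 q.2))
    (h0 : ∀ e x, r' ≤ dist x c → u e x = 0) :
    ContDiff ℝ ∞ (fun q : E × Eu n => ext P (u q.1) q.2) := by
  rw [contDiff_iff_contDiffAt]
  rintro ⟨e, x⟩
  rcases cases P c r x with ⟨g, hg, z, hz, rfl⟩ | h
  · have h1 : ContDiff ℝ ∞ (fun q : E × Eu n => L g (u q.1 (g⁻¹ q.2))) := by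
      have h2 : ContDiff ℝ ∞ (fun q : E × Eu n => (q.1, g⁻¹ q.2)) :=
        contDiff_fst.prodMk ((smoothAff g⁻¹).comp contDiff_snd)
      exact (L g).contDiff.comp (hu.comp h2)
    refine h1.contDiffAt.congr_of_eventuallyEq ?_
    have h3 : IsOpen {q : E × Eu n | dist (g⁻¹ q.2) c < r} :=
      isOpen_lt (((cont g⁻¹).comp continuous_snd).dist continuous_const) continuous_const
    have h4 : (e, g z) ∈ {q : E × Eu n | dist (g⁻¹ q.2) c < r} := by
      change dist (g⁻¹ (g z)) c < r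
      rw [inv_ap']
      exact hz
    filter_upwards [h3.mem_nhds h4] with q hq
    have h5 := ext_at P c r hs (u q.1) (fun x hx => h0 q.1 x (hr.le.trans hx)) g hg (g⁻¹ q.2) hq
    rw [inv_ap] at h5
    rw [h5, L_ap]
  · obtain ⟨U, hU, hxU, hU'⟩ := away P hP c r r' hr x h
    have h1 : ContDiff ℝ ∞ (fun _ : E × Eu n => (0 : Eu n)) := contDiff_const
    refine h1.contDiffAt.congr_of_eventuallyEq ?_
    have h3 : IsOpen {q : E × Eu n | q.2 ∈ U} := hU.preimage continuous_snd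
    filter_upwards [h3.mem_nhds (show (e, x) ∈ {q : E × Eu n | q.2 ∈ U} from hxU)] with q hq
    exact outside P (u q.1) q.2 fun g hg => h0 _ _ (hU' _ hq g hg)

/-! ### Maps which are the identity outside of the ball -/

theorem map_equi (P : Subgroup (Eu n ≃ᵃ[ℝ] Eu n)) (T : Eu n → Eu n) (g : Eu n ≃ᵃ[ℝ] Eu n)
    (hg : g ∈ P) (x : Eu n) : extMap P T (g x) = g (extMap P T x) := by
  unfold extMap
  rw [equi P _ g hg, aff_add]

theorem map_at (P : Subgroup (Eu n ≃ᵃ[ℝ] Eu n)) (c : Eu n) (r : ℝ) (hs : Sep P c r)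
    (T : Eu n → Eu n) (hT : ∀ x, r ≤ dist x c → T x = x) (g : Eu n ≃ᵃ[ℝ] Eu n) (hg : g ∈ P)
    (z : Eu n) (hz : dist z c < r) : extMap P T (g z) = g (T z) := by
  rw [map_equi P T g hg]
  congr 1
  unfold extMap
  rw [inside P c r hs _ (fun x hx => by rw [hT x hx, sub_self]) z hz, add_sub_cancel]

theorem map_out (P : Subgroup (Eu n ≃ᵃ[ℝ] Eu n)) (c : Eu n) (r : ℝ)
    (T : Eu n → Eu n) (hT : ∀ x, r ≤ dist x c → T x = x) (x : Eu n)
    (hx : ∀ g ∈ P, r ≤ dist (g x) c) : extMap P T x = x := by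
  unfold extMap
  rw [outside P _ x (fun g hg => by rw [hT _ (hx g hg), sub_self]), add_zero]

theorem maps_ball {c : Eu n} {r : ℝ} {T : Eu n → Eu n} (hi : Function.Injective T)
    (hT : ∀ x, r ≤ dist x c → T x = x) {z : Eu n} (hz : dist z c < r) : dist (T z) c < r := by
  by_contra h
  have h1 := hT _ (not_lt.1 h)
  have h2 := hi h1
  rw [h2] at h
  exact h hz

theorem map_comp (P : Subgroup (Eu n ≃ᵃ[ℝ] Eu n)) (c : Eu n) (r : ℝ) (hs : Sep P c r)
    (S T : Eu n → Eu n) (hi : Function.Injective T) (hS : ∀ x, r ≤ dist x c → S x = x)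
    (hT : ∀ x, r ≤ dist x c → T x = x) (x : Eu n) :
    extMap P (fun y => S (T y)) x = extMap P S (extMap P T x) := by
  have hST : ∀ x, r ≤ dist x c → S (T x) = x := fun x hx => by rw [hT x hx, hS x hx]
  rcases cases P c r x with ⟨g, hg, z, hz, rfl⟩ | h
  · rw [map_at P c r hs (fun y => S (T y)) hST g hg z hz, map_at P c r hs T hT g hg z hz,
      map_at P c r hs S hS g hg (T z) (maps_ball hi hT hz)]
  · rw [map_out P c r (fun y => S (T y)) hST x h, map_out P c r T hT x h, map_out P c r S hS x h]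

theorem map_id (P : Subgroup (Eu n ≃ᵃ[ℝ] Eu n)) (x : Eu n) : extMap P (fun y => y) x = x := by
  unfold extMap
  rw [outside P _ x (fun g _ => sub_self _), add_zero]

theorem map_bij (P : Subgroup (Eu n ≃ᵃ[ℝ] Eu n)) (c : Eu n) (r : ℝ) (hs : Sep P c r)
    (T : Eu n → Eu n) (hb : Function.Bijective T) (hT : ∀ x, r ≤ dist x c → T x = x) :
    Function.Bijective (extMap P T) := by
  obtain ⟨S, hl, hr⟩ := Function.bijective_iff_has_inverse.1 hb
  have hS : ∀ x, r ≤ dist x c → S x = x := fun x hx => by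
    have := hl x
    rwa [hT x hx] at this
  have hSi : Function.Injective S := hr.injective
  refine Function.bijective_iff_has_inverse.2 ⟨extMap P S, fun x => ?_, fun x => ?_⟩
  · rw [← map_comp P c r hs S T hb.1 hS hT]
    have : (fun y => S (T y)) = fun y => y := funext fun y => hl y
    rw [this, map_id]
  · rw [← map_comp P c r hs T S hSi hT hS]
    have : (fun y => T (S y)) = fun y => y := funext fun y => hr y
    rw [this, map_id]

theorem L_comp_inv (g : Eu n ≃ᵃ[ℝ] Eu n) : (L g).comp (L g⁻¹) = ContinuousLinearMap.id ℝ (Eu n) := by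
  ext1 x
  rw [ContinuousLinearMap.comp_apply, L_ap, L_ap, ← lin_mul, mul_inv_cancel, lin_one]
  rfl

theorem det_conj (g : Eu n ≃ᵃ[ℝ] Eu n) (D : Eu n →L[ℝ] Eu n) :
    (((L g).comp D).comp (L g⁻¹)).det = D.det := by
  have h := congrArg ContinuousLinearMap.det (L_comp_inv g)
  simp only [ContinuousLinearMap.det, ContinuousLinearMap.toLinearMap_comp,
    LinearMap.det_comp, ContinuousLinearMap.coe_id, LinearMap.det_id] at h ⊢
  calc _ = (LinearMap.det (L g : Eu n →ₗ[ℝ] Eu n) * LinearMap.det (L g⁻¹ : Eu n →ₗ[ℝ] Eu n)) *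
        LinearMap.det (D : Eu n →ₗ[ℝ] Eu n) := by ring
    _ = _ := by rw [h, one_mul]

theorem map_det (P : Subgroup (Eu n ≃ᵃ[ℝ] Eu n)) (hP : Deck P) (c : Eu n) (r r' : ℝ)
    (hs : Sep P c r) (hr : r' < r) (T : Eu n → Eu n) (hd : Differentiable ℝ T)
    (hT : ∀ x, r' ≤ dist x c → T x = x) (hdet : ∀ x, (fderiv ℝ T x).det = 1) (x : Eu n) :
    (fderiv ℝ (extMap P T) x).det = 1 := by
  rcases cases P c r x with ⟨g, hg, z, hz, rfl⟩ | h
  · have h3 : IsOpen {y : Eu n | dist (g⁻¹ y) c < r} :=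
      isOpen_lt ((cont g⁻¹).dist continuous_const) continuous_const
    have h4 : g z ∈ {y : Eu n | dist (g⁻¹ y) c < r} := by
      change dist (g⁻¹ (g z)) c < r
      rw [inv_ap']
      exact hz
    have h5 : extMap P T =ᶠ[nhds (g z)] fun y => g (T (g⁻¹ y)) := by
      filter_upwards [h3.mem_nhds h4] with q hq
      have h5 := map_at P c r hs T (fun x hx => hT x (hr.le.trans hx)) g hg (g⁻¹ q) hq
      rw [inv_ap] at h5
      exact h5
    have h6 : HasFDerivAt (fun y => g (T (g⁻¹ y))) (((L g).comp (fderiv ℝ T z)).comp (L g⁻¹))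
        (g z) := by
      have h7 : HasFDerivAt T (fderiv ℝ T z) (g⁻¹ (g z)) := by
        rw [inv_ap']
        exact (hd z).hasFDerivAt
      have h8 : HasFDerivAt (fun y => T (g⁻¹ y)) ((fderiv ℝ T z).comp (L g⁻¹)) (g z) :=
        h7.comp (g z) (hasFDeriv g⁻¹ (g z))
      have h9 := (hasFDeriv g (T (g⁻¹ (g z)))).comp (g z) h8
      exact h9
    rw [h5.fderiv_eq, h6.fderiv, det_conj, hdet]
  · obtain ⟨U, hU, hxU, hU'⟩ := away P hP c r r' hr x h
    have h5 : extMap P T =ᶠ[nhds x] fun y => y := by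
      filter_upwards [hU.mem_nhds hxU] with q hq
      exact map_out P c r' T hT q (hU' q hq)
    rw [h5.fderiv_eq, fderiv_fun_id]
    simp [ContinuousLinearMap.det]

theorem fam (P : Subgroup (Eu n ≃ᵃ[ℝ] Eu n)) (hP : Deck P) (c : Eu n) (r r' : ℝ)
    (hs : Sep P c r) (hr : r' < r) {E : Type*} [NormedAddCommGroup E] [NormedSpace ℝ E]
    (T : E → Eu n → Eu n) (hT : BallFam c r' T) : IsFam P (fun e => extMap P (T e)) where
  smooth := by
    have h1 : ContDiff ℝ ∞ (fun q : E × Eu n => ext P ((fun e y => T e y - y) q.1) q.2) :=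
      smooth P hP c r r' hs hr (fun e y => T e y - y) (hT.smooth.sub contDiff_snd)
        (fun e x hx => by rw [hT.out e x hx, sub_self])
    exact contDiff_snd.add h1
  bij := fun e => map_bij P c r hs (T e) (hT.bij e) (fun x hx => hT.out e x (hr.le.trans hx))
  det := fun e x => by
    refine map_det P hP c r r' hs hr (T e) ?_ (hT.out e) (hT.det e) x
    have h1 : ContDiff ℝ ∞ (T e) := hT.smooth.comp (contDiff_const.prodMk contDiff_id)
    exact h1.differentiable (by simp)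
  equi := fun e g hg x => map_equi P (T e) g hg x

/-! ### Velocities -/

theorem invFun_eq {T : Eu n → Eu n} (hT : Function.Injective T) {x y : Eu n} (h : T x = y) :
    Function.invFun T y = x := by
  rw [← h]
  exact Function.leftInverse_invFun hT x

theorem velOut (c : Eu n) (r' : ℝ) (T : ℝ → Eu n → Eu n) (hT : BallFam c r' T) (t : ℝ) (x : Eu n)
    (hx : r' ≤ dist x c) : vel T t x = 0 := by
  unfold vel
  rw [invFun_eq (hT.bij t).1 (hT.out t x hx)]
  have : (fun τ => T τ x) = fun _ => x := funext fun τ => hT.out τ x hx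
  rw [this, deriv_const]

theorem velExt (P : Subgroup (Eu n ≃ᵃ[ℝ] Eu n)) (c : Eu n) (r r' : ℝ)
    (hs : Sep P c r) (hr : r' < r) (T : ℝ → Eu n → Eu n) (hT : BallFam c r' T) (t : ℝ) (x : Eu n) :
    vel (fun t => extMap P (T t)) t x = ext P (vel T t) x := by
  have hO : ∀ t x, r ≤ dist x c → T t x = x := fun t x hx => hT.out t x (hr.le.trans hx)
  have hb := map_bij P c r hs (T t) (hT.bij t) (hO t)
  obtain ⟨y, rfl⟩ := hb.2 x
  have hv : ∀ x, r ≤ dist x c → vel T t x = 0 := fun x hx =>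
    velOut c r' T hT t x (hr.le.trans hx)
  have h0 : vel (fun t => extMap P (T t)) t (extMap P (T t) y) =
      deriv (fun τ => extMap P (T τ) y) t := by
    unfold vel
    rw [invFun_eq hb.1 rfl]
  rw [h0]
  rcases cases P c r y with ⟨g, hg, z, hz, rfl⟩ | h
  · have h1 : (fun τ => extMap P (T τ) (g z)) = fun τ => g (T τ z) :=
      funext fun τ => map_at P c r hs (T τ) (hO τ) g hg z hz
    rw [h1, map_at P c r hs (T t) (hO t) g hg z hz,
      ext_at P c r hs (vel T t) hv g hg (T t z) (maps_ball (hT.bij t).1 (hO t) hz)]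
    have h2 : vel T t (T t z) = deriv (fun τ => T τ z) t := by
      unfold vel
      rw [invFun_eq (hT.bij t).1 rfl]
    rw [h2]
    have h3 : ContDiff ℝ ∞ (fun τ => T τ z) := hT.smooth.comp (contDiff_id.prodMk contDiff_const)
    have h4 : HasDerivAt (fun τ => T τ z) (deriv (fun τ => T τ z) t) t :=
      ((h3.differentiable (by simp)) t).hasDerivAt
    have h5 := (hasFDeriv g (T t z)).comp_hasDerivAt t h4
    exact h5.deriv
  · have h1 : (fun τ => extMap P (T τ) y) = fun _ => y :=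
      funext fun τ => map_out P c r (T τ) (hO τ) y h
    rw [h1, map_out P c r (T t) (hO t) y h, deriv_const,
      outside P (vel T t) y (fun g hg => hv _ (h g hg))]

end ExtKA

/-- Extension from small balls. -/
theorem extKit : ExtKit where
  smooth := fun _ P hP c r r' hs hr _ _ _ u hu h0 => ExtKA.smooth P hP c r r' hs hr u hu h0
  equi := fun _ P u g hg x => ExtKA.equi P u g hg x
  inside := fun _ P c r hs u hu x hx => ExtKA.inside P c r hs u hu x hx
  outside := fun _ P u x h => ExtKA.outside P u x h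
  fam := fun _ P hP c r r' hs _ hr _ _ _ T hT => ExtKA.fam P hP c r r' hs hr T hT
  comp := fun _ P c r r' hs _ hr _ _ _ S T hS hT e x =>
    ExtKA.map_comp P c r hs (S e) (T e) (hT.bij e).1 (fun x hx => hS.out e x (hr.le.trans hx))
      (fun x hx => hT.out e x (hr.le.trans hx)) x
  velExt := fun _ P _ c r r' hs _ hr T hT t x => ExtKA.velExt P c r r' hs hr T hT t x
  velOut := fun _ c r' T hT t x hx => ExtKA.velOut c r' T hT t x hx

end

end Pool.Agent.H68.VD
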