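import Pool.Agent.H68.VD.ExtK

/-! # Bounds of extensions -/

namespace Pool.Agent.H68.VD

open MeasureTheory Set
open scoped ENNReal ContDiff

noncomputable section

namespace ExtNA

variable {n : ℕ}

open ExtKA

theorem lin_eq (g : Eu n ≃ᵃ[ℝ] Eu n) (v : Eu n) : g.linear v = g v - g 0 := by
  have := aff_add g 0 v
  rw [zero_add] at this
  rw [this, add_sub_cancel_left]

theorem lin_of_eq (g ρ : Eu n ≃ᵃ[ℝ] Eu n) (k : Fin n → ℤ) (h : ∀ x, g x = ρ x + iv k) (v : Eu n) :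
    g.linear v = ρ.linear v := by
  rw [lin_eq, lin_eq, h, h]
  abel

/-- The linear parts of a deck group are uniformly bounded. -/
theorem linBound (P : Subgroup (Eu n ≃ᵃ[ℝ] Eu n)) (hP : Deck P) :
    ∃ C : ℝ, 0 ≤ C ∧ ∀ g ∈ P, ∀ v, ‖g.linear v‖ ≤ C * ‖v‖ := by
  obtain ⟨R, hR⟩ := hP.fin
  refine ⟨∑ ρ ∈ R, ‖L ρ‖, Finset.sum_nonneg fun _ _ => norm_nonneg _, ?_⟩
  intro g hg v
  obtain ⟨ρ, hρ, k, hk⟩ := hR g hg
  rw [lin_of_eq g ρ k hk, ← L_ap]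
  refine ((L ρ).le_opNorm v).trans ?_
  refine mul_le_mul_of_nonneg_right ?_ (norm_nonneg _)
  exact Finset.single_le_sum (f := fun ρ => ‖L ρ‖) (fun _ _ => norm_nonneg _) hρ

theorem sup (P : Subgroup (Eu n ≃ᵃ[ℝ] Eu n)) (hP : Deck P) : ∃ C : ℝ, 0 ≤ C ∧ ∀ (c : Eu n) (r : ℝ),
    Sep P c r → ∀ u : Eu n → Eu n, (∀ x, r ≤ dist x c → u x = 0) → ∀ b : ℝ, (∀ x, ‖u x‖ ≤ b) →
    ∀ x, ‖ext P u x‖ ≤ C * b := by
  obtain ⟨C, hC, hb⟩ := linBound P hP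
  refine ⟨C, hC, fun c r hs u hu b hub x => ?_⟩
  have hb0 : 0 ≤ b := (norm_nonneg _).trans (hub x)
  rcases cases P c r x with ⟨g, hg, z, hz, rfl⟩ | h
  · rw [ext_at P c r hs u hu g hg z hz]
    exact (hb g hg _).trans (mul_le_mul_of_nonneg_left (hub z) hC)
  · rw [outside P u x fun g hg => hu _ (h g hg), norm_zero]
    exact mul_nonneg hC hb0

/-! ### The `L^p` bound -/

theorem lint_lin (A : Eu n ≃ₗ[ℝ] Eu n) (f : Eu n → ℝ≥0∞) (hf : Measurable f) :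
    ∫⁻ x, f (A x) = ENNReal.ofReal |(LinearMap.det (A : Eu n →ₗ[ℝ] Eu n))⁻¹| * ∫⁻ x, f x := by
  have hd : LinearMap.det (A : Eu n →ₗ[ℝ] Eu n) ≠ 0 := (LinearEquiv.isUnit_det' A).ne_zero
  have h1 := Measure.map_linearMap_addHaar_eq_smul_addHaar (volume : Measure (Eu n)) hd
  have hm : Measurable (A : Eu n →ₗ[ℝ] Eu n) :=
    (LinearMap.continuous_of_finiteDimensional (A : Eu n →ₗ[ℝ] Eu n)).measurable
  have h2 : ∫⁻ x, f (A x) = ∫⁻ y, f y ∂(Measure.map (A : Eu n →ₗ[ℝ] Eu n) volume) := by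
    rw [lintegral_map hf hm]
    rfl
  rw [h2, h1, lintegral_smul_measure, smul_eq_mul]

theorem lint_aff (g : Eu n ≃ᵃ[ℝ] Eu n) (w : Eu n) (f : Eu n → ℝ≥0∞) (hf : Measurable f) :
    ∫⁻ x, f (g (x - w)) =
      ENNReal.ofReal |(LinearMap.det (g.linear : Eu n →ₗ[ℝ] Eu n))⁻¹| * ∫⁻ x, f x := by
  have h1 : ∫⁻ x, f (g (x - w)) = ∫⁻ x, f (g x) :=
    lintegral_sub_right_eq_self (μ := (volume : Measure (Eu n))) (fun x => f (g x)) w
  have h2 : ∀ x, f (g x) = (fun y => f (y + g 0)) (g.linear x) := by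
    intro x
    change f (g x) = f (g.linear x + g 0)
    rw [lin_eq, sub_add_cancel]
  have h3 : Measurable fun y : Eu n => f (y + g 0) := hf.comp (measurable_id.add_const _)
  rw [h1, lintegral_congr h2, lint_lin g.linear _ h3,
    lintegral_add_right_eq_self (μ := (volume : Measure (Eu n))) f (g 0)]

/-- The integer vectors that matter. -/
theorem bounded_iv {P : Subgroup (Eu n ≃ᵃ[ℝ] Eu n)} (hP : Deck P) (c : Eu n) (r : ℝ) :
    ∃ (R : Finset (Eu n ≃ᵃ[ℝ] Eu n)) (K : Finset (Fin n → ℤ)), ∀ g ∈ P, ∀ z, dist z c < r →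
      g z ∈ cube n → ∃ ρ ∈ R, ∃ k ∈ K, ∀ x, g x = ρ x + iv k := by
  obtain ⟨R, hR⟩ := hP.fin
  obtain ⟨M, hM⟩ := exists_nat_ge (1 + ∑ ρ ∈ R, (‖ρ c‖ + ‖L ρ‖ * |r|))
  refine ⟨R, Fintype.piFinset fun _ => Finset.Icc (-(M : ℤ)) M, fun g hg z hz hgz => ?_⟩
  obtain ⟨ρ, hρ, k, hk⟩ := hR g hg
  refine ⟨ρ, hρ, k, ?_, hk⟩
  rw [Fintype.mem_piFinset]
  intro i
  rw [Finset.mem_Icc]
  have h1 : ‖ρ z‖ ≤ ‖ρ c‖ + ‖L ρ‖ * |r| := by
    have h2 : ρ z = ρ c + L ρ (z - c) := by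
      rw [L_ap, ← aff_add, add_sub_cancel]
    rw [h2]
    refine (norm_add_le _ _).trans ?_
    have h3 := (L ρ).le_opNorm (z - c)
    have h4 : ‖z - c‖ ≤ |r| := by
      rw [← dist_eq_norm]
      exact hz.le.trans (le_abs_self r)
    have h5 := mul_le_mul_of_nonneg_left h4 (norm_nonneg (L ρ))
    linarith
  have h2 : ‖ρ c‖ + ‖L ρ‖ * |r| ≤ ∑ ρ ∈ R, (‖ρ c‖ + ‖L ρ‖ * |r|) :=
    Finset.single_le_sum (f := fun ρ : Eu n ≃ᵃ[ℝ] Eu n => ‖ρ c‖ + ‖L ρ‖ * |r|)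
      (fun _ _ => by positivity) hρ
  have h3 : |(ρ z) i| ≤ ‖ρ z‖ := by
    have := PiLp.norm_apply_le (ρ z) i
    rwa [Real.norm_eq_abs] at this
  have h4 := hgz i
  have h5 : (g z) i = (ρ z) i + (k i : ℝ) := by
    rw [hk z]
    simp [iv]
  rw [h5] at h4
  have h6 := abs_le.1 h3
  have h7 : -(M : ℝ) ≤ (k i : ℝ) := by
    have := h4.1
    linarith [h6.2]
  have h8 : (k i : ℝ) ≤ (M : ℝ) := by
    have := h4.2
    linarith [h6.1]
  constructor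
  · exact_mod_cast h7
  · exact_mod_cast h8

theorem lp (P : Subgroup (Eu n ≃ᵃ[ℝ] Eu n)) (hP : Deck P) (c : Eu n) (r : ℝ) (hs : Sep P c r)
    (p : ℝ) (hp : 1 ≤ p) : ∃ C : ℝ, 0 ≤ C ∧ ∀ u : Eu n → Eu n, Continuous u →
    (∀ x, r ≤ dist x c → u x = 0) →
    ∫⁻ x in cube n, ‖ext P u x‖ₑ ^ p ≤ ENNReal.ofReal C * ∫⁻ x, ‖u x‖ₑ ^ p := by
  obtain ⟨C, hC, hb⟩ := linBound P hP
  obtain ⟨R, K, hRK⟩ := bounded_iv hP c r
  let D : (Eu n ≃ᵃ[ℝ] Eu n) → ℝ := fun ρ => |(LinearMap.det ((ρ⁻¹).linear : Eu n →ₗ[ℝ] Eu n))⁻¹|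
  refine ⟨∑ q ∈ R ×ˢ K, C ^ p * D q.1, Finset.sum_nonneg fun q _ =>
    mul_nonneg (Real.rpow_nonneg hC p) (abs_nonneg _), fun u hu h0 => ?_⟩
  have hp0 : 0 < p := by linarith
  have key : ∀ x ∈ cube n, ‖ext P u x‖ₑ ^ p ≤
      ∑ q ∈ R ×ˢ K, ENNReal.ofReal (C ^ p) * ‖u ((q.1⁻¹ : Eu n ≃ᵃ[ℝ] Eu n) (x - iv q.2))‖ₑ ^ p := by
    intro x hx
    rcases cases P c r x with ⟨g, hg, z, hz, rfl⟩ | h
    · obtain ⟨ρ, hρ, k, hk, hgk⟩ := hRK g hg z hz hx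
      rw [ext_at P c r hs u h0 g hg z hz]
      refine le_trans ?_ (Finset.single_le_sum
        (f := fun q : (Eu n ≃ᵃ[ℝ] Eu n) × (Fin n → ℤ) => ENNReal.ofReal (C ^ p) *
          ‖u ((q.1⁻¹ : Eu n ≃ᵃ[ℝ] Eu n) (g z - iv q.2))‖ₑ ^ p)
        (fun _ _ => zero_le) (Finset.mk_mem_product hρ hk))
      have h1 : (ρ⁻¹ : Eu n ≃ᵃ[ℝ] Eu n) (g z - iv k) = z := by
        rw [hgk z, add_sub_cancel_right, inv_ap']
      simp only [h1]
      have h2 : ‖g.linear (u z)‖ₑ ≤ ENNReal.ofReal C * ‖u z‖ₑ := by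
        rw [← ofReal_norm, ← ofReal_norm, ← ENNReal.ofReal_mul hC]
        exact ENNReal.ofReal_le_ofReal (hb g hg _)
      refine (ENNReal.rpow_le_rpow h2 hp0.le).trans ?_
      rw [ENNReal.mul_rpow_of_nonneg _ _ hp0.le, ENNReal.ofReal_rpow_of_nonneg hC hp0.le]
    · rw [outside P u x fun g hg => h0 _ (h g hg), enorm_zero, ENNReal.zero_rpow_of_pos hp0]
      exact zero_le
  have hmeas : Measurable fun x => ‖u x‖ₑ ^ p := hu.measurable.enorm.pow_const p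
  have hcube : MeasurableSet (cube n) := by
    have : cube n = ⋂ i : Fin n, {x : Eu n | x i ∈ Set.Ico (0 : ℝ) 1} := by
      ext x
      simp [cube]
    rw [this]
    refine MeasurableSet.iInter fun i => ?_
    exact (EuclideanSpace.proj i : Eu n →L[ℝ] ℝ).continuous.measurable measurableSet_Ico
  calc ∫⁻ x in cube n, ‖ext P u x‖ₑ ^ p
      ≤ ∫⁻ x in cube n, ∑ q ∈ R ×ˢ K, ENNReal.ofReal (C ^ p) *
          ‖u ((q.1⁻¹ : Eu n ≃ᵃ[ℝ] Eu n) (x - iv q.2))‖ₑ ^ p := setLIntegral_mono' hcube key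
    _ ≤ ∫⁻ x, ∑ q ∈ R ×ˢ K, ENNReal.ofReal (C ^ p) *
          ‖u ((q.1⁻¹ : Eu n ≃ᵃ[ℝ] Eu n) (x - iv q.2))‖ₑ ^ p := setLIntegral_le_lintegral _ _
    _ = ∑ q ∈ R ×ˢ K, ENNReal.ofReal (C ^ p) * (ENNReal.ofReal (D q.1) * ∫⁻ x, ‖u x‖ₑ ^ p) := by
        have hq : ∀ q : (Eu n ≃ᵃ[ℝ] Eu n) × (Fin n → ℤ), Measurable fun x : Eu n =>
            ‖u ((q.1⁻¹ : Eu n ≃ᵃ[ℝ] Eu n) (x - iv q.2))‖ₑ ^ p := fun q =>
          hmeas.comp ((cont q.1⁻¹).measurable.comp (measurable_id.sub_const _))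
        rw [lintegral_finsetSum _ fun q _ => (hq q).const_mul _]
        refine Finset.sum_congr rfl fun q _ => ?_
        rw [lintegral_const_mul _ (hq q)]
        congr 1
        exact lint_aff q.1⁻¹ (iv q.2) (fun x => ‖u x‖ₑ ^ p) hmeas
    _ = ENNReal.ofReal (∑ q ∈ R ×ˢ K, C ^ p * D q.1) * ∫⁻ x, ‖u x‖ₑ ^ p := by
        rw [ENNReal.ofReal_sum_of_nonneg fun q _ =>
          mul_nonneg (Real.rpow_nonneg hC p) (abs_nonneg _), Finset.sum_mul]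
        refine Finset.sum_congr rfl fun q _ => ?_
        rw [ENNReal.ofReal_mul (Real.rpow_nonneg hC p), mul_assoc]

/-! ### Matrix fields -/

/-- Conjugation `A ↦ L_g A L_g^*`. -/
def conj (g : Eu n ≃ᵃ[ℝ] Eu n) : (Eu n →L[ℝ] Eu n) →L[ℝ] (Eu n →L[ℝ] Eu n) :=
  (ContinuousLinearMap.compL ℝ (Eu n) (Eu n) (Eu n) (L g)) ∘L
    ((ContinuousLinearMap.compL ℝ (Eu n) (Eu n) (Eu n)).flip (ContinuousLinearMap.adjoint (L g)))

theorem conj_ap (g : Eu n ≃ᵃ[ℝ] Eu n) (A : Eu n →L[ℝ] Eu n) (x : Eu n) :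
    conj g A x = L g (A (ContinuousLinearMap.adjoint (L g) x)) := rfl

theorem conj_congr (g h : Eu n ≃ᵃ[ℝ] Eu n) (hl : L g = L h) : conj g = conj h := by
  unfold conj
  rw [hl]

theorem conj_norm (g : Eu n ≃ᵃ[ℝ] Eu n) (C : ℝ) (hC : 0 ≤ C) (hb : ∀ v, ‖g.linear v‖ ≤ C * ‖v‖)
    (A : Eu n →L[ℝ] Eu n) : ‖conj g A‖ ≤ C ^ 2 * ‖A‖ := by
  have h1 : ‖L g‖ ≤ C := (L g).opNorm_le_bound hC hb
  have h2 : conj g A = (L g).comp (A.comp (ContinuousLinearMap.adjoint (L g))) := rfl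
  rw [h2]
  have h3 := (L g).opNorm_comp_le (A.comp (ContinuousLinearMap.adjoint (L g)))
  have h4 := A.opNorm_comp_le (ContinuousLinearMap.adjoint (L g))
  rw [LinearIsometryEquiv.norm_map] at h4
  calc ‖(L g).comp (A.comp (ContinuousLinearMap.adjoint (L g)))‖
      ≤ ‖L g‖ * (‖A‖ * ‖L g‖) := h3.trans (mul_le_mul_of_nonneg_left h4 (norm_nonneg _))
    _ ≤ C * (‖A‖ * C) := by
        gcongr
    _ = C ^ 2 * ‖A‖ := by ring

/-- The extension of a matrix field. -/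
def extT (P : Subgroup (Eu n ≃ᵃ[ℝ] Eu n)) (T : Eu n → (Eu n →L[ℝ] Eu n)) (x : Eu n) :
    Eu n →L[ℝ] Eu n :=
  ∑ᶠ g : P, conj (g : Eu n ≃ᵃ[ℝ] Eu n) (T ((g : Eu n ≃ᵃ[ℝ] Eu n)⁻¹ x))

theorem extT_at (P : Subgroup (Eu n ≃ᵃ[ℝ] Eu n)) (c : Eu n) (r : ℝ) (hs : Sep P c r)
    (T : Eu n → (Eu n →L[ℝ] Eu n)) (hT : ∀ x, r ≤ dist x c → T x = 0) (g : Eu n ≃ᵃ[ℝ] Eu n)
    (hg : g ∈ P) (z : Eu n) (hz : dist z c < r) : extT P T (g z) = conj g (T z) := by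
  unfold extT
  rw [finsum_eq_single _ (⟨g, hg⟩ : P)]
  · simp only
    rw [inv_ap']
  · intro h hh
    have h1 : (h : Eu n ≃ᵃ[ℝ] Eu n)⁻¹ * g ∈ P := P.mul_mem (P.inv_mem h.2) hg
    have h2 : (h : Eu n ≃ᵃ[ℝ] Eu n)⁻¹ * g ≠ 1 := by
      intro he
      apply hh
      have := inv_mul_eq_one.1 he
      exact Subtype.ext this
    have h3 := hs.2 _ h1 h2 z hz
    rw [mul_ap] at h3
    rw [hT _ (not_lt.1 h3), map_zero]

theorem extT_out (P : Subgroup (Eu n ≃ᵃ[ℝ] Eu n)) (T : Eu n → (Eu n →L[ℝ] Eu n)) (x : Eu n)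
    (h : ∀ g ∈ P, T (g x) = 0) : extT P T x = 0 := by
  unfold extT
  have : ∀ g : P, conj (g : Eu n ≃ᵃ[ℝ] Eu n) (T ((g : Eu n ≃ᵃ[ℝ] Eu n)⁻¹ x)) = 0 := by
    intro g
    rw [h _ (P.inv_mem g.2), map_zero]
  rw [finsum_congr this, finsum_zero]

theorem extT_smooth (P : Subgroup (Eu n ≃ᵃ[ℝ] Eu n)) (hP : Deck P) (c : Eu n) (r r' : ℝ)
    (hs : Sep P c r) (hr : r' < r) (T : Eu n → (Eu n →L[ℝ] Eu n)) (hT : ContDiff ℝ ∞ T)
    (h0 : ∀ x, r' ≤ dist x c → T x = 0) : ContDiff ℝ ∞ (extT P T) := by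
  rw [contDiff_iff_contDiffAt]
  intro x
  rcases cases P c r x with ⟨g, hg, z, hz, rfl⟩ | h
  · have h1 : ContDiff ℝ ∞ (fun y : Eu n => conj g (T (g⁻¹ y))) :=
      (conj g).contDiff.comp (hT.comp (smoothAff g⁻¹))
    refine h1.contDiffAt.congr_of_eventuallyEq ?_
    have h3 : IsOpen {y : Eu n | dist (g⁻¹ y) c < r} :=
      isOpen_lt ((cont g⁻¹).dist continuous_const) continuous_const
    have h4 : g z ∈ {y : Eu n | dist (g⁻¹ y) c < r} := by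
      change dist (g⁻¹ (g z)) c < r
      rw [inv_ap']
      exact hz
    filter_upwards [h3.mem_nhds h4] with q hq
    have h5 := extT_at P c r hs T (fun x hx => h0 x (hr.le.trans hx)) g hg (g⁻¹ q) hq
    rw [inv_ap] at h5
    exact h5
  · obtain ⟨U, hU, hxU, hU'⟩ := away P hP c r r' hr x h
    have h1 : ContDiff ℝ ∞ (fun _ : Eu n => (0 : Eu n →L[ℝ] Eu n)) := contDiff_const
    refine h1.contDiffAt.congr_of_eventuallyEq ?_
    filter_upwards [hU.mem_nhds hxU] with q hq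
    exact extT_out P T q fun g hg => h0 _ (hU' _ hq g hg)

/-- The integer translation. -/
def tr (k : Fin n → ℤ) : Eu n ≃ᵃ[ℝ] Eu n := AffineEquiv.constVAdd ℝ (Eu n) (iv k)

theorem tr_ap (k : Fin n → ℤ) (x : Eu n) : tr k x = x + iv k := by
  change iv k + x = x + iv k
  rw [add_comm]

theorem extT_per (P : Subgroup (Eu n ≃ᵃ[ℝ] Eu n)) (hP : Deck P) (c : Eu n) (r : ℝ)
    (hs : Sep P c r) (T : Eu n → (Eu n →L[ℝ] Eu n))
    (h0 : ∀ x, r ≤ dist x c → T x = 0) : Per (extT P T) := by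
  intro x k
  have hk : tr k ∈ P := hP.trans k
  rcases cases P c r x with ⟨g, hg, z, hz, rfl⟩ | h
  · have h1 : g z + iv k = (tr k * g) z := by rw [mul_ap, tr_ap]
    rw [h1, extT_at P c r hs T h0 g hg z hz, extT_at P c r hs T h0 _ (P.mul_mem hk hg) z hz]
    have h2 : conj (tr k * g) = conj g := by
      apply conj_congr
      ext1 v
      rw [L_ap, L_ap]
      exact lin_of_eq (tr k * g) g k (fun x => by rw [mul_ap, tr_ap]) v
    rw [h2]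
  · have h1 : ∀ g ∈ P, T (g x) = 0 := fun g hg => h0 _ (h g hg)
    have h2 : ∀ g ∈ P, T (g (x + iv k)) = 0 := by
      intro g hg
      have := h (g * tr k) (P.mul_mem hg hk)
      rw [mul_ap, tr_ap] at this
      exact h0 _ this
    rw [extT_out P T x h1, extT_out P T _ h2]

theorem extT_norm (P : Subgroup (Eu n ≃ᵃ[ℝ] Eu n)) (C : ℝ) (hC : 0 ≤ C)
    (hb : ∀ g ∈ P, ∀ v, ‖g.linear v‖ ≤ C * ‖v‖) (c : Eu n) (r : ℝ)
    (hs : Sep P c r) (T : Eu n → (Eu n →L[ℝ] Eu n))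
    (h0 : ∀ x, r ≤ dist x c → T x = 0) (δ : ℝ) (hδ : ∀ x, ‖T x‖ ≤ δ) (x : Eu n) :
    ‖extT P T x‖ ≤ C ^ 2 * δ := by
  have hd : 0 ≤ δ := (norm_nonneg _).trans (hδ x)
  rcases cases P c r x with ⟨g, hg, z, hz, rfl⟩ | h
  · rw [extT_at P c r hs T h0 g hg z hz]
    exact (conj_norm g C hC (hb g hg) _).trans (mul_le_mul_of_nonneg_left (hδ z) (sq_nonneg C))
  · rw [extT_out P T x fun g hg => h0 _ (h g hg), norm_zero]
    exact mul_nonneg (sq_nonneg C) hd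

theorem sum_ev (x : Eu n) : ∑ j, inner ℝ (ev j) x • (ev j : Eu n) = x := by
  have h := (EuclideanSpace.basisFun (Fin n) ℝ).sum_repr' x
  simp only [EuclideanSpace.basisFun_apply] at h
  exact h

/-- The trace identity. -/
theorem trace_id (A A' : Eu n →L[ℝ] Eu n) (h : ∀ x, A' (A x) = x)
    (B : Eu n →L[ℝ] (Eu n →L[ℝ] Eu n)) :
    ∑ j, B (A' (ev j)) (ContinuousLinearMap.adjoint A (ev j)) = ∑ k, B (ev k) (ev k) := by
  have h1 : ∀ j, B (A' (ev j)) (ContinuousLinearMap.adjoint A (ev j)) =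
      ∑ k, (inner ℝ (A (ev k)) (ev j : Eu n)) • B (A' (ev j)) (ev k) := by
    intro j
    conv_lhs => rw [← sum_ev (ContinuousLinearMap.adjoint A (ev j))]
    rw [map_sum]
    refine Finset.sum_congr rfl fun k _ => ?_
    rw [map_smul, ContinuousLinearMap.adjoint_inner_right]
  rw [Finset.sum_congr rfl fun j _ => h1 j, Finset.sum_comm]
  refine Finset.sum_congr rfl fun k _ => ?_
  have h2 : ∑ j, (inner ℝ (A (ev k)) (ev j : Eu n)) • B (A' (ev j)) (ev k) =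
      B (A' (∑ j, (inner ℝ (ev j) (A (ev k))) • (ev j : Eu n))) (ev k) := by
    rw [map_sum, map_sum, ContinuousLinearMap.sum_apply]
    refine Finset.sum_congr rfl fun j _ => ?_
    rw [map_smul, map_smul, ContinuousLinearMap.smul_apply, real_inner_comm]
  rw [h2, sum_ev, h]

theorem dv_out (T : Eu n → (Eu n →L[ℝ] Eu n)) (c : Eu n) (r r' : ℝ) (hr : r' < r)
    (h0 : ∀ x, r' ≤ dist x c → T x = 0) (x : Eu n) (hx : r ≤ dist x c) : dv T x = 0 := by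
  have h1 : T =ᶠ[nhds x] fun _ => 0 := by
    have h2 : IsOpen {y : Eu n | r' < dist y c} := isOpen_lt continuous_const
      (continuous_id.dist continuous_const)
    filter_upwards [h2.mem_nhds (show x ∈ {y : Eu n | r' < dist y c} from hr.trans_le hx)] with y hy
    exact h0 y (le_of_lt hy)
  unfold dv
  refine Finset.sum_eq_zero fun j _ => ?_
  rw [h1.fderiv_eq]
  simp

theorem dvExt (P : Subgroup (Eu n ≃ᵃ[ℝ] Eu n)) (hP : Deck P) (c : Eu n) (r r' : ℝ)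
    (hs : Sep P c r) (hr : r' < r) (T : Eu n → (Eu n →L[ℝ] Eu n)) (hT : ContDiff ℝ ∞ T)
    (h0 : ∀ x, r' ≤ dist x c → T x = 0) (x : Eu n) : dv (extT P T) x = ext P (dv T) x := by
  have hO : ∀ x, r ≤ dist x c → T x = 0 := fun x hx => h0 x (hr.le.trans hx)
  have hdv := dv_out T c r r' hr h0
  rcases cases P c r x with ⟨g, hg, z, hz, rfl⟩ | h
  · rw [ext_at P c r hs (dv T) hdv g hg z hz]
    have h3 : IsOpen {y : Eu n | dist (g⁻¹ y) c < r} :=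
      isOpen_lt ((cont g⁻¹).dist continuous_const) continuous_const
    have h4 : g z ∈ {y : Eu n | dist (g⁻¹ y) c < r} := by
      change dist (g⁻¹ (g z)) c < r
      rw [inv_ap']
      exact hz
    have h5 : extT P T =ᶠ[nhds (g z)] fun y => conj g (T (g⁻¹ y)) := by
      filter_upwards [h3.mem_nhds h4] with q hq
      have h5 := extT_at P c r hs T hO g hg (g⁻¹ q) hq
      rw [inv_ap] at h5
      exact h5
    have h6 : HasFDerivAt (fun y => conj g (T (g⁻¹ y)))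
        ((conj g).comp ((fderiv ℝ T z).comp (L g⁻¹))) (g z) := by
      have h7 : HasFDerivAt T (fderiv ℝ T z) (g⁻¹ (g z)) := by
        rw [inv_ap']
        exact ((hT.differentiable (by simp)) z).hasFDerivAt
      have h8 : HasFDerivAt (fun y => T (g⁻¹ y)) ((fderiv ℝ T z).comp (L g⁻¹)) (g z) :=
        h7.comp (g z) (hasFDeriv g⁻¹ (g z))
      exact (conj g).hasFDerivAt.comp (g z) h8
    unfold dv
    rw [h5.fderiv_eq, h6.fderiv, map_sum]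
    have h7 : ∀ j, ((conj g).comp ((fderiv ℝ T z).comp (L g⁻¹)) (ev j)) (ev j) =
        L g ((fderiv ℝ T z) (L g⁻¹ (ev j)) (ContinuousLinearMap.adjoint (L g) (ev j))) :=
      fun j => rfl
    rw [Finset.sum_congr rfl fun j _ => h7 j, ← map_sum, ← map_sum,
      trace_id (L g) (L g⁻¹) (fun x => ?_) (fderiv ℝ T z)]
    · rfl
    · rw [L_ap, L_ap, ← lin_mul, inv_mul_cancel, lin_one]
  · rw [outside P (dv T) x fun g hg => hdv _ (h g hg)]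
    obtain ⟨U, hU, hxU, hU'⟩ := away P hP c r r' hr x h
    have h5 : extT P T =ᶠ[nhds x] fun _ => 0 := by
      filter_upwards [hU.mem_nhds hxU] with q hq
      exact extT_out P T q fun g hg => h0 _ (hU' q hq g hg)
    unfold dv
    refine Finset.sum_eq_zero fun j _ => ?_
    rw [h5.fderiv_eq]
    simp

end ExtNA

/-- Bounds of extensions. -/
theorem extNorm : ExtNorm where
  sup := fun _ P hP => ExtNA.sup P hP
  lp := fun _ P hP c r hs p hp => ExtNA.lp P hP c r hs p hp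
  dvExt := fun _ P hP => by
    obtain ⟨C, hC, hb⟩ := ExtNA.linBound P hP
    refine ⟨C ^ 2, sq_nonneg C, fun c r r' hs hr T hT h0 δ hδ => ?_⟩
    have hO : ∀ x, r ≤ dist x c → T x = 0 := fun x hx => h0 x (hr.le.trans hx)
    exact ⟨ExtNA.extT P T, ExtNA.extT_smooth P hP c r r' hs hr T hT h0,
      ExtNA.extT_per P hP c r hs T hO, ExtNA.extT_norm P C hC hb c r hs T hO δ hδ,
      ExtNA.dvExt P hP c r r' hs hr T hT h0⟩

end

end Pool.Agent.H68.VD
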