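import Pool.Agent.H68.VD.St2

/-! # The diameter is infinite for norms which dominate the `L^1` norm -/

namespace Pool.Agent.H68.VD

open MeasureTheory Set
open scoped ENNReal ContDiff

noncomputable section

namespace InfDA

variable {n : ℕ}

/-! ### Translations -/

theorem tr_ap (w x : Eu n) : AffineEquiv.constVAdd ℝ (Eu n) w x = x + w := by
  simp [add_comm]

theorem equi_iv {P : Subgroup (Eu n ≃ᵃ[ℝ] Eu n)} (hP : Deck P) {f : Eu n → Eu n}
    (hf : ∀ g ∈ P, ∀ x, f (g x) = g (f x)) (x : Eu n) (k : Fin n → ℤ) :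
    f (x + iv k) = f x + iv k := by
  have := hf _ (hP.trans k) x
  rwa [tr_ap, tr_ap] at this

/-- Integer parts. -/
theorem exists_cube (x : Eu n) : ∃ l : Fin n → ℤ, x - iv l ∈ cube n := by
  refine ⟨fun i => ⌊x i⌋, fun i => ?_⟩
  have h : (x - iv fun i => ⌊x i⌋) i = Int.fract (x i) := by
    simp only [iv, PiLp.sub_apply]
    rfl
  rw [h]
  exact ⟨Int.fract_nonneg _, Int.fract_lt_one _⟩

/-- An affine equivalence whose linear part fixes the integer vectors is a translation. -/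
theorem is_trans (g : Eu n ≃ᵃ[ℝ] Eu n) (hg : ∀ k : Fin n → ℤ, g.linear (iv k) = iv k) (x : Eu n) :
    g x = x + g 0 := by
  have h1 : ∀ y : Eu n, g.linear y = y := by
    intro y
    have h2 : (g.linear : Eu n →ₗ[ℝ] Eu n) = LinearMap.id := by
      refine (EuclideanSpace.basisFun (Fin n) ℝ).toBasis.ext fun i => ?_
      have h3 : (EuclideanSpace.basisFun (Fin n) ℝ).toBasis i = iv (Pi.single i 1) := by
        ext j
        by_cases h : j = i
        · subst h
          simp [iv]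
        · simp [iv, h]
      rw [h3]
      exact hg _
    exact congrArg (fun f : Eu n →ₗ[ℝ] Eu n => f y) h2
  have h4 := g.map_vadd 0 x
  simp only [vadd_eq_add, add_zero] at h4
  rw [h4, h1]

/-! ### Integrals over the cube -/

theorem cube_sub : cube n ⊆ Metric.closedBall (0 : Eu n) (Real.sqrt n) := by
  intro x hx
  rw [mem_closedBall_zero_iff, EuclideanSpace.norm_eq]
  refine Real.sqrt_le_sqrt ?_
  calc ∑ i, ‖x i‖ ^ 2 ≤ ∑ _i : Fin n, (1 : ℝ) := by
        refine Finset.sum_le_sum fun i _ => ?_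
        have h1 := hx i
        have h2 : ‖x i‖ ≤ 1 := by
          rw [Real.norm_eq_abs, abs_le]
          exact ⟨by linarith [h1.1], h1.2.le⟩
        exact pow_le_one₀ (norm_nonneg _) h2
    _ = n := by simp

theorem cube_meas : MeasurableSet (cube n) := by
  have : cube n = ⋂ i, {x : Eu n | x i ∈ Set.Ico (0 : ℝ) 1} := by
    ext x
    simp [cube]
  rw [this]
  refine MeasurableSet.iInter fun i => ?_
  exact (EuclideanSpace.proj i : Eu n →L[ℝ] ℝ).continuous.measurable measurableSet_Ico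

theorem intOn {f : Eu n → Eu n} (hf : Continuous f) : IntegrableOn f (cube n) :=
  (hf.continuousOn.integrableOn_compact (isCompact_closedBall _ _)).mono_set cube_sub

theorem cube_fin : volume (cube n) < ⊤ :=
  (measure_mono cube_sub).trans_lt measure_closedBall_lt_top

/-! ### Iterates -/

theorem isPath_iter (F : FamKit) (P : Subgroup (Eu n ≃ᵃ[ℝ] Eu n)) (φ : ℝ → Eu n → Eu n)
    (hφ : IsPath P φ) (m : ℕ) : IsPath P (fun t => (φ t)^[m]) := by
  induction m with
  | zero => exact F.id n P ℝ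
  | succ m ih => exact F.comp n P ℝ (fun t => (φ t)^[m]) φ ih hφ

theorem inG_iter (F : FamKit) (P : Subgroup (Eu n ≃ᵃ[ℝ] Eu n)) (h : Eu n → Eu n) (hh : InG P h)
    (m : ℕ) : InG P (h^[m]) := by
  obtain ⟨φ, hφ, h0, h1⟩ := hh
  refine ⟨fun t => (φ t)^[m], isPath_iter F P φ hφ m, ?_, ?_⟩
  · change (φ 0)^[m] = id
    rw [h0, Function.iterate_id]
  · change (φ 1)^[m] = h^[m]
    rw [h1]

theorem inG_id (F : FamKit) (P : Subgroup (Eu n ≃ᵃ[ℝ] Eu n)) : InG P id :=
  ⟨fun _ x => x, F.id n P ℝ, rfl, rfl⟩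

theorem inG_props {P : Subgroup (Eu n ≃ᵃ[ℝ] Eu n)} {h : Eu n → Eu n} (hh : InG P h) :
    ContDiff ℝ ∞ h ∧ Function.Bijective h ∧ (∀ x, (fderiv ℝ h x).det = 1) ∧
      ∀ g ∈ P, ∀ x, h (g x) = g (h x) := by
  obtain ⟨φ, hφ, -, rfl⟩ := hh
  exact ⟨hφ.smooth.comp (contDiff_const.prodMk contDiff_id), hφ.bij 1, hφ.det 1, hφ.equi 1⟩

/-- The flux of an iterate is zero. -/
theorem flux_iter (F : FamKit) (K : FluxKit) (P : Subgroup (Eu n ≃ᵃ[ℝ] Eu n)) (hP : Deck P)
    (h : Eu n → Eu n) (hh : InG P h) (h0 : ∫ x in cube n, (h x - x) = 0) (m : ℕ) :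
    ∫ x in cube n, ((h^[m]) x - x) = 0 := by
  induction m with
  | zero => simp
  | succ m ih =>
    obtain ⟨hs, hb, hd, he⟩ := inG_props hh
    obtain ⟨hs', -, -, he'⟩ := inG_props (inG_iter F P h hh m)
    have e1 : ∀ x, (h^[m + 1]) x - x = ((h^[m]) (h x) - h x) + (h x - x) := fun x => by
      rw [Function.iterate_succ_apply]; abel
    have c1 : Continuous fun x => (h^[m]) (h x) - h x :=
      (hs'.continuous.comp hs.continuous).sub hs.continuous
    have c2 : Continuous fun x => h x - x := hs.continuous.sub continuous_id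
    have e2 := K.cov n h hs hb hd (equi_iv hP he) (fun y => (h^[m]) y - y)
      (hs'.continuous.sub continuous_id) (fun x k => by
        change (h^[m]) (x + iv k) - (x + iv k) = (h^[m]) x - x
        rw [equi_iv hP he']; abel)
    simp only [e1]
    rw [integral_add (intOn c1) (intOn c2), h0, add_zero, e2, ih]

/-- Iterates near the shifted ball. -/
theorem iter_at {P : Subgroup (Eu n ≃ᵃ[ℝ] Eu n)} (hP : Deck P) {h : Eu n → Eu n}
    (he : ∀ g ∈ P, ∀ x, h (g x) = g (h x)) {k : Fin n → ℤ} (m : ℕ) (x : Eu n)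
    (hx : h x = x + iv k) : (h^[m]) x = x + (m : ℝ) • iv k := by
  induction m with
  | zero => simp
  | succ m ih =>
    rw [Function.iterate_succ_apply', ih]
    have h1 : ∀ (j : ℕ) (y : Eu n), h (y + (j : ℝ) • iv k) = h y + (j : ℝ) • iv k := by
      intro j
      induction j with
      | zero => intro y; simp
      | succ j ihj =>
        intro y
        have e1 : y + ((j + 1 : ℕ) : ℝ) • iv k = (y + (j : ℝ) • iv k) + iv k := by
          push_cast; rw [add_smul, one_smul, add_assoc]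
        rw [e1, equi_iv hP he, ihj]
        push_cast; rw [add_smul, one_smul, add_assoc]
    rw [h1, hx]
    push_cast
    rw [add_smul, one_smul]
    abel

/-! ### The lower bound -/

theorem per_vel (F : FamKit) {P : Subgroup (Eu n ≃ᵃ[ℝ] Eu n)} (hP : Deck P)
    {φ : ℝ → Eu n → Eu n} (hφ : IsPath P φ) (t : ℝ) : Per (vel φ t) := by
  intro x k
  have := F.velEqui n P φ hφ _ (hP.trans k) t x
  rw [tr_ap] at this
  rw [this]
  rfl

theorem cont_vel (F : FamKit) {P : Subgroup (Eu n ≃ᵃ[ℝ] Eu n)}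
    {φ : ℝ → Eu n → Eu n} (hφ : IsPath P φ) (t : ℝ) : Continuous (vel φ t) :=
  (F.velSmooth n P φ hφ).continuous.comp (Continuous.prodMk_right t)

theorem len_low (F : FamKit) (D : DispLow) {P : Subgroup (Eu n ≃ᵃ[ℝ] Eu n)} (hP : Deck P)
    {N : (Eu n → Eu n) → ℝ≥0∞} {c : ℝ} (hN : ∀ u : Eu n → Eu n, Continuous u → Per u →
      ENNReal.ofReal c * ∫⁻ x in cube n, ‖u x‖ₑ ≤ N u)
    {φ : ℝ → Eu n → Eu n} (hφ : IsPath P φ) :
    ENNReal.ofReal c * ∫⁻ x in cube n, ‖φ 1 x - φ 0 x‖ₑ ≤ len N φ := by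
  calc ENNReal.ofReal c * ∫⁻ x in cube n, ‖φ 1 x - φ 0 x‖ₑ
      ≤ ENNReal.ofReal c * ∫⁻ t in Set.Icc (0 : ℝ) 1, ∫⁻ x in cube n, ‖vel φ t x‖ₑ :=
        mul_le_mul_right (D n P hP φ hφ) _
    _ = ∫⁻ t in Set.Icc (0 : ℝ) 1, ENNReal.ofReal c * ∫⁻ x in cube n, ‖vel φ t x‖ₑ :=
        (lintegral_const_mul' _ _ ENNReal.ofReal_ne_top).symm
    _ ≤ len N φ := lintegral_mono fun t => hN _ (cont_vel F hφ t) (per_vel F hP hφ t)

/-- A nonempty open subset of the cube near a point of the cube. -/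
theorem exists_open {z : Eu n} (hz : z ∈ cube n) {δ : ℝ} (hδ : 0 < δ) :
    ∃ U : Set (Eu n), MeasurableSet U ∧ U ⊆ cube n ∧ 0 < volume U ∧ ∀ x ∈ U, ‖x - z‖ < δ := by
  let V : Set (Eu n) := ⋂ i, {x : Eu n | x i ∈ Set.Ioo (0 : ℝ) 1}
  have hV : IsOpen V := isOpen_iInter_of_finite fun i =>
    isOpen_Ioo.preimage (EuclideanSpace.proj i : Eu n →L[ℝ] ℝ).continuous
  have hU : IsOpen (V ∩ Metric.ball z δ) := hV.inter Metric.isOpen_ball
  refine ⟨V ∩ Metric.ball z δ, hU.measurableSet, ?_, hU.measure_pos volume ?_, ?_⟩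
  · intro x hx i
    have := mem_iInter.1 hx.1 i
    exact ⟨this.1.le, this.2⟩
  · -- the path `t ↦ z + t (w - z)` with `w` the centre of the cube
    let w : Eu n := WithLp.toLp 2 fun _ => (1 / 2 : ℝ)
    obtain ⟨s, hs0, hs1, hs⟩ : ∃ s : ℝ, 0 < s ∧ s ≤ 1 ∧ s * ‖w - z‖ < δ := by
      have h1 : 0 < ‖w - z‖ + 1 := by positivity
      refine ⟨min 1 (δ / (‖w - z‖ + 1)), by positivity, min_le_left _ _, ?_⟩
      calc min 1 (δ / (‖w - z‖ + 1)) * ‖w - z‖ ≤ δ / (‖w - z‖ + 1) * ‖w - z‖ :=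
            mul_le_mul_of_nonneg_right (min_le_right _ _) (norm_nonneg _)
        _ < δ / (‖w - z‖ + 1) * (‖w - z‖ + 1) := by
            apply mul_lt_mul_of_pos_left (by linarith) (by positivity)
        _ = δ := by field_simp
    refine ⟨z + s • (w - z), mem_iInter.2 fun i => ?_, ?_⟩
    · have e : (z + s • (w - z)) i = z i + s * (1 / 2 - z i) := by
        simp [w]
      have h1 := hz i
      change (z + s • (w - z)) i ∈ Set.Ioo (0 : ℝ) 1
      rw [e]
      constructor
      · nlinarith [h1.1, h1.2]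
      · nlinarith [h1.1, h1.2]
    · rw [mem_ball_iff_norm, add_sub_cancel_left, norm_smul, Real.norm_eq_abs, abs_of_pos hs0]
      exact hs
  · intro x hx
    exact mem_ball_iff_norm.1 hx.2

theorem main (F : FamKit) (K : FluxKit) (D : DispLow) (S : Shift) (hn : 2 ≤ n)
    (P : Subgroup (Eu n ≃ᵃ[ℝ] Eu n)) (hP : Deck P) (N : (Eu n → Eu n) → ℝ≥0∞)
    (hN : Dominates N) : diam N P = ⊤ := by
  obtain ⟨c, hc, hN⟩ := hN
  obtain ⟨h, hh, hflux, x0, k, δ, hk, hδ, hsh⟩ := S n hn P hP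
  obtain ⟨hs, hb, hd, he⟩ := inG_props hh
  -- move the ball to the cube
  obtain ⟨l, hl⟩ := exists_cube x0
  have hsh' : ∀ x : Eu n, ‖x - (x0 - iv l)‖ < δ → h x = x + iv k := by
    intro x hx
    have h1 := hsh (x - (x0 - iv l)) hx
    have h2 : x0 + (x - (x0 - iv l)) = x + iv l := by abel
    rw [h2, equi_iv hP he] at h1
    have h3 : x + iv l + iv k = x + iv k + iv l := by abel
    rw [h3] at h1
    exact add_right_cancel h1
  obtain ⟨U, hUm, hUc, hUp, hU⟩ := exists_open hl hδ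
  have hUf : volume U < ⊤ := (measure_mono hUc).trans_lt cube_fin
  -- the bound for the m-th iterate
  have key : ∀ m : ℕ, (m : ℝ≥0∞) * (ENNReal.ofReal c * (volume U * ‖iv k‖ₑ)) ≤ 2 * diam N P := by
    intro m
    have hm := inG_iter F P h hh m
    obtain ⟨hs', hb', -, he'⟩ := inG_props hm
    have h1 : gdist N P id (h^[m]) ≤ diam N P := by
      unfold diam
      exact le_iSup₂_of_le id (inG_id F P) (le_iSup₂_of_le (h^[m]) hm le_rfl)
    refine le_trans ?_ (mul_le_mul_right h1 2)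
    unfold gdist
    have h2 : (m : ℝ≥0∞) * (ENNReal.ofReal c * (volume U * ‖iv k‖ₑ)) / 2 ≤
        ⨅ (φ : ℝ → Eu n → Eu n) (_ : IsPath P φ ∧ φ 0 = id ∧ ∃ γ ∈ P, ∀ x, φ 1 x = γ ((h^[m]) x)),
          len N φ := by
      refine le_iInf₂ fun φ hφ => ?_
      obtain ⟨hφ, hφ0, γ, hγ, hγφ⟩ := hφ
      refine le_trans ?_ (len_low F D hP hN hφ)
      -- `γ` is a translation
      have hγl : ∀ j : Fin n → ℤ, γ.linear (iv j) = iv j := by
        intro j
        have a1 : φ 1 (iv j) = φ 1 0 + iv j := by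
          have := equi_iv hP (hφ.equi 1) 0 j
          rwa [zero_add] at this
        rw [hγφ, hγφ] at a1
        have a2 : (h^[m]) (iv j) = (h^[m]) 0 + iv j := by
          have := equi_iv hP he' 0 j
          rwa [zero_add] at this
        have a3 := γ.map_vadd ((h^[m]) 0) (iv j)
        simp only [vadd_eq_add] at a3
        rw [a2, add_comm ((h^[m]) 0) (iv j), a3, add_comm (γ ((h^[m]) 0)) (iv j)] at a1
        exact add_right_cancel a1
      have hγt : ∀ x, γ x = x + γ 0 := is_trans γ hγl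
      set w : Eu n := γ 0 with hw
      have hφx : ∀ x, φ 1 x - φ 0 x = ((h^[m]) x - x) + w := by
        intro x
        rw [hγφ, hφ0, hγt, id]
        abel
      set I : ℝ≥0∞ := ∫⁻ x in cube n, ‖φ 1 x - φ 0 x‖ₑ with hI
      -- first bound
      have b1 : volume U * ‖(m : ℝ) • iv k + w‖ₑ ≤ I := by
        calc volume U * ‖(m : ℝ) • iv k + w‖ₑ = ∫⁻ _ in U, ‖(m : ℝ) • iv k + w‖ₑ := by
              rw [setLIntegral_const, mul_comm]
          _ = ∫⁻ x in U, ‖φ 1 x - φ 0 x‖ₑ := by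
              refine setLIntegral_congr_fun hUm fun x hx => ?_
              have := iter_at hP he m x (hsh' x (hU x hx))
              rw [hφx, this]
              congr 1
              abel
          _ ≤ I := lintegral_mono_set hUc
      -- second bound
      have b2 : volume U * ‖w‖ₑ ≤ I := by
        have c1 : Continuous fun x => (h^[m]) x - x := hs'.continuous.sub continuous_id
        have a1 : ∫ x in cube n, (φ 1 x - φ 0 x) = (volume (cube n)).toReal • w := by
          simp only [hφx]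
          rw [integral_add (intOn c1) (intOn continuous_const),
            flux_iter F K P hP h hh hflux m, zero_add, setIntegral_const]
          rfl
        have a2 : ‖∫ x in cube n, (φ 1 x - φ 0 x)‖ₑ ≤ I := enorm_integral_le_lintegral_enorm _
        rw [a1, enorm_smul] at a2
        have a3 : ‖(volume (cube n)).toReal‖ₑ = volume (cube n) := by
          rw [Real.enorm_eq_ofReal ENNReal.toReal_nonneg, ENNReal.ofReal_toReal cube_fin.ne]
        rw [a3] at a2
        exact (mul_le_mul_left (measure_mono hUc) _).trans a2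
      -- the sum
      have b3 : (m : ℝ≥0∞) * ‖iv k‖ₑ ≤ ‖(m : ℝ) • iv k + w‖ₑ + ‖w‖ₑ := by
        have a1 : (m : ℝ≥0∞) * ‖iv k‖ₑ = ‖(m : ℝ) • iv k‖ₑ := by
          rw [enorm_smul]
          congr 1
          simp
        have a2 : (m : ℝ) • iv k = ((m : ℝ) • iv k + w) - w := by abel
        rw [a1]
        conv_lhs => rw [a2]
        exact enorm_sub_le
      have b4 : (m : ℝ≥0∞) * (volume U * ‖iv k‖ₑ) ≤ 2 * I := by
        calc (m : ℝ≥0∞) * (volume U * ‖iv k‖ₑ) = volume U * ((m : ℝ≥0∞) * ‖iv k‖ₑ) := by ring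
          _ ≤ volume U * (‖(m : ℝ) • iv k + w‖ₑ + ‖w‖ₑ) := mul_le_mul_right b3 _
          _ = volume U * ‖(m : ℝ) • iv k + w‖ₑ + volume U * ‖w‖ₑ := mul_add _ _ _
          _ ≤ I + I := add_le_add b1 b2
          _ = 2 * I := (two_mul I).symm
      refine ENNReal.div_le_of_le_mul ?_
      calc (m : ℝ≥0∞) * (ENNReal.ofReal c * (volume U * ‖iv k‖ₑ))
          = ENNReal.ofReal c * ((m : ℝ≥0∞) * (volume U * ‖iv k‖ₑ)) := by ring
        _ ≤ ENNReal.ofReal c * (2 * I) := mul_le_mul_right b4 _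
        _ = ENNReal.ofReal c * I * 2 := by ring
    calc (m : ℝ≥0∞) * (ENNReal.ofReal c * (volume U * ‖iv k‖ₑ))
        = 2 * ((m : ℝ≥0∞) * (ENNReal.ofReal c * (volume U * ‖iv k‖ₑ)) / 2) :=
          (ENNReal.mul_div_cancel (by norm_num) (by norm_num)).symm
      _ ≤ _ := mul_le_mul_right h2 2
  by_contra hne
  have hne2 : 2 * diam N P ≠ ⊤ := ENNReal.mul_ne_top (by norm_num) hne
  have hb0 : ENNReal.ofReal c * (volume U * ‖iv k‖ₑ) ≠ 0 := by
    refine mul_ne_zero ?_ (mul_ne_zero hUp.ne' ?_)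
    · rw [Ne, ENNReal.ofReal_eq_zero]; exact not_le.2 hc
    · exact enorm_ne_zero.2 hk
  obtain ⟨m, hm⟩ := ENNReal.exists_nat_mul_gt hb0 hne2
  exact absurd (key m) (not_le.2 hm)

end InfDA

/-- The diameter is infinite for norms which dominate the `L^1` norm. -/
theorem infDiam (F : FamKit) (K : FluxKit) (D : DispLow) (S : Shift) : InfDiam :=
  fun _ hn P hP N hN => InfDA.main F K D S hn P hP N hN

end

end Pool.Agent.H68.VD
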