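import Pool.Agent.H68.VD.St2

/-! # The central translations are a lattice in the space of the invariant vectors -/

namespace Pool.Agent.H68.VD

open MeasureTheory Set
open scoped ENNReal ContDiff

noncomputable section

namespace LatFixA

variable {n : ℕ}

theorem iv_apply (k : Fin n → ℤ) (i : Fin n) : iv k i = (k i : ℝ) := rfl

theorem iv_add (k l : Fin n → ℤ) : iv (k + l) = iv k + iv l := by
  ext i
  simp [iv_apply]

theorem iv_zero : iv (0 : Fin n → ℤ) = 0 := by
  ext i
  simp [iv_apply]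

theorem linear_eq (g r : Eu n ≃ᵃ[ℝ] Eu n) (k : Fin n → ℤ) (h : ∀ x, g x = r x + iv k) :
    g.linear = r.linear := by
  ext1 v
  have h1 := g.map_vadd 0 v
  have h2 := r.map_vadd 0 v
  rw [h, h] at h1
  rw [h2] at h1
  simp only [vadd_eq_add] at h1
  have h3 : r.linear v = g.linear v := by
    have : r.linear v + r 0 + iv k = g.linear v + r 0 + iv k := by rw [h1]; abel
    exact add_right_cancel (add_right_cancel this)
  exact h3.symm

theorem norm_le_card (y : Eu n) (h : ∀ i, |y i| ≤ 1) : ‖y‖ ≤ n := by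
  have h1 : ‖y‖ ^ 2 ≤ (n : ℝ) := by
    rw [EuclideanSpace.norm_sq_eq]
    calc ∑ i, ‖y i‖ ^ 2 ≤ ∑ _i : Fin n, (1 : ℝ) := by
          apply Finset.sum_le_sum
          intro i _
          rw [Real.norm_eq_abs]
          exact pow_le_one₀ (abs_nonneg _) (h i)
      _ = n := by simp
  rcases Nat.eq_zero_or_pos n with h0 | h0
  · subst h0
    have : ‖y‖ ^ 2 ≤ 0 := by simpa using h1
    have : ‖y‖ = 0 := by nlinarith [norm_nonneg y]
    simp [this]
  · have h2 : (1 : ℝ) ≤ n := by exact_mod_cast h0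
    have h3 : ‖y‖ ^ 2 ≤ (n : ℝ) ^ 2 := by nlinarith
    exact (pow_le_pow_iff_left₀ (norm_nonneg _) (by positivity) two_ne_zero).mp h3

end LatFixA

open LatFixA

theorem latFix : LatFix := by
  intro n P hP
  classical
  set H : Subgroup (Eu n ≃ₗ[ℝ] Eu n) := P.map AffineEquiv.linearHom with hH
  have hmem : ∀ h : Eu n ≃ₗ[ℝ] Eu n, h ∈ H ↔ ∃ g ∈ P, g.linear = h := by
    intro h
    rw [hH, Subgroup.mem_map]
    rfl
  have hfin : Finite H := by
    obtain ⟨R, hR⟩ := hP.fin
    apply Set.Finite.to_subtype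
    apply Set.Finite.subset (R.finite_toSet.image fun r : Eu n ≃ᵃ[ℝ] Eu n => r.linear)
    intro h hh
    obtain ⟨g, hg, rfl⟩ := (hmem h).mp hh
    obtain ⟨r, hr, k, hk⟩ := hR g hg
    exact ⟨r, hr, (linear_eq g r k hk).symm⟩
  have : Fintype H := Fintype.ofFinite H
  set A : Eu n →ₗ[ℝ] Eu n := ∑ h : H, ((h : Eu n ≃ₗ[ℝ] Eu n) : Eu n →ₗ[ℝ] Eu n) with hA
  have hAx : ∀ x, A x = ∑ h : H, (h : Eu n ≃ₗ[ℝ] Eu n) x := by
    intro x
    rw [hA, LinearMap.sum_apply]
    rfl
  have hinv : ∀ g ∈ P, ∀ x, g.linear (A x) = A x := by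
    intro g hg x
    have hgH : g.linear ∈ H := (hmem _).mpr ⟨g, hg, rfl⟩
    rw [hAx, map_sum]
    exact Fintype.sum_equiv (Equiv.mulLeft (⟨g.linear, hgH⟩ : H)) _ _ (fun h => rfl)
  have hfix : ∀ v, (∀ g ∈ P, g.linear v = v) → A v = (Fintype.card H : ℝ) • v := by
    intro v hv
    rw [hAx, Finset.sum_congr rfl (g := fun _ => v)]
    · rw [Finset.sum_const, Finset.card_univ, Nat.cast_smul_eq_nsmul]
    · intro h _
      obtain ⟨g, hg, he⟩ := (hmem h).mp h.2
      rw [← he]
      exact hv g hg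
  have hint : ∀ k : Fin n → ℤ, ∃ l : Fin n → ℤ, A (iv k) = iv l := by
    intro k
    have h1 : ∀ h : H, ∃ l : Fin n → ℤ, (h : Eu n ≃ₗ[ℝ] Eu n) (iv k) = iv l := by
      intro h
      obtain ⟨g, hg, he⟩ := (hmem h).mp h.2
      rw [← he]
      exact hP.int g hg k
    choose l hl using h1
    refine ⟨∑ h : H, l h, ?_⟩
    rw [hAx, Finset.sum_congr rfl fun h _ => hl h]
    have : ∀ s : Finset H, ∑ h ∈ s, iv (l h) = iv (∑ h ∈ s, l h) := by
      intro s
      induction s using Finset.induction_on with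
      | empty => simp [iv_zero]
      | insert a s ha ih => rw [Finset.sum_insert ha, Finset.sum_insert ha, ih, iv_add]
    exact this _
  have hcard : (0 : ℝ) < Fintype.card H := by exact_mod_cast Fintype.card_pos
  refine ⟨‖LinearMap.toContinuousLinearMap A‖ * n, ?_⟩
  intro v hv
  set k : Fin n → ℤ := fun i => round (-(v i / Fintype.card H)) with hk
  obtain ⟨l, hl⟩ := hint k
  refine ⟨A (iv k), ⟨?_, fun g hg => hinv g hg _⟩, ?_⟩
  · rw [hl]
    exact hP.trans l
  · have h1 : v + A (iv k) = A ((Fintype.card H : ℝ)⁻¹ • v + iv k) := by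
      rw [map_add, map_smul, hfix v hv, smul_smul, inv_mul_cancel₀ hcard.ne', one_smul]
    rw [h1]
    refine ((LinearMap.toContinuousLinearMap A).le_opNorm _).trans ?_
    apply mul_le_mul_of_nonneg_left _ (norm_nonneg _)
    apply norm_le_card
    intro i
    have h2 := abs_sub_round (-(v i / Fintype.card H))
    have h3 : ((Fintype.card H : ℝ)⁻¹ • v + iv k) i =
        -(-(v i / Fintype.card H) - (round (-(v i / Fintype.card H)) : ℝ)) := by
      simp only [PiLp.add_apply, PiLp.smul_apply, iv_apply, hk, smul_eq_mul]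
      ring
    rw [h3, abs_neg]
    linarith

end

end Pool.Agent.H68.VD
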