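import Pool.Agent.H68.VD.St

/-! # The oscillating angle -/

namespace Pool.Agent.H68.VD

open MeasureTheory Set
open scoped ENNReal ContDiff

namespace OscA

noncomputable section

/-- A smooth staircase. -/
def kk (e y : ℝ) : ℝ := (⌊y⌋ : ℝ) + Real.smoothTransition ((Int.fract y - (1 - e)) / e)

/-- The distance to the staircase. -/
def gg (e y : ℝ) : ℝ := y - kk e y

lemma kk_loc {e : ℝ} (he : 0 < e) (j : ℤ) {y : ℝ} (h1 : (j : ℝ) - 1 < y)
    (h2 : y < j + 1 - e) : kk e y = j - 1 + Real.smoothTransition ((y - j + e) / e) := by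
  unfold kk
  rcases lt_or_ge y (j : ℝ) with h | h
  · have hf : ⌊y⌋ = j - 1 := by
      rw [Int.floor_eq_iff]
      push_cast
      constructor <;> linarith
    have hfr : Int.fract y = y - (j - 1) := by
      rw [Int.fract, hf]
      push_cast
      ring
    rw [hfr, hf]
    push_cast
    congr 2
    ring
  · have hf : ⌊y⌋ = j := by
      rw [Int.floor_eq_iff]
      constructor <;> linarith
    have hfr : Int.fract y = y - j := by
      rw [Int.fract, hf]
    rw [hfr, hf, Real.smoothTransition.zero_of_nonpos, Real.smoothTransition.one_of_one_le]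
    · ring
    · rw [le_div_iff₀ he]
      linarith
    · apply div_nonpos_of_nonpos_of_nonneg _ he.le
      linarith

lemma kk_smooth {e : ℝ} (he : 0 < e) (he1 : e < 1) : ContDiff ℝ ∞ (kk e) := by
  rw [contDiff_iff_contDiffAt]
  intro y
  obtain ⟨j, hj1, hj2⟩ : ∃ j : ℤ, (j : ℝ) - 1 < y ∧ y < j + 1 - e := by
    rcases lt_or_ge (Int.fract y) (1 - e) with h | h
    · refine ⟨⌊y⌋, ?_, ?_⟩
      · have := Int.floor_le y
        linarith
      · have := Int.floor_add_fract y
        linarith
    · refine ⟨⌊y⌋ + 1, ?_, ?_⟩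
      · have := Int.floor_add_fract y
        push_cast
        linarith
      · have := Int.lt_floor_add_one y
        push_cast
        linarith
  have hs : ContDiff ℝ ∞ (fun y : ℝ => (j : ℝ) - 1 + Real.smoothTransition ((y - j + e) / e)) := by
    apply contDiff_const.add
    apply Real.smoothTransition.contDiff.comp
    exact ((contDiff_id.sub contDiff_const).add contDiff_const).div_const e
  apply hs.contDiffAt.congr_of_eventuallyEq
  filter_upwards [isOpen_Ioo.mem_nhds (show y ∈ Ioo ((j : ℝ) - 1) (j + 1 - e) from ⟨hj1, hj2⟩)] with z hz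
  exact kk_loc he j hz.1 hz.2

lemma kk_int {e : ℝ} (he : 0 < e) {y : ℝ} (h : Int.fract y < 1 - e) : kk e y = (⌊y⌋ : ℝ) := by
  unfold kk
  rw [Real.smoothTransition.zero_of_nonpos, add_zero]
  apply div_nonpos_of_nonpos_of_nonneg _ he.le
  linarith

lemma gg_eq (e y : ℝ) :
    gg e y = Int.fract y - Real.smoothTransition ((Int.fract y - (1 - e)) / e) := by
  unfold gg kk
  have := Int.floor_add_fract y
  linarith

lemma gg_abs (e y : ℝ) : |gg e y| ≤ 1 := by
  rw [gg_eq, abs_le]
  have h1 := Int.fract_nonneg y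
  have h2 := (Int.fract_lt_one y).le
  have h3 := Real.smoothTransition.nonneg ((Int.fract y - (1 - e)) / e)
  have h4 := Real.smoothTransition.le_one ((Int.fract y - (1 - e)) / e)
  constructor <;> linarith

lemma gg_per (e : ℝ) : Function.Periodic (gg e) 1 := by
  intro y
  rw [gg_eq, gg_eq, Int.fract_add_one]

lemma gg_smooth {e : ℝ} (he : 0 < e) (he1 : e < 1) : ContDiff ℝ ∞ (gg e) :=
  contDiff_id.sub (kk_smooth he he1)

/-- The mean. -/
def gm (e : ℝ) : ℝ := ∫ t in (0 : ℝ)..1, gg e t

/-- The periodic primitive. -/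
def hh (e y : ℝ) : ℝ := ∫ t in (0 : ℝ)..y, (gg e t - gm e)

lemma gm_abs (e : ℝ) : |gm e| ≤ 1 := by
  unfold gm
  have := intervalIntegral.norm_integral_le_of_norm_le_const (a := (0 : ℝ)) (b := 1) (C := 1)
    (f := gg e) (fun x _ => by rw [Real.norm_eq_abs]; exact gg_abs e x)
  simpa using this

lemma hh_deriv {e : ℝ} (he : 0 < e) (he1 : e < 1) (y : ℝ) :
    HasDerivAt (hh e) (gg e y - gm e) y := by
  have hc : Continuous (fun t => gg e t - gm e) :=
    (gg_smooth he he1).continuous.sub continuous_const
  exact intervalIntegral.integral_hasDerivAt_right (hc.intervalIntegrable _ _)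
    (hc.stronglyMeasurableAtFilter _ _) hc.continuousAt

lemma hh_per {e : ℝ} (he : 0 < e) (he1 : e < 1) : Function.Periodic (hh e) 1 := by
  intro y
  have hc : Continuous (fun t => gg e t - gm e) :=
    (gg_smooth he he1).continuous.sub continuous_const
  have hp : Function.Periodic (fun t => gg e t - gm e) 1 := by
    intro t
    simp only [gg_per e t]
  have h1 : hh e (y + 1) = hh e y + ∫ t in y..(y + 1), (gg e t - gm e) := by
    unfold hh
    rw [intervalIntegral.integral_add_adjacent_intervals (hc.intervalIntegrable _ _)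
      (hc.intervalIntegrable _ _)]
  rw [h1, hp.intervalIntegral_add_eq y 0, zero_add, intervalIntegral.integral_sub
    ((gg_smooth he he1).continuous.intervalIntegrable _ _)
    (continuous_const.intervalIntegrable _ _)]
  simp [gm]

lemma hh_abs {e : ℝ} (he : 0 < e) (he1 : e < 1) (y : ℝ) : |hh e y| ≤ 2 := by
  have hy : hh e y = hh e (Int.fract y) := by
    have h := (hh_per he he1).sub_zsmul_eq (x := y) ⌊y⌋
    rw [zsmul_one] at h
    rw [Int.fract, h]
  rw [hy]
  have h := intervalIntegral.norm_integral_le_of_norm_le_const (a := (0 : ℝ)) (b := Int.fract y)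
    (C := 2) (f := fun t => gg e t - gm e) (fun x _ => by
      rw [Real.norm_eq_abs]
      have h1 := abs_sub (gg e x) (gm e)
      have h2 := gg_abs e x
      have h3 := gm_abs e
      linarith)
  rw [Real.norm_eq_abs, sub_zero, abs_of_nonneg (Int.fract_nonneg y)] at h
  have h2 := (Int.fract_lt_one y).le
  unfold hh
  linarith

/-- The measure of the bad translations. -/
lemma bad_le {e : ℝ} (he : 0 < e) (c : ℝ) :
    volume ({w : ℝ | 1 - e ≤ Int.fract (c + w)} ∩ Ico 0 1) ≤ ENNReal.ofReal (2 * e) := by
  have hsub : ({w : ℝ | 1 - e ≤ Int.fract (c + w)} ∩ Ico 0 1) ⊆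
      Ico (1 - e - Int.fract c) (1 - Int.fract c) ∪ Ico (2 - e - Int.fract c) (2 - Int.fract c) := by
    rintro w ⟨hw, hw0, hw1⟩
    simp only [mem_ofPred_eq] at hw
    have hc0 := Int.fract_nonneg c
    have hc1 := Int.fract_lt_one c
    have hcw : Int.fract (c + w) = Int.fract (Int.fract c + w) := by
      have : c + w = (Int.fract c + w) + (⌊c⌋ : ℤ) := by
        have := Int.floor_add_fract c
        linarith
      rw [this, Int.fract_add_intCast]
    rw [hcw] at hw
    rcases lt_or_ge (Int.fract c + w) 1 with h | h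
    · left
      have : Int.fract (Int.fract c + w) = Int.fract c + w := by
        rw [Int.fract_eq_self]
        constructor <;> linarith
      rw [this] at hw
      constructor <;> linarith
    · right
      have : Int.fract (Int.fract c + w) = Int.fract c + w - 1 := by
        rw [Int.fract_eq_iff]
        refine ⟨by linarith, by linarith, 1, by push_cast; ring⟩
      rw [this] at hw
      constructor <;> linarith
  refine (measure_mono hsub).trans ((measure_union_le _ _).trans ?_)
  rw [Real.volume_Ico, Real.volume_Ico, ← ENNReal.ofReal_add (by linarith) (by linarith)]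
  apply ENNReal.ofReal_le_ofReal
  linarith

/-- A good translation. -/
lemma good {e : ℝ} (he : 0 < e) (p q : ℝ → ℝ) (hp : Measurable p) (hq : Measurable q)
    (ν : Measure ℝ) [IsFiniteMeasure ν] :
    ∃ w : ℝ, ν {ρ | 1 - e ≤ Int.fract (p ρ + w) ∨ 1 - e ≤ Int.fract (q ρ + w)} ≤
      ENNReal.ofReal (4 * e) * ν univ := by
  set μ : Measure ℝ := volume.restrict (Ico (0 : ℝ) 1) with hμ
  have : IsProbabilityMeasure μ := ⟨by
    rw [hμ, Measure.restrict_apply MeasurableSet.univ, univ_inter, Real.volume_Ico]
    simp⟩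
  set S : Set (ℝ × ℝ) := {z | 1 - e ≤ Int.fract (p z.2 + z.1) ∨ 1 - e ≤ Int.fract (q z.2 + z.1)} with hS
  have hSm : MeasurableSet S := by
    apply MeasurableSet.union
    · exact measurableSet_le measurable_const
        (measurable_fract.comp ((hp.comp measurable_snd).add measurable_fst))
    · exact measurableSet_le measurable_const
        (measurable_fract.comp ((hq.comp measurable_snd).add measurable_fst))
  have h1 : (μ.prod ν) S = ∫⁻ w, ν (Prod.mk w ⁻¹' S) ∂μ := Measure.prod_apply hSm
  have h2 : (μ.prod ν) S = ∫⁻ ρ, μ ((fun w => (w, ρ)) ⁻¹' S) ∂ν := Measure.prod_apply_symm hSm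
  have h3 : ∀ ρ, μ ((fun w => (w, ρ)) ⁻¹' S) ≤ ENNReal.ofReal (4 * e) := by
    intro ρ
    have hm : MeasurableSet ((fun w : ℝ => (w, ρ)) ⁻¹' S) := measurable_prodMk_right hSm
    rw [hμ, Measure.restrict_apply hm]
    have hsub : ((fun w : ℝ => (w, ρ)) ⁻¹' S) ∩ Ico 0 1 ⊆
        ({w : ℝ | 1 - e ≤ Int.fract (p ρ + w)} ∩ Ico 0 1) ∪
        ({w : ℝ | 1 - e ≤ Int.fract (q ρ + w)} ∩ Ico 0 1) := by
      rintro w ⟨hw | hw, hw1⟩
      · exact Or.inl ⟨hw, hw1⟩
      · exact Or.inr ⟨hw, hw1⟩
    refine (measure_mono hsub).trans ((measure_union_le _ _).trans ?_)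
    refine (add_le_add (bad_le he _) (bad_le he _)).trans ?_
    rw [← ENNReal.ofReal_add (by linarith) (by linarith)]
    apply ENNReal.ofReal_le_ofReal
    linarith
  have h4 : (μ.prod ν) S ≤ ENNReal.ofReal (4 * e) * ν univ := by
    rw [h2]
    refine (lintegral_mono h3).trans ?_
    rw [lintegral_const]
  have hmeas : Measurable (fun w => ν (Prod.mk w ⁻¹' S)) := measurable_measure_prodMk_left hSm
  obtain ⟨w, hw⟩ := exists_le_lintegral (μ := μ) hmeas.aemeasurable
  refine ⟨w, ?_⟩
  rw [← h1] at hw
  exact hw.trans h4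

end

end OscA

open OscA in
/-- The oscillating angle. -/
theorem osc : Osc := by
  intro b R hR hb hb0 ν _ ε δ hε hδ
  -- the width
  set V : ℝ := (ν univ).toReal with hV
  have hV0 : 0 ≤ V := ENNReal.toReal_nonneg
  obtain ⟨e, he, he1, heV⟩ : ∃ e : ℝ, 0 < e ∧ e < 1 ∧ 4 * e * V ≤ ε := by
    refine ⟨min (1 / 2) (ε / (4 * V + 1)), ?_, ?_, ?_⟩
    · apply lt_min (by norm_num)
      positivity
    · exact lt_of_le_of_lt (min_le_left _ _) (by norm_num)
    · have h1 : min (1 / 2) (ε / (4 * V + 1)) ≤ ε / (4 * V + 1) := min_le_right _ _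
      have h2 : ε / (4 * V + 1) * (4 * V) ≤ ε := by
        rw [div_mul_eq_mul_div, div_le_iff₀ (by positivity)]
        nlinarith
      nlinarith
  -- the phase
  set β : ℝ → ℝ := fun ρ => b ρ / (4 * Real.pi) with hβ
  have hβs : ContDiff ℝ ∞ β := hb.div_const _
  have hpi : 0 < Real.pi := Real.pi_pos
  have hβ0 : ∀ ρ, R ≤ ρ → β ρ = 0 := by
    intro ρ hρ
    simp only [hβ, hb0 ρ hρ, zero_div]
  have hβd : Continuous (deriv β) := hβs.continuous_deriv (by simp)
  obtain ⟨B, hB⟩ : ∃ B, ∀ ρ ∈ Icc (0 : ℝ) R, |deriv β ρ| ≤ B := by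
    obtain ⟨B, hB⟩ := (isCompact_Icc (a := (0 : ℝ)) (b := R)).exists_bound_of_continuousOn
      hβd.continuousOn
    exact ⟨B, fun ρ hρ => hB ρ hρ⟩
  have hB0 : 0 ≤ B := (abs_nonneg _).trans (hB 0 ⟨le_rfl, hR.le⟩)
  obtain ⟨l, hl, hlδ⟩ : ∃ l : ℝ, 0 < l ∧ 2 * Real.pi * (4 + 2 * B * R) ≤ δ * l := by
    refine ⟨2 * Real.pi * (4 + 2 * B * R) / δ, by positivity, ?_⟩
    rw [mul_div_cancel₀ _ hδ.ne']
  obtain ⟨w, hw⟩ := good he (fun ρ => β ρ + l * ρ) (fun ρ => l * ρ)
    (hβs.continuous.measurable.add (measurable_const.mul measurable_id))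
    (measurable_const.mul measurable_id) ν
  have hgs := gg_smooth he he1
  have hks := kk_smooth he he1
  have hl1 : ContDiff ℝ ∞ (fun ρ : ℝ => β ρ + l * ρ + w) :=
    (hβs.add (contDiff_const.mul contDiff_id)).add contDiff_const
  have hl2 : ContDiff ℝ ∞ (fun ρ : ℝ => l * ρ + w) :=
    (contDiff_const.mul contDiff_id).add contDiff_const
  set a : ℝ → ℝ := fun ρ => 4 * Real.pi * (gg e (β ρ + l * ρ + w) - gg e (l * ρ + w)) with ha
  have has : ContDiff ℝ ∞ a := contDiff_const.mul ((hgs.comp hl1).sub (hgs.comp hl2))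
  have hac : Continuous a := has.continuous
  have ha0 : ∀ ρ, R ≤ ρ → a ρ = 0 := by
    intro ρ hρ
    simp only [ha, hβ0 ρ hρ, zero_add, sub_self, mul_zero]
  have hΨd : ∀ ρ, HasDerivAt (fun ρ => (∫ t in R..ρ, a t) / 2) (a ρ / 2) ρ := by
    intro ρ
    exact (intervalIntegral.integral_hasDerivAt_right (hac.intervalIntegrable _ _)
      (hac.stronglyMeasurableAtFilter _ _) hac.continuousAt).div_const 2
  refine ⟨a, fun ρ => kk e (β ρ + l * ρ + w) - kk e (l * ρ + w),
    fun ρ => (∫ t in R..ρ, a t) / 2, has, (hks.comp hl1).sub (hks.comp hl2), ?_, ?_, ?_, ?_, ?_, ?_, ?_⟩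
  · rw [contDiff_infty_iff_deriv]
    refine ⟨fun ρ => (hΨd ρ).differentiableAt, ?_⟩
    have : deriv (fun ρ => (∫ t in R..ρ, a t) / 2) = fun ρ => a ρ / 2 := by
      ext ρ
      exact (hΨd ρ).deriv
    rw [this]
    exact has.div_const 2
  · intro ρ
    have : b ρ = 4 * Real.pi * β ρ := by
      simp only [hβ]
      field_simp
    rw [this]
    simp only [ha, gg]
    ring
  · intro ρ hρ
    refine ⟨ha0 ρ hρ, ?_, ?_⟩
    · simp only [hβ0 ρ hρ, zero_add, sub_self]
    · have : ∫ t in R..ρ, a t = 0 := by
        rw [intervalIntegral.integral_congr (g := fun _ => (0 : ℝ))]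
        · simp
        · intro t ht
          rw [uIcc_of_le hρ] at ht
          exact ha0 t ht.1
      simp only [this, zero_div]
  · intro ρ
    rw [(hΨd ρ).deriv]
    ring
  · intro ρ hρ
    simp only
    rcases le_or_gt R ρ with h | h
    · have : ∫ t in R..ρ, a t = 0 := by
        rw [intervalIntegral.integral_congr (g := fun _ => (0 : ℝ))]
        · simp
        · intro t ht
          rw [uIcc_of_le h] at ht
          exact ha0 t ht.1
      rw [this]
      simpa using hδ.le
    · -- the primitive
      set G : ℝ → ℝ := fun s => 4 * Real.pi / l * (hh e (β s + l * s + w) - hh e (l * s + w)) with hG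
      set E : ℝ → ℝ := fun s => 4 * Real.pi / l *
        ((gg e (β s + l * s + w) - gm e) * deriv β s) with hE
      have hGd : ∀ s, HasDerivAt G (a s + E s) s := by
        intro s
        have hβs' : HasDerivAt β (deriv β s) s :=
          (hβs.differentiable (by simp)).differentiableAt.hasDerivAt
        have h1 : HasDerivAt (fun s => β s + l * s + w) (deriv β s + l * 1) s :=
          (hβs'.add ((hasDerivAt_id s).const_mul l)).add_const w
        have h2 : HasDerivAt (fun s => l * s + w) (l * 1) s :=
          ((hasDerivAt_id s).const_mul l).add_const w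
        have h3 := (hh_deriv he he1 (β s + l * s + w)).comp s h1
        have h4 := (hh_deriv he he1 (l * s + w)).comp s h2
        have h5 := (h3.sub h4).const_mul (4 * Real.pi / l)
        have h6 : a s + E s = 4 * Real.pi / l * ((gg e (β s + l * s + w) - gm e) *
            (deriv β s + l * 1) - (gg e (l * s + w) - gm e) * (l * 1)) := by
          simp only [ha, hE]
          field_simp
          ring
        rw [h6]
        exact h5
      have hEc : Continuous E := by
        apply continuous_const.mul
        exact (((hgs.continuous.comp hl1.continuous).sub continuous_const)).mul hβd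
      have hint : ∫ t in R..ρ, (a t + E t) = G ρ - G R :=
        intervalIntegral.integral_eq_sub_of_hasDerivAt (fun s _ => hGd s)
          ((hac.add hEc).intervalIntegrable _ _)
      rw [intervalIntegral.integral_add (hac.intervalIntegrable _ _)
        (hEc.intervalIntegrable _ _)] at hint
      have hGR : G R = 0 := by
        simp only [hG, hβ0 R le_rfl, zero_add, sub_self, mul_zero]
      have hGρ : |G ρ| ≤ 4 * Real.pi / l * 4 := by
        simp only [hG]
        rw [abs_mul, abs_of_pos (by positivity : 0 < 4 * Real.pi / l)]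
        apply mul_le_mul_of_nonneg_left _ (by positivity)
        refine (abs_sub _ _).trans ?_
        have h1 := hh_abs he he1 (β ρ + l * ρ + w)
        have h2 := hh_abs he he1 (l * ρ + w)
        linarith
      have hEi : |∫ t in R..ρ, E t| ≤ 4 * Real.pi / l * (2 * B) * R := by
        have h1 := intervalIntegral.norm_integral_le_of_norm_le_const (a := R) (b := ρ)
          (C := 4 * Real.pi / l * (2 * B)) (f := E) (fun t ht => by
            rw [uIoc_of_ge h.le] at ht
            have ht' : t ∈ Icc (0 : ℝ) R := ⟨hρ.trans ht.1.le, ht.2⟩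
            rw [Real.norm_eq_abs]
            simp only [hE]
            rw [abs_mul, abs_of_pos (by positivity : 0 < 4 * Real.pi / l)]
            apply mul_le_mul_of_nonneg_left _ (by positivity)
            rw [abs_mul]
            apply mul_le_mul _ (hB t ht') (abs_nonneg _) (by norm_num)
            refine (abs_sub _ _).trans ?_
            have h1 := gg_abs e (β t + l * t + w)
            have h2 := gm_abs e
            linarith)
        rw [Real.norm_eq_abs] at h1
        refine h1.trans ?_
        apply mul_le_mul_of_nonneg_left _ (by positivity)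
        rw [abs_of_neg (by linarith)]
        linarith
      have hfin : |∫ t in R..ρ, a t| ≤ 4 * Real.pi / l * (4 + 2 * B * R) := by
        have : ∫ t in R..ρ, a t = G ρ - ∫ t in R..ρ, E t := by
          rw [hGR] at hint
          linarith
        rw [this]
        refine (abs_sub _ _).trans ?_
        calc |G ρ| + |∫ t in R..ρ, E t| ≤ 4 * Real.pi / l * 4 + 4 * Real.pi / l * (2 * B) * R :=
              add_le_add hGρ hEi
          _ = 4 * Real.pi / l * (4 + 2 * B * R) := by ring
      rw [abs_div, abs_of_pos (by norm_num : (0 : ℝ) < 2), div_le_iff₀ (by norm_num)]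
      refine hfin.trans ?_
      rw [div_mul_eq_mul_div, div_le_iff₀ hl]
      nlinarith
  · intro ρ
    simp only [ha]
    rw [abs_mul, abs_of_pos (by positivity : 0 < 4 * Real.pi)]
    have h1 := gg_abs e (β ρ + l * ρ + w)
    have h2 := gg_abs e (l * ρ + w)
    have h3 := abs_sub (gg e (β ρ + l * ρ + w)) (gg e (l * ρ + w))
    nlinarith
  · refine (measure_mono ?_).trans (hw.trans ?_)
    · intro ρ hρ
      simp only [mem_ofPred_eq] at hρ ⊢
      by_contra hcon
      push Not at hcon
      apply hρ (⌊β ρ + l * ρ + w⌋ - ⌊l * ρ + w⌋)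
      rw [kk_int he hcon.1, kk_int he hcon.2]
      push_cast
      ring
    · rw [← ENNReal.ofReal_toReal (measure_ne_top ν univ), ← ENNReal.ofReal_mul (by positivity)]
      exact ENNReal.ofReal_le_ofReal heV

end Pool.Agent.H68.VD
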