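import Pool.Agent.H68.VD.St2

/-! # The divergence of a periodic matrix field has mean zero -/

namespace Pool.Agent.H68.VD

open MeasureTheory Set
open scoped ENNReal ContDiff

noncomputable section

namespace PerDivA

variable {n : ℕ}

theorem cube_measurable : MeasurableSet (cube n) := by
  have : cube n = ⋂ i, {x : Eu n | x i ∈ Set.Ico (0 : ℝ) 1} := by
    ext x; simp [cube]
  rw [this]
  refine MeasurableSet.iInter (fun i => ?_)
  exact measurableSet_Ico.preimage (by fun_prop)

theorem norm_le_of_mem {x : Eu n} (hx : x ∈ cube n) : ‖x‖ ≤ n + 1 := by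
  have h1 : ‖x‖ ^ 2 ≤ n := by
    rw [EuclideanSpace.norm_sq_eq]
    calc ∑ i, ‖x i‖ ^ 2 ≤ ∑ _i : Fin n, (1 : ℝ) := by
          refine Finset.sum_le_sum (fun i _ => ?_)
          have h2 := hx i
          rw [Real.norm_eq_abs, abs_of_nonneg h2.1]
          nlinarith [h2.1, h2.2]
      _ = n := by simp
  have h3 : (0 : ℝ) ≤ n := Nat.cast_nonneg n
  nlinarith [norm_nonneg x]

theorem cube_finite : volume (cube n) < ⊤ := by
  refine lt_of_le_of_lt (measure_mono (t := Metric.closedBall (0 : Eu n) (n + 1)) ?_)
    measure_closedBall_lt_top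
  intro x hx
  rw [Metric.mem_closedBall, dist_zero_right]
  exact norm_le_of_mem hx

theorem ev_norm (j : Fin n) : ‖(ev j : Eu n)‖ = 1 := by simp [ev]

/-- the mean of a derivative of a periodic field is zero -/
theorem integral_deriv_eq_zero (K : FluxKit) (f : Eu n → Eu n) (hf : ContDiff ℝ ∞ f) (hp : Per f)
    (j : Fin n) : ∫ x in cube n, fderiv ℝ f x (ev j) = 0 := by
  set g : ℝ → Eu n := fun t => ∫ x in cube n, f (x + t • ev j) with hg
  have hconst : ∀ t, g t = ∫ x in cube n, f x := by
    intro t
    refine K.cov n (fun x => x + t • ev j) (by fun_prop) ?_ ?_ ?_ f hf.continuous hp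
    · exact (Equiv.addRight (t • (ev j : Eu n))).bijective
    · intro x
      have : fderiv ℝ (fun x : Eu n => x + t • ev j) x = ContinuousLinearMap.id ℝ (Eu n) := by
        rw [fderiv_add_const]; exact fderiv_id
      rw [this]
      exact LinearMap.det_id
    · intro x k
      abel
  have hcf : Continuous (fderiv ℝ f) := hf.continuous_fderiv (by simp)
  obtain ⟨C, hC⟩ : ∃ C : ℝ, ∀ y ∈ Metric.closedBall (0 : Eu n) (n + 2), ‖fderiv ℝ f y‖ ≤ C :=
    (isCompact_closedBall _ _).exists_bound_of_continuousOn hcf.continuousOn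
  have hder : HasDerivAt g (∫ x in cube n, fderiv ℝ f (x + (0 : ℝ) • ev j) (ev j)) 0 := by
    refine (hasDerivAt_integral_of_dominated_loc_of_deriv_le (μ := volume.restrict (cube n))
      (F := fun t x => f (x + t • ev j)) (F' := fun t x => fderiv ℝ f (x + t • ev j) (ev j))
      (x₀ := (0 : ℝ)) (bound := fun _ => C) (s := Metric.ball 0 1)
      (Metric.ball_mem_nhds 0 one_pos) ?_ ?_ ?_ ?_ ?_ ?_).2
    · refine Filter.Eventually.of_forall (fun t => ?_)
      exact (hf.continuous.comp (by fun_prop)).aestronglyMeasurable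
    · have : IsFiniteMeasure (volume.restrict (cube n)) := ⟨by simpa using cube_finite⟩
      obtain ⟨B, hB⟩ : ∃ B : ℝ, ∀ y ∈ Metric.closedBall (0 : Eu n) (n + 2), ‖f y‖ ≤ B :=
        (isCompact_closedBall _ _).exists_bound_of_continuousOn hf.continuous.continuousOn
      refine Integrable.of_bound (C := B)
        (hf.continuous.comp (by fun_prop)).aestronglyMeasurable ?_
      refine (ae_restrict_iff' cube_measurable).mpr (Filter.Eventually.of_forall (fun x hx => ?_))
      refine hB _ ?_
      rw [Metric.mem_closedBall, dist_zero_right, zero_smul, add_zero]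
      linarith [norm_le_of_mem hx]
    · exact ((hcf.comp (by fun_prop)).clm_apply continuous_const).aestronglyMeasurable
    · refine (ae_restrict_iff' cube_measurable).mpr (Filter.Eventually.of_forall (fun x hx => ?_))
      intro t ht
      have h1 : ‖x + t • (ev j : Eu n)‖ ≤ n + 2 := by
        refine (norm_add_le _ _).trans ?_
        rw [norm_smul, ev_norm, mul_one]
        rw [Metric.mem_ball, dist_zero_right] at ht
        linarith [norm_le_of_mem hx]
      refine ((fderiv ℝ f (x + t • ev j)).le_opNorm (ev j)).trans ?_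
      rw [ev_norm, mul_one]
      exact hC _ (by rw [Metric.mem_closedBall, dist_zero_right]; exact h1)
    · have : IsFiniteMeasure (volume.restrict (cube n)) := ⟨by simpa using cube_finite⟩
      exact integrable_const C
    · refine Filter.Eventually.of_forall (fun x => ?_)
      intro t _
      have h1 : HasFDerivAt f (fderiv ℝ f (x + t • ev j)) (x + t • ev j) :=
        (hf.differentiable (by simp) _).hasFDerivAt
      have h2 : HasDerivAt (fun t : ℝ => x + t • (ev j : Eu n)) (ev j) t := by
        have h3 := ((hasDerivAt_id t).smul_const (ev j : Eu n)).const_add x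
        rw [one_smul] at h3
        exact h3
      exact h1.comp_hasDerivAt t h2
  have h0 : HasDerivAt g 0 0 := by
    have : g = fun _ => ∫ x in cube n, f x := funext hconst
    rw [this]
    exact hasDerivAt_const _ _
  have h1 := hder.unique h0
  simpa using h1

end PerDivA

open PerDivA in
theorem perDiv (K : FluxKit) : PerDiv := by
  intro n S hS hp
  have hfj : ∀ j : Fin n, ContDiff ℝ ∞ (fun x => S x (ev j)) := fun j => hS.clm_apply contDiff_const
  have hpj : ∀ j : Fin n, Per (fun x => S x (ev j)) := by
    intro j x k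
    have := hp x k
    simp only [this]
  have hd : ∀ (j : Fin n) (x : Eu n), fderiv ℝ (fun x => S x (ev j)) x (ev j) =
      (fderiv ℝ S x (ev j)) (ev j) := by
    intro j x
    have h1 : HasFDerivAt (fun x => S x (ev j))
        ((ContinuousLinearMap.apply ℝ (Eu n) (ev j : Eu n)) ∘L (fderiv ℝ S x)) x :=
      (ContinuousLinearMap.apply ℝ (Eu n) (ev j : Eu n)).hasFDerivAt.comp x
        (hS.differentiable (by simp) x).hasFDerivAt
    rw [h1.fderiv]
    rfl
  have e1 : ∀ x, dv S x = ∑ j, fderiv ℝ (fun x => S x (ev j)) x (ev j) := by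
    intro x
    unfold dv
    exact Finset.sum_congr rfl (fun j _ => (hd j x).symm)
  simp only [e1]
  rw [integral_finsetSum]
  · exact Finset.sum_eq_zero (fun j _ => integral_deriv_eq_zero K _ (hfj j) (hpj j) j)
  · intro j _
    have hcf : Continuous (fun x => fderiv ℝ (fun x => S x (ev j)) x (ev j)) :=
      ((hfj j).continuous_fderiv (by simp)).clm_apply continuous_const
    have : IsFiniteMeasure (volume.restrict (cube n)) := ⟨by simpa using cube_finite⟩
    obtain ⟨B, hB⟩ : ∃ B : ℝ, ∀ y ∈ Metric.closedBall (0 : Eu n) (n + 2),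
        ‖fderiv ℝ (fun x => S x (ev j)) y (ev j)‖ ≤ B :=
      (isCompact_closedBall _ _).exists_bound_of_continuousOn hcf.continuousOn
    refine Integrable.of_bound (C := B) hcf.aestronglyMeasurable ?_
    refine (ae_restrict_iff' cube_measurable).mpr (Filter.Eventually.of_forall (fun x hx => ?_))
    refine hB _ ?_
    rw [Metric.mem_closedBall, dist_zero_right]
    linarith [norm_le_of_mem hx]

end

end Pool.Agent.H68.VD
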