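import Pool.Agent.H68.VD.St

/-! # Rotations in coordinate planes and the null homotopy of the double rotation -/

namespace Pool.Agent.H68.VD

open MeasureTheory Set
open scoped ENNReal ContDiff

noncomputable section

namespace RotKA

variable {n : ℕ}

theorem rotJ_apply (i j : Fin n) (x : Eu n) : rotJ i j x = x i • ev j - x j • ev i := by
  simp [rotJ, EuclideanSpace.proj]

theorem ev_self (i : Fin n) : (ev i : Eu n) i = 1 := by simp [ev]

theorem ev_ne {i k : Fin n} (h : k ≠ i) : (ev i : Eu n) k = 0 := by simp [ev, h]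

theorem rotJJ_apply {i j : Fin n} (h : i ≠ j) (x : Eu n) :
    rotJ i j (rotJ i j x) = -(x i • ev i + x j • ev j) := by
  rw [rotJ_apply i j (rotJ i j x), rotJ_apply i j x]
  have h1 : (x i • ev j - x j • ev i : Eu n) i = - x j := by
    simp [ev_self, ev_ne h]
  have h2 : (x i • ev j - x j • ev i : Eu n) j = x i := by
    simp [ev_self, ev_ne (Ne.symm h)]
  rw [h1, h2]
  module

theorem rotR_apply {i j : Fin n} (h : i ≠ j) (θ : ℝ) (x : Eu n) :
    rotR i j θ x = x + (-(Real.sin θ * x j) - (1 - Real.cos θ) * x i) • ev i +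
      (Real.sin θ * x i - (1 - Real.cos θ) * x j) • ev j := by
  have h0 : rotR i j θ x = x + Real.sin θ • rotJ i j x + (1 - Real.cos θ) • rotJ i j (rotJ i j x) := by
    simp [rotR]
  rw [h0, rotJJ_apply h, rotJ_apply]
  module

theorem rotR_i {i j : Fin n} (h : i ≠ j) (θ : ℝ) (x : Eu n) :
    (rotR i j θ x) i = Real.cos θ * x i - Real.sin θ * x j := by
  rw [rotR_apply h]
  simp [ev_self, ev_ne h]
  ring

theorem rotR_j {i j : Fin n} (h : i ≠ j) (θ : ℝ) (x : Eu n) :
    (rotR i j θ x) j = Real.sin θ * x i + Real.cos θ * x j := by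
  rw [rotR_apply h]
  simp [ev_self, ev_ne (Ne.symm h)]
  ring

theorem rotR_k {i j k : Fin n} (h : i ≠ j) (hi : k ≠ i) (hj : k ≠ j) (θ : ℝ) (x : Eu n) :
    (rotR i j θ x) k = x k := by
  rw [rotR_apply h]
  simp [ev_ne hi, ev_ne hj]

theorem inner_ev (x : Eu n) (i : Fin n) : inner ℝ x (ev i) = x i := by
  simp [ev, EuclideanSpace.inner_single_right]

theorem norm_ev (i : Fin n) : ‖(ev i : Eu n)‖ = 1 := by simp [ev]

theorem norm_sq_add {i j : Fin n} (h : i ≠ j) (x : Eu n) (a b : ℝ) :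
    ‖x + a • ev i + b • ev j‖ ^ 2 = ‖x‖ ^ 2 + 2 * a * x i + 2 * b * x j + a ^ 2 + b ^ 2 := by
  rw [norm_add_sq_real, norm_add_sq_real, inner_add_left, inner_smul_right, inner_smul_right,
    inner_smul_right, inner_smul_left, inner_ev, inner_ev, inner_ev, ev_ne (Ne.symm h), norm_smul,
    norm_smul, norm_ev, norm_ev]
  simp only [Real.norm_eq_abs, mul_one, sq_abs, mul_zero, add_zero]
  ring

theorem iso {i j : Fin n} (h : i ≠ j) (θ : ℝ) (x : Eu n) : ‖rotR i j θ x‖ = ‖x‖ := by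
  have h1 : ‖rotR i j θ x‖ ^ 2 = ‖x‖ ^ 2 := by
    rw [rotR_apply h, norm_sq_add h]
    have h2 := Real.sin_sq_add_cos_sq θ
    linear_combination (x i ^ 2 + x j ^ 2) * h2
  exact (sq_eq_sq₀ (norm_nonneg _) (norm_nonneg _)).mp h1

theorem add {i j : Fin n} (h : i ≠ j) (a b : ℝ) :
    rotR i j (a + b) = rotR i j a ∘L rotR i j b := by
  ext x k
  rw [ContinuousLinearMap.comp_apply]
  by_cases hi : k = i
  · subst hi
    rw [rotR_i h, rotR_i h, rotR_i h, rotR_j h, Real.sin_add, Real.cos_add]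
    ring
  by_cases hj : k = j
  · subst hj
    rw [rotR_j h, rotR_j h, rotR_i h, rotR_j h, Real.sin_add, Real.cos_add]
    ring
  rw [rotR_k h hi hj, rotR_k h hi hj, rotR_k h hi hj]

theorem det {i j : Fin n} (h : i ≠ j) (θ : ℝ) : (rotR i j θ).det = 1 := by
  have h1 : rotR i j θ = rotR i j (θ / 2) ∘L rotR i j (θ / 2) := by
    rw [← add h]; congr 1; ring
  have h2 : |(rotR i j (θ / 2)).det| = 1 := by
    have h3 := LinearIsometry.normDet_eq_one
      (⟨(rotR i j (θ / 2)).toLinearMap, fun x => iso h _ x⟩ : Eu n →ₗᵢ[ℝ] Eu n)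
    rw [LinearMap.normDet_eq_abs_det] at h3
    exact h3
  have h4 : (rotR i j θ).det = (rotR i j (θ / 2)).det * (rotR i j (θ / 2)).det := by
    rw [h1]
    exact LinearMap.det_comp _ _
  rw [h4, ← abs_mul_abs_self, h2, mul_one]

theorem per (i j : Fin n) (k : ℤ) :
    rotR i j (2 * Real.pi * k) = ContinuousLinearMap.id ℝ (Eu n) := by
  have h1 : Real.sin (2 * Real.pi * k) = 0 := by
    rw [show 2 * Real.pi * (k : ℝ) = ((2 * k : ℤ) : ℝ) * Real.pi by push_cast; ring]
    exact Real.sin_int_mul_pi _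
  have h2 : Real.cos (2 * Real.pi * k) = 1 := by
    rw [show 2 * Real.pi * (k : ℝ) = (k : ℝ) * (2 * Real.pi) by ring]
    exact Real.cos_int_mul_two_pi _
  ext x m
  simp [rotR, h1, h2]

theorem smooth (i j : Fin n) : ContDiff ℝ ∞ (rotR i j) := by
  unfold rotR
  fun_prop

theorem hasDeriv {i j : Fin n} (h : i ≠ j) (θ : ℝ) :
    HasDerivAt (fun θ => rotR i j θ) (rotJ i j ∘L rotR i j θ) θ := by
  have h1 : HasDerivAt (fun θ => rotR i j θ)
      (Real.cos θ • rotJ i j + Real.sin θ • (rotJ i j ∘L rotJ i j)) θ := by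
    unfold rotR
    have ha := (Real.hasDerivAt_sin θ).smul_const (rotJ i j)
    have hb := ((Real.hasDerivAt_cos θ).const_sub 1).smul_const (rotJ i j ∘L rotJ i j)
    have hc := (ha.const_add (ContinuousLinearMap.id ℝ (Eu n))).add hb
    have hd := hc.congr_deriv (show Real.cos θ • rotJ i j + (-(-Real.sin θ)) • (rotJ i j ∘L rotJ i j) =
      Real.cos θ • rotJ i j + Real.sin θ • (rotJ i j ∘L rotJ i j) by rw [neg_neg])
    exact hd
  convert h1 using 1
  ext x k
  have e1 : (rotJ i j ∘L rotR i j θ) x = (Real.cos θ * x i - Real.sin θ * x j) • ev j -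
      (Real.sin θ * x i + Real.cos θ * x j) • ev i := by
    rw [ContinuousLinearMap.comp_apply, rotJ_apply, rotR_i h, rotR_j h]
  have e2 : (Real.cos θ • rotJ i j + Real.sin θ • (rotJ i j ∘L rotJ i j)) x =
      Real.cos θ • (x i • ev j - x j • ev i) + Real.sin θ • (-(x i • ev i + x j • ev j)) := by
    rw [add_apply, smul_apply, smul_apply, ContinuousLinearMap.comp_apply,
      rotJJ_apply h, rotJ_apply]
  have e3 : (rotJ i j ∘L rotR i j θ) x =
      (Real.cos θ • rotJ i j + Real.sin θ • (rotJ i j ∘L rotJ i j)) x := by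
    rw [e1, e2]
    module
  rw [e3]

theorem orth (i j : Fin n) (x : Eu n) : inner ℝ (rotJ i j x) x = 0 := by
  rw [rotJ_apply, inner_sub_left, inner_smul_left, inner_smul_left, real_inner_comm,
    real_inner_comm x (ev i), inner_ev, inner_ev]
  simp only [conj_trivial]
  ring

theorem normJ (i j : Fin n) (x : Eu n) : ‖rotJ i j x‖ ≤ ‖x‖ := by
  by_cases h : i = j
  · subst h
    rw [rotJ_apply, sub_self, norm_zero]
    exact norm_nonneg _
  have h1 : ‖rotJ i j x‖ ^ 2 = x i ^ 2 + x j ^ 2 := by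
    have h2 : rotJ i j x = 0 + (- x j) • ev i + x i • ev j := by
      rw [rotJ_apply]; module
    rw [h2, norm_sq_add h]
    simp
    ring
  have h3 : 0 ≤ ‖x + (- x i) • ev i + (- x j) • ev j‖ ^ 2 := sq_nonneg _
  rw [norm_sq_add h] at h3
  refine (sq_le_sq₀ (norm_nonneg _) (norm_nonneg _)).mp ?_
  rw [h1]
  linarith

end RotKA

theorem rotKit : RotKit where
  smooth _ i j := RotKA.smooth i j
  iso _ _ _ h θ x := RotKA.iso h θ x
  det _ _ _ h θ := RotKA.det h θ
  add _ _ _ h a b := RotKA.add h a b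
  per _ i j k := RotKA.per i j k
  deriv _ _ _ h θ := RotKA.hasDeriv h θ
  orth _ i j x := RotKA.orth i j x
  normJ _ i j x := RotKA.normJ i j x

namespace RotKA

variable {n : ℕ}

theorem exists_third (hn : 3 ≤ n) (i j : Fin n) : ∃ l : Fin n, l ≠ i ∧ l ≠ j := by
  by_contra hcon
  push Not at hcon
  have h1 : (Finset.univ : Finset (Fin n)) ⊆ {i, j} := by
    intro l _
    by_cases h : l = i
    · simp [h]
    · simp [hcon l h]
  have h2 := Finset.card_le_card h1
  have h3 : ({i, j} : Finset (Fin n)).card ≤ 2 := Finset.card_le_two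
  rw [Finset.card_univ, Fintype.card_fin] at h2
  omega

/-- the half turn in the plane of `e_j`, `e_l` -/
theorem half_i {i j l : Fin n} (hjl : j ≠ l) (hij : i ≠ j) (hil : i ≠ l) (σ : ℝ)
    (_h : σ = Real.pi ∨ σ = -Real.pi) (x : Eu n) : (rotR j l σ x) i = x i :=
  rotR_k hjl hij hil _ _

theorem half_j {j l : Fin n} (hjl : j ≠ l) (σ : ℝ)
    (hσ : σ = Real.pi ∨ σ = -Real.pi) (x : Eu n) : (rotR j l σ x) j = - x j := by
  rw [rotR_i hjl]
  rcases hσ with h | h <;> simp [h]

theorem half_l {j l : Fin n} (hjl : j ≠ l) (σ : ℝ)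
    (hσ : σ = Real.pi ∨ σ = -Real.pi) (x : Eu n) : (rotR j l σ x) l = - x l := by
  rw [rotR_j hjl]
  rcases hσ with h | h <;> simp [h]

theorem conj_half {i j l : Fin n} (hjl : j ≠ l) (hij : i ≠ j) (hil : i ≠ l) (θ : ℝ) :
    rotR j l Real.pi ∘L (rotR i j θ ∘L rotR j l (-Real.pi)) = rotR i j (-θ) := by
  ext x k
  simp only [ContinuousLinearMap.comp_apply]
  have hp : Real.pi = Real.pi ∨ Real.pi = -Real.pi := Or.inl rfl
  have hm : -Real.pi = Real.pi ∨ -Real.pi = -Real.pi := Or.inr rfl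
  by_cases hi : k = i
  · subst hi
    rw [half_i hjl hij hil _ hp, rotR_i hij, half_i hjl hij hil _ hm, half_j hjl _ hm, rotR_i hij]
    simp
  by_cases hj : k = j
  · subst hj
    rw [half_j hjl _ hp, rotR_j hij, half_i hjl hij hil _ hm, half_j hjl _ hm, rotR_j hij]
    simp
    ring
  by_cases hl : k = l
  · subst hl
    rw [half_l hjl _ hp, rotR_k hij hi hj, half_l hjl _ hm, rotR_k hij hi hj, neg_neg]
  · rw [rotR_k hjl hj hl, rotR_k hij hi hj, rotR_k hjl hj hl, rotR_k hij hi hj]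

theorem norm_rot_le {i j : Fin n} (h : i ≠ j) (θ : ℝ) : ‖rotR i j θ‖ ≤ 1 :=
  ContinuousLinearMap.opNorm_le_bound _ zero_le_one (fun x => by rw [iso h, one_mul])

theorem norm_J_le (i j : Fin n) : ‖rotJ i j‖ ≤ 1 :=
  ContinuousLinearMap.opNorm_le_bound _ zero_le_one (fun x => by rw [one_mul]; exact normJ i j x)

theorem norm_comp_le_one {A B : Eu n →L[ℝ] Eu n} (hA : ‖A‖ ≤ 1) (hB : ‖B‖ ≤ 1) : ‖A ∘L B‖ ≤ 1 :=
  (ContinuousLinearMap.opNorm_comp_le A B).trans
    (mul_le_one₀ hA (norm_nonneg _) hB)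

end RotKA

open RotKA in
theorem homot (_R : RotKit) : Homot := by
  intro n hn i j hij
  obtain ⟨l, hli, hlj⟩ := exists_third hn i j
  have hjl : j ≠ l := Ne.symm hlj
  have hil : i ≠ l := Ne.symm hli
  refine ⟨fun τ y => rotR i j (2 * Real.pi * y) ∘L (rotR j l (Real.pi * τ) ∘L
    (rotR i j (2 * Real.pi * y) ∘L rotR j l (-(Real.pi * τ)))), ?_, ?_, ?_, ?_, ?_, ?_, ?_⟩
  · have h1 : ContDiff ℝ ∞ (fun q : ℝ × ℝ => rotR i j (2 * Real.pi * q.2)) :=
      (smooth i j).comp (contDiff_const.mul contDiff_snd)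
    have h2 : ContDiff ℝ ∞ (fun q : ℝ × ℝ => rotR j l (Real.pi * q.1)) :=
      (smooth j l).comp (contDiff_const.mul contDiff_fst)
    have h3 : ContDiff ℝ ∞ (fun q : ℝ × ℝ => rotR j l (-(Real.pi * q.1))) :=
      (smooth j l).comp (contDiff_const.mul contDiff_fst).neg
    exact h1.clm_comp (h2.clm_comp (h1.clm_comp h3))
  · intro τ y x
    simp only [ContinuousLinearMap.comp_apply]
    rw [iso hij, iso hjl, iso hij, iso hjl]
  · intro τ y
    have hc : ∀ A B : Eu n →L[ℝ] Eu n, (A ∘L B).det = A.det * B.det :=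
      fun A B => LinearMap.det_comp _ _
    rw [hc, hc, hc, det hij, det hjl, det hjl]
    norm_num
  · intro y
    beta_reduce
    have h0 : rotR j l (Real.pi * 0) = ContinuousLinearMap.id ℝ (Eu n) := by
      have := per j l 0; simpa using this
    have h0' : rotR j l (-(Real.pi * 0)) = ContinuousLinearMap.id ℝ (Eu n) := by
      simpa using h0
    rw [h0, h0', ContinuousLinearMap.comp_id, ContinuousLinearMap.id_comp, ← add hij]
    congr 1; ring
  · intro y
    beta_reduce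
    have h1 := conj_half hjl hij hil (2 * Real.pi * y)
    rw [mul_one, h1, ← add hij]
    have := per i j 0
    simpa using this
  · intro τ m
    have h1 : rotR i j (2 * Real.pi * (m : ℝ)) = ContinuousLinearMap.id ℝ (Eu n) := per i j m
    simp only [h1, ContinuousLinearMap.id_comp]
    rw [← add hjl]
    have := per j l 0
    simpa using this
  · intro τ y
    have hQ : HasDerivAt (fun τ => rotR j l (Real.pi * τ))
        (Real.pi • (rotJ j l ∘L rotR j l (Real.pi * τ))) τ := by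
      have h1 : HasDerivAt (fun τ : ℝ => Real.pi * τ) Real.pi τ := by
        simpa using (hasDerivAt_id τ).const_mul Real.pi
      exact HasDerivAt.scomp τ (hasDeriv hjl (Real.pi * τ)) h1
    have hQ' : HasDerivAt (fun τ => rotR j l (-(Real.pi * τ)))
        ((-Real.pi) • (rotJ j l ∘L rotR j l (-(Real.pi * τ)))) τ := by
      have h1 : HasDerivAt (fun τ : ℝ => -(Real.pi * τ)) (-Real.pi) τ := by
        have h2 := ((hasDerivAt_id τ).const_mul Real.pi).neg
        rw [mul_one] at h2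
        exact h2
      exact HasDerivAt.scomp τ (hasDeriv hjl (-(Real.pi * τ))) h1
    set A := rotR i j (2 * Real.pi * y) with hA
    have hB : HasDerivAt (fun τ => A ∘L rotR j l (-(Real.pi * τ)))
        (A ∘L ((-Real.pi) • (rotJ j l ∘L rotR j l (-(Real.pi * τ))))) τ := by
      have h2 := (hasDerivAt_const τ A).clm_comp hQ'
      rw [ContinuousLinearMap.zero_comp, zero_add] at h2
      exact h2
    have hC := hQ.clm_comp hB
    have hD := (hasDerivAt_const τ A).clm_comp hC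
    have hval := hD.deriv
    have hA1 : ‖A‖ ≤ 1 := norm_rot_le hij _
    have hJ1 : ‖rotJ j l‖ ≤ 1 := norm_J_le j l
    have hq1 : ‖rotR j l (Real.pi * τ)‖ ≤ 1 := norm_rot_le hjl _
    have hq2 : ‖rotR j l (-(Real.pi * τ))‖ ≤ 1 := norm_rot_le hjl _
    have e1 : ‖A ∘L ((Real.pi • (rotJ j l ∘L rotR j l (Real.pi * τ))) ∘L
        (A ∘L rotR j l (-(Real.pi * τ))))‖ ≤ Real.pi := by
      have : A ∘L ((Real.pi • (rotJ j l ∘L rotR j l (Real.pi * τ))) ∘L
        (A ∘L rotR j l (-(Real.pi * τ)))) = Real.pi • (A ∘L ((rotJ j l ∘L rotR j l (Real.pi * τ)) ∘L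
        (A ∘L rotR j l (-(Real.pi * τ))))) := by
        ext x; simp
      rw [this, norm_smul, Real.norm_eq_abs, abs_of_pos Real.pi_pos]
      have h2 : ‖A ∘L ((rotJ j l ∘L rotR j l (Real.pi * τ)) ∘L
        (A ∘L rotR j l (-(Real.pi * τ))))‖ ≤ 1 :=
        norm_comp_le_one hA1 (norm_comp_le_one (norm_comp_le_one hJ1 hq1)
          (norm_comp_le_one hA1 hq2))
      nlinarith [Real.pi_pos]
    have e2 : ‖A ∘L (rotR j l (Real.pi * τ) ∘L
        (A ∘L ((-Real.pi) • (rotJ j l ∘L rotR j l (-(Real.pi * τ))))))‖ ≤ Real.pi := by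
      have : A ∘L (rotR j l (Real.pi * τ) ∘L
        (A ∘L ((-Real.pi) • (rotJ j l ∘L rotR j l (-(Real.pi * τ)))))) =
        (-Real.pi) • (A ∘L (rotR j l (Real.pi * τ) ∘L
        (A ∘L (rotJ j l ∘L rotR j l (-(Real.pi * τ)))))) := by
        ext x; simp
      rw [this, norm_smul, Real.norm_eq_abs, abs_neg, abs_of_pos Real.pi_pos]
      have h2 : ‖A ∘L (rotR j l (Real.pi * τ) ∘L
        (A ∘L (rotJ j l ∘L rotR j l (-(Real.pi * τ)))))‖ ≤ 1 :=
        norm_comp_le_one hA1 (norm_comp_le_one hq1 (norm_comp_le_one hA1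
          (norm_comp_le_one hJ1 hq2)))
      nlinarith [Real.pi_pos]
    have hle : ∀ X Y Z : Eu n →L[ℝ] Eu n, X = Y + Z → ‖Y‖ ≤ Real.pi → ‖Z‖ ≤ Real.pi →
        ‖X‖ ≤ 2 * Real.pi := by
      intro X Y Z h hY hZ
      rw [h]
      exact (norm_add_le _ _).trans (by linarith)
    refine hle _ _ _ ?_ e1 e2
    rw [hval]
    ext x
    simp

end

end Pool.Agent.H68.VD
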