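import Pool.Agent.H68.VD.St

/-! # Small balls have disjoint translates -/

namespace Pool.Agent.H68.VD.SepUA

open MeasureTheory Set
open scoped ENNReal ContDiff

noncomputable section

variable {n : ℕ}

theorem one_le_dist_iv {k l : Fin n → ℤ} (h : k ≠ l) : 1 ≤ dist (iv k) (iv l) := by
  obtain ⟨i, hi⟩ := Function.ne_iff.mp h
  have h1 : (1 : ℝ) ≤ |((k i : ℝ) - l i)| := by
    have : (1 : ℤ) ≤ |k i - l i| := Int.one_le_abs (sub_ne_zero.mpr hi)
    exact_mod_cast this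
  have h2 : ‖(iv k - iv l) i‖ ≤ ‖iv k - iv l‖ := PiLp.norm_apply_le _ i
  rw [dist_eq_norm]
  refine h1.trans (le_trans ?_ h2)
  simp [iv]

theorem closed_iv (A : Set (Eu n)) (hA : ∀ a ∈ A, ∃ k : Fin n → ℤ, a = iv k) : IsClosed A := by
  refine Metric.isClosed_of_pairwise_le_dist (ε := 1) one_pos ?_
  intro a ha b hb hab
  obtain ⟨k, rfl⟩ := hA a ha
  obtain ⟨l, rfl⟩ := hA b hb
  exact one_le_dist_iv (fun h => hab (by rw [h]))

/-- The closed unit cube. -/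
def ccube (n : ℕ) : Set (Eu n) := {x | ∀ i, x i ∈ Set.Icc (0 : ℝ) 1}

theorem compact_ccube : IsCompact (ccube n) := by
  have h1 : IsCompact (Set.pi Set.univ (fun _ : Fin n => Set.Icc (0 : ℝ) 1)) :=
    isCompact_univ_pi (fun _ => isCompact_Icc)
  have h2 : ccube n = (EuclideanSpace.equiv (Fin n) ℝ).symm ''
      (Set.pi Set.univ (fun _ : Fin n => Set.Icc (0 : ℝ) 1)) := by
    ext x
    constructor
    · intro hx
      exact ⟨EuclideanSpace.equiv (Fin n) ℝ x, fun i _ => hx i, by simp⟩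
    · rintro ⟨y, hy, rfl⟩ i
      exact hy i (Set.mem_univ i)
  rw [h2]
  exact h1.image (EuclideanSpace.equiv (Fin n) ℝ).symm.continuous

theorem exists_red (x : Eu n) : ∃ (k : Fin n → ℤ) (y : Eu n), y ∈ ccube n ∧ x = y + iv k := by
  refine ⟨fun i => ⌊x i⌋, x - iv (fun i => ⌊x i⌋), ?_, by simp⟩
  intro i
  have : (x - iv (fun i => ⌊x i⌋)) i = Int.fract (x i) := by
    simp only [iv, PiLp.sub_apply]
    exact Int.self_sub_floor (x i)
  rw [this]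
  exact ⟨Int.fract_nonneg _, (Int.fract_lt_one _).le⟩

theorem one_rep (P : Subgroup (Eu n ≃ᵃ[ℝ] Eu n)) (hP : Deck P) (r0 : Eu n ≃ᵃ[ℝ] Eu n) :
    ∃ δ : ℝ, 0 < δ ∧ ∀ g ∈ P, g ≠ 1 → ∀ k : Fin n → ℤ, (∀ x, g x = r0 x + iv k) →
      ∀ x ∈ ccube n, δ ≤ dist (g x) x := by
  set A : Set (Eu n) := {a | ∃ k : Fin n → ℤ, a = iv k ∧ ∃ g ∈ P, g ≠ 1 ∧ ∀ x, g x = r0 x + iv k}
    with hA
  have hc : IsClosed A := closed_iv A (fun a ha => ⟨ha.choose, ha.choose_spec.1⟩)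
  have hcont : Continuous (fun x : Eu n => x - r0 x) :=
    continuous_id.sub r0.toAffineMap.continuous_of_finiteDimensional
  have hK : IsCompact ((fun x : Eu n => x - r0 x) '' ccube n) := compact_ccube.image hcont
  have hd : Disjoint ((fun x : Eu n => x - r0 x) '' ccube n) A := by
    rw [Set.disjoint_left]
    rintro a ⟨x, _, rfl⟩ ⟨k, hk, g, hg, hg1, hgx⟩
    refine hP.free g hg hg1 x ?_
    rw [hgx, ← hk]
    simp
  obtain ⟨δ, hδ, hdis⟩ := hd.exists_thickenings hK hc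
  refine ⟨δ, hδ, fun g hg hg1 k hgk x hx => ?_⟩
  by_contra hlt
  push Not at hlt
  have hm : iv k ∈ A := ⟨k, rfl, g, hg, hg1, hgk⟩
  refine (Set.disjoint_left.mp hdis : ∀ ⦃a⦄, _ → a ∉ _) (a := iv k) ?_
    (Metric.self_subset_thickening hδ _ hm)
  rw [Metric.mem_thickening_iff]
  refine ⟨x - r0 x, ⟨x, hx, rfl⟩, ?_⟩
  have : dist (iv k) (x - r0 x) = dist (g x) x := by
    rw [dist_eq_norm, dist_eq_norm, hgk]
    congr 1
    abel
  rw [this]
  exact hlt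

theorem all_rep (P : Subgroup (Eu n ≃ᵃ[ℝ] Eu n)) (hP : Deck P) (R : Finset (Eu n ≃ᵃ[ℝ] Eu n)) :
    ∃ δ : ℝ, 0 < δ ∧ ∀ g ∈ P, g ≠ 1 → ∀ r0 ∈ R, ∀ k : Fin n → ℤ, (∀ x, g x = r0 x + iv k) →
      ∀ x ∈ ccube n, δ ≤ dist (g x) x := by
  classical
  induction R using Finset.induction_on with
  | empty => exact ⟨1, one_pos, by simp⟩
  | insert r0 S _ ih =>
    obtain ⟨δ, hδ, h⟩ := ih
    obtain ⟨δ', hδ', h'⟩ := one_rep P hP r0
    refine ⟨min δ δ', lt_min hδ hδ', fun g hg hg1 r hr k hgk x hx => ?_⟩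
    rcases Finset.mem_insert.mp hr with rfl | hr
    · exact (min_le_right _ _).trans (h' g hg hg1 k hgk x hx)
    · exact (min_le_left _ _).trans (h g hg hg1 r hr k hgk x hx)

theorem disp (P : Subgroup (Eu n ≃ᵃ[ℝ] Eu n)) (hP : Deck P) :
    ∃ δ : ℝ, 0 < δ ∧ ∀ g ∈ P, g ≠ 1 → ∀ x, δ ≤ dist (g x) x := by
  obtain ⟨R, hR⟩ := hP.fin
  obtain ⟨δ, hδ, h⟩ := all_rep P hP R
  refine ⟨δ, hδ, fun g hg hg1 x => ?_⟩
  obtain ⟨k, y, hy, rfl⟩ := exists_red x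
  set τ : Eu n ≃ᵃ[ℝ] Eu n := AffineEquiv.constVAdd ℝ (Eu n) (iv k) with hτ
  have hτP : τ ∈ P := hP.trans k
  set g' : Eu n ≃ᵃ[ℝ] Eu n := τ⁻¹ * g * τ with hg'
  have hg'P : g' ∈ P := P.mul_mem (P.mul_mem (P.inv_mem hτP) hg) hτP
  have hg'1 : g' ≠ 1 := by
    intro h1
    apply hg1
    have : g = τ * g' * τ⁻¹ := by rw [hg']; group
    rw [this, h1]
    group
  have hτx : ∀ z, τ z = z + iv k := by
    intro z
    simp [hτ, add_comm]
  have hgx : g (y + iv k) = τ (g' y) := by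
    have : g * τ = τ * g' := by rw [hg']; group
    have h2 := congrArg (fun e : Eu n ≃ᵃ[ℝ] Eu n => e y) this
    simp only [AffineEquiv.mul_def, AffineEquiv.trans_apply] at h2
    rw [← h2, hτx]
  obtain ⟨r0, hr0, l, hl⟩ := hR g' hg'P
  have := h g' hg'P hg'1 r0 hr0 l hl y hy
  rw [hgx, hτx, dist_add_right]
  exact this

end

end Pool.Agent.H68.VD.SepUA

namespace Pool.Agent.H68.VD

/-- Small balls have disjoint translates. -/
theorem sepU : SepU := by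
  intro n P hP
  obtain ⟨δ, hδ, h⟩ := SepUA.disp P hP
  refine ⟨δ / 2, half_pos hδ, fun c => ⟨half_pos hδ, fun g hg hg1 x hx hgx => ?_⟩⟩
  have h1 := h g hg hg1 x
  have h2 : dist (g x) x ≤ dist (g x) c + dist x c := dist_triangle_right _ _ _
  linarith

end Pool.Agent.H68.VD
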