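import Pool.Agent.H68.VD.St
import Pool.Agent.H68.VD.Hs

/-! # Stream functions -/

namespace Pool.Agent.H68.VD

open MeasureTheory Set
open scoped ENNReal ContDiff

noncomputable section

namespace StreamA

/-- A parametric integral is differentiable. -/
theorem param_fderiv {E F : Type} [NormedAddCommGroup E] [NormedSpace ℝ E] [FiniteDimensional ℝ E]
    [NormedAddCommGroup F] [NormedSpace ℝ F] [CompleteSpace F] (G : E × ℝ → F)
    (hG : ContDiff ℝ ∞ G) (x : E) :
    HasFDerivAt (fun y => ∫ s in (0 : ℝ)..1, G (y, s))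
      (∫ s in (0 : ℝ)..1, (fderiv ℝ G (x, s)).comp (ContinuousLinearMap.inl ℝ E ℝ)) x := by
  have hd : Differentiable ℝ G := hG.differentiable (by simp)
  have hc : Continuous (fun q : E × ℝ =>
      (fderiv ℝ G q).comp (ContinuousLinearMap.inl ℝ E ℝ)) :=
    (hG.continuous_fderiv (by simp)).clm_comp continuous_const
  obtain ⟨C, hC⟩ := ((isCompact_closedBall x 1).prod
    (isCompact_Icc (a := (0 : ℝ)) (b := 1))).exists_bound_of_continuousOn hc.continuousOn
  refine intervalIntegral.hasFDerivAt_integral_of_dominated_of_fderiv_le (μ := volume)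
    (F := fun y s => G (y, s))
    (F' := fun y s => (fderiv ℝ G (y, s)).comp (ContinuousLinearMap.inl ℝ E ℝ))
    (bound := fun _ => C) (s := Metric.ball x 1) (Metric.ball_mem_nhds x one_pos) ?_ ?_ ?_ ?_ ?_ ?_
  · refine Filter.Eventually.of_forall fun y => ?_
    exact (hG.continuous.comp (continuous_const.prodMk continuous_id)).aestronglyMeasurable
  · exact (hG.continuous.comp (continuous_const.prodMk continuous_id)).intervalIntegrable _ _
  · exact (hc.comp (continuous_const.prodMk continuous_id)).aestronglyMeasurable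
  · refine Filter.Eventually.of_forall fun s hs y hy => ?_
    rw [Set.uIoc_of_le zero_le_one] at hs
    exact hC (y, s) ⟨Metric.ball_subset_closedBall hy, hs.1.le, hs.2⟩
  · exact intervalIntegrable_const
  · refine Filter.Eventually.of_forall fun s _ y _ => ?_
    have h1 : HasFDerivAt (fun y : E => (y, s)) (ContinuousLinearMap.inl ℝ E ℝ) y :=
      (hasFDerivAt_id y).prodMk (hasFDerivAt_const s y)
    exact (hd (y, s)).hasFDerivAt.comp y h1

theorem param_contDiff_nat {E : Type} [NormedAddCommGroup E] [NormedSpace ℝ E]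
    [FiniteDimensional ℝ E] (k : ℕ) : ∀ (F : Type) [NormedAddCommGroup F] [NormedSpace ℝ F]
    [CompleteSpace F] (G : E × ℝ → F), ContDiff ℝ ∞ G →
    ContDiff ℝ k (fun y => ∫ s in (0 : ℝ)..1, G (y, s)) := by
  induction k with
  | zero =>
    intro F _ _ _ G hG
    rw [Nat.cast_zero, contDiff_zero, continuous_iff_continuousAt]
    exact fun x => (param_fderiv G hG x).continuousAt
  | succ k ih =>
    intro F _ _ _ G hG
    have h1 : ContDiff ℝ ∞ (fun q : E × ℝ =>
        (fderiv ℝ G q).comp (ContinuousLinearMap.inl ℝ E ℝ)) :=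
      (hG.fderiv_right (m := ∞) (by simp)).clm_comp contDiff_const
    have h2 := ih (E →L[ℝ] F) _ h1
    rw [show ((k + 1 : ℕ) : WithTop ℕ∞) = (k : WithTop ℕ∞) + 1 by push_cast; rfl,
      contDiff_succ_iff_hasFDerivAt]
    exact ⟨_, h2, fun x => param_fderiv G hG x⟩

theorem param_contDiff {E F : Type} [NormedAddCommGroup E] [NormedSpace ℝ E]
    [FiniteDimensional ℝ E] [NormedAddCommGroup F] [NormedSpace ℝ F] [CompleteSpace F]
    (G : E × ℝ → F) (hG : ContDiff ℝ ∞ G) :
    ContDiff ℝ ∞ (fun y => ∫ s in (0 : ℝ)..1, G (y, s)) := by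
  rw [contDiff_infty]
  exact fun k => param_contDiff_nat k F G hG

variable {n : ℕ}

/-- The weighted average in the direction `j`. -/
def Aop (ρ : ℝ → ℝ) (j : Fin n) (w : Eu n → Eu n) (x : Eu n) : Eu n :=
  ∫ s in (0 : ℝ)..1, ρ s • w (x + s • ev j)

theorem G_smooth {ρ : ℝ → ℝ} (hρ : ContDiff ℝ ∞ ρ) (j : Fin n) {w : Eu n → Eu n}
    (hw : ContDiff ℝ ∞ w) : ContDiff ℝ ∞ (fun q : Eu n × ℝ => ρ q.2 • w (q.1 + q.2 • ev j)) := by
  refine (hρ.comp contDiff_snd).smul (hw.comp ?_)
  exact contDiff_fst.add (contDiff_snd.smul contDiff_const)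

theorem A_smooth {ρ : ℝ → ℝ} (hρ : ContDiff ℝ ∞ ρ) (j : Fin n) {w : Eu n → Eu n}
    (hw : ContDiff ℝ ∞ w) : ContDiff ℝ ∞ (Aop ρ j w) :=
  param_contDiff _ (G_smooth hρ j hw)

theorem A_per (ρ : ℝ → ℝ) (j : Fin n) {w : Eu n → Eu n} (hw : Per w) : Per (Aop ρ j w) := by
  intro x k
  unfold Aop
  refine intervalIntegral.integral_congr fun s _ => ?_
  rw [show x + iv k + s • ev j = (x + s • ev j) + iv k by abel, hw]

theorem dw_cont {w : Eu n → Eu n} (hw : ContDiff ℝ ∞ w) (x : Eu n) (j : Fin n) :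
    Continuous (fun s : ℝ => fderiv ℝ w (x + s • ev j)) :=
  (hw.continuous_fderiv (by simp)).comp
    (continuous_const.add (continuous_id.smul continuous_const))

theorem A_fderiv {ρ : ℝ → ℝ} (hρ : ContDiff ℝ ∞ ρ) (j : Fin n) {w : Eu n → Eu n}
    (hw : ContDiff ℝ ∞ w) (x h : Eu n) :
    fderiv ℝ (Aop ρ j w) x h = ∫ s in (0 : ℝ)..1, ρ s • fderiv ℝ w (x + s • ev j) h := by
  have hG := G_smooth hρ j hw
  have h1 := (param_fderiv _ hG x).fderiv
  have h2 : fderiv ℝ (Aop ρ j w) x = ∫ s in (0 : ℝ)..1,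
      (fderiv ℝ (fun q : Eu n × ℝ => ρ q.2 • w (q.1 + q.2 • ev j)) (x, s)).comp
        (ContinuousLinearMap.inl ℝ (Eu n) ℝ) := h1
  rw [h2]
  have hc : Continuous (fun s : ℝ =>
      (fderiv ℝ (fun q : Eu n × ℝ => ρ q.2 • w (q.1 + q.2 • ev j)) (x, s)).comp
        (ContinuousLinearMap.inl ℝ (Eu n) ℝ)) :=
    ((hG.continuous_fderiv (by simp)).comp (continuous_const.prodMk continuous_id)).clm_comp
      continuous_const
  rw [ContinuousLinearMap.intervalIntegral_apply (hc.intervalIntegrable _ _)]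
  refine intervalIntegral.integral_congr fun s _ => ?_
  have h3 : HasFDerivAt (fun y : Eu n => (y, s)) (ContinuousLinearMap.inl ℝ (Eu n) ℝ) x :=
    (hasFDerivAt_id x).prodMk (hasFDerivAt_const s x)
  have h4 := ((hG.differentiable (by simp)) (x, s)).hasFDerivAt.comp x h3
  have h5 : HasFDerivAt (fun y : Eu n => ρ s • w (y + s • ev j))
      (ρ s • fderiv ℝ w (x + s • ev j)) x := by
    have h6 : HasFDerivAt (fun y : Eu n => w (y + s • ev j)) (fderiv ℝ w (x + s • ev j)) x := by
      have h7 := ((hw.differentiable (by simp)) (x + s • ev j)).hasFDerivAt.comp x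
        ((hasFDerivAt_id x).add_const (s • ev j))
      rw [ContinuousLinearMap.comp_id] at h7
      exact h7
    exact h6.const_smul (ρ s)
  have h8 := h4.unique h5
  have h9 := congrArg (fun L : Eu n →L[ℝ] Eu n => L h) h8
  simpa using h9

theorem line_deriv {w : Eu n → Eu n} (hw : ContDiff ℝ ∞ w) (x : Eu n) (j : Fin n) (s : ℝ) :
    HasDerivAt (fun s : ℝ => w (x + s • ev j)) (fderiv ℝ w (x + s • ev j) (ev j)) s := by
  have h1 : HasDerivAt (fun t : ℝ => x + t • ev j) (ev j) s := by
    simpa using ((hasDerivAt_id s).smul_const (ev j)).const_add x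
  exact ((hw.differentiable (by simp)) _).hasFDerivAt.comp_hasDerivAt s h1

theorem per_ev {w : Eu n → Eu n} (hp : Per w) (x : Eu n) (j : Fin n) : w (x + ev j) = w x := by
  rw [← HsA.iv_single, hp]

/-- The derivative of the mean in its direction is zero. -/
theorem M_self {w : Eu n → Eu n} (hw : ContDiff ℝ ∞ w) (hp : Per w) (j : Fin n) (x : Eu n) :
    fderiv ℝ (Aop (fun _ => 1) j w) x (ev j) = 0 := by
  rw [A_fderiv contDiff_const j hw]
  simp only [one_smul]
  rw [intervalIntegral.integral_eq_sub_of_hasDerivAt (fun s _ => line_deriv hw x j s)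
    (((dw_cont hw x j).clm_apply continuous_const).intervalIntegrable _ _)]
  simp [per_ev hp]

/-- The derivative of the weighted mean in its direction. -/
theorem I_self {w : Eu n → Eu n} (hw : ContDiff ℝ ∞ w) (hp : Per w) (j : Fin n) (x : Eu n) :
    fderiv ℝ (Aop (fun s => s) j w) x (ev j) = w x - Aop (fun _ => 1) j w x := by
  rw [A_fderiv (ρ := fun s => s) contDiff_id j hw]
  have h1 : ∀ s : ℝ, HasDerivAt (fun s : ℝ => s • w (x + s • ev j))
      (s • fderiv ℝ w (x + s • ev j) (ev j) + (1 : ℝ) • w (x + s • ev j)) s := fun s =>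
    (hasDerivAt_id s).smul (line_deriv hw x j s)
  have hc1 : Continuous (fun s : ℝ => s • fderiv ℝ w (x + s • ev j) (ev j)) :=
    continuous_id.smul ((dw_cont hw x j).clm_apply continuous_const)
  have hc3 : Continuous (fun s : ℝ => w (x + s • ev j)) := hw.continuous.comp
      (continuous_const.add (continuous_id.smul continuous_const))
  have hc2 : Continuous (fun s : ℝ => (1 : ℝ) • w (x + s • ev j)) := by
    simpa only [one_smul] using hc3
  have h2 := intervalIntegral.integral_eq_sub_of_hasDerivAt (fun s (_ : s ∈ Set.uIcc (0 : ℝ) 1) =>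
    h1 s) ((hc1.add hc2).intervalIntegrable _ _)
  rw [intervalIntegral.integral_add (hc1.intervalIntegrable _ _) (hc2.intervalIntegrable _ _)] at h2
  simp only [one_smul, zero_smul, sub_zero, per_ev hp] at h2
  unfold Aop
  simp only [one_smul]
  rw [← h2]
  simp

theorem A_dir {ρ : ℝ → ℝ} (hρ : ContDiff ℝ ∞ ρ) (j i : Fin n) {w : Eu n → Eu n}
    (hw : ContDiff ℝ ∞ w) (h0 : ∀ x, fderiv ℝ w x (ev i) = 0) (x : Eu n) :
    fderiv ℝ (Aop ρ j w) x (ev i) = 0 := by
  rw [A_fderiv hρ j hw]
  simp [h0]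

theorem A_div {ρ : ℝ → ℝ} (hρ : ContDiff ℝ ∞ ρ) (j : Fin n) {w : Eu n → Eu n}
    (hw : ContDiff ℝ ∞ w) (h0 : ∀ x, ∑ i, (fderiv ℝ w x (ev i)) i = 0) (x : Eu n) :
    ∑ i, (fderiv ℝ (Aop ρ j w) x (ev i)) i = 0 := by
  have h1 : ∀ i : Fin n, (fderiv ℝ (Aop ρ j w) x (ev i)) i =
      ∫ s in (0 : ℝ)..1, ρ s * (fderiv ℝ w (x + s • ev j) (ev i)) i := by
    intro i
    rw [A_fderiv hρ j hw]
    have hc : Continuous (fun s : ℝ => ρ s • fderiv ℝ w (x + s • ev j) (ev i)) :=
      hρ.continuous.smul ((dw_cont hw x j).clm_apply continuous_const)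
    have h2 := (EuclideanSpace.proj (𝕜 := ℝ) i).intervalIntegral_comp_comm
      (hc.intervalIntegrable (μ := volume) 0 1)
    simpa using h2.symm
  simp only [h1]
  rw [← intervalIntegral.integral_finsetSum]
  · have h3 : ∀ s : ℝ, ∑ i, ρ s * (fderiv ℝ w (x + s • ev j) (ev i)) i = 0 := fun s => by
      rw [← Finset.mul_sum, h0, mul_zero]
    simp [h3]
  · intro i _
    have hc : Continuous (fun s : ℝ => ρ s * (fderiv ℝ w (x + s • ev j) (ev i)) i) :=
      hρ.continuous.mul ((EuclideanSpace.proj (𝕜 := ℝ) i).continuous.comp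
        ((dw_cont hw x j).clm_apply continuous_const))
    exact hc.intervalIntegrable _ _

/-- The mean over the cube does not change. -/
theorem M_mean (j : Fin n) {w : Eu n → Eu n} (hw : ContDiff ℝ ∞ w) (hp : Per w) :
    ∫ x in cube n, Aop (fun _ => 1) j w x = ∫ x in cube n, w x := by
  have hc : Continuous (fun q : Eu n × ℝ => w (q.1 + q.2 • ev j)) :=
    hw.continuous.comp (continuous_fst.add (continuous_snd.smul continuous_const))
  have h1 : ∀ x, Aop (fun _ => 1) j w x = ∫ s in Set.Ioc (0 : ℝ) 1, w (x + s • ev j) := by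
    intro x
    unfold Aop
    rw [intervalIntegral.integral_of_le zero_le_one]
    simp
  simp only [h1]
  have hint : Integrable (Function.uncurry fun (x : Eu n) (s : ℝ) => w (x + s • ev j))
      ((volume.restrict (cube n)).prod (volume.restrict (Set.Ioc (0 : ℝ) 1))) := by
    rw [Measure.prod_restrict]
    have hK : IsCompact ({x : Eu n | ∀ i, x i ∈ Set.Icc (0 : ℝ) 1} ×ˢ Set.Icc (0 : ℝ) 1) :=
      HsA.closed_compact.prod isCompact_Icc
    exact (hc.continuousOn.integrableOn_compact hK).mono_set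
      (Set.prod_mono HsA.cube_sub_closed Set.Ioc_subset_Icc_self)
  rw [integral_integral_swap hint]
  have h2 : ∀ s : ℝ, ∫ x in cube n, w (x + s • ev j) = ∫ x in cube n, w x := by
    intro s
    have h3 := HsA.cube_trans w hp (s • ev j)
    simpa only [add_comm] using h3
  simp [h2]

/-- The sequence of iterated means. -/
def W (v : Eu n → Eu n) : ℕ → (Eu n → Eu n)
  | 0 => v
  | k + 1 => if h : k < n then Aop (fun _ => 1) ⟨k, h⟩ (W v k) else W v k

theorem W_props {v : Eu n → Eu n} (hv : ContDiff ℝ ∞ v) (hp : Per v)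
    (hd : ∀ x, ∑ j, (fderiv ℝ v x (ev j)) j = 0) (k : ℕ) :
    ContDiff ℝ ∞ (W v k) ∧ Per (W v k) ∧ (∀ x, ∑ j, (fderiv ℝ (W v k) x (ev j)) j = 0) ∧
      (∀ j : Fin n, (j : ℕ) < k → ∀ x, fderiv ℝ (W v k) x (ev j) = 0) ∧
      ∫ x in cube n, W v k x = ∫ x in cube n, v x := by
  induction k with
  | zero => exact ⟨hv, hp, hd, fun j hj => absurd hj (Nat.not_lt_zero _), rfl⟩
  | succ k ih =>
    obtain ⟨h1, h2, h3, h4, h5⟩ := ih
    by_cases h : k < n
    · have hW : W v (k + 1) = Aop (fun _ => 1) ⟨k, h⟩ (W v k) := by simp [W, h]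
      rw [hW]
      refine ⟨A_smooth contDiff_const _ h1, A_per _ _ h2, A_div contDiff_const _ h1 h3, ?_, ?_⟩
      · intro j hj x
        rcases Nat.lt_succ_iff_lt_or_eq.1 hj with hj | hj
        · exact A_dir contDiff_const _ _ h1 (h4 j hj) x
        · have : (⟨k, h⟩ : Fin n) = j := Fin.ext hj.symm
          rw [this]
          exact M_self h1 h2 j x
      · rw [M_mean _ h1 h2, h5]
    · have hW : W v (k + 1) = W v k := by simp [W, h]
      rw [hW]
      exact ⟨h1, h2, h3, fun j _ x => h4 j (by have := j.2; omega) x, h5⟩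

theorem W_end {v : Eu n → Eu n} (hv : ContDiff ℝ ∞ v) (hp : Per v)
    (hd : ∀ x, ∑ j, (fderiv ℝ v x (ev j)) j = 0) (h0 : ∫ x in cube n, v x = 0) (x : Eu n) :
    W v n x = 0 := by
  obtain ⟨h1, h2, h3, h4, h5⟩ := W_props hv hp hd n
  have hz : ∀ x, fderiv ℝ (W v n) x = 0 := by
    intro x
    ext1 y
    have hy : y = ∑ j, y j • ev j := by
      ext i
      simp [ev, Pi.single_apply]
    rw [hy, map_sum]
    simp [h4 _ (Fin.is_lt _)]
  have hcst : ∀ y, W v n y = W v n x := fun y =>
    is_const_of_fderiv_eq_zero (h1.differentiable (by simp)) hz y x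
  have h6 : ∫ y in cube n, W v n y = W v n x := by
    simp only [hcst]
    rw [setIntegral_const, Measure.real, HsA.vol_cube]
    simp
  rw [← h6, h5, h0]

/-- One step. -/
theorem step {w : Eu n → Eu n} (hw : ContDiff ℝ ∞ w) (hp : Per w)
    (hd : ∀ x, ∑ j, (fderiv ℝ w x (ev j)) j = 0) (m : Fin n) (x : Eu n) :
    ∑ i, jgrad i m (fun y => if i = m then 0 else Aop (fun s => s) m w y i) x =
      w x - Aop (fun _ => 1) m w x := by
  have hI := A_smooth (ρ := fun s => s) contDiff_id m hw
  have hf : ∀ i : Fin n, i ≠ m → ∀ h : Eu n,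
      fderiv ℝ (fun y => if i = m then 0 else Aop (fun s => s) m w y i) x h =
        (fderiv ℝ (Aop (fun s => s) m w) x h) i := by
    intro i hi h
    simp only [hi, if_false]
    have h1 := ((EuclideanSpace.proj (𝕜 := ℝ) i).hasFDerivAt.comp x
      ((hI.differentiable (by simp)) x).hasFDerivAt).fderiv
    have h2 := congrArg (fun L : Eu n →L[ℝ] ℝ => L h) h1
    exact h2
  have hdiv := A_div (ρ := fun s => s) contDiff_id m hw hd x
  have hself := I_self hw hp m x
  have hjg : ∀ i : Fin n, jgrad i m (fun y => if i = m then 0 else Aop (fun s => s) m w y i) x =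
      (fderiv ℝ (Aop (fun s => s) m w) x (ev m)) i • ev i -
        (fderiv ℝ (Aop (fun s => s) m w) x (ev i)) i • ev m := by
    intro i
    by_cases hi : i = m
    · subst hi
      simp [jgrad]
    · unfold jgrad
      rw [hf i hi, hf i hi]
  simp only [hjg]
  rw [Finset.sum_sub_distrib, ← Finset.sum_smul, hdiv, zero_smul, sub_zero, hself]
  ext i
  simp [ev, Pi.single_apply]

end StreamA

open StreamA in
theorem stream : Stream := by
  intro n v hv hp hd h0
  refine ⟨fun i m y => if i = m then 0 else Aop (fun s => s) m (W v m) y i, ?_, ?_, ?_⟩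
  · intro i m
    by_cases hi : i = m
    · simp only [hi, if_true]
      exact contDiff_const
    · simp only [hi, if_false]
      exact (EuclideanSpace.proj (𝕜 := ℝ) i).contDiff.comp
        (A_smooth contDiff_id m (W_props hv hp hd m).1)
  · intro i m y k
    by_cases hi : i = m
    · simp [hi]
    · simp only [hi, if_false]
      rw [A_per _ m (W_props hv hp hd m).2.1]
  · intro x
    rw [Finset.sum_comm]
    have h1 : ∀ m : Fin n, ∑ i, jgrad i m (fun y => if i = m then 0 else
        Aop (fun s => s) m (W v m) y i) x = W v m x - W v (m + 1) x := by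
      intro m
      obtain ⟨a1, a2, a3, -, -⟩ := W_props hv hp hd m
      rw [step a1 a2 a3 m x]
      have hW : W v ((m : ℕ) + 1) = Aop (fun _ => 1) m (W v m) := by
        simp [W]
      rw [hW]
    simp only [h1]
    rw [Fin.sum_univ_eq_sum_range (fun k => W v k x - W v (k + 1) x) n, Finset.sum_range_sub',
      W_end hv hp hd h0 x, sub_zero]
    rfl

end

end Pool.Agent.H68.VD
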