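import Pool.Agent.H68.VD.St

/-! # Twists have cost zero -/

namespace Pool.Agent.H68.VD

open MeasureTheory Set Filter Topology
open scoped ENNReal ContDiff

noncomputable section

namespace SwirlCA

variable {n : ℕ}

theorem cost_mono {N : (Eu n → Eu n) → ℝ≥0∞} {P : Subgroup (Eu n ≃ᵃ[ℝ] Eu n)} {f : Eu n → Eu n}
    {a b : ℝ} (h : Cost N P f a) (hab : a ≤ b) : Cost N P f b := by
  obtain ⟨φ, l, h1, h2, h3, h4, h5, h6, h7⟩ := h
  exact ⟨φ, l, h1, h2, h3, h4, h5, h6, h7.trans hab⟩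

theorem vel_per (F : FamKit) {P : Subgroup (Eu n ≃ᵃ[ℝ] Eu n)} (hP : Deck P)
    {φ : ℝ → Eu n → Eu n} (h : IsPath P φ) (t : ℝ) : Per (vel φ t) := by
  intro x k
  have h1 := F.velEqui n P φ h _ (hP.trans k) t x
  have h2 : (AffineEquiv.constVAdd ℝ (Eu n) (iv k)) x = x + iv k := by
    simp [AffineEquiv.constVAdd_apply, add_comm]
  rw [h2] at h1
  rw [h1]
  simp

theorem rotR_zero (R : RotKit) (i j : Fin n) :
    rotR i j (0 : ℝ) = ContinuousLinearMap.id ℝ (Eu n) := by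
  have := R.per n i j 0
  simpa using this

theorem extMap_twist_id (X : ExtKit) (P : Subgroup (Eu n ≃ᵃ[ℝ] Eu n)) (c : Eu n)
    (A : ℝ → (Eu n →L[ℝ] Eu n)) (hA : ∀ ρ, A ρ = ContinuousLinearMap.id ℝ (Eu n)) :
    extMap P (twist c A) = id := by
  have htw0 : ∀ x, twist c A x = x := by
    intro x
    simp [twist, hA]
  funext x
  have : ext P (fun y : Eu n => twist c A y - y) x = 0 := by
    apply X.outside
    intro g _
    simp [htw0]
  show x + ext P (fun y : Eu n => twist c A y - y) x = x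
  rw [this, add_zero]

theorem sum_ev (y : Eu n) : ∑ k, (y k) • (ev k : Eu n) = y := by
  ext l
  simp only [ev, WithLp.ofLp_sum, Finset.sum_apply, WithLp.ofLp_smul, Pi.smul_apply,
    smul_eq_mul, PiLp.single_apply, mul_ite, mul_one, mul_zero, Finset.sum_ite_eq, Finset.mem_univ,
    if_true]

theorem dv_swirl (c : Eu n) (i j : Fin n) (Ψ : ℝ → ℝ) (hΨ : ContDiff ℝ ∞ Ψ) (x : Eu n) :
    dv (fun x => Ψ (‖x - c‖ ^ 2) • rotJ i j) x =
      (2 * deriv Ψ (‖x - c‖ ^ 2)) • rotJ i j (x - c) := by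
  have h1 : HasFDerivAt (fun x : Eu n => ‖x - c‖ ^ 2)
      (2 • (innerSL ℝ (x - c)).comp (ContinuousLinearMap.id ℝ (Eu n))) x :=
    ((hasFDerivAt_id x).sub_const c).norm_sq
  have h2 : HasDerivAt Ψ (deriv Ψ (‖x - c‖ ^ 2)) (‖x - c‖ ^ 2) :=
    ((hΨ.differentiable (by simp)) _).hasDerivAt
  have h3 := h2.comp_hasFDerivAt x h1
  have h4 := h3.smul_const (rotJ i j)
  have h5 : fderiv ℝ (fun x => Ψ (‖x - c‖ ^ 2) • rotJ i j) x = _ := h4.fderiv
  unfold dv
  rw [h5]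
  have h6 : ∀ k : Fin n, ((((deriv Ψ (‖x - c‖ ^ 2)) •
      (2 • (innerSL ℝ (x - c)).comp (ContinuousLinearMap.id ℝ (Eu n)))).smulRight (rotJ i j)) (ev k))
      (ev k) = (2 * deriv Ψ (‖x - c‖ ^ 2)) • rotJ i j (((x - c) k) • ev k) := by
    intro k
    have h7 : inner ℝ (x - c) (ev k) = (x - c) k := by
      simp [ev, EuclideanSpace.inner_single_right]
    simp only [ContinuousLinearMap.smulRight_apply, smul_apply,
      ContinuousLinearMap.comp_apply, ContinuousLinearMap.id_apply, innerSL_apply_apply, h7,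
      smul_eq_mul, map_smul, smul_smul, nsmul_eq_mul]
    congr 1
    push_cast
    ring
  rw [Finset.sum_congr rfl (fun k _ => h6 k), ← Finset.smul_sum, ← map_sum, sum_ev]

theorem norm_rotJ (R : RotKit) (i j : Fin n) : ‖(rotJ i j : Eu n →L[ℝ] Eu n)‖ ≤ 1 :=
  ContinuousLinearMap.opNorm_le_bound _ zero_le_one (fun x => by
    rw [one_mul]
    exact R.normJ n i j x)

/-- The velocity of a ball family is smooth. -/
theorem vel_cont (F : FamKit) (c : Eu n) (r : ℝ) (T : ℝ → Eu n → Eu n) (hT : BallFam c r T) (t : ℝ) :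
    Continuous (vel T t) := by
  have h : IsPath (⊥ : Subgroup (Eu n ≃ᵃ[ℝ] Eu n)) T := by
    refine ⟨hT.smooth, hT.bij, hT.det, ?_⟩
    intro e g hg x
    rw [Subgroup.mem_bot] at hg
    subst hg
    rfl
  exact ((F.velSmooth n ⊥ T h).comp (contDiff_const.prodMk contDiff_id)).continuous

/-- The small part. -/
theorem cost_a (CK : CostKit) (TF : TwistFam) (TV : TwistVel) (R : RotKit)
    (X : ExtKit) (P : Subgroup (Eu n ≃ᵃ[ℝ] Eu n)) (hP : Deck P)
    {N : (Eu n → Eu n) → ℝ≥0∞} {p : ℝ} (hN : WeakNorm N p) (c : Eu n) (r r' : ℝ) (hS : Sep P c r)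
    (hr' : 0 < r') (hrr : r' < r) (i j : Fin n) (hij : i ≠ j) (a : ℝ → ℝ) (ha : ContDiff ℝ ∞ a)
    (ha0 : ∀ ρ, r' ^ 2 ≤ ρ → a ρ = 0) (ε : ℝ) (hε : 0 < ε)
    (hsm : N (fun x => ext P (swirl c i j a) x) ≤ ENNReal.ofReal ε) :
    BallFam c r' (fun e : ℝ => twist c (fun ρ => rotR i j (e * a ρ))) ∧
    Cost N P (extMap P (twist c (fun ρ => rotR i j (a ρ)))) ε := by
  have hrot0 := rotR_zero R i j
  have hA1 : ContDiff ℝ ∞ (fun q : ℝ × ℝ => rotR i j (q.1 * a q.2)) :=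
    (R.smooth n i j).comp (contDiff_fst.mul (ha.comp contDiff_snd))
  have hA2 : ∀ (e ρ : ℝ) (x : Eu n), ‖rotR i j (e * a ρ) x‖ = ‖x‖ := fun e ρ x =>
    R.iso n i j hij _ x
  have hA3 : ∀ (e ρ : ℝ), (rotR i j (e * a ρ)).det = 1 := fun e ρ => R.det n i j hij _
  have hA4 : ∀ (e ρ : ℝ), r' ^ 2 ≤ ρ →
      rotR i j (e * a ρ) = ContinuousLinearMap.id ℝ (Eu n) := by
    intro e ρ hρ
    rw [ha0 ρ hρ, mul_zero, hrot0]
  have hB : BallFam c r' (fun e : ℝ => twist c (fun ρ => rotR i j (e * a ρ))) :=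
    TF n ℝ c r' (fun e ρ => rotR i j (e * a ρ)) hr' hA1 hA2 hA3 hA4
  refine ⟨hB, ?_⟩
  have hT : IsPath P (fun e : ℝ => extMap P (twist c (fun ρ => rotR i j (e * a ρ)))) :=
    X.fam n P hP c r r' hS hr' hrr ℝ _ hB
  have hT0 : extMap P (twist c (fun ρ => rotR i j ((0 : ℝ) * a ρ))) = id :=
    extMap_twist_id X P c _ (fun ρ => by rw [zero_mul, hrot0])
  have hvT : ∀ t z, vel (fun e : ℝ => extMap P (twist c (fun ρ => rotR i j (e * a ρ)))) t z =
      ext P (swirl c i j a) z := by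
    intro t z
    rw [X.velExt n P hP c r r' hS hr' hrr _ hB]
    congr 1
    funext y
    obtain ⟨x, rfl⟩ := (hB.bij t).2 y
    have h1 := TV n c r' (fun e ρ => rotR i j (e * a ρ)) hr' hA1 hA2 hA3 hA4 t x
    rw [h1]
    have h3 : HasDerivAt (fun τ : ℝ => rotR i j (τ * a (‖x - c‖ ^ 2)))
        (a (‖x - c‖ ^ 2) • (rotJ i j ∘L rotR i j (t * a (‖x - c‖ ^ 2)))) t := by
      have h4 : HasDerivAt (fun τ : ℝ => τ * a (‖x - c‖ ^ 2)) (a (‖x - c‖ ^ 2)) t := by
        simpa using (hasDerivAt_id t).mul_const (a (‖x - c‖ ^ 2))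
      exact (R.deriv n i j hij (t * a (‖x - c‖ ^ 2))).scomp t h4
    rw [h3.deriv]
    have h5 : twist c (fun ρ => rotR i j (t * a ρ)) x - c =
        rotR i j (t * a (‖x - c‖ ^ 2)) (x - c) := by
      simp [twist]
    simp only [swirl]
    rw [h5, hA2]
    simp
  have h1 := CK.path n P N p hN _ hT hT0 1 ε zero_le_one hε.le (by
    intro t _
    have h2 : vel (fun e : ℝ => extMap P (twist c (fun ρ => rotR i j (e * a ρ)))) t =
        fun z => ext P (swirl c i j a) z := funext (hvT t)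
    rw [h2]
    exact hsm)
  have h3 : (fun ρ => rotR i j ((1 : ℝ) * a ρ)) = fun ρ => rotR i j (a ρ) := by
    funext ρ
    rw [one_mul]
  have h4 : Cost N P (extMap P (twist c (fun ρ => rotR i j ((1 : ℝ) * a ρ)))) (ε * 1) := h1
  rw [h3, mul_one] at h4
  exact h4

/-- The integer part. -/
theorem cost_m (F : FamKit) (CK : CostKit) (TF : TwistFam) (TV : TwistVel)
    (X : ExtKit) (P : Subgroup (Eu n ≃ᵃ[ℝ] Eu n)) (hP : Deck P)
    {N : (Eu n → Eu n) → ℝ≥0∞} {p : ℝ} (hN : WeakNorm N p) (c : Eu n) (r r' : ℝ) (hS : Sep P c r)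
    (hr' : 0 < r') (hrr : r' < r) (K : ℝ → ℝ → (Eu n →L[ℝ] Eu n))
    (hK : ContDiff ℝ ∞ (fun q : ℝ × ℝ => K q.1 q.2)) (hKn : ∀ τ y x, ‖K τ y x‖ = ‖x‖)
    (hKd : ∀ τ y, (K τ y).det = 1) (hK1 : ∀ y, K 1 y = ContinuousLinearMap.id ℝ (Eu n))
    (hKz : ∀ τ (m : ℤ), K τ m = ContinuousLinearMap.id ℝ (Eu n))
    (hKv : ∀ τ y, ‖deriv (fun τ => K τ y) τ‖ ≤ 2 * Real.pi)
    (m : ℝ → ℝ) (hm : ContDiff ℝ ∞ m)
    (hm0 : ∀ ρ, r' ^ 2 ≤ ρ → m ρ = 0) (Cb Cl ε' ε : ℝ) (hCb0 : 0 ≤ Cb) (hCl0 : 0 ≤ Cl)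
    (hε' : 0 ≤ ε') (hε : 0 < ε)
    (hCb : ∀ u : Eu n → Eu n, Continuous u → Per u →
      N u ≤ ENNReal.ofReal Cb * (∫⁻ x in cube n, ‖u x‖ₑ ^ p) ^ (1 / p))
    (hCl : ∀ u : Eu n → Eu n, Continuous u → (∀ x, r ≤ dist x c → u x = 0) →
      ∫⁻ x in cube n, ‖ext P u x‖ₑ ^ p ≤ ENNReal.ofReal Cl * ∫⁻ x, ‖u x‖ₑ ^ p)
    (hν : (Measure.map (fun x : Eu n => ‖x - c‖ ^ 2) (volume.restrict (Metric.closedBall c r')))
      {ρ | ∀ k : ℤ, m ρ ≠ k} ≤ ENNReal.ofReal ε')
    (hnum : Cb * (Cl * ((2 * Real.pi * r') ^ p * ε')) ^ (1 / p) ≤ ε) :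
    BallFam c r' (fun e : ℝ => twist c (fun ρ => K (1 - e) (m ρ))) ∧
    Cost N P (extMap P (twist c (fun ρ => K 0 (m ρ)))) ε := by
  have hp : 1 ≤ p := hN.hp
  have hpi : 0 < 2 * Real.pi * r' := by positivity
  have hA1 : ContDiff ℝ ∞ (fun q : ℝ × ℝ => K (1 - q.1) (m q.2)) :=
    hK.comp ((contDiff_const.sub contDiff_fst).prodMk (hm.comp contDiff_snd))
  have hA2 : ∀ (e ρ : ℝ) (x : Eu n), ‖K (1 - e) (m ρ) x‖ = ‖x‖ := fun e ρ x => hKn _ _ x
  have hA3 : ∀ (e ρ : ℝ), (K (1 - e) (m ρ)).det = 1 := fun e ρ => hKd _ _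
  have hA4 : ∀ (e ρ : ℝ), r' ^ 2 ≤ ρ →
      K (1 - e) (m ρ) = ContinuousLinearMap.id ℝ (Eu n) := by
    intro e ρ hρ
    rw [hm0 ρ hρ]
    simpa using hKz (1 - e) 0
  have hB : BallFam c r' (fun e : ℝ => twist c (fun ρ => K (1 - e) (m ρ))) :=
    TF n ℝ c r' (fun e ρ => K (1 - e) (m ρ)) hr' hA1 hA2 hA3 hA4
  refine ⟨hB, ?_⟩
  have hT : IsPath P (fun e : ℝ => extMap P (twist c (fun ρ => K (1 - e) (m ρ)))) :=
    X.fam n P hP c r r' hS hr' hrr ℝ _ hB
  have hT0 : extMap P (twist c (fun ρ => K (1 - (0 : ℝ)) (m ρ))) = id :=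
    extMap_twist_id X P c _ (fun ρ => by rw [sub_zero, hK1])
  -- the velocity of the twist
  have hv1 : ∀ t z, ‖vel (fun e : ℝ => twist c (fun ρ => K (1 - e) (m ρ))) t z‖ₑ ≤
      (Metric.closedBall c r' ∩ (fun x : Eu n => ‖x - c‖ ^ 2) ⁻¹' {ρ | ∀ k : ℤ, m ρ ≠ k}).indicator
        (fun _ => ENNReal.ofReal (2 * Real.pi * r')) z := by
    intro t y
    by_cases hy : r' ≤ dist y c
    · rw [X.velOut n c r' _ hB t y hy]
      simp
    · rw [not_le] at hy
      obtain ⟨x, hx⟩ := (hB.bij t).2 y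
      have h1 := TV n c r' (fun e ρ => K (1 - e) (m ρ)) hr' hA1 hA2 hA3 hA4 t x
      have hx' : twist c (fun ρ => K (1 - t) (m ρ)) x = y := hx
      rw [hx'] at h1
      rw [h1]
      have h5 : y - c = K (1 - t) (m (‖x - c‖ ^ 2)) (x - c) := by
        rw [← hx']
        simp [twist]
      have h6 : ‖y - c‖ = ‖x - c‖ := by
        rw [h5, hA2]
      by_cases hk : ∀ k : ℤ, m (‖y - c‖ ^ 2) ≠ k
      · have hmem : y ∈ Metric.closedBall c r' ∩
            (fun x : Eu n => ‖x - c‖ ^ 2) ⁻¹' {ρ | ∀ k : ℤ, m ρ ≠ k} :=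
          ⟨Metric.mem_closedBall.mpr hy.le, hk⟩
        rw [indicator_of_mem hmem]
        rw [← ofReal_norm]
        apply ENNReal.ofReal_le_ofReal
        have h7 : deriv (fun τ => K (1 - τ) (m (‖x - c‖ ^ 2))) t =
            - deriv (fun τ => K τ (m (‖x - c‖ ^ 2))) (1 - t) := by
          have := deriv_comp_const_sub (f := fun τ => K τ (m (‖x - c‖ ^ 2))) (a := 1) (x := t)
          exact this
        have h8 : ‖deriv (fun τ => K (1 - τ) (m (‖x - c‖ ^ 2))) t‖ ≤ 2 * Real.pi := by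
          rw [h7, norm_neg]
          exact hKv _ _
        have h9 : ‖x - c‖ ≤ r' := by
          rw [← h6, ← dist_eq_norm]
          exact hy.le
        calc ‖(deriv (fun τ => K (1 - τ) (m (‖x - c‖ ^ 2))) t) (x - c)‖
            ≤ ‖deriv (fun τ => K (1 - τ) (m (‖x - c‖ ^ 2))) t‖ * ‖x - c‖ :=
              ContinuousLinearMap.le_opNorm _ _
          _ ≤ 2 * Real.pi * r' := by
              apply mul_le_mul h8 h9 (norm_nonneg _) (by positivity)
      · push Not at hk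
        obtain ⟨k, hk⟩ := hk
        rw [h6] at hk
        have h7 : (fun τ : ℝ => K (1 - τ) (m (‖x - c‖ ^ 2))) = fun _ =>
            ContinuousLinearMap.id ℝ (Eu n) := by
          funext τ
          rw [hk, hKz]
        rw [h7]
        simp
  have hmeas : MeasurableSet {ρ : ℝ | ∀ k : ℤ, m ρ ≠ k} := by
    have : {ρ : ℝ | ∀ k : ℤ, m ρ ≠ k} = (m ⁻¹' (Set.range (fun k : ℤ => (k : ℝ))))ᶜ := by
      ext ρ
      simp only [mem_ofPred_eq, mem_compl_iff, mem_preimage, mem_range, not_exists]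
      exact ⟨fun h k hk => h k hk.symm, fun h k hk => h k hk.symm⟩
    rw [this]
    exact ((Set.countable_range _).measurableSet.preimage hm.continuous.measurable).compl
  have hcont : Continuous (fun x : Eu n => ‖x - c‖ ^ 2) := by fun_prop
  have hmeas2 : MeasurableSet ((fun x : Eu n => ‖x - c‖ ^ 2) ⁻¹' {ρ | ∀ k : ℤ, m ρ ≠ k}) :=
    hcont.measurable hmeas
  have hvol : volume (Metric.closedBall c r' ∩
      (fun x : Eu n => ‖x - c‖ ^ 2) ⁻¹' {ρ | ∀ k : ℤ, m ρ ≠ k}) ≤ ENNReal.ofReal ε' := by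
    rw [Measure.map_apply hcont.measurable hmeas, Measure.restrict_apply hmeas2] at hν
    rwa [inter_comm] at hν
  have hint : ∀ t, ∫⁻ x, ‖vel (fun e : ℝ => twist c (fun ρ => K (1 - e) (m ρ))) t x‖ₑ ^ p ≤
      ENNReal.ofReal ((2 * Real.pi * r') ^ p * ε') := by
    intro t
    calc ∫⁻ x, ‖vel (fun e : ℝ => twist c (fun ρ => K (1 - e) (m ρ))) t x‖ₑ ^ p
        ≤ ∫⁻ x, (Metric.closedBall c r' ∩
          (fun x : Eu n => ‖x - c‖ ^ 2) ⁻¹' {ρ | ∀ k : ℤ, m ρ ≠ k}).indicator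
          (fun _ => ENNReal.ofReal ((2 * Real.pi * r') ^ p)) x := by
          apply lintegral_mono
          intro x
          have h1 := ENNReal.rpow_le_rpow (hv1 t x) (by linarith : 0 ≤ p)
          refine h1.trans ?_
          by_cases hx : x ∈ Metric.closedBall c r' ∩
              (fun x : Eu n => ‖x - c‖ ^ 2) ⁻¹' {ρ | ∀ k : ℤ, m ρ ≠ k}
          · rw [indicator_of_mem hx, indicator_of_mem hx, ENNReal.ofReal_rpow_of_pos hpi]
          · rw [indicator_of_notMem hx, indicator_of_notMem hx, ENNReal.zero_rpow_of_pos (by linarith)]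
      _ = ENNReal.ofReal ((2 * Real.pi * r') ^ p) * volume (Metric.closedBall c r' ∩
          (fun x : Eu n => ‖x - c‖ ^ 2) ⁻¹' {ρ | ∀ k : ℤ, m ρ ≠ k}) := by
          rw [lintegral_indicator (measurableSet_closedBall.inter hmeas2), setLIntegral_const]
      _ ≤ ENNReal.ofReal ((2 * Real.pi * r') ^ p) * ENNReal.ofReal ε' := by gcongr
      _ = ENNReal.ofReal ((2 * Real.pi * r') ^ p * ε') := by
          rw [ENNReal.ofReal_mul (by positivity)]
  have h1 := CK.path n P N p hN _ hT hT0 1 ε zero_le_one hε.le (by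
    intro t _
    have hv : vel (fun e : ℝ => extMap P (twist c (fun ρ => K (1 - e) (m ρ)))) t =
        fun z => ext P (vel (fun e : ℝ => twist c (fun ρ => K (1 - e) (m ρ))) t) z :=
      funext (fun z => X.velExt n P hP c r r' hS hr' hrr _ hB t z)
    have hc : Continuous (vel (fun e : ℝ => extMap P (twist c (fun ρ => K (1 - e) (m ρ)))) t) :=
      ((F.velSmooth n P _ hT).comp (contDiff_const.prodMk contDiff_id)).continuous
    have h2 := hCb _ hc (vel_per F hP hT t)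
    have h3 := hCl (vel (fun e : ℝ => twist c (fun ρ => K (1 - e) (m ρ))) t)
      (vel_cont F c r' _ hB t) (fun x hx => X.velOut n c r' _ hB t x (hrr.le.trans hx))
    have h4 : ∫⁻ x in cube n, ‖vel (fun e : ℝ => extMap P (twist c (fun ρ => K (1 - e) (m ρ)))) t x‖ₑ
        ^ p ≤ ENNReal.ofReal (Cl * ((2 * Real.pi * r') ^ p * ε')) := by
      rw [hv, ENNReal.ofReal_mul hCl0]
      exact h3.trans (by gcongr; exact hint t)
    calc N (vel (fun e : ℝ => extMap P (twist c (fun ρ => K (1 - e) (m ρ)))) t)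
        ≤ ENNReal.ofReal Cb * (ENNReal.ofReal (Cl * ((2 * Real.pi * r') ^ p * ε'))) ^ (1 / p) :=
          h2.trans (by gcongr)
      _ = ENNReal.ofReal (Cb * (Cl * ((2 * Real.pi * r') ^ p * ε')) ^ (1 / p)) := by
          rw [ENNReal.ofReal_mul hCb0, ENNReal.ofReal_rpow_of_nonneg (by positivity) (by positivity)]
      _ ≤ ENNReal.ofReal ε := ENNReal.ofReal_le_ofReal hnum)
  have h3 : (fun ρ => K (1 - (1 : ℝ)) (m ρ)) = fun ρ => K 0 (m ρ) := by
    funext ρ
    rw [sub_self]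
  have h4 : Cost N P (extMap P (twist c (fun ρ => K (1 - (1 : ℝ)) (m ρ)))) (ε * 1) := h1
  rw [h3, mul_one] at h4
  exact h4

end SwirlCA

open SwirlCA in
/-- Twists have cost zero. -/
theorem swirlCost (F : FamKit) (CK : CostKit) (TF : TwistFam) (TV : TwistVel) (R : RotKit)
    (H : Homot) (O : Osc) (X : ExtKit) (Y : ExtNorm) : SwirlCost := by
  intro n hn P hP N p hN c r r' hS hr' hrr i j hij b hb hb0 ε hε
  have hp : 1 ≤ p := hN.hp
  obtain ⟨C1, hC1, hsup⟩ := Y.sup n P hP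
  obtain ⟨C2, hC2, hdv⟩ := Y.dvExt n P hP
  obtain ⟨Cb, hCb0, hCb⟩ := hN.bound
  obtain ⟨Cl, hCl0, hCl⟩ := Y.lp n P hP c r hS p hp
  obtain ⟨δ, hδ, hweak⟩ := hN.weak (C1 * (8 * Real.pi * r')) (ε / 2) (by positivity)
  obtain ⟨K, hK, hKn, hKd, hK0, hK1, hKz, hKv⟩ := H n hn i j hij
  have hq : 0 < ε / 2 / (Cb + 1) := by positivity
  have hpi : 0 < 2 * Real.pi * r' := by positivity
  have hε' : 0 < (ε / 2 / (Cb + 1)) ^ p / ((Cl + 1) * (2 * Real.pi * r') ^ p) := by positivity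
  have : IsFiniteMeasure (volume.restrict (Metric.closedBall c r')) :=
    ⟨by
      rw [Measure.restrict_apply MeasurableSet.univ, univ_inter]
      exact measure_closedBall_lt_top⟩
  have : IsFiniteMeasure (Measure.map (fun x : Eu n => ‖x - c‖ ^ 2)
      (volume.restrict (Metric.closedBall c r'))) := inferInstance
  obtain ⟨a, m, Ψ, ha, hm, hΨ, hbam, h0, hΨd, hΨs, ha8, hν⟩ := O b (r' ^ 2) (by positivity) hb hb0
    (Measure.map (fun x : Eu n => ‖x - c‖ ^ 2) (volume.restrict (Metric.closedBall c r')))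
    ((ε / 2 / (Cb + 1)) ^ p / ((Cl + 1) * (2 * Real.pi * r') ^ p)) (δ / (C2 + 1)) hε'
    (by positivity)
  -- the small part
  have hsm : N (fun x => ext P (swirl c i j a) x) ≤ ENNReal.ofReal (ε / 2) := by
    have hT1 : ContDiff ℝ ∞ (fun x : Eu n => Ψ (‖x - c‖ ^ 2) • rotJ i j) := by
      have h1 : ContDiff ℝ ∞ (fun x : Eu n => ‖x - c‖ ^ 2) :=
        (contDiff_id.sub contDiff_const).norm_sq ℝ
      exact (hΨ.comp h1).smul contDiff_const
    have hT2 : ∀ x : Eu n, r' ≤ dist x c → Ψ (‖x - c‖ ^ 2) • (rotJ i j : Eu n →L[ℝ] Eu n) = 0 := by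
      intro x hx
      rw [dist_eq_norm] at hx
      rw [(h0 _ (pow_le_pow_left₀ hr'.le hx 2)).2.2]
      apply ContinuousLinearMap.ext
      intro y
      show (0 : ℝ) • rotJ i j y = 0
      rw [zero_smul]
    have hT3 : ∀ x : Eu n, ‖Ψ (‖x - c‖ ^ 2) • (rotJ i j : Eu n →L[ℝ] Eu n)‖ ≤ δ / (C2 + 1) := by
      intro x
      rw [norm_smul, Real.norm_eq_abs]
      calc |Ψ (‖x - c‖ ^ 2)| * ‖(rotJ i j : Eu n →L[ℝ] Eu n)‖ ≤ (δ / (C2 + 1)) * 1 := by
            apply mul_le_mul (hΨs _ (by positivity)) (norm_rotJ R i j) (norm_nonneg _)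
              (by positivity)
        _ = δ / (C2 + 1) := mul_one _
    obtain ⟨S, hS1, hS2, hS3, hS4⟩ := hdv c r r' hS hrr _ hT1 hT2 _ hT3
    have h5 : dv (fun x : Eu n => Ψ (‖x - c‖ ^ 2) • rotJ i j) = swirl c i j a := by
      funext x
      rw [dv_swirl c i j Ψ hΨ x, hΨd]
      rfl
    have h6 : dv S = fun x => ext P (swirl c i j a) x := by
      funext x
      rw [hS4 x, h5]
    rw [← h6]
    apply hweak S hS1 hS2
    · intro x
      rw [h6]
      apply hsup c r hS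
      · intro x hx
        rw [dist_eq_norm] at hx
        simp only [swirl]
        rw [(h0 _ (pow_le_pow_left₀ hr'.le (hrr.le.trans hx) 2)).1, zero_smul]
      · intro x
        by_cases hx : r' ≤ ‖x - c‖
        · simp only [swirl]
          rw [(h0 _ (pow_le_pow_left₀ hr'.le hx 2)).1, zero_smul, norm_zero]
          positivity
        · rw [not_le] at hx
          simp only [swirl]
          rw [norm_smul, Real.norm_eq_abs]
          exact mul_le_mul (ha8 _) ((R.normJ n i j _).trans hx.le) (norm_nonneg _) (by positivity)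
    · intro x
      refine (hS3 x).trans ?_
      rw [mul_div_assoc', div_le_iff₀ (by positivity)]
      nlinarith
  obtain ⟨hBa, hca⟩ := cost_a CK TF TV R X P hP hN c r r' hS hr' hrr i j hij a ha
    (fun ρ hρ => (h0 ρ hρ).1) (ε / 2) (by positivity) hsm
  -- the integer part
  obtain ⟨hBm, hcm⟩ := cost_m F CK TF TV X P hP hN c r r' hS hr' hrr K hK hKn hKd hK1 hKz hKv m hm
    (fun ρ hρ => (h0 ρ hρ).2.1) Cb Cl _ (ε / 2) hCb0 hCl0 hε'.le (by positivity) hCb hCl hν (by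
      have h1 : Cl * ((2 * Real.pi * r') ^ p *
          ((ε / 2 / (Cb + 1)) ^ p / ((Cl + 1) * (2 * Real.pi * r') ^ p))) ≤
          (ε / 2 / (Cb + 1)) ^ p := by
        have h2 : Cl * ((2 * Real.pi * r') ^ p *
            ((ε / 2 / (Cb + 1)) ^ p / ((Cl + 1) * (2 * Real.pi * r') ^ p))) =
            (Cl / (Cl + 1)) * (ε / 2 / (Cb + 1)) ^ p := by
          field_simp
        rw [h2]
        have h3 : Cl / (Cl + 1) ≤ 1 := by
          rw [div_le_one (by positivity)]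
          linarith
        have h4 : 0 ≤ (ε / 2 / (Cb + 1)) ^ p := by positivity
        nlinarith
      have h5 := Real.rpow_le_rpow (by positivity) h1 (by positivity : (0 : ℝ) ≤ 1 / p)
      have h6 : ((ε / 2 / (Cb + 1)) ^ p) ^ (1 / p) = ε / 2 / (Cb + 1) := by
        rw [← Real.rpow_mul hq.le, mul_one_div_cancel (by linarith), Real.rpow_one]
      rw [h6] at h5
      calc _ ≤ Cb * (ε / 2 / (Cb + 1)) := by gcongr
        _ = (Cb / (Cb + 1)) * (ε / 2) := by ring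
        _ ≤ 1 * (ε / 2) := by
            gcongr
            rw [div_le_one (by positivity)]
            linarith
        _ = ε / 2 := one_mul _)
  have h1 := CK.comp n P N p hN _ _ _ _ hcm hca
  have h2 : (fun x => extMap P (twist c (fun ρ => K 0 (m ρ)))
      (extMap P (twist c (fun ρ => rotR i j (a ρ))) x)) =
      extMap P (twist c (fun ρ => rotR i j (b ρ))) := by
    funext x
    have h3 := X.comp n P c r r' hS hr' hrr ℝ _ _ hBm hBa 1 x
    simp only [sub_self, one_mul] at h3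
    rw [← h3]
    congr 1
    funext y
    have h5 : twist c (fun ρ => rotR i j (a ρ)) y - c = rotR i j (a (‖y - c‖ ^ 2)) (y - c) := by
      simp [twist]
    have h6 : ‖twist c (fun ρ => rotR i j (a ρ)) y - c‖ = ‖y - c‖ := by
      rw [h5, R.iso n i j hij]
    show c + K 0 (m (‖twist c (fun ρ => rotR i j (a ρ)) y - c‖ ^ 2))
      (twist c (fun ρ => rotR i j (a ρ)) y - c) = c + rotR i j (b (‖y - c‖ ^ 2)) (y - c)
    rw [h6, h5, hK0, hbam, add_comm (a (‖y - c‖ ^ 2)), R.add n i j hij]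
    have h7 : 4 * Real.pi * m (‖y - c‖ ^ 2) = 4 * Real.pi * m (‖y - c‖ ^ 2) := rfl
    rfl
  rw [h2] at h1
  exact cost_mono h1 (by linarith)

end

end Pool.Agent.H68.VD
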