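import Pool.Agent.H68.VD.St

/-! # Twists are volume preserving, and their velocity -/

namespace Pool.Agent.H68.VD

open MeasureTheory Set
open scoped ENNReal ContDiff

namespace TwistKA

variable {n : ℕ}

/-- A norm preserving operator as a linear isometry. -/
noncomputable def iso (A : Eu n →L[ℝ] Eu n) (h : ∀ x, ‖A x‖ = ‖x‖) : Eu n →ₗᵢ[ℝ] Eu n :=
  ⟨(A : Eu n →ₗ[ℝ] Eu n), h⟩

theorem inj (A : Eu n →L[ℝ] Eu n) (h : ∀ x, ‖A x‖ = ‖x‖) : Function.Injective A :=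
  (iso A h).injective

theorem surj (A : Eu n →L[ℝ] Eu n) (h : ∀ x, ‖A x‖ = ‖x‖) : Function.Surjective A := by
  have := (LinearMap.injective_iff_surjective (f := (A : Eu n →ₗ[ℝ] Eu n))).1 (inj A h)
  exact this

theorem inner_eq (A : Eu n →L[ℝ] Eu n) (h : ∀ x, ‖A x‖ = ‖x‖) (x y : Eu n) :
    inner ℝ (A x) (A y) = inner ℝ x y :=
  (iso A h).inner_map_map x y

/-- The determinant of `A + 2 <y, .> w` with `w` orthogonal to `A y`. -/
theorem det_add (A : Eu n →L[ℝ] Eu n) (h : ∀ x, ‖A x‖ = ‖x‖) (hd : A.det = 1) (y w : Eu n)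
    (hw : inner ℝ (A y) w = 0) (B : Eu n →L[ℝ] Eu n)
    (hB : ∀ x, B x = A x + (2 * inner ℝ y x) • w) : B.det = 1 := by
  obtain ⟨u, hu⟩ := surj A h w
  have huy : inner ℝ y u = 0 := by rw [← inner_eq A h, hu, hw]
  let f : Module.Dual ℝ (Eu n) := (2 : ℝ) • (innerSL ℝ y : Eu n →L[ℝ] ℝ).toLinearMap
  have hf : ∀ x, f x = 2 * inner ℝ y x := fun x => by simp [f]
  have e : (B : Eu n →ₗ[ℝ] Eu n) = (A : Eu n →ₗ[ℝ] Eu n) ∘ₗ LinearMap.transvection f u := by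
    ext1 x
    rw [LinearMap.comp_apply, LinearMap.transvection.apply, map_add, map_smul, hf]
    change B x = A x + (2 * inner ℝ y x) • A u
    rw [hB, hu]
  have h1 : LinearMap.det (B : Eu n →ₗ[ℝ] Eu n) = 1 := by
    rw [e, LinearMap.det_comp, LinearMap.transvection.det, hf, huy]
    have : LinearMap.det (A : Eu n →ₗ[ℝ] Eu n) = 1 := hd
    rw [this]; norm_num
  exact h1

variable {E : Type} [NormedAddCommGroup E] [NormedSpace ℝ E]

theorem contDiff_section {A : E → ℝ → (Eu n →L[ℝ] Eu n)}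
    (hA : ContDiff ℝ ∞ (fun q : E × ℝ => A q.1 q.2)) (e : E) : ContDiff ℝ ∞ (A e) :=
  hA.comp (contDiff_const.prodMk contDiff_id)

/-- The derivative of the twist. -/
theorem hasFDerivAt_twist (c : Eu n) (A : ℝ → (Eu n →L[ℝ] Eu n)) (hA : ContDiff ℝ ∞ A) (x : Eu n) :
    ∃ B : Eu n →L[ℝ] Eu n, HasFDerivAt (twist c A) B x ∧
      ∀ h, B h = A (‖x - c‖ ^ 2) h +
        (2 * inner ℝ (x - c) h) • (deriv A (‖x - c‖ ^ 2)) (x - c) := by
  have h0 : HasFDerivAt (fun x : Eu n => x - c) (ContinuousLinearMap.id ℝ (Eu n)) x :=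
    (hasFDerivAt_id x).sub_const c
  have h1 := h0.norm_sq
  have h2 : HasDerivAt A (deriv A (‖x - c‖ ^ 2)) (‖x - c‖ ^ 2) :=
    (hA.differentiable (by simp) _).hasDerivAt
  have h3 : HasFDerivAt (fun x : Eu n => A (‖x - c‖ ^ 2)) _ x :=
    h2.hasFDerivAt.comp x h1
  have h4 : HasFDerivAt (fun x : Eu n => A (‖x - c‖ ^ 2) (x - c)) _ x := h3.clm_apply h0
  refine ⟨_, h4.const_add c, fun h => ?_⟩
  clear h0 h1 h2 h3 h4
  generalize x - c = y
  simp [innerSL_apply_apply, two_smul, two_mul, add_smul]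

/-- `w = A' y` is orthogonal to `A y`. -/
theorem orth (A : ℝ → (Eu n →L[ℝ] Eu n)) (hA : ContDiff ℝ ∞ A) (hn : ∀ ρ x, ‖A ρ x‖ = ‖x‖)
    (ρ : ℝ) (y : Eu n) : inner ℝ (A ρ y) ((deriv A ρ) y) = 0 := by
  have h2 : HasDerivAt A (deriv A ρ) ρ := (hA.differentiable (by simp) _).hasDerivAt
  have h3 : HasDerivAt (fun ρ => A ρ y) ((deriv A ρ) y) ρ := by
    have := h2.clm_apply (hasDerivAt_const ρ y)
    simpa using this
  have h4 := h3.norm_sq
  have h5 : (fun ρ => ‖A ρ y‖ ^ 2) = fun _ => ‖y‖ ^ 2 := by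
    funext ρ; rw [hn]
  have h6 : HasDerivAt (fun ρ => ‖A ρ y‖ ^ 2) 0 ρ := by rw [h5]; exact hasDerivAt_const _ _
  have h7 := h4.unique h6
  linarith

theorem twist_norm (c : Eu n) (A : ℝ → (Eu n →L[ℝ] Eu n)) (hn : ∀ ρ x, ‖A ρ x‖ = ‖x‖) (x : Eu n) :
    ‖twist c A x - c‖ = ‖x - c‖ := by
  unfold twist
  rw [add_sub_cancel_left, hn]

theorem twist_inj (c : Eu n) (A : ℝ → (Eu n →L[ℝ] Eu n)) (hn : ∀ ρ x, ‖A ρ x‖ = ‖x‖) :
    Function.Injective (twist c A) := by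
  intro x y hxy
  have h1 : ‖x - c‖ = ‖y - c‖ := by
    rw [← twist_norm c A hn x, hxy, twist_norm c A hn y]
  unfold twist at hxy
  rw [h1] at hxy
  have h2 := inj _ (hn (‖y - c‖ ^ 2)) (add_left_cancel hxy)
  exact sub_left_injective h2

theorem twist_surj (c : Eu n) (A : ℝ → (Eu n →L[ℝ] Eu n)) (hn : ∀ ρ x, ‖A ρ x‖ = ‖x‖) :
    Function.Surjective (twist c A) := by
  intro z
  obtain ⟨y, hy⟩ := surj _ (hn (‖z - c‖ ^ 2)) (z - c)
  have h1 : ‖y‖ = ‖z - c‖ := by rw [← hy, hn]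
  refine ⟨c + y, ?_⟩
  unfold twist
  rw [add_sub_cancel_left, h1, hy]
  abel

end TwistKA

open TwistKA

theorem twistFam : TwistFam := by
  intro n E _ _ c r A hr hA hn hd hid
  refine ⟨?_, ?_, ?_, ?_⟩
  · have h1 : ContDiff ℝ ∞ (fun q : E × Eu n => ‖q.2 - c‖ ^ 2) :=
      (contDiff_snd.sub contDiff_const).norm_sq ℝ
    have h2 : ContDiff ℝ ∞ (fun q : E × Eu n => A q.1 (‖q.2 - c‖ ^ 2)) :=
      hA.comp (contDiff_fst.prodMk h1)
    exact contDiff_const.add (h2.clm_apply (contDiff_snd.sub contDiff_const))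
  · intro e
    exact ⟨twist_inj c (A e) (hn e), twist_surj c (A e) (hn e)⟩
  · intro e x
    obtain ⟨B, hB, hBe⟩ := hasFDerivAt_twist c (A e) (contDiff_section hA e) x
    rw [hB.fderiv]
    exact det_add (A e (‖x - c‖ ^ 2)) (hn e _) (hd e _) (x - c) _
      (orth (A e) (contDiff_section hA e) (hn e) _ _) B hBe
  · intro e x hx
    have h1 : r ^ 2 ≤ ‖x - c‖ ^ 2 := by
      rw [← dist_eq_norm]
      exact pow_le_pow_left₀ hr.le hx 2
    simp only [twist]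
    rw [hid e _ h1]
    simp

theorem twistVel : TwistVel := by
  intro n c r A hr hA hn hd hid t x
  unfold vel
  rw [Function.leftInverse_invFun (twist_inj c (A t) (hn t)) x]
  have h1 : ContDiff ℝ ∞ (fun τ : ℝ => A τ (‖x - c‖ ^ 2)) :=
    hA.comp (contDiff_id.prodMk contDiff_const)
  have h2 : HasDerivAt (fun τ : ℝ => A τ (‖x - c‖ ^ 2))
      (deriv (fun τ : ℝ => A τ (‖x - c‖ ^ 2)) t) t :=
    (h1.differentiable (by simp) _).hasDerivAt
  have h3 := (h2.clm_apply (hasDerivAt_const t (x - c))).const_add c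
  have h4 : HasDerivAt (fun τ => twist c (A τ) x)
      ((deriv (fun τ : ℝ => A τ (‖x - c‖ ^ 2)) t) (x - c)) t := by
    simpa [twist] using h3
  exact h4.deriv

end Pool.Agent.H68.VD
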