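import Pool.Agent.H68.VD.St2

/-! # The scale of Sobolev-Slobodeckij norms of all real orders -/

namespace Pool.Agent.H68.VD

open MeasureTheory Set
open scoped ENNReal ContDiff

noncomputable section

variable {n : ℕ}

/-- The `q`-th power of the Sobolev-Slobodeckij norm of order `r ≥ 0` and exponent `q` of a smooth
periodic field: the `L^q` norms of the derivatives of order at most `⌊r⌋` and, if `r` is not an integer,
the fractional seminorm of order `r - ⌊r⌋` of the derivative of order `⌊r⌋`. -/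
def slob (r q : ℝ) (v : Eu n → Eu n) : ℝ≥0∞ :=
  (∑ k ∈ Finset.range (⌊r⌋₊ + 1), ∫⁻ x in cube n, ‖iteratedFDeriv ℝ k v x‖ₑ ^ q) +
    (if (⌊r⌋₊ : ℝ) < r then
      ∫⁻ x in cube n, ∫⁻ h in Metric.ball (0 : Eu n) 1,
        ‖iteratedFDeriv ℝ ⌊r⌋₊ v (x + h) - iteratedFDeriv ℝ ⌊r⌋₊ v x‖ₑ ^ q /
          ‖h‖ₑ ^ ((n : ℝ) + (r - ⌊r⌋₊) * q)
    else 0)

/-- The norm of `W^{s,p}` for every real `s` and `1 < p`: for `s ≥ 0` the Sobolev-Slobodeckij norm, for
`s < 0` the dual norm of `W^{-s,q}`, where `q = p / (p - 1)` is the conjugate exponent. -/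
def wsp (s p : ℝ) (u : Eu n → Eu n) : ℝ≥0∞ :=
  if 0 ≤ s then (slob s p u) ^ (1 / p)
  else ⨆ (v : Eu n → Eu n) (_ : ContDiff ℝ ∞ v ∧ Per v ∧ slob (-s) (p / (p - 1)) v ≤ 1),
    ENNReal.ofReal |∫ x in cube n, inner ℝ (u x) (v x)|

/-! ### WAll.lean -/

/-- The norms of negative order are weak norms. -/
def WspNeg : Prop := ∀ (n : ℕ) (s p : ℝ), 1 ≤ n → s < 0 → 1 < p → WeakNorm (wsp (n := n) s p) p

/-! ### WMean.lean -/

/-- The norms of negative order are normalized. -/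
def WspNorm : Prop := ∀ (n : ℕ) (s p : ℝ), s < 0 → 1 < p →
  (∀ u : Eu n → Eu n, Continuous u → Per u →
    ENNReal.ofReal ‖∫ x in cube n, u x‖ ≤ wsp (n := n) s p u) ∧
  ∀ m : Eu n, wsp (n := n) s p (fun _ : Eu n => m) ≤ ENNReal.ofReal ‖m‖

/-! ### WPos.lean -/

/-- The norms of nonnegative order dominate the `L^1` norm. -/
def WspPos : Prop := ∀ (n : ℕ) (s p : ℝ), 0 ≤ s → 1 < p → Dominates (wsp (n := n) s p)

end

end Pool.Agent.H68.VD
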