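import Pool.Agent.H68.VD.Wsp
import Pool.Agent.H68.VD.Hs
import Pool.Agent.H68.VD.St3

/-! # The norms of negative order are weak norms (module WAll of project VD) -/

namespace Pool.Agent.H68.VD.WAllA

open MeasureTheory Set Pool.Agent.H68.VD
open scoped ENNReal ContDiff Pointwise

noncomputable section

variable {n : ℕ}

/-- dual norms of a class of test fields are weak norms -/
lemma dualWeak (Tst : (Eu n → Eu n) → Prop) (p q : ℝ) (hp : 1 < p) (hq : q = p / (p - 1))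
    (h1 : ∀ v, Tst v → ContDiff ℝ ∞ v ∧ Per v ∧ ∫⁻ x in cube n, ‖v x‖ₑ ^ q ≤ 1)
    (hw : ∀ B ε : ℝ, 0 < ε → ∃ δ : ℝ, 0 < δ ∧ ∀ T : Eu n → (Eu n →L[ℝ] Eu n), ContDiff ℝ ∞ T →
      Per T → (∀ x, ‖dv T x‖ ≤ B) → (∀ x, ‖T x‖ ≤ δ) → ∀ v, Tst v →
      ENNReal.ofReal |∫ x in cube n, (inner ℝ (dv T x) (v x) : ℝ)| ≤ ENNReal.ofReal ε) :
    WeakNorm (fun u : Eu n → Eu n => ⨆ (v : Eu n → Eu n) (_ : Tst v),
      ENNReal.ofReal |∫ x in cube n, (inner ℝ (u x) (v x) : ℝ)|) p := by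
  have hp1 : 0 < p - 1 := by linarith
  have hpp : 0 < p := by linarith
  have hq1 : 1 < q := by rw [hq, lt_div_iff₀ hp1]; linarith
  have hq0 : 0 < q := by linarith
  refine ⟨hp.le, ?_, ?_, ?_⟩
  · intro c u
    simp only [ENNReal.mul_iSup]
    refine iSup_congr fun v => iSup_congr fun _ => ?_
    rw [← ENNReal.ofReal_mul (abs_nonneg c), ← abs_mul, ← integral_const_mul]
    simp_rw [real_inner_smul_left]
  · refine ⟨1, zero_le_one, fun u hu hup => ?_⟩
    rw [ENNReal.ofReal_one, one_mul]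
    refine iSup₂_le fun v hv => ?_
    obtain ⟨hv1, hv2, hv3⟩ := h1 v hv
    have hvc : Continuous v := hv1.continuous
    have hconj : p.HolderConjugate q := by
      have h := Real.HolderConjugate.conjExponent hp
      rw [show Real.conjExponent p = q from hq.symm] at h
      exact h
    have h1 : ENNReal.ofReal |∫ x in cube n, (inner ℝ (u x) (v x) : ℝ)| ≤
        ∫⁻ x in cube n, ‖u x‖ₑ * ‖v x‖ₑ := by
      rw [← Real.norm_eq_abs, ofReal_norm]
      refine (enorm_integral_le_lintegral_enorm _).trans (lintegral_mono fun x => ?_)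
      rw [← ofReal_norm, ← ofReal_norm, ← ofReal_norm, ← ENNReal.ofReal_mul (norm_nonneg _)]
      exact ENNReal.ofReal_le_ofReal (norm_inner_le_norm _ _)
    have h2 := ENNReal.lintegral_mul_le_Lp_mul_Lq (volume.restrict (cube n)) hconj
      (f := fun x => ‖u x‖ₑ) (g := fun x => ‖v x‖ₑ) hu.enorm.aemeasurable hvc.enorm.aemeasurable
    have h3 : (∫⁻ x in cube n, ‖v x‖ₑ ^ q) ^ (1 / q) ≤ 1 := by
      calc (∫⁻ x in cube n, ‖v x‖ₑ ^ q) ^ (1 / q) ≤ 1 ^ (1 / q) := by gcongr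
        _ = 1 := ENNReal.one_rpow _
    calc ENNReal.ofReal |∫ x in cube n, (inner ℝ (u x) (v x) : ℝ)|
        ≤ ∫⁻ x in cube n, ‖u x‖ₑ * ‖v x‖ₑ := h1
      _ ≤ (∫⁻ x in cube n, ‖u x‖ₑ ^ p) ^ (1 / p) * (∫⁻ x in cube n, ‖v x‖ₑ ^ q) ^ (1 / q) := h2
      _ ≤ (∫⁻ x in cube n, ‖u x‖ₑ ^ p) ^ (1 / p) * 1 := by gcongr
      _ = _ := mul_one _
  · intro B ε hε
    obtain ⟨δ, hδ, h⟩ := hw B ε hε
    exact ⟨δ, hδ, fun T hT hTP hTB hTδ => iSup₂_le fun v hv => h T hT hTP hTB hTδ v hv⟩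

/-- integration by parts over the cube -/
lemma parts (T : Eu n → (Eu n →L[ℝ] Eu n)) (hT : ContDiff ℝ ∞ T) (hTP : Per T)
    (v : Eu n → Eu n) (hv : ContDiff ℝ ∞ v) (hvp : Per v) :
    ∫ x in cube n, (inner ℝ (dv T x) (v x) : ℝ) =
      -∫ x in cube n, ∑ j, (inner ℝ (T x (ev j)) (fderiv ℝ v x (ev j)) : ℝ) := by
  have hTd : Differentiable ℝ T := hT.differentiable (by simp)
  have hvd : Differentiable ℝ v := hv.differentiable (by simp)
  have hTc : Continuous (fderiv ℝ T) := hT.continuous_fderiv (by simp)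
  have hvc : Continuous (fderiv ℝ v) := hv.continuous_fderiv (by simp)
  have hg : ∀ j : Fin n, ContDiff ℝ ∞ (fun x => (inner ℝ (T x (ev j)) (v x) : ℝ)) := fun j =>
    (hT.clm_apply contDiff_const).inner ℝ hv
  have hd : ∀ (j : Fin n) (x : Eu n),
      fderiv ℝ (fun x => (((inner ℝ (T x (ev j)) (v x) : ℝ)) : ℂ)) x (ev j) =
      (((inner ℝ (T x (ev j)) (fderiv ℝ v x (ev j)) : ℝ) +
        (inner ℝ ((fderiv ℝ T x (ev j)) (ev j)) (v x) : ℝ) : ℝ) : ℂ) := by
    intro j x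
    have h1 : HasFDerivAt (fun x => T x (ev j)) ((fderiv ℝ T x).flip (ev j)) x := by
      have := (hTd x).hasFDerivAt.clm_apply (hasFDerivAt_const (ev j) x)
      refine this.congr_fderiv ?_
      ext1 y
      simp
    have h2 := h1.inner ℝ (hvd x).hasFDerivAt
    have h3 := Complex.ofRealCLM.hasFDerivAt.comp x h2
    have h4 : fderiv ℝ (fun x => (((inner ℝ (T x (ev j)) (v x) : ℝ)) : ℂ)) x = _ := h3.fderiv
    rw [h4]
    simp [fderivInnerCLM_apply]
  have hz : ∀ j : Fin n, ∫ x in cube n, ((inner ℝ (T x (ev j)) (fderiv ℝ v x (ev j)) : ℝ) +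
      (inner ℝ ((fderiv ℝ T x (ev j)) (ev j)) (v x) : ℝ)) = 0 := by
    intro j
    have h1 := HsA.int_deriv_zero (fun x => (((inner ℝ (T x (ev j)) (v x) : ℝ)) : ℂ))
      (Complex.ofRealCLM.contDiff.comp (hg j)) (by
        intro x k
        simp only [hTP x k, hvp x k]) j
    simp_rw [hd j] at h1
    rw [integral_complex_ofReal] at h1
    exact_mod_cast h1
  have hc1 : ∀ j : Fin n, Continuous fun x => (inner ℝ (T x (ev j)) (fderiv ℝ v x (ev j)) : ℝ) :=
    fun j => (hT.continuous.clm_apply continuous_const).inner (hvc.clm_apply continuous_const)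
  have hc2 : ∀ j : Fin n, Continuous fun x =>
      (inner ℝ ((fderiv ℝ T x (ev j)) (ev j)) (v x) : ℝ) :=
    fun j => ((hTc.clm_apply continuous_const).clm_apply continuous_const).inner hv.continuous
  have h1 : ∀ x, (inner ℝ (dv T x) (v x) : ℝ) =
      ∑ j, (inner ℝ ((fderiv ℝ T x (ev j)) (ev j)) (v x) : ℝ) := by
    intro x; simp only [dv, sum_inner]
  simp_rw [h1]
  rw [integral_finsetSum _ fun j _ => HsA.int_cube (hc2 j),
    integral_finsetSum _ fun j _ => HsA.int_cube (hc1 j), ← Finset.sum_neg_distrib]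
  refine Finset.sum_congr rfl fun j _ => ?_
  have h2 := hz j
  rw [integral_add (HsA.int_cube (hc1 j)) (HsA.int_cube (hc2 j))] at h2
  linarith

lemma le_two (w : Eu n → ℝ≥0∞) (q : ℝ) (hq : 1 ≤ q) (h : ∫⁻ x in cube n, w x ^ q ≤ 1) :
    ∫⁻ x in cube n, w x ≤ 2 := by
  have h1 : ∀ x, w x ≤ 1 + w x ^ q := by
    intro x
    rcases le_total (w x) 1 with h | h
    · exact h.trans le_self_add
    · have : w x ^ (1 : ℝ) ≤ w x ^ q := ENNReal.rpow_le_rpow_of_exponent_le h hq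
      rw [ENNReal.rpow_one] at this
      exact this.trans le_add_self
  calc ∫⁻ x in cube n, w x ≤ ∫⁻ x in cube n, (1 + w x ^ q) := lintegral_mono h1
    _ = 1 + ∫⁻ x in cube n, w x ^ q := by
        rw [lintegral_add_left measurable_const, setLIntegral_const, HsA.vol_cube, mul_one]
    _ ≤ 1 + 1 := by gcongr
    _ = 2 := by norm_num

/-- the estimate for test fields with one derivative -/
lemma est1 (q : ℝ) (hq : 1 ≤ q) (T : Eu n → (Eu n →L[ℝ] Eu n)) (hT : ContDiff ℝ ∞ T) (hTP : Per T)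
    (δ : ℝ) (hδ0 : 0 ≤ δ) (hδ : ∀ x, ‖T x‖ ≤ δ) (v : Eu n → Eu n) (hv : ContDiff ℝ ∞ v)
    (hvp : Per v) (hv1 : ∫⁻ x in cube n, ‖iteratedFDeriv ℝ 1 v x‖ₑ ^ q ≤ 1) :
    ENNReal.ofReal |∫ x in cube n, (inner ℝ (dv T x) (v x) : ℝ)| ≤
      ENNReal.ofReal ((n : ℝ) * δ * 2) := by
  rw [← Real.norm_eq_abs, ofReal_norm, parts T hT hTP v hv hvp, enorm_neg]
  refine (enorm_integral_le_lintegral_enorm _).trans ?_
  have hev : ∀ j : Fin n, ‖(ev j : Eu n)‖ = 1 := fun j => by simp [ev]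
  have h1 : ∀ x, ‖∑ j, (inner ℝ (T x (ev j)) (fderiv ℝ v x (ev j)) : ℝ)‖ₑ ≤
      ENNReal.ofReal ((n : ℝ) * δ) * ‖iteratedFDeriv ℝ 1 v x‖ₑ := by
    intro x
    rw [← ofReal_norm, ← ofReal_norm, norm_iteratedFDeriv_one,
      ← ENNReal.ofReal_mul (by positivity)]
    refine ENNReal.ofReal_le_ofReal ((norm_sum_le _ _).trans ?_)
    calc ∑ j : Fin n, ‖(inner ℝ (T x (ev j)) (fderiv ℝ v x (ev j)) : ℝ)‖
        ≤ ∑ _j : Fin n, δ * ‖fderiv ℝ v x‖ := by
          refine Finset.sum_le_sum fun j _ => (norm_inner_le_norm _ _).trans ?_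
          refine mul_le_mul ?_ ?_ (norm_nonneg _) hδ0
          · calc ‖T x (ev j)‖ ≤ ‖T x‖ * ‖(ev j : Eu n)‖ := ContinuousLinearMap.le_opNorm _ _
              _ ≤ δ := by rw [hev, mul_one]; exact hδ x
          · calc ‖fderiv ℝ v x (ev j)‖ ≤ ‖fderiv ℝ v x‖ * ‖(ev j : Eu n)‖ :=
                  ContinuousLinearMap.le_opNorm _ _
              _ = ‖fderiv ℝ v x‖ := by rw [hev, mul_one]
      _ = (n : ℝ) * δ * ‖fderiv ℝ v x‖ := by
          rw [Finset.sum_const, Finset.card_univ, Fintype.card_fin, nsmul_eq_mul]; ring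
  calc ∫⁻ x in cube n, ‖∑ j, (inner ℝ (T x (ev j)) (fderiv ℝ v x (ev j)) : ℝ)‖ₑ
      ≤ ∫⁻ x in cube n, ENNReal.ofReal ((n : ℝ) * δ) * ‖iteratedFDeriv ℝ 1 v x‖ₑ :=
        lintegral_mono h1
    _ = ENNReal.ofReal ((n : ℝ) * δ) * ∫⁻ x in cube n, ‖iteratedFDeriv ℝ 1 v x‖ₑ :=
        lintegral_const_mul' _ _ ENNReal.ofReal_ne_top
    _ ≤ ENNReal.ofReal ((n : ℝ) * δ) * 2 := by
        gcongr
        exact le_two _ q hq hv1
    _ = _ := by
        rw [show (2 : ℝ≥0∞) = ENNReal.ofReal 2 by simp, ← ENNReal.ofReal_mul (by positivity)]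

end

end Pool.Agent.H68.VD.WAllA

namespace Pool.Agent.H68.VD

open MeasureTheory Set WAllA
open scoped ENNReal ContDiff

/-- The norms of negative order are weak norms. -/
theorem wspNeg : WspNeg := by
  intro n s p hn hs hp
  have hp1 : 0 < p - 1 := by linarith
  have hpp : 0 < p := by linarith
  set q : ℝ := p / (p - 1) with hq
  have hq1 : 1 < q := by rw [hq, lt_div_iff₀ hp1]; linarith
  have hq0 : 0 < q := by linarith
  set r : ℝ := -s with hr
  have hr0 : 0 < r := by rw [hr]; linarith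
  have hN : (wsp (n := n) s p) = fun u : Eu n → Eu n => ⨆ (v : Eu n → Eu n)
      (_ : ContDiff ℝ ∞ v ∧ Per v ∧ slob r q v ≤ 1),
      ENNReal.ofReal |∫ x in cube n, (inner ℝ (u x) (v x) : ℝ)| := by
    funext u
    simp only [wsp, if_neg (not_le.2 hs)]
    rfl
  rw [hN]
  have hsum : ∀ (v : Eu n → Eu n) (k : ℕ), k ≤ ⌊r⌋₊ →
      ∫⁻ x in cube n, ‖iteratedFDeriv ℝ k v x‖ₑ ^ q ≤ slob r q v := by
    intro v k hk
    refine le_trans ?_ le_self_add
    exact Finset.single_le_sum (f := fun k => ∫⁻ x in cube n, ‖iteratedFDeriv ℝ k v x‖ₑ ^ q)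
      (fun _ _ => zero_le) (Finset.mem_range.2 (Nat.lt_succ_of_le hk))
  have h0 : ∀ (v : Eu n → Eu n) (x : Eu n), ‖iteratedFDeriv ℝ 0 v x‖ₑ = ‖v x‖ₑ := by
    intro v x
    rw [← ofReal_norm, ← ofReal_norm, norm_iteratedFDeriv_zero]
  refine dualWeak _ p q hp hq ?_ ?_
  · rintro v ⟨hv1, hv2, hv3⟩
    refine ⟨hv1, hv2, ?_⟩
    have h1 := hsum v 0 (Nat.zero_le _)
    simp_rw [h0] at h1
    exact h1.trans hv3
  · intro B ε hε
    rcases Nat.eq_zero_or_pos ⌊r⌋₊ with hm | hm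
    · have hr1 : r < 1 := (Nat.floor_eq_zero).1 hm
      obtain ⟨δ, hδ, h⟩ := (wspWeak n r p hn hr0 hr1 hp).weak B ε hε
      refine ⟨δ, hδ, fun T hT hTP hTB hTδ v hv => ?_⟩
      obtain ⟨hv1, hv2, hv3⟩ := hv
      have htest : Test r q v := by
        refine ⟨hv1, hv2, ?_⟩
        have hd : ∀ x h : Eu n, ‖iteratedFDeriv ℝ 0 v (x + h) - iteratedFDeriv ℝ 0 v x‖ₑ =
            ‖v (x + h) - v x‖ₑ := by
          intro x h
          rw [← ofReal_norm, ← ofReal_norm, iteratedFDeriv_zero_eq_comp]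
          simp only [Function.comp_apply]
          rw [← map_sub, LinearIsometryEquiv.norm_map]
        have h2 : slob r q v = (∫⁻ x in cube n, ‖v x‖ₑ ^ q) +
            (∫⁻ x in cube n, ∫⁻ h in Metric.ball (0 : Eu n) 1,
              ‖v (x + h) - v x‖ₑ ^ q / ‖h‖ₑ ^ ((n : ℝ) + r * q)) := by
          unfold slob
          rw [hm]
          simp only [zero_add, Finset.range_one, Finset.sum_singleton, Nat.cast_zero, sub_zero,
            if_pos hr0, h0, hd]
        rw [← h2]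
        exact hv3
      refine le_trans ?_ (h T hT hTP hTB hTδ)
      unfold wNorm
      exact le_iSup₂ (f := fun (v : Eu n → Eu n) (_ : Test r (p / (p - 1)) v) =>
        ENNReal.ofReal |∫ x in cube n, (inner ℝ (dv T x) (v x) : ℝ)|) v htest
    · have hnpos : 0 < (n : ℝ) := by exact_mod_cast hn
      refine ⟨ε / (n * 2), by positivity, fun T hT hTP hTB hTδ v hv => ?_⟩
      obtain ⟨hv1, hv2, hv3⟩ := hv
      have h1 := est1 q hq1.le T hT hTP (ε / (n * 2)) (by positivity) hTδ v hv1 hv2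
        ((hsum v 1 hm).trans hv3)
      have h2 : (n : ℝ) * (ε / (n * 2)) * 2 = ε := by field_simp
      rw [h2] at h1
      exact h1

end Pool.Agent.H68.VD
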