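import Pool.Agent.H68.VD.St

/-! # The negative fractional norms are weak norms (module Wsp of project VD) -/

namespace Pool.Agent.H68.VD.WspA

open MeasureTheory Set Pool.Agent.H68.VD
open scoped ENNReal ContDiff Pointwise

noncomputable section

variable {n : ℕ}


/-- the standard basis -/
def bs (n : ℕ) : Module.Basis (Fin n) ℝ (Eu n) := (EuclideanSpace.basisFun (Fin n) ℝ).toBasis

lemma bs_repr (x : Eu n) (i : Fin n) : (bs n).repr x i = x i := by
  simp [bs]

lemma cube_eq : cube n = ZSpan.fundamentalDomain (bs n) := by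
  ext x
  simp only [cube, Set.mem_ofPred_eq, ZSpan.mem_fundamentalDomain, bs_repr]

lemma cube_meas : MeasurableSet (cube n) := by
  rw [cube_eq]; exact ZSpan.fundamentalDomain_measurableSet _

lemma cube_vol : volume (cube n) = 1 := by
  rw [cube_eq]
  have h1 := ZSpan.fundamentalDomain_ae_parallelepiped (bs n) (volume : Measure (Eu n))
  rw [measure_congr h1]
  have h2 := (EuclideanSpace.basisFun (Fin n) ℝ).volume_parallelepiped
  simpa [bs] using h2

lemma cube_volr : (volume : Measure (Eu n)).real (cube n) = 1 := by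
  simp [measureReal_def, cube_vol]

lemma span_iv (g : Submodule.span ℤ (Set.range (bs n))) : ∃ k : Fin n → ℤ, (g : Eu n) = iv k := by
  have h := (Module.Basis.mem_span_iff_repr_mem (R := ℤ) (bs n) (g : Eu n)).mp g.2
  choose k hk using h
  refine ⟨k, ?_⟩
  ext i
  have h1 := hk i
  rw [bs_repr] at h1
  simp only [iv]
  rw [← h1]
  simp

/-- translation invariance of the integral of a periodic function -/
lemma trans_int {F : Type*} [NormedAddCommGroup F] [NormedSpace ℝ F] (f : Eu n → F) (hf : Per f)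
    (a : Eu n) : ∫ x in cube n, f (x + a) = ∫ x in cube n, f x := by
  have hd : IsAddFundamentalDomain (Submodule.span ℤ (Set.range (bs n))) (cube n)
      (volume : Measure (Eu n)) := by
    rw [cube_eq]; exact ZSpan.isAddFundamentalDomain _ _
  have : VAddInvariantMeasure (Submodule.span ℤ (Set.range (bs n))) (Eu n) volume :=
    inferInstanceAs <| VAddInvariantMeasure (Submodule.span ℤ (Set.range (bs n))).toAddSubgroup
      (Eu n) volume
  have hd2 : IsAddFundamentalDomain (Submodule.span ℤ (Set.range (bs n))) (a +ᵥ cube n)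
      (volume : Measure (Eu n)) := by
    exact hd.vadd_of_comm a
  have hper : ∀ (g : Submodule.span ℤ (Set.range (bs n))) (x : Eu n), f (g +ᵥ x) = f x := by
    intro g x
    obtain ⟨k, hk⟩ := span_iv g
    have : g +ᵥ x = x + iv k := by
      rw [← hk, add_comm]; rfl
    rw [this]; exact hf x k
  have h := hd.setIntegral_eq hd2 hper
  rw [h]
  have h2 : (a +ᵥ cube n) = (fun x => x + a) '' cube n := by
    ext y
    simp only [Set.mem_vadd_set, Set.mem_image, vadd_eq_add]
    constructor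
    · rintro ⟨x, hx, rfl⟩; exact ⟨x, hx, add_comm _ _⟩
    · rintro ⟨x, hx, rfl⟩; exact ⟨x, hx, add_comm _ _⟩
  rw [h2]
  exact ((measurePreserving_add_right volume a).setIntegral_image_emb
    (measurableEmbedding_addRight a) f (cube n)).symm


/-- kernels concentrated at the origin -/
lemma bump (n : ℕ) (σ p : ℝ) (hσ : 0 < σ) (hp : 1 < p) (η : ℝ) (hη : 0 < η) :
    ∃ ρ : Eu n → ℝ, ContDiff ℝ ∞ ρ ∧ HasCompactSupport ρ ∧ (∀ h, 0 ≤ ρ h) ∧
      (∀ h, 1 ≤ ‖h‖ → ρ h = 0) ∧ ∫ h, ρ h = 1 ∧
      ∫⁻ h, ‖ρ h‖ₑ ^ p * ‖h‖ₑ ^ ((n : ℝ) * (p - 1) + σ * p) ≤ ENNReal.ofReal η := by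
  set V : ℝ := (volume : Measure (Eu n)).real (Metric.closedBall 0 1) with hV
  have hVpos : 0 < V := by
    rw [hV, measureReal_def]
    exact ENNReal.toReal_pos (Metric.measure_closedBall_pos _ _ one_pos).ne'
      (measure_closedBall_lt_top).ne
  set D : ℝ := (2 ^ n / V) ^ p * V with hD
  have hDpos : 0 < D := by positivity
  have hσp : 0 < σ * p := by nlinarith
  set e : ℝ := min (1 / 2) ((η / D) ^ (1 / (σ * p))) with he
  have hepos : 0 < e := by
    apply lt_min (by norm_num)
    positivity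
  have he1 : e < 1 := lt_of_le_of_lt (min_le_left _ _) (by norm_num)
  have heD : D * e ^ (σ * p) ≤ η := by
    have h1 : e ^ (σ * p) ≤ ((η / D) ^ (1 / (σ * p))) ^ (σ * p) :=
      Real.rpow_le_rpow hepos.le (min_le_right _ _) hσp.le
    rw [← Real.rpow_mul (by positivity), one_div_mul_cancel hσp.ne', Real.rpow_one] at h1
    calc D * e ^ (σ * p) ≤ D * (η / D) := by gcongr
      _ = η := by field_simp
  let f : ContDiffBump (0 : Eu n) := ⟨e / 2, e, by positivity, by linarith⟩
  refine ⟨f.normed volume, f.contDiff_normed (n := ⊤), f.hasCompactSupport_normed,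
    fun h => f.nonneg_normed h, ?_, f.integral_normed, ?_⟩
  · intro h hh
    have : h ∉ Function.support (f.normed volume) := by
      rw [f.support_normed_eq]
      simp only [Metric.mem_ball, dist_zero_right, not_lt]
      exact he1.le.trans hh
    simpa using this
  · set M : ℝ := 2 ^ n / (e ^ n * V) with hM
    have hMpos : 0 < M := by positivity
    have hfM : ∀ h, f.normed volume h ≤ M := by
      intro h
      have h1 := f.normed_le_div_measure_closedBall_rOut (μ := (volume : Measure (Eu n))) 2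
        (by show e ≤ 2 * (e / 2); linarith) h
      have h2 : (volume : Measure (Eu n)).real (Metric.closedBall 0 f.rOut) = e ^ n * V := by
        show (volume : Measure (Eu n)).real (Metric.closedBall 0 e) = _
        rw [measureReal_def, Measure.addHaar_closedBall _ _ hepos.le, ENNReal.toReal_mul,
          ENNReal.toReal_ofReal (by positivity), finrank_euclideanSpace, Fintype.card_fin, hV,
          measureReal_def, Measure.addHaar_closedBall _ _ zero_le_one]
        simp
      rw [h2, finrank_euclideanSpace, Fintype.card_fin] at h1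
      exact h1
    have hpt : ∀ h : Eu n, ‖f.normed volume h‖ₑ ^ p * ‖h‖ₑ ^ ((n : ℝ) * (p - 1) + σ * p) ≤
        (Metric.closedBall (0 : Eu n) e).indicator
          (fun _ => ENNReal.ofReal (M ^ p * e ^ ((n : ℝ) * (p - 1) + σ * p))) h := by
      intro h
      by_cases hh : h ∈ Metric.closedBall (0 : Eu n) e
      · rw [Set.indicator_of_mem hh]
        have h1 : ‖f.normed volume h‖ₑ ≤ ENNReal.ofReal M := by
          rw [← ofReal_norm]
          apply ENNReal.ofReal_le_ofReal
          rw [Real.norm_of_nonneg (f.nonneg_normed h)]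
          exact hfM h
        have h2 : ‖h‖ₑ ≤ ENNReal.ofReal e := by
          rw [← ofReal_norm]
          apply ENNReal.ofReal_le_ofReal
          simpa using hh
        have ht : 0 ≤ (n : ℝ) * (p - 1) + σ * p := by
          have : 0 ≤ (n : ℝ) * (p - 1) := mul_nonneg (Nat.cast_nonneg _) (by linarith)
          linarith
        calc ‖f.normed volume h‖ₑ ^ p * ‖h‖ₑ ^ ((n : ℝ) * (p - 1) + σ * p)
            ≤ ENNReal.ofReal M ^ p * ENNReal.ofReal e ^ ((n : ℝ) * (p - 1) + σ * p) := by
              gcongr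
          _ = _ := by
              rw [ENNReal.ofReal_rpow_of_nonneg hMpos.le (by linarith),
                ENNReal.ofReal_rpow_of_nonneg hepos.le ht, ← ENNReal.ofReal_mul (by positivity)]
      · rw [Set.indicator_of_notMem hh]
        have : f.normed volume h = 0 := by
          have : h ∉ Function.support (f.normed volume) := by
            rw [f.support_normed_eq]
            intro h3
            exact hh (Metric.ball_subset_closedBall h3)
          simpa using this
        rw [this]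
        have hp0 : 0 < p := by linarith
        simp [hp0]
    calc ∫⁻ h, ‖f.normed volume h‖ₑ ^ p * ‖h‖ₑ ^ ((n : ℝ) * (p - 1) + σ * p)
        ≤ ∫⁻ h, (Metric.closedBall (0 : Eu n) e).indicator
          (fun _ => ENNReal.ofReal (M ^ p * e ^ ((n : ℝ) * (p - 1) + σ * p))) h :=
          lintegral_mono hpt
      _ = ENNReal.ofReal (M ^ p * e ^ ((n : ℝ) * (p - 1) + σ * p)) *
          volume (Metric.closedBall (0 : Eu n) e) := by
          rw [lintegral_indicator_const Metric.isClosed_closedBall.measurableSet]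
      _ = ENNReal.ofReal (M ^ p * e ^ ((n : ℝ) * (p - 1) + σ * p)) * ENNReal.ofReal (e ^ n * V) := by
          congr 1
          rw [Measure.addHaar_closedBall _ _ hepos.le, ENNReal.ofReal_mul (by positivity),
            finrank_euclideanSpace, Fintype.card_fin, hV, measureReal_def,
            ENNReal.ofReal_toReal (measure_closedBall_lt_top).ne,
            Measure.addHaar_closedBall _ _ zero_le_one]
          simp
      _ = ENNReal.ofReal (D * e ^ (σ * p)) := by
          rw [← ENNReal.ofReal_mul (by positivity)]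
          congr 1
          have h1 : M ^ p = (2 ^ n / V) ^ p * (e ^ n) ^ (-p) := by
            rw [hM, Real.rpow_neg (by positivity), ← div_eq_mul_inv, ← Real.div_rpow (by positivity)
              (by positivity)]
            congr 1
            field_simp
          have h2 : (e ^ n) ^ (-p) = e ^ ((n : ℝ) * (-p)) := by
            rw [Real.rpow_mul hepos.le, Real.rpow_natCast]
          rw [h1, h2, hD, ← Real.rpow_natCast e n]
          have h3 : e ^ (σ * p) = e ^ ((n : ℝ) * (-p)) * e ^ ((n : ℝ) * (p - 1) + σ * p) *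
              e ^ (n : ℝ) := by
            rw [← Real.rpow_add hepos, ← Real.rpow_add hepos]
            congr 1
            ring
          rw [h3]
          ring
      _ ≤ ENNReal.ofReal η := ENNReal.ofReal_le_ofReal heD


/-- the convolution of a divergence -/
lemma conv_dv (ρ : Eu n → ℝ) (hρ : ContDiff ℝ ∞ ρ) (hc : HasCompactSupport ρ)
    (T : Eu n → (Eu n →L[ℝ] Eu n)) (hT : ContDiff ℝ ∞ T) (δ : ℝ) (hδ : ∀ x, ‖T x‖ ≤ δ) (x : Eu n) :
    ‖∫ h, ρ h • dv T (x - h)‖ ≤ δ * ∑ j : Fin n, ∫ h, ‖fderiv ℝ ρ h (ev j)‖ := by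
  have hρd : Differentiable ℝ ρ := hρ.differentiable (by simp)
  have hTd : Differentiable ℝ T := hT.differentiable (by simp)
  have hρ1 : ∀ j : Fin n, Continuous (fun h => fderiv ℝ ρ h (ev j)) := fun j =>
    (hρ.continuous_fderiv (by simp)).clm_apply continuous_const
  have hρ2 : ∀ j : Fin n, HasCompactSupport (fun h => fderiv ℝ ρ h (ev j)) := fun j =>
    hc.fderiv_apply (𝕜 := ℝ) (v := ev j)
  have hρ3 : ∀ j : Fin n, Integrable (fun h => ‖fderiv ℝ ρ h (ev j)‖) := fun j =>
    ((hρ1 j).integrable_of_hasCompactSupport (hρ2 j)).norm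
  have hTc : Continuous (fderiv ℝ T) := hT.continuous_fderiv (by simp)
  have hS : ∀ (j : Fin n) (h : Eu n), HasFDerivAt (fun h => T (x - h) (ev j))
      ((-(fderiv ℝ T (x - h))).flip (ev j)) h := by
    intro j h
    have h1 : HasFDerivAt (fun h => x - h) (-(ContinuousLinearMap.id ℝ (Eu n))) h :=
      (hasFDerivAt_id h).const_sub x
    have h2 : HasFDerivAt (fun h => T (x - h)) (-(fderiv ℝ T (x - h))) h := by
      have := (hTd (x - h)).hasFDerivAt.comp h h1
      refine HasFDerivAt.congr_fderiv this ?_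
      ext1 y
      simp
    have h3 := h2.clm_apply (hasFDerivAt_const (ev j) h)
    refine h3.congr_fderiv ?_
    ext1 y
    simp
  have hSf : ∀ (j : Fin n) (h : Eu n), fderiv ℝ (fun h => T (x - h) (ev j)) h (ev j) =
      -((fderiv ℝ T (x - h) (ev j)) (ev j)) := by
    intro j h
    rw [(hS j h).fderiv]
    simp
  have hSc : ∀ j : Fin n, Continuous (fun h => T (x - h) (ev j)) := fun j =>
    (hT.continuous.comp (continuous_const.sub continuous_id)).clm_apply continuous_const
  have hSc' : ∀ j : Fin n, Continuous (fun h => (fderiv ℝ T (x - h) (ev j)) (ev j)) := fun j =>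
    ((hTc.comp (continuous_const.sub continuous_id)).clm_apply continuous_const).clm_apply
      continuous_const
  have hi1 : ∀ j : Fin n, Integrable (fun h => fderiv ℝ ρ h (ev j) • T (x - h) (ev j)) := by
    intro j
    apply Continuous.integrable_of_hasCompactSupport
    · exact (hρ1 j).smul (hSc j)
    · exact (hρ2 j).smul_right
  have hi2 : ∀ j : Fin n, Integrable (fun h => ρ h • ((fderiv ℝ T (x - h) (ev j)) (ev j))) := by
    intro j
    apply Continuous.integrable_of_hasCompactSupport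
    · exact hρ.continuous.smul (hSc' j)
    · exact hc.smul_right
  have hi3 : ∀ j : Fin n, Integrable (fun h => ρ h • T (x - h) (ev j)) := by
    intro j
    apply Continuous.integrable_of_hasCompactSupport
    · exact hρ.continuous.smul (hSc j)
    · exact hc.smul_right
  have hparts : ∀ j : Fin n, ∫ h, ρ h • ((fderiv ℝ T (x - h) (ev j)) (ev j)) =
      ∫ h, fderiv ℝ ρ h (ev j) • T (x - h) (ev j) := by
    intro j
    have h1 := integral_smul_fderiv_eq_neg_fderiv_smul_of_integrable
      (μ := (volume : Measure (Eu n))) (f := ρ) (g := fun h => T (x - h) (ev j)) (v := ev j)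
      (hi1 j) (by
        have := (hi2 j).neg
        refine this.congr (Filter.Eventually.of_forall fun h => ?_)
        simp only [Pi.neg_apply]
        rw [hSf, smul_neg]) (hi3 j) (fun y _ => hρd y) (fun y _ => (hS j y).differentiableAt)
    have h2 : ∫ h, ρ h • fderiv ℝ (fun h => T (x - h) (ev j)) h (ev j) =
        -∫ h, ρ h • ((fderiv ℝ T (x - h) (ev j)) (ev j)) := by
      rw [← integral_neg]
      congr 1
      ext1 h
      rw [hSf, smul_neg]
    rw [h2] at h1
    exact neg_injective h1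
  have hsum : ∫ h, ρ h • dv T (x - h) = ∑ j : Fin n, ∫ h, fderiv ℝ ρ h (ev j) • T (x - h) (ev j) := by
    calc ∫ h, ρ h • dv T (x - h) = ∫ h, ∑ j : Fin n, ρ h • ((fderiv ℝ T (x - h) (ev j)) (ev j)) := by
          congr 1
          ext1 h
          simp only [dv, Finset.smul_sum]
      _ = ∑ j : Fin n, ∫ h, ρ h • ((fderiv ℝ T (x - h) (ev j)) (ev j)) :=
          integral_finsetSum _ fun j _ => hi2 j
      _ = _ := Finset.sum_congr rfl fun j _ => hparts j
  rw [hsum, Finset.mul_sum]
  refine (norm_sum_le _ _).trans (Finset.sum_le_sum fun j _ => ?_)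
  rw [← integral_const_mul]
  refine norm_integral_le_of_norm_le ((hρ3 j).const_mul δ) (Filter.Eventually.of_forall fun h => ?_)
  rw [norm_smul, mul_comm]
  gcongr
  calc ‖T (x - h) (ev j)‖ ≤ ‖T (x - h)‖ * ‖(ev j : Eu n)‖ := ContinuousLinearMap.le_opNorm _ _
    _ ≤ δ * 1 := by
        have : ‖(ev j : Eu n)‖ = 1 := by simp [ev]
        rw [this]
        gcongr
        exact hδ _
    _ = δ := mul_one _

/-- a pointwise Young inequality -/
lemma young (m : ℝ) (σ p q : ℝ) (hp : 1 < p) (hq : q = p / (p - 1))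
    (Δ R H l : ℝ) (hΔ : 0 ≤ Δ) (hR : 0 ≤ R) (hH : 0 < H) (hl : 0 < l) :
    R * Δ ≤ l ^ q * (Δ ^ q / H ^ (m + σ * q)) + l ^ (-p) * (R ^ p * H ^ (m * (p - 1) + σ * p)) := by
  have hp1 : 0 < p - 1 := by linarith
  have hpp : 0 < p := by linarith
  have hqpos : 0 < q := by rw [hq]; positivity
  have hq1 : 1 ≤ q := by rw [hq, le_div_iff₀ hp1]; linarith
  have hconj : q.HolderConjugate p := by
    have h := (Real.HolderConjugate.conjExponent hp).symm
    rw [show Real.conjExponent p = q from by rw [hq]; rfl] at h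
    exact h
  set s : ℝ := (m + σ * q) / q with hs
  have hsq : s * q = m + σ * q := by rw [hs]; field_simp
  have hsp : s * p = m * (p - 1) + σ * p := by
    rw [hs, hq]
    field_simp
  have hHs : 0 < H ^ s := Real.rpow_pos_of_pos hH _
  have h1 := Real.young_inequality_of_nonneg (a := l * Δ / H ^ s) (b := R * H ^ s / l)
    (by positivity) (by positivity) hconj
  have h2 : (l * Δ / H ^ s) * (R * H ^ s / l) = R * Δ := by field_simp
  have h3 : (l * Δ / H ^ s) ^ q = l ^ q * (Δ ^ q / H ^ (m + σ * q)) := by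
    rw [Real.div_rpow (by positivity) hHs.le, Real.mul_rpow hl.le hΔ, ← Real.rpow_mul hH.le, hsq,
      mul_div_assoc]
  have h4 : (R * H ^ s / l) ^ p = l ^ (-p) * (R ^ p * H ^ (m * (p - 1) + σ * p)) := by
    rw [Real.div_rpow (by positivity) hl.le, Real.mul_rpow hR hHs.le, ← Real.rpow_mul hH.le, hsp,
      Real.rpow_neg hl.le]
    field_simp
  rw [h2, h3, h4] at h1
  have h5 : 0 ≤ l ^ q * (Δ ^ q / H ^ (m + σ * q)) := by positivity
  have h6 : 0 ≤ l ^ (-p) * (R ^ p * H ^ (m * (p - 1) + σ * p)) := by positivity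
  exact h1.trans (add_le_add (div_le_self h5 hq1) (div_le_self h6 hp.le))


/-- periodic continuous functions are bounded -/
lemma bdd {F : Type*} [NormedAddCommGroup F] (f : Eu n → F) (hf : Continuous f) (hp : Per f) :
    ∃ M : ℝ, 0 ≤ M ∧ ∀ x, ‖f x‖ ≤ M := by
  have hb : Bornology.IsBounded (cube n) := by
    rw [cube_eq]; exact ZSpan.fundamentalDomain_isBounded _
  have hc : IsCompact (closure (cube n)) := hb.isCompact_closure
  obtain ⟨M, hM⟩ := hc.exists_bound_of_continuousOn hf.continuousOn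
  refine ⟨max M 0, le_max_right _ _, fun x => ?_⟩
  have h1 : ZSpan.fract (bs n) x ∈ cube n := by
    rw [cube_eq]; exact ZSpan.fract_mem_fundamentalDomain _ _
  obtain ⟨k, hk⟩ := span_iv (ZSpan.floor (bs n) x)
  have h2 : x = ZSpan.fract (bs n) x + iv k := by
    rw [← hk, ZSpan.fract_apply]; abel
  rw [h2, hp]
  exact (hM _ (subset_closure h1)).trans (le_max_left _ _)

/-- the double integral of the difference with a kernel -/
lemma dbl (σ p q : ℝ) (hp : 1 < p) (hq : q = p / (p - 1)) (v : Eu n → Eu n)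
    (hv : Test σ q v) (ρ : Eu n → ℝ) (hρc : Continuous ρ) (hρ0 : ∀ h, 1 ≤ ‖h‖ → ρ h = 0) (η l : ℝ)
    (hl : 0 < l)
    (hρη : ∫⁻ h, ‖ρ h‖ₑ ^ p * ‖h‖ₑ ^ ((n : ℝ) * (p - 1) + σ * p) ≤ ENNReal.ofReal η) :
    ∫⁻ x in cube n, ∫⁻ h, ‖ρ h‖ₑ * ‖v (x + h) - v x‖ₑ ≤
      ENNReal.ofReal (l ^ q) + ENNReal.ofReal (l ^ (-p)) * ENNReal.ofReal η := by
  have hpp : 0 < p := by linarith
  have hp1 : 0 < p - 1 := by linarith
  have hqpos : 0 < q := by rw [hq]; positivity
  have hpt : ∀ x h : Eu n, ‖ρ h‖ₑ * ‖v (x + h) - v x‖ₑ ≤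
      (Metric.ball (0 : Eu n) 1).indicator
        (fun h => ENNReal.ofReal (l ^ q) * (‖v (x + h) - v x‖ₑ ^ q / ‖h‖ₑ ^ ((n : ℝ) + σ * q))) h +
      ENNReal.ofReal (l ^ (-p)) * (‖ρ h‖ₑ ^ p * ‖h‖ₑ ^ ((n : ℝ) * (p - 1) + σ * p)) := by
    intro x h
    by_cases hh : h ∈ Metric.ball (0 : Eu n) 1
    · rw [Set.indicator_of_mem hh]
      by_cases h0 : h = 0
      · subst h0; simp
      · have hH : 0 < ‖h‖ := norm_pos_iff.mpr h0
        have hy := young (n : ℝ) σ p q hp hq ‖v (x + h) - v x‖ ‖ρ h‖ ‖h‖ l (norm_nonneg _)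
          (norm_nonneg _) hH hl
        have e1 : ‖ρ h‖ₑ * ‖v (x + h) - v x‖ₑ = ENNReal.ofReal (‖ρ h‖ * ‖v (x + h) - v x‖) := by
          rw [ENNReal.ofReal_mul (norm_nonneg _), ofReal_norm, ofReal_norm]
        have e2 : ENNReal.ofReal (l ^ q) * (‖v (x + h) - v x‖ₑ ^ q / ‖h‖ₑ ^ ((n : ℝ) + σ * q)) =
            ENNReal.ofReal (l ^ q * (‖v (x + h) - v x‖ ^ q / ‖h‖ ^ ((n : ℝ) + σ * q))) := by
          rw [ENNReal.ofReal_mul (by positivity), ENNReal.ofReal_div_of_pos (by positivity),
            ← ENNReal.ofReal_rpow_of_nonneg (norm_nonneg _) hqpos.le,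
            ← ENNReal.ofReal_rpow_of_pos hH, ofReal_norm, ofReal_norm]
        have e3 : ENNReal.ofReal (l ^ (-p)) *
            (‖ρ h‖ₑ ^ p * ‖h‖ₑ ^ ((n : ℝ) * (p - 1) + σ * p)) =
            ENNReal.ofReal (l ^ (-p) * (‖ρ h‖ ^ p * ‖h‖ ^ ((n : ℝ) * (p - 1) + σ * p))) := by
          rw [ENNReal.ofReal_mul (by positivity), ENNReal.ofReal_mul (by positivity),
            ← ENNReal.ofReal_rpow_of_nonneg (norm_nonneg _) hpp.le,
            ← ENNReal.ofReal_rpow_of_pos hH, ofReal_norm, ofReal_norm]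
        rw [e1, e2, e3, ← ENNReal.ofReal_add (by positivity) (by positivity)]
        exact ENNReal.ofReal_le_ofReal hy
    · have : ρ h = 0 := hρ0 h (by simpa using hh)
      rw [this]; simp
  have hmeas : Measurable (fun h : Eu n =>
      ENNReal.ofReal (l ^ (-p)) * (‖ρ h‖ₑ ^ p * ‖h‖ₑ ^ ((n : ℝ) * (p - 1) + σ * p))) := by
    apply Measurable.const_mul
    apply Measurable.mul
    · exact (hρc.measurable.enorm).pow_const _
    · exact (measurable_id.enorm).pow_const _
  have hin : ∀ x : Eu n, ∫⁻ h, ‖ρ h‖ₑ * ‖v (x + h) - v x‖ₑ ≤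
      ENNReal.ofReal (l ^ q) * (∫⁻ h in Metric.ball (0 : Eu n) 1,
        ‖v (x + h) - v x‖ₑ ^ q / ‖h‖ₑ ^ ((n : ℝ) + σ * q)) +
      ENNReal.ofReal (l ^ (-p)) * ENNReal.ofReal η := by
    intro x
    calc ∫⁻ h, ‖ρ h‖ₑ * ‖v (x + h) - v x‖ₑ ≤ _ := lintegral_mono (hpt x)
      _ = (∫⁻ h, (Metric.ball (0 : Eu n) 1).indicator (fun h => ENNReal.ofReal (l ^ q) *
            (‖v (x + h) - v x‖ₑ ^ q / ‖h‖ₑ ^ ((n : ℝ) + σ * q))) h) +
          ∫⁻ h, ENNReal.ofReal (l ^ (-p)) *
            (‖ρ h‖ₑ ^ p * ‖h‖ₑ ^ ((n : ℝ) * (p - 1) + σ * p)) := by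
          rw [lintegral_add_right _ hmeas]
      _ ≤ _ := by
          gcongr
          · rw [lintegral_indicator Metric.isOpen_ball.measurableSet,
              lintegral_const_mul' _ _ ENNReal.ofReal_ne_top]
          · rw [lintegral_const_mul' _ _ ENNReal.ofReal_ne_top]
            gcongr
  calc ∫⁻ x in cube n, ∫⁻ h, ‖ρ h‖ₑ * ‖v (x + h) - v x‖ₑ
      ≤ ∫⁻ x in cube n, (ENNReal.ofReal (l ^ q) * (∫⁻ h in Metric.ball (0 : Eu n) 1,
        ‖v (x + h) - v x‖ₑ ^ q / ‖h‖ₑ ^ ((n : ℝ) + σ * q)) +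
      ENNReal.ofReal (l ^ (-p)) * ENNReal.ofReal η) := lintegral_mono hin
    _ = ENNReal.ofReal (l ^ q) * (∫⁻ x in cube n, ∫⁻ h in Metric.ball (0 : Eu n) 1,
        ‖v (x + h) - v x‖ₑ ^ q / ‖h‖ₑ ^ ((n : ℝ) + σ * q)) +
      ENNReal.ofReal (l ^ (-p)) * ENNReal.ofReal η := by
        rw [lintegral_add_right _ measurable_const, lintegral_const_mul' _ _ ENNReal.ofReal_ne_top,
          setLIntegral_const, cube_vol, mul_one]
    _ ≤ ENNReal.ofReal (l ^ q) * 1 + ENNReal.ofReal (l ^ (-p)) * ENNReal.ofReal η := by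
        gcongr
        exact le_trans le_add_self hv.2.2
    _ = _ := by rw [mul_one]


lemma dv_cont (T : Eu n → (Eu n →L[ℝ] Eu n)) (hT : ContDiff ℝ ∞ T) : Continuous (dv T) := by
  unfold dv
  have hTc : Continuous (fderiv ℝ T) := hT.continuous_fderiv (by simp)
  exact continuous_finsetSum _ fun j _ =>
    (hTc.clm_apply continuous_const).clm_apply continuous_const

lemma dv_per (T : Eu n → (Eu n →L[ℝ] Eu n)) (hT : Per T) : Per (dv T) := by
  intro x k
  have h : fderiv ℝ T (x + iv k) = fderiv ℝ T x := by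
    have h1 := fderiv_comp_add_right (𝕜 := ℝ) (f := T) (x := x) (iv k)
    rw [← h1]
    congr 1
    ext1 y
    exact hT y k
  simp only [dv, h]

lemma integ (ρ : Eu n → ℝ) (hρc : Continuous ρ) (hc : HasCompactSupport ρ) (ψ : Eu n × Eu n → ℝ)
    (hψ : Continuous ψ) (M : ℝ) (hM : ∀ z, ‖ψ z‖ ≤ M) :
    Integrable (fun z : Eu n × Eu n => ρ z.2 * ψ z)
      ((volume.restrict (cube n)).prod volume) := by
  have hfin : IsFiniteMeasure ((volume : Measure (Eu n)).restrict (cube n)) :=
    ⟨by rw [Measure.restrict_apply_univ, cube_vol]; exact ENNReal.one_lt_top⟩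
  have h1 : Integrable ρ := hρc.integrable_of_hasCompactSupport hc
  have h2 : Integrable (fun z : Eu n × Eu n => ‖ρ z.2‖ * M)
      ((volume.restrict (cube n)).prod volume) := (h1.norm.comp_snd _).mul_const M
  refine h2.mono' ?_ (Filter.Eventually.of_forall fun z => ?_)
  · exact ((hρc.comp continuous_snd).mul hψ).aestronglyMeasurable
  · rw [norm_mul]
    gcongr
    exact hM z

/-- moving the mollification to the other factor -/
lemma move (ρ : Eu n → ℝ) (hρc : Continuous ρ) (hc : HasCompactSupport ρ) (u v : Eu n → Eu n)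
    (hu : Continuous u) (hup : Per u) (hv : Continuous v) (hvp : Per v) :
    ∫ x in cube n, inner ℝ (u x) (∫ h, ρ h • v (x + h)) =
      ∫ x in cube n, inner ℝ (∫ h, ρ h • u (x - h)) (v x) := by
  obtain ⟨Mu, hMu0, hMu⟩ := bdd u hu hup
  obtain ⟨Mv, hMv0, hMv⟩ := bdd v hv hvp
  have hfin : IsFiniteMeasure ((volume : Measure (Eu n)).restrict (cube n)) :=
    ⟨by rw [Measure.restrict_apply_univ, cube_vol]; exact ENNReal.one_lt_top⟩
  have hb : ∀ a b : Eu n, ‖(inner ℝ (u a) (v b) : ℝ)‖ ≤ Mu * Mv := fun a b =>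
    (norm_inner_le_norm _ _).trans (mul_le_mul (hMu a) (hMv b) (norm_nonneg _) hMu0)
  have hI1 : Integrable (Function.uncurry fun (x h : Eu n) => ρ h * (inner ℝ (u x) (v (x + h)) : ℝ))
      ((volume.restrict (cube n)).prod volume) := by
    refine integ ρ hρc hc (fun z => inner ℝ (u z.1) (v (z.1 + z.2))) ?_ (Mu * Mv) fun z => hb _ _
    exact (hu.comp continuous_fst).inner (hv.comp (continuous_fst.add continuous_snd))
  have hI2 : Integrable (Function.uncurry fun (x h : Eu n) => ρ h * (inner ℝ (u (x - h)) (v x) : ℝ))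
      ((volume.restrict (cube n)).prod volume) := by
    refine integ ρ hρc hc (fun z => inner ℝ (u (z.1 - z.2)) (v z.1)) ?_ (Mu * Mv) fun z => hb _ _
    exact (hu.comp (continuous_fst.sub continuous_snd)).inner (hv.comp continuous_fst)
  have e1 : ∀ x, (inner ℝ (u x) (∫ h, ρ h • v (x + h)) : ℝ) =
      ∫ h, ρ h * (inner ℝ (u x) (v (x + h)) : ℝ) := by
    intro x
    have hi : Integrable (fun h => ρ h • v (x + h)) := by
      apply Continuous.integrable_of_hasCompactSupport
      · exact hρc.smul (hv.comp (continuous_const.add continuous_id))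
      · exact hc.smul_right
    rw [← integral_inner hi]
    congr 1
    ext1 h
    rw [inner_smul_right]
  have e2 : ∀ x, (inner ℝ (∫ h, ρ h • u (x - h)) (v x) : ℝ) =
      ∫ h, ρ h * (inner ℝ (u (x - h)) (v x) : ℝ) := by
    intro x
    have hi : Integrable (fun h => ρ h • u (x - h)) := by
      apply Continuous.integrable_of_hasCompactSupport
      · exact hρc.smul (hu.comp (continuous_const.sub continuous_id))
      · exact hc.smul_right
    rw [real_inner_comm, ← integral_inner hi]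
    congr 1
    ext1 h
    rw [inner_smul_right, real_inner_comm]
  calc ∫ x in cube n, inner ℝ (u x) (∫ h, ρ h • v (x + h))
      = ∫ x in cube n, ∫ h, ρ h * (inner ℝ (u x) (v (x + h)) : ℝ) := by simp_rw [e1]
    _ = ∫ h, ∫ x in cube n, ρ h * (inner ℝ (u x) (v (x + h)) : ℝ) := integral_integral_swap hI1
    _ = ∫ h, ∫ x in cube n, ρ h * (inner ℝ (u (x - h)) (v x) : ℝ) := by
        congr 1
        ext1 h
        have h1 := trans_int (fun x => ρ h * (inner ℝ (u (x - h)) (v x) : ℝ)) (by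
          intro x k
          have h2 : x + iv k - h = (x - h) + iv k := by abel
          simp only [h2, hup (x - h) k, hvp x k]) h
        simpa using h1
    _ = ∫ x in cube n, ∫ h, ρ h * (inner ℝ (u (x - h)) (v x) : ℝ) :=
        (integral_integral_swap hI2).symm
    _ = _ := by simp_rw [e2]

/-- the main estimate -/
lemma main_est (σ q : ℝ) (hq1 : 1 < q) (T : Eu n → (Eu n →L[ℝ] Eu n))
    (hT : ContDiff ℝ ∞ T) (hTP : Per T) (B δ : ℝ) (hδ0 : 0 ≤ δ) (hB' : ∀ x, ‖dv T x‖ ≤ B)
    (hδ : ∀ x, ‖T x‖ ≤ δ) (v : Eu n → Eu n) (hv : Test σ q v) (ρ : Eu n → ℝ)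
    (hρ : ContDiff ℝ ∞ ρ) (hc : HasCompactSupport ρ) (hint : ∫ h, ρ h = 1) :
    ‖∫ x in cube n, (inner ℝ (dv T x) (v x) : ℝ)‖ₑ ≤
      ENNReal.ofReal B * (∫⁻ x in cube n, ∫⁻ h, ‖ρ h‖ₑ * ‖v (x + h) - v x‖ₑ) +
      ENNReal.ofReal (δ * ∑ j : Fin n, ∫ h, ‖fderiv ℝ ρ h (ev j)‖) * 2 := by
  have hfin : IsFiniteMeasure ((volume : Measure (Eu n)).restrict (cube n)) :=
    ⟨by rw [Measure.restrict_apply_univ, cube_vol]; exact ENNReal.one_lt_top⟩
  set C : ℝ := ∑ j : Fin n, ∫ h, ‖fderiv ℝ ρ h (ev j)‖ with hC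
  have hC0 : 0 ≤ C := Finset.sum_nonneg fun j _ => integral_nonneg fun h => norm_nonneg _
  have hu := dv_cont T hT
  have hup := dv_per T hTP
  have hvc : Continuous v := hv.1.continuous
  have hvp : Per v := hv.2.1
  have hρc := hρ.continuous
  obtain ⟨Mu, hMu0, hMu⟩ := bdd (dv T) hu hup
  obtain ⟨Mv, hMv0, hMv⟩ := bdd v hvc hvp
  have hb : ∀ a b : Eu n, ‖(inner ℝ (dv T a) (v b) : ℝ)‖ ≤ Mu * Mv := fun a b =>
    (norm_inner_le_norm _ _).trans (mul_le_mul (hMu a) (hMv b) (norm_nonneg _) hMu0)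
  have hmove := move ρ hρc hc (dv T) v hu hup hvc hvp
  have hvi : ∀ x, Integrable (fun h => ρ h • v (x + h)) := by
    intro x
    apply Continuous.integrable_of_hasCompactSupport
    · exact hρc.smul (hvc.comp (continuous_const.add continuous_id))
    · exact hc.smul_right
  have hui : ∀ x, Integrable (fun h => ρ h • dv T (x - h)) := by
    intro x
    apply Continuous.integrable_of_hasCompactSupport
    · exact hρc.smul (hu.comp (continuous_const.sub continuous_id))
    · exact hc.smul_right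
  have e1 : ∀ x, (inner ℝ (dv T x) (∫ h, ρ h • v (x + h)) : ℝ) =
      ∫ h, ρ h * (inner ℝ (dv T x) (v (x + h)) : ℝ) := by
    intro x
    rw [← integral_inner (hvi x)]
    congr 1
    ext1 h
    rw [inner_smul_right]
  have hI1 : Integrable (Function.uncurry fun (x h : Eu n) =>
      ρ h * (inner ℝ (dv T x) (v (x + h)) : ℝ)) ((volume.restrict (cube n)).prod volume) := by
    refine integ ρ hρc hc (fun z => inner ℝ (dv T z.1) (v (z.1 + z.2))) ?_ (Mu * Mv)
      fun z => hb _ _
    exact (hu.comp continuous_fst).inner (hvc.comp (continuous_fst.add continuous_snd))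
  have hI2 : Integrable (fun x => (inner ℝ (dv T x) (∫ h, ρ h • v (x + h)) : ℝ))
      (volume.restrict (cube n)) := by
    have := hI1.integral_prod_left
    refine this.congr (Filter.Eventually.of_forall fun x => ?_)
    simp only [Function.uncurry_apply_pair]
    exact (e1 x).symm
  have hI3 : Integrable (fun x => (inner ℝ (dv T x) (v x) : ℝ)) (volume.restrict (cube n)) := by
    refine (integrable_const (Mu * Mv)).mono' (hu.inner hvc).aestronglyMeasurable
      (Filter.Eventually.of_forall fun x => hb x x)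
  have hsplit : ∫ x in cube n, (inner ℝ (dv T x) (v x) : ℝ) =
      (∫ x in cube n, (inner ℝ (dv T x) (v x - ∫ h, ρ h • v (x + h)) : ℝ)) +
      ∫ x in cube n, (inner ℝ (∫ h, ρ h • dv T (x - h)) (v x) : ℝ) := by
    rw [← hmove]
    have h1 : ∀ x, (inner ℝ (dv T x) (v x - ∫ h, ρ h • v (x + h)) : ℝ) =
        (inner ℝ (dv T x) (v x) : ℝ) - (inner ℝ (dv T x) (∫ h, ρ h • v (x + h)) : ℝ) := by
      intro x; rw [inner_sub_right]
    simp_rw [h1]
    rw [integral_sub hI3 hI2]
    ring
  have hdiff : ∀ x, ‖v x - ∫ h, ρ h • v (x + h)‖ₑ ≤ ∫⁻ h, ‖ρ h‖ₑ * ‖v (x + h) - v x‖ₑ := by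
    intro x
    have h1 : v x - ∫ h, ρ h • v (x + h) = -∫ h, ρ h • (v (x + h) - v x) := by
      have h2 : ∫ h, ρ h • (v (x + h) - v x) = (∫ h, ρ h • v (x + h)) - ∫ h, ρ h • v x := by
        rw [← integral_sub (hvi x) ((hρc.integrable_of_hasCompactSupport hc).smul_const _)]
        congr 1
        ext1 h
        rw [smul_sub]
      rw [h2, integral_smul_const, hint, one_smul]
      abel
    rw [h1, enorm_neg]
    refine (enorm_integral_le_lintegral_enorm _).trans (lintegral_mono fun h => ?_)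
    rw [enorm_smul]
  have hA : ‖∫ x in cube n, (inner ℝ (dv T x) (v x - ∫ h, ρ h • v (x + h)) : ℝ)‖ₑ ≤
      ENNReal.ofReal B * (∫⁻ x in cube n, ∫⁻ h, ‖ρ h‖ₑ * ‖v (x + h) - v x‖ₑ) := by
    refine (enorm_integral_le_lintegral_enorm _).trans ?_
    rw [← lintegral_const_mul' _ _ ENNReal.ofReal_ne_top]
    refine lintegral_mono fun x => ?_
    calc ‖(inner ℝ (dv T x) (v x - ∫ h, ρ h • v (x + h)) : ℝ)‖ₑ
        ≤ ‖dv T x‖ₑ * ‖v x - ∫ h, ρ h • v (x + h)‖ₑ := by
          rw [← ofReal_norm, ← ofReal_norm, ← ofReal_norm, ← ENNReal.ofReal_mul (norm_nonneg _)]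
          exact ENNReal.ofReal_le_ofReal (norm_inner_le_norm _ _)
      _ ≤ _ := by
          gcongr
          · rw [← ofReal_norm]; exact ENNReal.ofReal_le_ofReal (hB' x)
          · exact hdiff x
  have hv1 : ∫⁻ x in cube n, ‖v x‖ₑ ≤ 2 := by
    have h1 : ∀ x, ‖v x‖ₑ ≤ 1 + ‖v x‖ₑ ^ q := by
      intro x
      rcases le_total (‖v x‖ₑ) 1 with h | h
      · exact h.trans le_self_add
      · have : ‖v x‖ₑ ^ (1 : ℝ) ≤ ‖v x‖ₑ ^ q := ENNReal.rpow_le_rpow_of_exponent_le h hq1.le
        rw [ENNReal.rpow_one] at this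
        exact this.trans le_add_self
    calc ∫⁻ x in cube n, ‖v x‖ₑ ≤ ∫⁻ x in cube n, (1 + ‖v x‖ₑ ^ q) := lintegral_mono h1
      _ = 1 + ∫⁻ x in cube n, ‖v x‖ₑ ^ q := by
          rw [lintegral_add_left measurable_const, setLIntegral_const, cube_vol, mul_one]
      _ ≤ 1 + 1 := by
          gcongr
          exact le_trans le_self_add hv.2.2
      _ = 2 := by norm_num
  have hBd : ‖∫ x in cube n, (inner ℝ (∫ h, ρ h • dv T (x - h)) (v x) : ℝ)‖ₑ ≤
      ENNReal.ofReal (δ * C) * 2 := by
    refine (enorm_integral_le_lintegral_enorm _).trans ?_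
    calc ∫⁻ x in cube n, ‖(inner ℝ (∫ h, ρ h • dv T (x - h)) (v x) : ℝ)‖ₑ
        ≤ ∫⁻ x in cube n, ENNReal.ofReal (δ * C) * ‖v x‖ₑ := by
          refine lintegral_mono fun x => ?_
          rw [← ofReal_norm, ← ofReal_norm, ← ENNReal.ofReal_mul (by positivity)]
          refine ENNReal.ofReal_le_ofReal ((norm_inner_le_norm _ _).trans ?_)
          gcongr
          exact conv_dv ρ hρ hc T hT δ hδ x
      _ = ENNReal.ofReal (δ * C) * ∫⁻ x in cube n, ‖v x‖ₑ :=
          lintegral_const_mul' _ _ ENNReal.ofReal_ne_top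
      _ ≤ _ := by gcongr
  rw [hsplit]
  exact (enorm_add_le _ _).trans (add_le_add hA hBd)

end

end Pool.Agent.H68.VD.WspA

namespace Pool.Agent.H68.VD

open MeasureTheory Set WspA
open scoped ENNReal ContDiff

/-- The negative fractional norms are weak norms. -/
theorem wspWeak : WspWeak := by
  intro n σ p hn hσ hσ1 hp
  have hp1 : 0 < p - 1 := by linarith
  have hpp : 0 < p := by linarith
  set q : ℝ := p / (p - 1) with hq
  have hq1 : 1 < q := by rw [hq, lt_div_iff₀ hp1]; linarith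
  have hq0 : 0 < q := by linarith
  refine ⟨hp.le, ?_, ?_, ?_⟩
  · intro c u
    simp only [wNorm, ENNReal.mul_iSup]
    refine iSup_congr fun v => iSup_congr fun _ => ?_
    rw [← ENNReal.ofReal_mul (abs_nonneg c), ← abs_mul, ← integral_const_mul]
    simp_rw [real_inner_smul_left]
  · refine ⟨1, zero_le_one, fun u hu hup => ?_⟩
    rw [ENNReal.ofReal_one, one_mul]
    refine iSup₂_le fun v hv => ?_
    have hvc : Continuous v := hv.1.continuous
    have hconj : p.HolderConjugate q := by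
      have h := Real.HolderConjugate.conjExponent hp
      rw [show Real.conjExponent p = q from rfl] at h
      exact h
    have h1 : ENNReal.ofReal |∫ x in cube n, (inner ℝ (u x) (v x) : ℝ)| ≤
        ∫⁻ x in cube n, ‖u x‖ₑ * ‖v x‖ₑ := by
      rw [← Real.norm_eq_abs, ofReal_norm]
      refine (enorm_integral_le_lintegral_enorm _).trans (lintegral_mono fun x => ?_)
      rw [← ofReal_norm, ← ofReal_norm, ← ofReal_norm, ← ENNReal.ofReal_mul (norm_nonneg _)]
      exact ENNReal.ofReal_le_ofReal (norm_inner_le_norm _ _)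
    have h2 := ENNReal.lintegral_mul_le_Lp_mul_Lq (volume.restrict (cube n)) hconj
      (f := fun x => ‖u x‖ₑ) (g := fun x => ‖v x‖ₑ) hu.enorm.aemeasurable hvc.enorm.aemeasurable
    have h3 : (∫⁻ x in cube n, ‖v x‖ₑ ^ q) ^ (1 / q) ≤ 1 := by
      have : (∫⁻ x in cube n, ‖v x‖ₑ ^ q) ≤ 1 := le_trans le_self_add hv.2.2
      calc (∫⁻ x in cube n, ‖v x‖ₑ ^ q) ^ (1 / q) ≤ 1 ^ (1 / q) := by gcongr
        _ = 1 := ENNReal.one_rpow _
    calc ENNReal.ofReal |∫ x in cube n, (inner ℝ (u x) (v x) : ℝ)|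
        ≤ ∫⁻ x in cube n, ‖u x‖ₑ * ‖v x‖ₑ := h1
      _ ≤ (∫⁻ x in cube n, ‖u x‖ₑ ^ p) ^ (1 / p) * (∫⁻ x in cube n, ‖v x‖ₑ ^ q) ^ (1 / q) := h2
      _ ≤ (∫⁻ x in cube n, ‖u x‖ₑ ^ p) ^ (1 / p) * 1 := by gcongr
      _ = _ := mul_one _
  · intro B ε hε
    set B' : ℝ := max B 1 with hB'
    have hB'pos : 0 < B' := lt_of_lt_of_le one_pos (le_max_right _ _)
    set l : ℝ := (ε / (3 * B')) ^ (1 / q) with hl
    have hlpos : 0 < l := by positivity
    have hlq : l ^ q = ε / (3 * B') := by
      rw [hl, ← Real.rpow_mul (by positivity), one_div_mul_cancel hq0.ne', Real.rpow_one]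
    set η : ℝ := l ^ p * (ε / (3 * B')) with hη
    have hηpos : 0 < η := by positivity
    obtain ⟨ρ, hρ, hc, hρnn, hρ0, hint, hρη⟩ := bump n σ p hσ hp η hηpos
    set C : ℝ := ∑ j : Fin n, ∫ h, ‖fderiv ℝ ρ h (ev j)‖ with hC
    have hC0 : 0 ≤ C := Finset.sum_nonneg fun j _ => integral_nonneg fun h => norm_nonneg _
    refine ⟨ε / (6 * (C + 1)), by positivity, fun T hT hTP hTB hTδ => ?_⟩
    refine iSup₂_le fun v hv => ?_
    rw [← Real.norm_eq_abs, ofReal_norm]
    have h1 := main_est σ q hq1 T hT hTP B' (ε / (6 * (C + 1))) (by positivity)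
      (fun x => (hTB x).trans (le_max_left _ _)) hTδ v hv ρ hρ hc hint
    have h2 := dbl σ p q hp hq v hv ρ hρ.continuous hρ0 η l hlpos hρη
    have h3 : ENNReal.ofReal B' * (ENNReal.ofReal (l ^ q) +
        ENNReal.ofReal (l ^ (-p)) * ENNReal.ofReal η) +
        ENNReal.ofReal (ε / (6 * (C + 1)) * C) * 2 ≤ ENNReal.ofReal ε := by
      rw [← ENNReal.ofReal_mul (by positivity), ← ENNReal.ofReal_add (by positivity) (by positivity),
        ← ENNReal.ofReal_mul (by positivity), show (2 : ℝ≥0∞) = ENNReal.ofReal 2 by simp,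
        ← ENNReal.ofReal_mul (by positivity), ← ENNReal.ofReal_add (by positivity) (by positivity)]
      apply ENNReal.ofReal_le_ofReal
      have e1 : l ^ (-p) * η = ε / (3 * B') := by
        rw [hη, ← mul_assoc, ← Real.rpow_add hlpos]
        simp
      rw [hlq, e1]
      have e2 : B' * (ε / (3 * B') + ε / (3 * B')) = 2 * ε / 3 := by field_simp; ring
      have e3 : ε / (6 * (C + 1)) * C * 2 ≤ ε / 3 := by
        have : ε / (6 * (C + 1)) * C * 2 = ε / 3 * (C / (C + 1)) := by field_simp; ring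
        rw [this]
        have h4 : C / (C + 1) ≤ 1 := by rw [div_le_one (by positivity)]; linarith
        calc ε / 3 * (C / (C + 1)) ≤ ε / 3 * 1 := by gcongr
          _ = ε / 3 := mul_one _
      rw [e2]
      linarith
    refine h1.trans (le_trans ?_ h3)
    gcongr

end Pool.Agent.H68.VD
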