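import Pool.Agent.H68.VD.St2
import Pool.Agent.H68.VD.Wsp

/-! # The negative fractional norms are normalized (module WspM of project VD) -/

namespace Pool.Agent.H68.VD.WspMA

open MeasureTheory Set Pool.Agent.H68.VD Pool.Agent.H68.VD.WspA
open scoped ENNReal ContDiff

noncomputable section

variable {n : ℕ}

/-- continuous fields are integrable on the cube -/
lemma int_cont (u : Eu n → Eu n) (hu : Continuous u) : IntegrableOn u (cube n) volume := by
  have hb : Bornology.IsBounded (cube n) := by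
    rw [cube_eq]; exact ZSpan.fundamentalDomain_isBounded _
  have hc : IsCompact (closure (cube n)) := hb.isCompact_closure
  exact (hu.continuousOn.integrableOn_compact hc).mono_set subset_closure

/-- a constant field of norm one is a test field -/
lemma test_const (σ q : ℝ) (hq : 0 < q) (e : Eu n) (he : ‖e‖ = 1) : Test σ q (fun _ : Eu n => e) := by
  refine ⟨contDiff_const, fun _ _ => rfl, ?_⟩
  have he' : ‖e‖ₑ = 1 := by
    rw [← ofReal_norm, he, ENNReal.ofReal_one]
  have h1 : (∫⁻ x in cube n, ‖e‖ₑ ^ q) = 1 := by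
    rw [he', ENNReal.one_rpow, lintegral_const]
    simp [cube_vol]
  have h2 : (∫⁻ x in cube n, ∫⁻ h in Metric.ball (0 : Eu n) 1,
      ‖e - e‖ₑ ^ q / ‖h‖ₑ ^ ((n : ℝ) + σ * q)) = 0 := by
    simp [sub_self, ENNReal.zero_rpow_of_pos hq]
  rw [h1, h2, add_zero]

/-- the mean of a test field has norm at most one -/
lemma test_mean (σ q : ℝ) (hq : 1 < q) (v : Eu n → Eu n) (hv : Test σ q v) :
    ‖∫ x in cube n, v x‖ ≤ 1 := by
  have hc : Continuous v := hv.1.continuous
  have h1 : (∫⁻ x in cube n, ‖v x‖ₑ ^ q) ≤ 1 := le_trans le_self_add hv.2.2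
  have hpq : (q / (q - 1)).HolderConjugate q := (Real.HolderConjugate.conjExponent hq).symm
  have h2 : (∫⁻ x in cube n, ‖v x‖ₑ) ≤ (∫⁻ x in cube n, ‖v x‖ₑ ^ q) ^ (1 / q) := by
    have h := ENNReal.lintegral_mul_le_Lp_mul_Lq (volume.restrict (cube n)) hpq
      (f := fun _ => (1 : ℝ≥0∞)) (g := fun x => ‖v x‖ₑ) aemeasurable_const
      hc.enorm.measurable.aemeasurable
    simpa [cube_vol] using h
  have h3 : ‖∫ x in cube n, v x‖ₑ ≤ 1 := by
    calc ‖∫ x in cube n, v x‖ₑ ≤ ∫⁻ x in cube n, ‖v x‖ₑ := enorm_integral_le_lintegral_enorm _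
      _ ≤ (∫⁻ x in cube n, ‖v x‖ₑ ^ q) ^ (1 / q) := h2
      _ ≤ 1 ^ (1 / q) := ENNReal.rpow_le_rpow h1 (by positivity)
      _ = 1 := ENNReal.one_rpow _
  rw [← ofReal_norm] at h3
  exact ENNReal.ofReal_le_one.mp h3

end

end Pool.Agent.H68.VD.WspMA

namespace Pool.Agent.H68.VD

open MeasureTheory Set Pool.Agent.H68.VD.WspA Pool.Agent.H68.VD.WspMA
open scoped ENNReal ContDiff

/-- The negative fractional norms are normalized. -/
theorem wspMean : WspMean := by
  intro n σ p hσ hσ1 hp
  have hq : 1 < p / (p - 1) := by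
    rw [one_lt_div (by linarith)]; linarith
  constructor
  · intro u hu _
    set m : Eu n := ∫ x in cube n, u x with hm
    rcases eq_or_ne m 0 with h0 | h0
    · rw [h0]; simp
    · have hn : ‖m‖ ≠ 0 := norm_ne_zero_iff.mpr h0
      set e : Eu n := ‖m‖⁻¹ • m with he
      have he1 : ‖e‖ = 1 := by
        rw [he, norm_smul, norm_inv, norm_norm, inv_mul_cancel₀ hn]
      have hint : Integrable u (volume.restrict (cube n)) := int_cont u hu
      have h1 : ∫ x in cube n, inner ℝ (u x) e = ‖m‖ := by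
        have h := integral_inner (𝕜 := ℝ) hint e
        have h2 : ∀ x, inner ℝ (u x) e = inner ℝ e (u x) := fun x => real_inner_comm _ _
        simp only [h2]
        rw [h, ← hm, he, real_inner_smul_left, real_inner_self_eq_norm_sq]
        field_simp
      unfold wNorm
      refine le_trans ?_ (le_iSup₂ (f := fun (v : Eu n → Eu n) (_ : Test σ (p / (p - 1)) v) =>
        ENNReal.ofReal |∫ x in cube n, inner ℝ (u x) (v x)|) (fun _ => e)
        (test_const σ _ (by linarith) e he1))
      rw [h1, abs_of_nonneg (norm_nonneg _)]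
  · intro m
    unfold wNorm
    refine iSup₂_le fun v hv => ENNReal.ofReal_le_ofReal ?_
    have hint : Integrable v (volume.restrict (cube n)) := int_cont v hv.1.continuous
    rw [integral_inner (𝕜 := ℝ) hint m]
    calc |inner ℝ m (∫ x in cube n, v x)| ≤ ‖m‖ * ‖∫ x in cube n, v x‖ := abs_real_inner_le_norm _ _
      _ ≤ ‖m‖ * 1 := by
        gcongr
        exact test_mean σ _ hq v hv
      _ = ‖m‖ := mul_one _

end Pool.Agent.H68.VD
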