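import Pool.Agent.H68.VD.St3
import Pool.Agent.H68.VD.WspM

/-! # The norms of negative order are normalized (module WMean of project VD) -/

namespace Pool.Agent.H68.VD.WMeanA

open MeasureTheory Set Pool.Agent.H68.VD Pool.Agent.H68.VD.WspA Pool.Agent.H68.VD.WspMA
open scoped ENNReal ContDiff

noncomputable section

variable {n : ℕ}

lemma iter_const (k : ℕ) (e x y : Eu n) :
    iteratedFDeriv ℝ k (fun _ : Eu n => e) x = iteratedFDeriv ℝ k (fun _ : Eu n => e) y := by
  rcases Nat.eq_zero_or_pos k with h | h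
  · subst h
    rw [iteratedFDeriv_zero_eq_comp]; rfl
  · rw [iteratedFDeriv_const_of_ne (by omega)]; rfl

/-- a constant field of norm one is a test field -/
lemma slob_const (r q : ℝ) (hq : 0 < q) (e : Eu n) (he : ‖e‖ = 1) : slob r q (fun _ : Eu n => e) ≤ 1 := by
  have he' : ‖e‖ₑ = 1 := by
    rw [← ofReal_norm, he, ENNReal.ofReal_one]
  have h0 : ∀ x : Eu n, ‖iteratedFDeriv ℝ 0 (fun _ : Eu n => e) x‖ₑ = 1 := by
    intro x
    rw [← ofReal_norm, norm_iteratedFDeriv_zero, he, ENNReal.ofReal_one]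
  have hk : ∀ k : ℕ, ∀ x : Eu n, ‖iteratedFDeriv ℝ (k + 1) (fun _ : Eu n => e) x‖ₑ = 0 := by
    intro k x
    rw [iteratedFDeriv_const_of_ne (by omega)]
    simp
  have h1 : (∑ k ∈ Finset.range (⌊r⌋₊ + 1),
      ∫⁻ x in cube n, ‖iteratedFDeriv ℝ k (fun _ : Eu n => e) x‖ₑ ^ q) = 1 := by
    rw [Finset.sum_range_succ']
    simp only [h0, hk, ENNReal.zero_rpow_of_pos hq, ENNReal.one_rpow, lintegral_const]
    simp [cube_vol]
  have h2 : (∫⁻ x in cube n, ∫⁻ h in Metric.ball (0 : Eu n) 1,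
      ‖iteratedFDeriv ℝ ⌊r⌋₊ (fun _ : Eu n => e) (x + h) -
        iteratedFDeriv ℝ ⌊r⌋₊ (fun _ : Eu n => e) x‖ₑ ^ q /
          ‖h‖ₑ ^ ((n : ℝ) + (r - ⌊r⌋₊) * q)) = 0 := by
    have : ∀ x h : Eu n, iteratedFDeriv ℝ ⌊r⌋₊ (fun _ : Eu n => e) (x + h) -
        iteratedFDeriv ℝ ⌊r⌋₊ (fun _ : Eu n => e) x = 0 := fun x h => by
      rw [iter_const _ e (x + h) x, sub_self]
    simp only [this, enorm_zero, ENNReal.zero_rpow_of_pos hq, ENNReal.zero_div, lintegral_zero]
  unfold slob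
  rw [h1, h2]
  simp

/-- the mean of a test field has norm at most one -/
lemma slob_mean (r q : ℝ) (hq : 1 < q) (v : Eu n → Eu n) (hc : Continuous v) (hv : slob r q v ≤ 1) :
    ‖∫ x in cube n, v x‖ ≤ 1 := by
  have h1 : (∫⁻ x in cube n, ‖v x‖ₑ ^ q) ≤ 1 := by
    refine le_trans ?_ hv
    unfold slob
    refine le_trans ?_ le_self_add
    rw [Finset.sum_range_succ']
    refine le_trans (le_of_eq ?_) le_add_self
    congr 1
    ext x
    rw [← ofReal_norm, ← ofReal_norm, norm_iteratedFDeriv_zero]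
  have hpq : (q / (q - 1)).HolderConjugate q := (Real.HolderConjugate.conjExponent hq).symm
  have h2 : (∫⁻ x in cube n, ‖v x‖ₑ) ≤ (∫⁻ x in cube n, ‖v x‖ₑ ^ q) ^ (1 / q) := by
    have h := ENNReal.lintegral_mul_le_Lp_mul_Lq (volume.restrict (cube n)) hpq
      (f := fun _ => (1 : ℝ≥0∞)) (g := fun x => ‖v x‖ₑ) aemeasurable_const
      hc.enorm.measurable.aemeasurable
    simpa [cube_vol] using h
  have h3 : ‖∫ x in cube n, v x‖ₑ ≤ 1 := by
    calc ‖∫ x in cube n, v x‖ₑ ≤ ∫⁻ x in cube n, ‖v x‖ₑ := enorm_integral_le_lintegral_enorm _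
      _ ≤ (∫⁻ x in cube n, ‖v x‖ₑ ^ q) ^ (1 / q) := h2
      _ ≤ 1 ^ (1 / q) := ENNReal.rpow_le_rpow h1 (by positivity)
      _ = 1 := ENNReal.one_rpow _
  rw [← ofReal_norm] at h3
  exact ENNReal.ofReal_le_one.mp h3

end

end Pool.Agent.H68.VD.WMeanA

namespace Pool.Agent.H68.VD

open MeasureTheory Set Pool.Agent.H68.VD.WspA Pool.Agent.H68.VD.WspMA Pool.Agent.H68.VD.WMeanA
open scoped ENNReal ContDiff

/-- The norms of negative order are normalized. -/
theorem wspNorm : WspNorm := by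
  intro n s p hs hp
  have hq : 1 < p / (p - 1) := by
    rw [one_lt_div (by linarith)]; linarith
  have hs' : ¬ (0 ≤ s) := not_le.mpr hs
  constructor
  · intro u hu _
    set m : Eu n := ∫ x in cube n, u x with hm
    rcases eq_or_ne m 0 with h0 | h0
    · rw [h0]; simp
    · have hn : ‖m‖ ≠ 0 := norm_ne_zero_iff.mpr h0
      set e : Eu n := ‖m‖⁻¹ • m with he
      have he1 : ‖e‖ = 1 := by
        rw [he, norm_smul, norm_inv, norm_norm, inv_mul_cancel₀ hn]
      have hint : Integrable u (volume.restrict (cube n)) := int_cont u hu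
      have h1 : ∫ x in cube n, inner ℝ (u x) e = ‖m‖ := by
        have h := integral_inner (𝕜 := ℝ) hint e
        have h2 : ∀ x, inner ℝ (u x) e = inner ℝ e (u x) := fun x => real_inner_comm _ _
        simp only [h2]
        rw [h, ← hm, he, real_inner_smul_left, real_inner_self_eq_norm_sq]
        field_simp
      unfold wsp
      rw [if_neg hs']
      refine le_trans ?_ (le_iSup₂ (f := fun (v : Eu n → Eu n)
        (_ : ContDiff ℝ ∞ v ∧ Per v ∧ slob (-s) (p / (p - 1)) v ≤ 1) =>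
        ENNReal.ofReal |∫ x in cube n, inner ℝ (u x) (v x)|) (fun _ => e)
        ⟨contDiff_const, fun _ _ => rfl, slob_const _ _ (by linarith) e he1⟩)
      rw [h1, abs_of_nonneg (norm_nonneg _)]
  · intro m
    unfold wsp
    rw [if_neg hs']
    refine iSup₂_le fun v hv => ENNReal.ofReal_le_ofReal ?_
    have hint : Integrable v (volume.restrict (cube n)) := int_cont v hv.1.continuous
    rw [integral_inner (𝕜 := ℝ) hint m]
    calc |inner ℝ m (∫ x in cube n, v x)| ≤ ‖m‖ * ‖∫ x in cube n, v x‖ := abs_real_inner_le_norm _ _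
      _ ≤ ‖m‖ * 1 := by
        gcongr
        exact slob_mean _ _ hq v hv.1.continuous hv.2.2
      _ = ‖m‖ := mul_one _

end Pool.Agent.H68.VD
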