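import Pool.Agent.H68.VD.St3

/-! # The Sobolev-Slobodeckij norms of nonnegative order dominate the `L^1` norm -/

namespace Pool.Agent.H68.VD

open MeasureTheory Set
open scoped ENNReal ContDiff

noncomputable section

namespace WPosA

theorem cube_vol (n : ℕ) : volume (cube n) = 1 := by
  have h1 : cube n = (WithLp.ofLp : Eu n → Fin n → ℝ) ⁻¹'
      (Set.univ.pi fun _ => Set.Ico (0 : ℝ) 1) := by
    ext x
    simp only [cube, Set.mem_setOf_eq, Set.mem_preimage, Set.mem_univ_pi]
  rw [h1, (PiLp.volume_preserving_ofLp (Fin n)).measure_preimage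
    (MeasurableSet.univ_pi fun _ => measurableSet_Ico).nullMeasurableSet, volume_pi_pi]
  simp

end WPosA

theorem wspPos : WspPos := by
  intro n s p hs hp
  refine ⟨1, one_pos, fun u hu _ => ?_⟩
  rw [ENNReal.ofReal_one, one_mul, wsp, if_pos hs]
  have hp0 : 0 < p := by linarith
  have h1 : ∫⁻ x in cube n, ‖u x‖ₑ ^ p ≤ slob s p u := by
    unfold slob
    refine le_trans ?_ le_self_add
    refine le_trans ?_ (Finset.single_le_sum
      (f := fun k => ∫⁻ x in cube n, ‖iteratedFDeriv ℝ k u x‖ₑ ^ p) (fun _ _ => zero_le)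
      (Finset.mem_range.mpr (Nat.succ_pos _) : 0 ∈ Finset.range (⌊s⌋₊ + 1)))
    apply le_of_eq
    apply lintegral_congr
    intro x
    congr 1
    rw [← ofReal_norm, ← ofReal_norm, norm_iteratedFDeriv_zero]
  refine le_trans ?_ (ENNReal.rpow_le_rpow h1 (by positivity : 0 ≤ 1 / p))
  have hq : p.HolderConjugate (p / (p - 1)) := Real.HolderConjugate.conjExponent hp
  have h2 := ENNReal.lintegral_mul_le_Lp_mul_Lq (volume.restrict (cube n)) hq
    (f := fun x => ‖u x‖ₑ) (g := fun _ => 1) hu.enorm.aemeasurable aemeasurable_const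
  simpa [WPosA.cube_vol] using h2

end

end Pool.Agent.H68.VD
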