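import Pool.Agent.H68.VD.VelDiv
import Pool.Agent.H68.VD.CostK
import Pool.Agent.H68.VD.TwistK
import Pool.Agent.H68.VD.RotK
import Pool.Agent.H68.VD.Osc
import Pool.Agent.H68.VD.ExtK
import Pool.Agent.H68.VD.ExtN
import Pool.Agent.H68.VD.SepU
import Pool.Agent.H68.VD.SwirlC
import Pool.Agent.H68.VD.Stream
import Pool.Agent.H68.VD.DensB
import Pool.Agent.H68.VD.DensC
import Pool.Agent.H68.VD.Main
import Pool.Agent.H68.VD.Flux
import Pool.Agent.H68.VD.Hs
import Pool.Agent.H68.VD.HsS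
import Pool.Agent.H68.VD.WAll
import Pool.Agent.H68.VD.WMean
import Pool.Agent.H68.VD.WPos
import Pool.Agent.H68.VD.PerDiv
import Pool.Agent.H68.VD.DispLow
import Pool.Agent.H68.VD.InfD
import Pool.Agent.H68.VD.LatFix
import Pool.Agent.H68.VD.DiamW
import Pool.Agent.H68.VD.Exact

/-! # The diameter of the volumorphism groups of the closed flat manifolds -/

namespace Pool.Agent.H68.VD

open MeasureTheory Set
open scoped ENNReal ContDiff

noncomputable section

/-- A scale of Sobolev norms on vector fields: the `H^s` norms, or the `W^{s,p}` norms for one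
exponent `p > 1`. -/
def SobolevScale {n : ℕ} (N : ℝ → (Eu n → Eu n) → ℝ≥0∞) : Prop :=
  (N = fun s => hsNorm s) ∨ ∃ p : ℝ, 1 < p ∧ N = fun s => wsp s p

theorem scale_neg {n : ℕ} (hn : 1 ≤ n) {N : ℝ → (Eu n → Eu n) → ℝ≥0∞} (hN : SobolevScale N) (s : ℝ)
    (hs : s < 0) : ∃ p : ℝ, WeakNorm (N s) p ∧
      (∀ u : Eu n → Eu n, Continuous u → Per u → ENNReal.ofReal ‖∫ x in cube n, u x‖ ≤ N s u) ∧
      ∀ m : Eu n, N s (fun _ => m) ≤ ENNReal.ofReal ‖m‖ := by
  rcases hN with rfl | ⟨p, hp, rfl⟩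
  · exact ⟨2, hsWeak n s hn hs, fun u hu _ => (hsMean n s).1 u hu, fun m => ((hsMean n s).2 m).le⟩
  · exact ⟨p, wspNeg n s p hn hs hp, (wspNorm n s p hs hp).1, (wspNorm n s p hs hp).2⟩

theorem scale_pos {n : ℕ} {N : ℝ → (Eu n → Eu n) → ℝ≥0∞} (hN : SobolevScale N) (s : ℝ)
    (hs : 0 ≤ s) : Dominates (N s) := by
  rcases hN with rfl | ⟨p, hp, rfl⟩
  · exact hsStrong n s hs
  · exact wspPos n s p hs hp

theorem exact_all (F : FamKit) : Exact := by
  have CK := costKit F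
  have K := fluxKit F
  have H := homot rotKit
  have SC := swirlCost F CK twistFam twistVel rotKit H osc extKit extNorm
  have D := dens stream densB extKit extNorm
  have MC := mainCost F CK twistFam twistVel rotKit extKit SC sepU (velDiv F) D
  exact exact F CK K MC

/-- The classification, from the last two modules. -/
theorem classify (F : FamKit) (Sh : Shift) {n : ℕ} (hn : 3 ≤ n) (P : Subgroup (Eu n ≃ᵃ[ℝ] Eu n))
    (hP : Deck P) (N : ℝ → (Eu n → Eu n) → ℝ≥0∞) (hN : SobolevScale N) :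
    (∀ s < 0, ∀ f g, InG P f → InG P g → gdist (N s) P f g =
      ⨅ (w : Eu n) (_ : Ctr P w), ENNReal.ofReal ‖(∫ x in cube n, (g x - f x)) + w‖) ∧
    (∀ s < 0, diam (N s) P < ⊤ ∧
      (diam (N s) P = 0 ↔ ∀ m : Eu n, (∀ g ∈ P, g.linear m = m) → m = 0)) ∧
    (∀ s, 0 ≤ s → diam (N s) P = ⊤) := by
  have E := exact_all F
  have DW := diamWeak F E latFix sepU (fluxKit F)
  have ID := infDiam F (fluxKit F) (dispLow F (fluxKit F)) Sh
  refine ⟨?_, ?_, ?_⟩
  · intro s hs f g hf hg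
    obtain ⟨p, h1, h2, h3⟩ := scale_neg (by omega) hN s hs
    exact E n hn P hP (N s) p h1 h2 h3 f g hf hg
  · intro s hs
    obtain ⟨p, h1, h2, h3⟩ := scale_neg (by omega) hN s hs
    exact DW n hn P hP (N s) p h1 h2 h3
  · intro s hs
    exact ID n (by omega) P hP (N s) (scale_pos hN s hs)

end

end Pool.Agent.H68.VD
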