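import Pool.Agent.H68.VD.St

/-! # Families of volume preserving diffeomorphisms and their velocities -/

namespace Pool.Agent.H68.VD

open MeasureTheory Set
open scoped ENNReal ContDiff

namespace FamA

variable {n : ℕ}

section inv

variable {P : Subgroup (Eu n ≃ᵃ[ℝ] Eu n)} {E : Type} [NormedAddCommGroup E] [NormedSpace ℝ E]
  {F : E → Eu n → Eu n}

theorem smoothX (hF : ContDiff ℝ ∞ (fun q : E × Eu n => F q.1 q.2)) (e : E) :
    ContDiff ℝ ∞ (F e) :=
  hF.comp (contDiff_const.prodMk contDiff_id)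

theorem diffX (hF : ContDiff ℝ ∞ (fun q : E × Eu n => F q.1 q.2)) (e : E) (x : Eu n) :
    DifferentiableAt ℝ (F e) x :=
  ((smoothX hF e).differentiable (by simp)) x

theorem diffU (hF : ContDiff ℝ ∞ (fun q : E × Eu n => F q.1 q.2)) (q : E × Eu n) :
    DifferentiableAt ℝ (fun q : E × Eu n => F q.1 q.2) q :=
  (hF.differentiable (by simp)) q

theorem fderivX (hF : ContDiff ℝ ∞ (fun q : E × Eu n => F q.1 q.2)) (e : E) (x : Eu n) :
    HasFDerivAt (F e) ((fderiv ℝ (fun q : E × Eu n => F q.1 q.2) (e, x)).comp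
      (ContinuousLinearMap.inr ℝ E (Eu n))) x := by
  have h1 : HasFDerivAt (fun y : Eu n => (e, y)) (ContinuousLinearMap.inr ℝ E (Eu n)) x :=
    hasFDerivAt_prodMk_right e x
  exact (diffU hF (e, x)).hasFDerivAt.comp x h1

theorem invF (h : IsFam P F) (e : E) (x : Eu n) : Function.invFun (F e) (F e x) = x :=
  Function.leftInverse_invFun (h.bij e).1 x

theorem Finv (h : IsFam P F) (e : E) (x : Eu n) : F e (Function.invFun (F e) x) = x :=
  Function.rightInverse_invFun (h.bij e).2 x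

theorem smoothInv [CompleteSpace E] (h : IsFam P F) :
    ContDiff ℝ ∞ (fun q : E × Eu n => Function.invFun (F q.1) q.2) := by
  rw [contDiff_iff_contDiffAt]
  rintro ⟨e, z⟩
  obtain ⟨x, rfl⟩ : ∃ x, F e x = z := (h.bij e).2 z
  set G : E × Eu n → E × Eu n := fun q => (q.1, F q.1 q.2) with hG
  have hGs : ContDiff ℝ ∞ G := contDiff_fst.prodMk h.smooth
  set L : E × Eu n →L[ℝ] Eu n := fderiv ℝ (fun q : E × Eu n => F q.1 q.2) (e, x) with hL
  have hdet : (L.comp (ContinuousLinearMap.inr ℝ E (Eu n))).det ≠ 0 := by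
    rw [hL, ← (fderivX h.smooth e x).fderiv, h.det e x]
    exact one_ne_zero
  set A : Eu n ≃L[ℝ] Eu n := ContinuousLinearMap.toContinuousLinearEquivOfDetNeZero _ hdet with hA
  set B : (E × Eu n) ≃L[ℝ] (E × Eu n) :=
    (ContinuousLinearEquiv.refl ℝ E).skewProd A (L.comp (ContinuousLinearMap.inl ℝ E (Eu n)))
    with hB
  have hBd : HasFDerivAt G (B : (E × Eu n) →L[ℝ] (E × Eu n)) (e, x) := by
    have h1 : HasFDerivAt G ((ContinuousLinearMap.fst ℝ E (Eu n)).prod L) (e, x) :=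
      hasFDerivAt_fst.prodMk (diffU h.smooth (e, x)).hasFDerivAt
    have h2 : (B : (E × Eu n) →L[ℝ] (E × Eu n)) = (ContinuousLinearMap.fst ℝ E (Eu n)).prod L := by
      refine ContinuousLinearMap.ext fun q => ?_
      have h3 : B q = (q.1, A q.2 + L (q.1, 0)) := rfl
      have h4 : A q.2 = L (0, q.2) := rfl
      have h5 : ((ContinuousLinearMap.fst ℝ E (Eu n)).prod L) q = (q.1, L q) := rfl
      have h6 : (B : (E × Eu n) →L[ℝ] (E × Eu n)) q = B q := rfl
      rw [h6, h3, h4, h5, ← map_add]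
      simp
    rw [h2]
    exact h1
  have hGa : ContDiffAt ℝ ∞ G (e, x) := hGs.contDiffAt
  have hn : (∞ : WithTop ℕ∞) ≠ 0 := by simp
  have h1 := hGa.to_localInverse hBd hn
  have h2 : ∀ᶠ y in nhds (G (e, x)), G (hGa.localInverse hBd hn y) = y :=
    (hGa.hasStrictFDerivAt' hBd hn).eventually_right_inverse
  have h3 : (fun q : E × Eu n => Function.invFun (F q.1) q.2) =ᶠ[nhds (G (e, x))]
      fun q => (hGa.localInverse hBd hn q).2 := by
    filter_upwards [h2] with y hy
    have h4 : (G (hGa.localInverse hBd hn y)).1 = y.1 := by rw [hy]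
    have h5 : (G (hGa.localInverse hBd hn y)).2 = y.2 := by rw [hy]
    simp only [hG] at h4 h5
    rw [h4] at h5
    rw [← h5, invF h]
  exact (contDiffAt_snd.comp (G (e, x)) h1).congr_of_eventuallyEq h3

theorem isFamInv [CompleteSpace E] (h : IsFam P F) : IsFam P (fun e => Function.invFun (F e)) := by
  have hs := smoothInv h
  refine ⟨hs, fun e => ⟨?_, ?_⟩, fun e z => ?_, fun e g hg x => ?_⟩
  · intro x y hxy
    have := congrArg (F e) hxy
    simpa only [Finv h] using this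
  · intro x
    exact ⟨F e x, invF h e x⟩
  · have h1 : HasFDerivAt (fun x => F e (Function.invFun (F e) x))
        ((fderiv ℝ (F e) (Function.invFun (F e) z)).comp (fderiv ℝ (Function.invFun (F e)) z)) z :=
      (diffX h.smooth e _).hasFDerivAt.comp z (diffX (F := fun e => Function.invFun (F e)) hs e z).hasFDerivAt
    have h2 : (fun x => F e (Function.invFun (F e) x)) = id := funext fun x => Finv h e x
    rw [h2] at h1
    have h3 := h1.unique (hasFDerivAt_id z)
    have h4 := congrArg ContinuousLinearMap.det h3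
    have h5 : ((fderiv ℝ (F e) (Function.invFun (F e) z)).comp
        (fderiv ℝ (Function.invFun (F e)) z)).det = (fderiv ℝ (F e) (Function.invFun (F e) z)).det *
        (fderiv ℝ (Function.invFun (F e)) z).det := by
      simp only [ContinuousLinearMap.det, ContinuousLinearMap.toLinearMap_comp]
      exact LinearMap.det_comp _ _
    have h6 : (ContinuousLinearMap.id ℝ (Eu n)).det = 1 := by
      simp [ContinuousLinearMap.det]
    rw [h5, h.det, h6, one_mul] at h4
    exact h4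
  · apply (h.bij e).1
    rw [Finv h, h.equi e g hg, Finv h]

theorem isFamComp {G : E → Eu n → Eu n} (hF : IsFam P F) (hG : IsFam P G) :
    IsFam P (fun e x => F e (G e x)) := by
  refine ⟨hF.smooth.comp (contDiff_fst.prodMk hG.smooth), fun e => (hF.bij e).comp (hG.bij e),
    fun e x => ?_, fun e g hg x => ?_⟩
  · have h1 : HasFDerivAt (fun x => F e (G e x))
        ((fderiv ℝ (F e) (G e x)).comp (fderiv ℝ (G e) x)) x :=
      (diffX hF.smooth e _).hasFDerivAt.comp x (diffX hG.smooth e x).hasFDerivAt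
    rw [h1.fderiv]
    have h5 : ((fderiv ℝ (F e) (G e x)).comp (fderiv ℝ (G e) x)).det =
        (fderiv ℝ (F e) (G e x)).det * (fderiv ℝ (G e) x).det := by
      simp only [ContinuousLinearMap.det, ContinuousLinearMap.toLinearMap_comp]
      exact LinearMap.det_comp _ _
    rw [h5, hF.det, hG.det, one_mul]
  · simp only [hG.equi e g hg, hF.equi e g hg]

theorem isFamRe {E' : Type} [NormedAddCommGroup E'] [NormedSpace ℝ E'] {h : E' → E}
    (hF : IsFam P F) (hh : ContDiff ℝ ∞ h) : IsFam P (fun e => F (h e)) :=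
  ⟨hF.smooth.comp ((hh.comp contDiff_fst).prodMk contDiff_snd), fun e => hF.bij (h e),
    fun e x => hF.det (h e) x, fun e g hg x => hF.equi (h e) g hg x⟩

theorem isFamId : IsFam P (fun (_ : E) (x : Eu n) => x) := by
  refine ⟨contDiff_snd, fun e => Function.bijective_id, fun e x => ?_, fun e g hg x => rfl⟩
  have h1 : fderiv ℝ (fun x : Eu n => x) x = ContinuousLinearMap.id ℝ (Eu n) := fderiv_fun_id
  rw [h1]
  simp [ContinuousLinearMap.det]

end inv

section vel

variable {P : Subgroup (Eu n ≃ᵃ[ℝ] Eu n)} {φ ψ : ℝ → Eu n → Eu n}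

theorem velEq (h : IsPath P φ) (t : ℝ) (x : Eu n) :
    HasDerivAt (fun τ => φ τ x) (vel φ t (φ t x)) t := by
  have h1 : DifferentiableAt ℝ (fun τ => φ τ x) t := by
    have h2 : ContDiff ℝ ∞ (fun τ => φ τ x) := h.smooth.comp (contDiff_id.prodMk contDiff_const)
    exact (h2.differentiable (by simp)) t
  have h3 : vel φ t (φ t x) = deriv (fun τ => φ τ x) t := by
    unfold vel
    rw [invF h]
  rw [h3]
  exact h1.hasDerivAt

theorem velF (h : IsPath P φ) (t : ℝ) (z : Eu n) :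
    vel φ t z = fderiv ℝ (fun q : ℝ × Eu n => φ q.1 q.2) (t, Function.invFun (φ t) z) (1, 0) := by
  have h1 : HasDerivAt (fun τ : ℝ => (τ, Function.invFun (φ t) z)) ((1 : ℝ), (0 : Eu n)) t :=
    (hasDerivAt_id t).prodMk (hasDerivAt_const t _)
  have h2 := (diffU h.smooth (t, Function.invFun (φ t) z)).hasFDerivAt.comp_hasDerivAt t h1
  exact h2.deriv

theorem velSmooth (h : IsPath P φ) : ContDiff ℝ ∞ (fun q : ℝ × Eu n => vel φ q.1 q.2) := by
  have h0 : (fun q : ℝ × Eu n => vel φ q.1 q.2) = fun q =>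
      fderiv ℝ (fun q : ℝ × Eu n => φ q.1 q.2) (q.1, Function.invFun (φ q.1) q.2) (1, 0) :=
    funext fun q => velF h q.1 q.2
  rw [h0]
  have h1 : ContDiff ℝ ∞ (fun q : ℝ × Eu n => fderiv ℝ (fun q : ℝ × Eu n => φ q.1 q.2) q) :=
    h.smooth.fderiv_right (by simp)
  have h2 : ContDiff ℝ ∞ (fun q : ℝ × Eu n => (q.1, Function.invFun (φ q.1) q.2)) :=
    contDiff_fst.prodMk (smoothInv h)
  exact (h1.comp h2).clm_apply contDiff_const

theorem velFam {H : ℝ × ℝ → Eu n → Eu n} (h : IsFam P H) :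
    Continuous (fun q : (ℝ × ℝ) × Eu n => vel (fun θ => H (q.1.1, θ)) q.1.2 q.2) := by
  have h0 : (fun q : (ℝ × ℝ) × Eu n => vel (fun θ => H (q.1.1, θ)) q.1.2 q.2) = fun q =>
      fderiv ℝ (fun q : (ℝ × ℝ) × Eu n => H q.1 q.2) (q.1, Function.invFun (H q.1) q.2)
        ((0, 1), 0) := by
    funext q
    have h1 : HasDerivAt (fun τ : ℝ => ((q.1.1, τ), Function.invFun (H q.1) q.2))
        (((0 : ℝ), (1 : ℝ)), (0 : Eu n)) q.1.2 :=
      ((hasDerivAt_const _ _).prodMk (hasDerivAt_id _)).prodMk (hasDerivAt_const _ _)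
    have h2 := (diffU h.smooth (q.1, Function.invFun (H q.1) q.2)).hasFDerivAt.comp_hasDerivAt
      q.1.2 h1
    exact h2.deriv
  rw [h0]
  have h1 : Continuous (fun q : (ℝ × ℝ) × Eu n =>
      fderiv ℝ (fun q : (ℝ × ℝ) × Eu n => H q.1 q.2) q) :=
    h.smooth.continuous_fderiv (by simp)
  have h2 : Continuous (fun q : (ℝ × ℝ) × Eu n => (q.1, Function.invFun (H q.1) q.2)) :=
    continuous_fst.prodMk (smoothInv h).continuous
  exact (h1.comp h2).clm_apply continuous_const

theorem affDeriv (g : Eu n ≃ᵃ[ℝ] Eu n) {c : ℝ → Eu n} {c' : Eu n} {t : ℝ}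
    (hc : HasDerivAt c c' t) : HasDerivAt (fun τ => g (c τ)) (g.linear c') t := by
  have h1 : ∀ y : Eu n, g y = (LinearMap.toContinuousLinearMap (g.linear : Eu n →ₗ[ℝ] Eu n)) y
      + g 0 := by
    intro y
    have := g.map_vadd 0 y
    simpa using this
  have h2 : (fun τ => g (c τ)) = fun τ =>
      (LinearMap.toContinuousLinearMap (g.linear : Eu n →ₗ[ℝ] Eu n)) (c τ) + g 0 :=
    funext fun τ => h1 (c τ)
  rw [h2]
  exact (((LinearMap.toContinuousLinearMap (g.linear : Eu n →ₗ[ℝ] Eu n)).hasFDerivAt).comp_hasDerivAt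
    t hc).add_const _

theorem velEqui (h : IsPath P φ) (g : Eu n ≃ᵃ[ℝ] Eu n) (hg : g ∈ P) (t : ℝ) (x : Eu n) :
    vel φ t (g x) = g.linear (vel φ t x) := by
  obtain ⟨y, rfl⟩ := (h.bij t).2 x
  have h1 := affDeriv g (velEq h t y)
  have h2 := velEq h t (g y)
  have h3 : (fun τ => φ τ (g y)) = fun τ => g (φ τ y) := funext fun τ => h.equi τ g hg y
  rw [h3, h.equi t g hg y] at h2
  exact h2.unique h1

theorem velComp (hφ : IsPath P φ) (hψ : IsPath P ψ) (t : ℝ) (x : Eu n) :
    vel (fun t x => φ t (ψ t x)) t (φ t x) =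
      vel φ t (φ t x) + fderiv ℝ (φ t) x (vel ψ t x) := by
  obtain ⟨y, rfl⟩ := (hψ.bij t).2 x
  have h1 : HasDerivAt (fun τ => φ τ (ψ τ y)) (vel (fun t x => φ t (ψ t x)) t (φ t (ψ t y))) t :=
    velEq (isFamComp hφ hψ) t y
  have h2 : HasDerivAt (fun τ : ℝ => (τ, ψ τ y)) ((1 : ℝ), vel ψ t (ψ t y)) t :=
    (hasDerivAt_id t).prodMk (velEq hψ t y)
  have h3 := (diffU hφ.smooth (t, ψ t y)).hasFDerivAt.comp_hasDerivAt t h2
  have h4 := h1.unique h3
  rw [h4, velF hφ, invF hφ, (fderivX hφ.smooth t (ψ t y)).fderiv]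
  have h5 : ((1 : ℝ), vel ψ t (ψ t y)) = ((1 : ℝ), (0 : Eu n)) + ((0 : ℝ), vel ψ t (ψ t y)) := by
    simp
  rw [h5, map_add]
  rfl

theorem velRe (h : IsPath P φ) (s : ℝ → ℝ) (t : ℝ) (hs : DifferentiableAt ℝ s t) (x : Eu n) :
    vel (fun t => φ (s t)) t x = deriv s t • vel φ (s t) x := by
  obtain ⟨y, rfl⟩ := (h.bij (s t)).2 x
  have h1 := velEq h (s t) y
  have h2 := h1.scomp t hs.hasDerivAt
  have h3 : vel (fun t => φ (s t)) t (φ (s t) y) = deriv (fun τ => φ (s τ) y) t := by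
    unfold vel
    rw [invF h]
  rw [h3]
  exact h2.deriv

theorem velConst (f : Eu n → Eu n) (hφ : ∀ t, Function.Bijective (φ t))
    (hf : Function.Bijective f) (t : ℝ) (x : Eu n) :
    vel (fun t x => φ t (f x)) t x = vel φ t x := by
  have h1 : f (Function.invFun (fun x => φ t (f x)) x) = Function.invFun (φ t) x := by
    apply (hφ t).1
    rw [Function.rightInverse_invFun (hφ t).2 x]
    exact Function.rightInverse_invFun ((hφ t).comp hf).2 x
  unfold vel
  simp only [h1]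

end vel

end FamA

theorem famKit : FamKit where
  inv _ _ _ _ _ _ _ h := FamA.isFamInv h
  comp _ _ _ _ _ _ _ hF hG := FamA.isFamComp hF hG
  re _ _ _ _ _ _ _ _ _ _ hF hh := FamA.isFamRe hF hh
  id _ _ _ _ _ := FamA.isFamId
  velEq _ _ _ h t x := FamA.velEq h t x
  velSmooth _ _ _ h := FamA.velSmooth h
  velFam _ _ _ h := FamA.velFam h
  velEqui _ _ _ h g hg t x := FamA.velEqui h g hg t x
  velComp _ _ _ _ hφ hψ t x := FamA.velComp hφ hψ t x
  velRe _ _ _ s h t hs x := FamA.velRe h s t hs x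
  velConst _ _ f hφ hf t x := FamA.velConst f hφ hf t x

end Pool.Agent.H68.VD
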