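import Pool.Agent.H68.VD.St2
import Pool.Agent.H68.VD.SwirlC
import Pool.Agent.H68.VD.InfD
import Pool.Agent.H68.VD.RotK

/-! # A diffeomorphism with flux zero that shifts a small ball by an integer vector -/

set_option autoImplicit false

namespace Pool.Agent.H68.VD

open MeasureTheory Set Filter Topology
open scoped ENNReal ContDiff

noncomputable section

namespace ShiftA

variable {n : ℕ}

/-- The maps in the identity component with flux zero. -/
def Good (P : Subgroup (Eu n ≃ᵃ[ℝ] Eu n)) (f : Eu n → Eu n) : Prop :=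
  InG P f ∧ ∫ x in cube n, (f x - x) = 0

theorem good_id (F : FamKit) (P : Subgroup (Eu n ≃ᵃ[ℝ] Eu n)) : Good P (fun x => x) := by
  refine ⟨⟨fun _ x => x, F.id n P ℝ, rfl, rfl⟩, ?_⟩
  simp

theorem good_comp (F : FamKit) (K : FluxKit) (P : Subgroup (Eu n ≃ᵃ[ℝ] Eu n)) (hP : Deck P)
    {f g : Eu n → Eu n} (hf : Good P f) (hg : Good P g) : Good P (fun x => f (g x)) := by
  have hfp := InfDA.inG_props hf.1
  have hgp := InfDA.inG_props hg.1
  obtain ⟨⟨φ, hφ, hφ0, hφ1⟩, hf0⟩ := hf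
  obtain ⟨⟨ψ, hψ, hψ0, hψ1⟩, hg0⟩ := hg
  refine ⟨⟨fun t x => φ t (ψ t x), F.comp n P ℝ φ ψ hφ hψ, ?_, ?_⟩, ?_⟩
  · funext x
    simp only [hφ0, hψ0, id]
  · funext x
    simp only [hφ1, hψ1]
  · obtain ⟨hs', -, -, he'⟩ := hfp
    obtain ⟨hs, hb, hd, he⟩ := hgp
    have e1 : ∀ x, f (g x) - x = (f (g x) - g x) + (g x - x) := fun x => by abel
    have c1 : Continuous fun x => f (g x) - g x :=
      (hs'.continuous.comp hs.continuous).sub hs.continuous
    have c2 : Continuous fun x => g x - x := hs.continuous.sub continuous_id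
    have e2 := K.cov n g hs hb hd (InfDA.equi_iv hP he) (fun y => f y - y)
      (hs'.continuous.sub continuous_id) (fun x k => by
        change f (x + iv k) - (x + iv k) = f x - x
        rw [InfDA.equi_iv hP he']; abel)
    simp only [e1]
    rw [integral_add (InfDA.intOn c1) (InfDA.intOn c2), hg0, add_zero, e2, hf0]

/-- A primitive. -/
theorem prim (β : ℝ → ℝ) (hβ : ContDiff ℝ ∞ β) (R : ℝ) (h0 : ∀ ρ, R ≤ ρ → β ρ = 0) :
    ∃ Ψ : ℝ → ℝ, ContDiff ℝ ∞ Ψ ∧ (∀ ρ, 2 * deriv Ψ ρ = β ρ) ∧ (∀ ρ, R ≤ ρ → Ψ ρ = 0) ∧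
      ∃ B : ℝ, ∀ ρ, 0 ≤ ρ → |Ψ ρ| ≤ B := by
  set Ψ : ℝ → ℝ := fun ρ => (1 / 2) * ∫ u in R..ρ, β u with hΨ
  have hder : ∀ ρ, HasDerivAt Ψ ((1 / 2) * β ρ) ρ := by
    intro ρ
    exact (intervalIntegral.integral_hasDerivAt_right (hβ.continuous.intervalIntegrable _ _)
      (hβ.continuous.stronglyMeasurableAtFilter _ _) hβ.continuous.continuousAt).const_mul (1 / 2)
  have hd : deriv Ψ = fun ρ => (1 / 2) * β ρ := funext fun ρ => (hder ρ).deriv
  have hsm : ContDiff ℝ ∞ Ψ := by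
    rw [contDiff_infty_iff_deriv]
    refine ⟨fun ρ => (hder ρ).differentiableAt, ?_⟩
    rw [hd]
    exact contDiff_const.mul hβ
  have hz : ∀ ρ, R ≤ ρ → Ψ ρ = 0 := by
    intro ρ hρ
    have h1 : ∫ u in R..ρ, β u = ∫ u in R..ρ, (0 : ℝ) := by
      apply intervalIntegral.integral_congr
      intro u hu
      rw [Set.uIcc_of_le hρ] at hu
      exact h0 u hu.1
    rw [hΨ]
    simp only [h1, intervalIntegral.integral_zero, mul_zero]
  refine ⟨Ψ, hsm, ?_, hz, ?_⟩
  · intro ρ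
    rw [hd]
    ring
  · obtain ⟨B, hB⟩ := (isCompact_Icc (a := (0 : ℝ)) (b := R)).exists_bound_of_continuousOn
      hsm.continuous.continuousOn
    refine ⟨max B 0, ?_⟩
    intro ρ hρ
    rcases le_total ρ R with h | h
    · exact le_trans (hB ρ ⟨hρ, h⟩) (le_max_left _ _)
    · rw [hz ρ h, abs_zero]
      exact le_max_right _ _

/-- Twists have flux zero. -/
theorem good_twist (K : FluxKit) (PD : PerDiv) (TF : TwistFam) (TV : TwistVel) (R : RotKit)
    (X : ExtKit) (XN : ExtNorm) (P : Subgroup (Eu n ≃ᵃ[ℝ] Eu n)) (hP : Deck P)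
    (c : Eu n) (r r' : ℝ) (hS : Sep P c r)
    (hr' : 0 < r') (hrr : r' < r) (i j : Fin n) (hij : i ≠ j) (a : ℝ → ℝ) (ha : ContDiff ℝ ∞ a)
    (ha0 : ∀ ρ, r' ^ 2 ≤ ρ → a ρ = 0) :
    Good P (extMap P (twist c (fun ρ => rotR i j (a ρ)))) := by
  have hrot0 := SwirlCA.rotR_zero R i j
  have hA1 : ContDiff ℝ ∞ (fun q : ℝ × ℝ => rotR i j (q.1 * a q.2)) :=
    (R.smooth n i j).comp (contDiff_fst.mul (ha.comp contDiff_snd))
  have hA2 : ∀ (e ρ : ℝ) (x : Eu n), ‖rotR i j (e * a ρ) x‖ = ‖x‖ := fun e ρ x =>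
    R.iso n i j hij _ x
  have hA3 : ∀ (e ρ : ℝ), (rotR i j (e * a ρ)).det = 1 := fun e ρ => R.det n i j hij _
  have hA4 : ∀ (e ρ : ℝ), r' ^ 2 ≤ ρ →
      rotR i j (e * a ρ) = ContinuousLinearMap.id ℝ (Eu n) := by
    intro e ρ hρ
    rw [ha0 ρ hρ, mul_zero, hrot0]
  have hB : BallFam c r' (fun e : ℝ => twist c (fun ρ => rotR i j (e * a ρ))) :=
    TF n ℝ c r' (fun e ρ => rotR i j (e * a ρ)) hr' hA1 hA2 hA3 hA4
  have hT : IsPath P (fun e : ℝ => extMap P (twist c (fun ρ => rotR i j (e * a ρ)))) :=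
    X.fam n P hP c r r' hS hr' hrr ℝ _ hB
  have hT0 : extMap P (twist c (fun ρ => rotR i j ((0 : ℝ) * a ρ))) = id :=
    SwirlCA.extMap_twist_id X P c _ (fun ρ => by rw [zero_mul, hrot0])
  have hvT : ∀ t z, vel (fun e : ℝ => extMap P (twist c (fun ρ => rotR i j (e * a ρ)))) t z =
      ext P (swirl c i j a) z := by
    intro t z
    rw [X.velExt n P hP c r r' hS hr' hrr _ hB]
    congr 1
    funext y
    obtain ⟨x, rfl⟩ := (hB.bij t).2 y
    have h1 := TV n c r' (fun e ρ => rotR i j (e * a ρ)) hr' hA1 hA2 hA3 hA4 t x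
    rw [h1]
    have h3 : HasDerivAt (fun τ : ℝ => rotR i j (τ * a (‖x - c‖ ^ 2)))
        (a (‖x - c‖ ^ 2) • (rotJ i j ∘L rotR i j (t * a (‖x - c‖ ^ 2)))) t := by
      have h4 : HasDerivAt (fun τ : ℝ => τ * a (‖x - c‖ ^ 2)) (a (‖x - c‖ ^ 2)) t := by
        simpa using (hasDerivAt_id t).mul_const (a (‖x - c‖ ^ 2))
      exact (R.deriv n i j hij (t * a (‖x - c‖ ^ 2))).scomp t h4
    rw [h3.deriv]
    have h5 : twist c (fun ρ => rotR i j (t * a ρ)) x - c =
        rotR i j (t * a (‖x - c‖ ^ 2)) (x - c) := by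
      simp [twist]
    simp only [swirl]
    rw [h5, hA2]
    simp
  -- the velocity has mean zero
  have hmean : ∫ x in cube n, ext P (swirl c i j a) x = 0 := by
    obtain ⟨Ψ, hΨ, hΨd, hΨ0, B, hΨB⟩ := prim a ha (r' ^ 2) ha0
    obtain ⟨C, hC, hdv⟩ := XN.dvExt n P hP
    have hn2 : ContDiff ℝ ∞ (fun x : Eu n => ‖x - c‖ ^ 2) :=
      (contDiff_id.sub contDiff_const).norm_sq ℝ
    have hTsm : ContDiff ℝ ∞ (fun x : Eu n => Ψ (‖x - c‖ ^ 2) • (rotJ i j : Eu n →L[ℝ] Eu n)) :=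
      (hΨ.comp hn2).smul contDiff_const
    obtain ⟨S, hSs, hSp, -, hSd⟩ := hdv c r r' hS hrr
      (fun x => Ψ (‖x - c‖ ^ 2) • (rotJ i j : Eu n →L[ℝ] Eu n)) hTsm
      (by
        intro x hx
        have h1 : r' ^ 2 ≤ ‖x - c‖ ^ 2 := by
          rw [dist_eq_norm] at hx
          exact pow_le_pow_left₀ hr'.le hx 2
        simp only [hΨ0 _ h1]
        exact zero_smul ℝ (rotJ i j : Eu n →L[ℝ] Eu n))
      B
      (by
        intro x
        rw [norm_smul, Real.norm_eq_abs]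
        have h1 := hΨB (‖x - c‖ ^ 2) (by positivity)
        have h2 := SwirlCA.norm_rotJ R i j
        have h3 : 0 ≤ ‖(rotJ i j : Eu n →L[ℝ] Eu n)‖ := norm_nonneg _
        have h4 := abs_nonneg (Ψ (‖x - c‖ ^ 2))
        nlinarith)
    have h5 : ∀ x, ext P (swirl c i j a) x = dv S x := by
      intro x
      rw [hSd x]
      congr 1
      funext y
      rw [SwirlCA.dv_swirl c i j Ψ hΨ y, hΨd]
      rfl
    simp only [h5]
    exact PD n S hSs hSp
  refine ⟨⟨fun e : ℝ => extMap P (twist c (fun ρ => rotR i j (e * a ρ))), hT, hT0, ?_⟩, ?_⟩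
  · simp only [one_mul]
  · have hm : ∀ t, HasDerivAt (fun τ => ∫ x in cube n,
        ((fun e : ℝ => extMap P (twist c (fun ρ => rotR i j (e * a ρ)))) τ x - x)) 0 t := by
      intro t
      have h1 := K.mean n P hP _ hT t
      have h2 : ∫ x in cube n,
          vel (fun e : ℝ => extMap P (twist c (fun ρ => rotR i j (e * a ρ)))) t x = 0 := by
        simp only [hvT]
        exact hmean
      rwa [h2] at h1
    have h3 := is_const_of_deriv_eq_zero (fun t => (hm t).differentiableAt)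
      (fun t => (hm t).deriv) 1 0
    simp only [hT0, one_mul, id, sub_self, integral_zero] at h3
    exact h3

/-- The angle. -/
def ang (a b ρ : ℝ) : ℝ := Real.pi * Real.smoothTransition ((b - ρ) / (b - a))

theorem ang_smooth (a b : ℝ) : ContDiff ℝ ∞ (ang a b) := by
  unfold ang
  exact contDiff_const.mul (Real.smoothTransition.contDiff.comp
    ((contDiff_const.sub contDiff_id).div_const _))

theorem ang_pi {a b ρ : ℝ} (hab : a < b) (h : ρ ≤ a) : ang a b ρ = Real.pi := by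
  unfold ang
  rw [Real.smoothTransition.one_of_one_le, mul_one]
  rw [le_div_iff₀ (by linarith)]
  linarith

theorem ang_zero {a b ρ : ℝ} (hab : a < b) (h : b ≤ ρ) : ang a b ρ = 0 := by
  unfold ang
  rw [Real.smoothTransition.zero_of_nonpos, mul_zero]
  exact div_nonpos_of_nonpos_of_nonneg (by linarith) (by linarith)

theorem rot_pi_ev {i j : Fin n} (hij : i ≠ j) : rotR i j Real.pi (ev i) = -ev i := by
  rw [RotKA.rotR_apply hij, RotKA.ev_self, RotKA.ev_ne hij.symm, Real.sin_pi, Real.cos_pi]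
  module

theorem rot_pi_pi (R : RotKit) {i j : Fin n} (hij : i ≠ j) (y : Eu n) :
    rotR i j Real.pi (rotR i j Real.pi y) = y := by
  have h1 := R.add n i j hij Real.pi Real.pi
  have h2 := R.per n i j 1
  have h3 : Real.pi + Real.pi = 2 * Real.pi * ((1 : ℤ) : ℝ) := by push_cast; ring
  rw [h3, h2] at h1
  have h4 := congrArg (fun A : Eu n →L[ℝ] Eu n => A y) h1
  exact h4.symm

/-- One step. -/
theorem step_eq (X : ExtKit) (R : RotKit) (P : Subgroup (Eu n ≃ᵃ[ℝ] Eu n)) {i j : Fin n}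
    (hij : i ≠ j) (r0 s : ℝ) (hs : 0 < s) (hsr : s < r0 / 2) (x : Eu n)
    (hS : Sep P (x + (s / 2) • ev i) r0) (z : Eu n) (hz : ‖z‖ < s / 2) :
    extMap P (twist (x + (s / 2) • ev i) (fun ρ => rotR i j (ang (s ^ 2) ((r0 / 2) ^ 2) ρ)))
      (x + z) = x + s • ev i + rotR i j Real.pi z := by
  have hr0 : 0 < r0 := by linarith
  have hab : s ^ 2 < (r0 / 2) ^ 2 := by nlinarith
  have hev : ‖(ev i : Eu n)‖ = 1 := RotKA.norm_ev i
  set c : Eu n := x + (s / 2) • ev i with hc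
  have hd : x + z - c = z - (s / 2) • ev i := by rw [hc]; abel
  have hn1 : ‖x + z - c‖ < s := by
    rw [hd]
    calc ‖z - (s / 2) • ev i‖ ≤ ‖z‖ + ‖(s / 2) • (ev i : Eu n)‖ := norm_sub_le _ _
      _ = ‖z‖ + s / 2 := by
        rw [norm_smul, hev, mul_one, Real.norm_eq_abs, abs_of_pos (by linarith)]
      _ < s := by linarith
  have hang : ang (s ^ 2) ((r0 / 2) ^ 2) (‖x + z - c‖ ^ 2) = Real.pi := by
    apply ang_pi hab
    exact pow_le_pow_left₀ (norm_nonneg _) hn1.le 2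
  have htw : twist c (fun ρ => rotR i j (ang (s ^ 2) ((r0 / 2) ^ 2) ρ)) (x + z) =
      x + s • ev i + rotR i j Real.pi z := by
    have h0 : twist c (fun ρ => rotR i j (ang (s ^ 2) ((r0 / 2) ^ 2) ρ)) (x + z) =
        c + rotR i j (ang (s ^ 2) ((r0 / 2) ^ 2) (‖x + z - c‖ ^ 2)) (x + z - c) := rfl
    rw [h0, hang, hd, map_sub, map_smul, rot_pi_ev hij, hc]
    have : s • (ev i : Eu n) = (s / 2) • ev i + (s / 2) • ev i := by
      rw [← add_smul]; congr 1; ring
    rw [this, smul_neg]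
    abel
  unfold extMap
  have hin := X.inside n P c r0 hS
    (fun y => twist c (fun ρ => rotR i j (ang (s ^ 2) ((r0 / 2) ^ 2) ρ)) y - y)
    (by
      intro y hy
      have h1 : (r0 / 2) ^ 2 ≤ ‖y - c‖ ^ 2 := by
        rw [dist_eq_norm] at hy
        exact pow_le_pow_left₀ (by linarith) (by linarith) 2
      have h2 : twist c (fun ρ => rotR i j (ang (s ^ 2) ((r0 / 2) ^ 2) ρ)) y =
          c + rotR i j (ang (s ^ 2) ((r0 / 2) ^ 2) (‖y - c‖ ^ 2)) (y - c) := rfl
      rw [h2, ang_zero hab h1, SwirlCA.rotR_zero R]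
      simp)
    (x + z) (by rw [dist_eq_norm]; linarith)
  rw [hin, htw]
  abel

/-- The composition of the steps. -/
def hk (P : Subgroup (Eu n ≃ᵃ[ℝ] Eu n)) (i j : Fin n) (r0 s : ℝ) : ℕ → Eu n → Eu n
  | 0 => fun x => x
  | (k + 1) => fun x => extMap P (twist ((k * s) • ev i + (s / 2) • ev i)
      (fun ρ => rotR i j (ang (s ^ 2) ((r0 / 2) ^ 2) ρ))) (hk P i j r0 s k x)

theorem hk_good (F : FamKit) (K : FluxKit) (PD : PerDiv) (TF : TwistFam) (TV : TwistVel)
    (R : RotKit) (X : ExtKit) (XN : ExtNorm) (P : Subgroup (Eu n ≃ᵃ[ℝ] Eu n)) (hP : Deck P)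
    {i j : Fin n} (hij : i ≠ j) (r0 s : ℝ) (hs : 0 < s) (hsr : s < r0 / 2)
    (hS : ∀ c : Eu n, Sep P c r0) (k : ℕ) : Good P (hk P i j r0 s k) := by
  induction k with
  | zero => exact good_id F P
  | succ k ih =>
    have hab : s ^ 2 < (r0 / 2) ^ 2 := by nlinarith
    have h1 := good_twist K PD TF TV R X XN P hP ((k * s) • ev i + (s / 2) • ev i) r0 (r0 / 2)
      (hS _) (by linarith) (by linarith) i j hij (ang (s ^ 2) ((r0 / 2) ^ 2)) (ang_smooth _ _)
      (fun ρ hρ => ang_zero hab hρ)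
    have h2 := good_comp F K P hP h1 ih
    exact h2

theorem hk_eq (X : ExtKit) (R : RotKit) (P : Subgroup (Eu n ≃ᵃ[ℝ] Eu n)) {i j : Fin n}
    (hij : i ≠ j) (r0 s : ℝ) (hs : 0 < s) (hsr : s < r0 / 2) (hS : ∀ c : Eu n, Sep P c r0)
    (y : Eu n) (hy : ‖y‖ < s / 2) (m : ℕ) :
    hk P i j r0 s (2 * m) y = (((2 * m : ℕ) : ℝ) * s) • ev i + y := by
  induction m with
  | zero => simp [hk]
  | succ m ih =>
    have e1 : hk P i j r0 s (2 * (m + 1)) y =
        extMap P (twist ((((2 * m + 1 : ℕ) : ℝ) * s) • ev i + (s / 2) • ev i)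
          (fun ρ => rotR i j (ang (s ^ 2) ((r0 / 2) ^ 2) ρ)))
          (extMap P (twist ((((2 * m : ℕ) : ℝ) * s) • ev i + (s / 2) • ev i)
            (fun ρ => rotR i j (ang (s ^ 2) ((r0 / 2) ^ 2) ρ))) (hk P i j r0 s (2 * m) y)) := rfl
    rw [e1, ih, step_eq X R P hij r0 s hs hsr _ (hS _) y hy]
    have e2 : (((2 * m : ℕ) : ℝ) * s) • (ev i : Eu n) + s • ev i =
        (((2 * m + 1 : ℕ) : ℝ) * s) • ev i := by
      rw [← add_smul]
      congr 1
      push_cast
      ring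
    rw [e2, step_eq X R P hij r0 s hs hsr _ (hS _) _ (by rw [R.iso n i j hij]; exact hy),
      rot_pi_pi R hij]
    have e3 : (((2 * m + 1 : ℕ) : ℝ) * s) • (ev i : Eu n) + s • ev i =
        (((2 * (m + 1) : ℕ) : ℝ) * s) • ev i := by
      rw [← add_smul]
      congr 1
      push_cast
      ring
    rw [e3]

end ShiftA

open ShiftA in
/-- A volume preserving diffeomorphism with flux zero that shifts a small ball by an integer vector. -/
theorem shift (F : FamKit) (K : FluxKit) (PD : PerDiv) (TF : TwistFam) (TV : TwistVel)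
    (R : RotKit) (X : ExtKit) (XN : ExtNorm) (SU : SepU) : Shift := by
  intro n hn P hP
  obtain ⟨r0, hr0, hS⟩ := SU n P hP
  obtain ⟨m, hm⟩ := exists_nat_gt (1 / r0)
  have hm0 : (0 : ℝ) < m := lt_trans (by positivity) hm
  set s : ℝ := 1 / (2 * m) with hs
  have hs0 : 0 < s := by positivity
  have hsr : s < r0 / 2 := by
    rw [hs, div_lt_div_iff₀ (by positivity) (by positivity)]
    rw [div_lt_iff₀ hr0] at hm
    linarith
  set i : Fin n := ⟨0, by omega⟩
  set j : Fin n := ⟨1, by omega⟩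
  have hij : i ≠ j := by
    intro h
    have := congrArg Fin.val h
    simp [i, j] at this
  have hG := hk_good F K PD TF TV R X XN P hP hij r0 s hs0 hsr hS (2 * m)
  have hiv : (iv (Pi.single i 1 : Fin n → ℤ) : Eu n) = ev i := by
    ext l
    by_cases h : l = i
    · subst h
      simp [iv, ev]
    · simp [iv, ev, h]
  refine ⟨hk P i j r0 s (2 * m), hG.1, hG.2, 0, Pi.single i 1, s / 2, ?_, by positivity, ?_⟩
  · rw [hiv]
    intro h
    have h1 : ‖(ev i : Eu n)‖ = 1 := RotKA.norm_ev i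
    rw [h, norm_zero] at h1
    exact zero_ne_one h1
  · intro y hy
    rw [zero_add, hk_eq X R P hij r0 s hs0 hsr hS y hy m, hiv]
    have : (((2 * m : ℕ) : ℝ) * s) = 1 := by
      rw [hs]
      push_cast
      field_simp
    rw [this, one_smul, add_comm]

end

end Pool.Agent.H68.VD
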