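import Pool.Agent.H68.VD.S
import Pool.Agent.H68.VD.All
import Pool.Agent.H68.VD.Fam
import Pool.Agent.H68.VD.Shift

/-! # From the definitions of `S.lean` to the working definitions -/

namespace Pool.Agent.H68.VD

open MeasureTheory Set
open scoped ENNReal ContDiff

noncomputable section

namespace TrA

variable {n : ℕ} {P : Set (Eu n → Eu n)}

theorem add_map (a : Eu n ≃ᵃ[ℝ] Eu n) (x v : Eu n) : a (x + v) = a x + a.linear v := by
  have := a.map_vadd x v
  simpa [add_comm] using this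

/-- every element of `P` is an affine equivalence -/
theorem exists_aff (hP : FlatDeck P) {g : Eu n → Eu n} (hg : g ∈ P) :
    ∃ a : Eu n ≃ᵃ[ℝ] Eu n, (a : Eu n → Eu n) = g := by
  obtain ⟨L, h1, h2, -⟩ := hP.aff g hg
  have hadd : ∀ x y, L (x + y) = L x + L y := by
    intro x y
    have h3 := h1 0 (x + y)
    have h4 := h1 (0 + x) y
    rw [h1 0 x] at h4
    rw [zero_add] at h3 h4
    rw [h3, add_assoc] at h4
    exact add_left_cancel h4
  let Lm : Eu n →ₗ[ℝ] Eu n := { toFun := L, map_add' := hadd, map_smul' := h2 }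
  let φ : Eu n →ᵃ[ℝ] Eu n := ⟨g, Lm, fun p v => by
    show g (v + p) = L v + g p
    rw [add_comm v p, h1, add_comm]⟩
  obtain ⟨h, -, h5, h6⟩ := hP.inv g hg
  have hbij : Function.Bijective φ :=
    ⟨fun x y hxy => by
      have h7 : h (g x) = h (g y) := congrArg h hxy
      have h8 := congrFun h6 x
      have h9 := congrFun h6 y
      simp only [Function.comp, id] at h8 h9
      rw [← h8, ← h9, h7], fun y => ⟨h y, congrFun h5 y⟩⟩
  exact ⟨AffineEquiv.ofBijective hbij, rfl⟩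

/-- the subgroup of affine equivalences -/
def sub (hP : FlatDeck P) : Subgroup (Eu n ≃ᵃ[ℝ] Eu n) where
  carrier := {a | (a : Eu n → Eu n) ∈ P}
  mul_mem' := by
    intro a b ha hb
    exact hP.mul _ ha _ hb
  one_mem' := hP.one
  inv_mem' := by
    intro a ha
    obtain ⟨h, h1, h2, h3⟩ := hP.inv _ ha
    have : ((a⁻¹ : Eu n ≃ᵃ[ℝ] Eu n) : Eu n → Eu n) = h := by
      funext x
      have h4 := congrFun h2 x
      simp only [Function.comp, id] at h4
      have h5 : a⁻¹ (a (h x)) = h x := a.symm_apply_apply _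
      rw [h4] at h5
      exact h5
    show ((a⁻¹ : Eu n ≃ᵃ[ℝ] Eu n) : Eu n → Eu n) ∈ P
    rw [this]
    exact h1

theorem mem_sub (hP : FlatDeck P) (a : Eu n ≃ᵃ[ℝ] Eu n) : a ∈ sub hP ↔ (a : Eu n → Eu n) ∈ P :=
  Iff.rfl

theorem forall_sub (hP : FlatDeck P) (Q : (Eu n → Eu n) → Prop) :
    (∀ g ∈ P, Q g) ↔ ∀ a ∈ sub hP, Q a := by
  refine ⟨fun h a ha => h _ ha, fun h g hg => ?_⟩
  obtain ⟨a, rfl⟩ := exists_aff hP hg
  exact h a hg

theorem constVAdd_coe (w : Eu n) :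
    ((AffineEquiv.constVAdd ℝ (Eu n) w : Eu n ≃ᵃ[ℝ] Eu n) : Eu n → Eu n) = fun x => x + w := by
  funext x
  simp [AffineEquiv.constVAdd_apply, add_comm]

theorem iv_neg (k : Fin n → ℤ) : (iv (-k) : Eu n) = - iv k := by
  ext i
  simp [iv]

theorem deck (hP : FlatDeck P) : Deck (sub hP) := by
  refine ⟨?_, ?_, ?_, ?_⟩
  · intro k
    rw [mem_sub, constVAdd_coe]
    exact hP.trans k
  · obtain ⟨R, hR, h⟩ := hP.fin
    have hinj : Set.InjOn (fun a : Eu n ≃ᵃ[ℝ] Eu n => (a : Eu n → Eu n))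
        ((fun a : Eu n ≃ᵃ[ℝ] Eu n => (a : Eu n → Eu n)) ⁻¹' R) :=
      fun a _ b _ hab => DFunLike.coe_injective hab
    have hfin := hR.preimage hinj
    refine ⟨hfin.toFinset, ?_⟩
    intro g hg
    obtain ⟨r, hr, k, hk⟩ := h g hg
    have hrP : r ∈ P := by
      have h1 : r = (fun x => x + iv (-k)) ∘ g := by
        funext x
        simp only [Function.comp, hk x, iv_neg]
        abel
      rw [h1]
      exact hP.mul _ (hP.trans (-k)) _ hg
    obtain ⟨a, rfl⟩ := exists_aff hP hrP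
    exact ⟨a, by simpa using hr, k, hk⟩
  · intro a ha k
    obtain ⟨L, h1, -, h3⟩ := hP.aff _ ((mem_sub hP a).mp ha)
    obtain ⟨l, hl⟩ := h3 k
    refine ⟨l, ?_⟩
    have h4 := h1 0 (iv k)
    rw [add_map] at h4
    rw [← hl]
    exact add_left_cancel h4
  · intro a ha hne x
    refine hP.free _ ((mem_sub hP a).mp ha) ?_ x
    intro h
    apply hne
    apply DFunLike.coe_injective
    rw [h]
    rfl

theorem path_iff (hP : FlatDeck P) (φ : ℝ → Eu n → Eu n) : FPath P φ ↔ IsPath (sub hP) φ := by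
  constructor
  · rintro ⟨h1, h2, h3, h4⟩
    exact ⟨h1, h2, h3, fun t a ha x => h4 t _ ha x⟩
  · rintro ⟨h1, h2, h3, h4⟩
    refine ⟨h1, h2, h3, fun t g hg x => ?_⟩
    obtain ⟨a, rfl⟩ := exists_aff hP hg
    exact h4 t a hg x

theorem fg_iff (hP : FlatDeck P) (f : Eu n → Eu n) : FG P f ↔ InG (sub hP) f := by
  simp only [FG, InG, path_iff hP]

theorem fdist_eq (hP : FlatDeck P) (N : (Eu n → Eu n) → ℝ≥0∞) (f g : Eu n → Eu n) :
    fdist N P f g = gdist N (sub hP) f g := by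
  unfold fdist gdist
  congr 1
  funext φ
  have h : (FPath P φ ∧ φ 0 = f ∧ ∃ γ ∈ P, φ 1 = γ ∘ g) ↔
      (IsPath (sub hP) φ ∧ φ 0 = f ∧ ∃ γ ∈ sub hP, ∀ x, φ 1 x = γ (g x)) := by
    rw [path_iff hP]
    refine and_congr_right fun _ => and_congr_right fun _ => ⟨?_, ?_⟩
    · rintro ⟨γ, hγ, h⟩
      obtain ⟨a, rfl⟩ := exists_aff hP hγ
      exact ⟨a, hγ, fun x => congrFun h x⟩
    · rintro ⟨γ, hγ, h⟩
      exact ⟨γ, hγ, funext h⟩
  exact iInf_congr_Prop h fun _ => rfl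

theorem fdiam_eq (hP : FlatDeck P) (N : (Eu n → Eu n) → ℝ≥0∞) :
    fdiam N P = diam N (sub hP) := by
  unfold fdiam diam
  congr 1
  funext f
  refine iSup_congr_Prop (fg_iff hP f) fun _ => ?_
  congr 1
  funext g
  exact iSup_congr_Prop (fg_iff hP g) fun _ => fdist_eq hP N f g

theorem finv_iff (hP : FlatDeck P) (m : Eu n) :
    FInv P m ↔ ∀ a ∈ sub hP, a.linear m = m := by
  unfold FInv
  constructor
  · intro h a ha
    have h1 := h _ ((mem_sub hP a).mp ha) 0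
    rw [add_map] at h1
    exact add_left_cancel h1
  · intro h g hg x
    obtain ⟨a, rfl⟩ := exists_aff hP hg
    rw [add_map, h a hg]

theorem fctr_iff (hP : FlatDeck P) (w : Eu n) : FCtr P w ↔ Ctr (sub hP) w := by
  unfold FCtr Ctr
  rw [finv_iff hP, mem_sub, constVAdd_coe]

/-! ### the norms -/

theorem dnorm_eq (k : ℕ) (v : Eu n → Eu n) (x : Eu n) :
    dnorm k v x = ‖iteratedFDeriv ℝ k v x‖ₑ := by
  rw [dnorm, ofReal_norm]

theorem slobP_eq (r q : ℝ) {v : Eu n → Eu n} (hv : ContDiff ℝ ∞ v) : slobP r q v = slob r q v := by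
  unfold slobP slob gag
  have hvk : ∀ k : ℕ, ContDiff ℝ k v := fun k => hv.of_le (by exact_mod_cast le_top)
  have h1 : ∀ (x h : Eu n), dnorm ⌊r⌋₊ (fun y => v (y + h) - v y) x =
      ‖iteratedFDeriv ℝ ⌊r⌋₊ v (x + h) - iteratedFDeriv ℝ ⌊r⌋₊ v x‖ₑ := by
    intro x h
    rw [dnorm_eq]
    have h2 : ContDiff ℝ ⌊r⌋₊ (fun y => v (y + h)) :=
      (hvk _).comp (contDiff_id.add contDiff_const)
    have h3 : iteratedFDeriv ℝ ⌊r⌋₊ (fun y => v (y + h) - v y) x =
        iteratedFDeriv ℝ ⌊r⌋₊ (fun y => v (y + h)) x - iteratedFDeriv ℝ ⌊r⌋₊ v x :=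
      congrFun (iteratedFDeriv_sub h2 (hvk _)) x
    rw [h3, iteratedFDeriv_comp_add_right]
  simp only [h1]
  simp only [dnorm_eq]

theorem wspP_neg (s p : ℝ) (hs : s < 0) : (wspP s p : (Eu n → Eu n) → ℝ≥0∞) = wsp s p := by
  funext u
  unfold wspP wsp
  rw [if_neg (not_le.mpr hs), if_neg (not_le.mpr hs)]
  congr 1
  funext v
  refine iSup_congr_Prop ?_ fun _ => rfl
  refine and_congr_right fun hv => and_congr_right fun _ => ?_
  rw [slobP_eq _ _ hv]

theorem wspP_pos (n : ℕ) (s p : ℝ) (hs : 0 ≤ s) (hp : 1 < p) : Dominates (wspP (n := n) s p) := by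
  refine ⟨1, one_pos, fun u hu _ => ?_⟩
  rw [ENNReal.ofReal_one, one_mul, wspP, if_pos hs]
  have hp0 : 0 < p := by linarith
  have h1 : ∫⁻ x in cube n, ‖u x‖ₑ ^ p ≤ slobP s p u := by
    unfold slobP
    refine le_trans ?_ le_self_add
    refine le_trans ?_ (Finset.single_le_sum
      (f := fun k => ∫⁻ x in cube n, dnorm k u x ^ p) (fun _ _ => zero_le)
      (Finset.mem_range.mpr (Nat.succ_pos _) : 0 ∈ Finset.range (⌊s⌋₊ + 1)))
    apply le_of_eq
    apply lintegral_congr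
    intro x
    congr 1
    rw [dnorm_eq, ← ofReal_norm, ← ofReal_norm, norm_iteratedFDeriv_zero]
  refine le_trans ?_ (ENNReal.rpow_le_rpow h1 (by positivity : 0 ≤ 1 / p))
  have hq : p.HolderConjugate (p / (p - 1)) := Real.HolderConjugate.conjExponent hp
  have h2 := ENNReal.lintegral_mul_le_Lp_mul_Lq (volume.restrict (cube n)) hq
    (f := fun x => ‖u x‖ₑ) (g := fun _ => 1) hu.enorm.aemeasurable aemeasurable_const
  simpa [WPosA.cube_vol] using h2

theorem scale_neg' (hn : 1 ≤ n) {N : ℝ → (Eu n → Eu n) → ℝ≥0∞} (hN : Scale N) (s : ℝ)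
    (hs : s < 0) : ∃ p : ℝ, WeakNorm (N s) p ∧
      (∀ u : Eu n → Eu n, Continuous u → Per u → ENNReal.ofReal ‖∫ x in cube n, u x‖ ≤ N s u) ∧
      ∀ m : Eu n, N s (fun _ => m) ≤ ENNReal.ofReal ‖m‖ := by
  rcases hN with rfl | ⟨p, hp, rfl⟩
  · exact scale_neg hn (Or.inl rfl) s hs
  · have h := scale_neg hn (N := fun s => wsp s p) (Or.inr ⟨p, hp, rfl⟩) s hs
    simpa only [wspP_neg s p hs] using h

theorem scale_pos' {N : ℝ → (Eu n → Eu n) → ℝ≥0∞} (hN : Scale N) (s : ℝ)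
    (hs : 0 ≤ s) : Dominates (N s) := by
  rcases hN with rfl | ⟨p, hp, rfl⟩
  · exact hsStrong n s hs
  · exact wspP_pos n s p hs hp

end TrA

open TrA in
/-- The classification in terms of the definitions of `S.lean`. -/
theorem classifyS {n : ℕ} (hn : 3 ≤ n) (P : Set (Eu n → Eu n)) (hP : FlatDeck P)
    (N : ℝ → (Eu n → Eu n) → ℝ≥0∞) (hN : Scale N) :
    (∀ s < 0, FluxDist (N s) P) ∧
    (∀ s < 0, fdiam (N s) P < ⊤ ∧ (fdiam (N s) P = 0 ↔ ∀ m, FInv P m → m = 0)) ∧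
    (∀ s, 0 ≤ s → fdiam (N s) P = ⊤) := by
  have F := famKit
  have FK := fluxKit F
  have E := exact_all F
  have DW := diamWeak F E latFix sepU FK
  have ID := infDiam F FK (dispLow F FK)
    (shift F FK (perDiv FK) twistFam twistVel rotKit extKit extNorm sepU)
  refine ⟨?_, ?_, ?_⟩
  · intro s hs f g hf hg
    obtain ⟨p, h1, h2, h3⟩ := scale_neg' (by omega) hN s hs
    rw [fg_iff hP] at hf hg
    rw [fdist_eq hP, E n hn _ (deck hP) (N s) p h1 h2 h3 f g hf hg]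
    refine iInf_congr fun w => ?_
    exact iInf_congr_Prop (fctr_iff hP w).symm fun _ => rfl
  · intro s hs
    obtain ⟨p, h1, h2, h3⟩ := scale_neg' (by omega) hN s hs
    have h4 := DW n hn _ (deck hP) (N s) p h1 h2 h3
    rw [fdiam_eq hP]
    refine ⟨h4.1, h4.2.trans ?_⟩
    exact forall_congr' fun m => imp_congr_left (finv_iff hP m).symm
  · intro s hs
    rw [fdiam_eq hP]
    exact ID n (by omega) _ (deck hP) (N s) (scale_pos' hN s hs)

end

end Pool.Agent.H68.VD
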