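import Pool.Agent.H68.VD.St

/-! # The velocity of a volume preserving path is divergence free -/

namespace Pool.Agent.H68.VD

open MeasureTheory Set
open scoped ENNReal ContDiff

noncomputable section

namespace VelDivA

/-- The derivative of the determinant of a path of matrices at the identity is the trace. -/
theorem hasDerivAt_det {n : ℕ} (M : ℝ → Matrix (Fin n) (Fin n) ℝ)
    (M' : Matrix (Fin n) (Fin n) ℝ) (t : ℝ)
    (h : ∀ i j, HasDerivAt (fun τ => M τ i j) (M' i j) t) (h1 : M t = 1) :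
    HasDerivAt (fun τ => (M τ).det) (∑ i, M' i i) t := by
  classical
  simp_rw [Matrix.det_apply']
  have h2 : ∀ σ : Equiv.Perm (Fin n), HasDerivAt
      (fun τ => ((Equiv.Perm.sign σ : ℤ) : ℝ) * ∏ i, M τ (σ i) i)
      (((Equiv.Perm.sign σ : ℤ) : ℝ) * ∑ i, (∏ j ∈ Finset.univ.erase i, M t (σ j) j) • M' (σ i) i)
      t := fun σ => (HasDerivAt.fun_finsetProd fun i _ => h (σ i) i).const_mul _
  have h3 := HasDerivAt.fun_sum (u := Finset.univ) fun σ _ => h2 σ
  have h4 : (∑ σ : Equiv.Perm (Fin n), ((Equiv.Perm.sign σ : ℤ) : ℝ) *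
      ∑ i, (∏ j ∈ Finset.univ.erase i, M t (σ j) j) • M' (σ i) i) = ∑ i, M' i i := ?_
  · rw [← h4]; exact h3
  rw [Finset.sum_eq_single (1 : Equiv.Perm (Fin n))]
  · simp [h1]
  · intro σ _ hσ
    rw [Finset.sum_eq_zero, mul_zero]
    intro i _
    have : ∃ j, j ≠ i ∧ σ j ≠ j := by
      by_contra hcon
      push Not at hcon
      apply hσ
      ext k
      by_cases hk : k = i
      · subst hk
        by_contra hne
        have h5 : σ k ≠ k := fun h => hne (by rw [h]; rfl)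
        exact h5 (σ.injective (hcon _ h5))
      · rw [hcon k hk]; rfl
    obtain ⟨j, hj, hjj⟩ := this
    rw [Finset.prod_eq_zero (Finset.mem_erase.mpr ⟨hj, Finset.mem_univ j⟩), zero_smul]
    rw [h1, Matrix.one_apply_ne hjj]
  · simp

/-- The same for continuous linear maps of Euclidean space. -/
theorem sum_diag {n : ℕ} (A : ℝ → (Eu n →L[ℝ] Eu n)) (A' : Eu n →L[ℝ] Eu n) (t : ℝ)
    (h : ∀ i, HasDerivAt (fun τ => A τ (ev i)) (A' (ev i)) t)
    (h1 : A t = ContinuousLinearMap.id ℝ (Eu n)) (hd : ∀ τ, (A τ).det = 1) :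
    ∑ j, (A' (ev j)) j = 0 := by
  classical
  set b := (EuclideanSpace.basisFun (Fin n) ℝ).toBasis with hb
  have hbe : ∀ i, b i = ev i := by
    intro i
    simp [hb, ev]
  have hcoord : ∀ (B : Eu n →L[ℝ] Eu n) (i j : Fin n),
      LinearMap.toMatrix b b (B : Eu n →ₗ[ℝ] Eu n) i j = (B (ev j)) i := by
    intro B i j
    rw [LinearMap.toMatrix_apply, hbe]
    simp [hb]
  have hdet : ∀ τ, (LinearMap.toMatrix b b (A τ : Eu n →ₗ[ℝ] Eu n)).det = 1 := by
    intro τ
    rw [LinearMap.det_toMatrix]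
    exact hd τ
  have hM := hasDerivAt_det (fun τ => LinearMap.toMatrix b b (A τ : Eu n →ₗ[ℝ] Eu n))
    (LinearMap.toMatrix b b (A' : Eu n →ₗ[ℝ] Eu n)) t ?_ ?_
  · have h5 : HasDerivAt (fun τ => (LinearMap.toMatrix b b (A τ : Eu n →ₗ[ℝ] Eu n)).det) 0 t := by
      have : (fun τ => (LinearMap.toMatrix b b (A τ : Eu n →ₗ[ℝ] Eu n)).det) = fun _ => (1 : ℝ) :=
        funext hdet
      rw [this]
      exact hasDerivAt_const _ _
    have h6 := hM.unique h5
    simp_rw [hcoord] at h6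
    exact h6
  · intro i j
    simp_rw [hcoord]
    have := (h j)
    exact (EuclideanSpace.proj (𝕜 := ℝ) i : Eu n →L[ℝ] ℝ).hasFDerivAt.comp_hasDerivAt t this
  · rw [h1]
    simp

/-- Symmetry of the second derivatives of a family. -/
theorem mixed {n : ℕ} (U : ℝ × Eu n → Eu n) (hU : ContDiff ℝ ∞ U) (t : ℝ) (x h : Eu n) :
    HasDerivAt (fun τ => fderiv ℝ (fun z => U (τ, z)) x h)
      (fderiv ℝ (fun z => deriv (fun τ => U (τ, z)) t) x h) t := by
  have hdU : Differentiable ℝ U := hU.differentiable (by simp)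
  have hd2 : ContDiff ℝ ∞ (fderiv ℝ U) := hU.fderiv_right (by simp)
  have hdd : Differentiable ℝ (fderiv ℝ U) := hd2.differentiable (by simp)
  have e1 : ∀ τ z, fderiv ℝ (fun z => U (τ, z)) z h = fderiv ℝ U (τ, z) (0, h) := by
    intro τ z
    have h1 : HasFDerivAt (fun z : Eu n => (τ, z)) (ContinuousLinearMap.inr ℝ ℝ (Eu n)) z := by
      simpa using hasFDerivAt_prodMk_right τ z
    have h2 := (hdU (τ, z)).hasFDerivAt.comp z h1
    have h3 : fderiv ℝ (fun z => U (τ, z)) z = (fderiv ℝ U (τ, z)).comp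
      (ContinuousLinearMap.inr ℝ ℝ (Eu n)) := h2.fderiv
    rw [h3]
    simp
  have e2 : ∀ z, deriv (fun τ => U (τ, z)) t = fderiv ℝ U (t, z) (1, 0) := by
    intro z
    have h1 : HasDerivAt (fun τ : ℝ => (τ, z)) ((1 : ℝ), (0 : Eu n)) t :=
      (hasDerivAt_id t).prodMk (hasDerivAt_const t z)
    exact ((hdU (t, z)).hasFDerivAt.comp_hasDerivAt t h1).deriv
  have e3 : fderiv ℝ (fun z => deriv (fun τ => U (τ, z)) t) x h =
      fderiv ℝ (fderiv ℝ U) (t, x) (0, h) (1, 0) := by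
    simp_rw [e2]
    have h1 : HasFDerivAt (fun z : Eu n => (t, z)) (ContinuousLinearMap.inr ℝ ℝ (Eu n)) x := by
      simpa using hasFDerivAt_prodMk_right t x
    have h2 := (hdd (t, x)).hasFDerivAt.comp x h1
    have h3 := h2.clm_apply (hasFDerivAt_const ((1 : ℝ), (0 : Eu n)) x)
    have h4 : fderiv ℝ (fun z => fderiv ℝ U (t, z) ((1 : ℝ), (0 : Eu n))) x = _ := h3.fderiv
    rw [h4]
    simp
  have e4 : HasDerivAt (fun τ => fderiv ℝ U (τ, x) (0, h))
      (fderiv ℝ (fderiv ℝ U) (t, x) (1, 0) (0, h)) t := by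
    have h1 : HasDerivAt (fun τ : ℝ => (τ, x)) ((1 : ℝ), (0 : Eu n)) t :=
      (hasDerivAt_id t).prodMk (hasDerivAt_const t x)
    have h2 := (hdd (t, x)).hasFDerivAt.comp_hasDerivAt t h1
    have h3 := h2.clm_apply (hasDerivAt_const t ((0 : ℝ), h))
    simpa using h3
  have hsymm : IsSymmSndFDerivAt ℝ U (t, x) := by
    apply hU.contDiffAt.isSymmSndFDerivAt
    rw [minSmoothness_of_isRCLikeNormedField]
    exact WithTop.coe_le_coe.mpr le_top
  simp_rw [e1]
  rw [e3, hsymm.eq]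
  exact e4

end VelDivA

theorem velDiv (F : FamKit) : VelDiv := by
  intro n P φ hφ t x
  have hinv := F.inv n P ℝ φ hφ
  set g : Eu n → Eu n := Function.invFun (φ t) with hg
  have hgs : ContDiff ℝ ∞ g := hinv.smooth.comp (contDiff_const.prodMk contDiff_id)
  have hgd : ∀ z, (fderiv ℝ g z).det = 1 := fun z => hinv.det t z
  have hphis : ∀ τ, ContDiff ℝ ∞ (φ τ) := fun τ =>
    hφ.smooth.comp (contDiff_const.prodMk contDiff_id)
  have hU : ContDiff ℝ ∞ (fun q : ℝ × Eu n => φ q.1 (g q.2)) :=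
    hφ.smooth.comp (contDiff_fst.prodMk (hgs.comp contDiff_snd))
  have hfd : ∀ τ, fderiv ℝ (fun z => φ τ (g z)) x = (fderiv ℝ (φ τ) (g x)).comp (fderiv ℝ g x) := by
    intro τ
    exact fderiv_comp x ((hphis τ).differentiable (by simp) _) (hgs.differentiable (by simp) _)
  refine VelDivA.sum_diag (fun τ => fderiv ℝ (fun z => φ τ (g z)) x) (fderiv ℝ (vel φ t) x) t
    ?_ ?_ ?_
  · intro i
    exact VelDivA.mixed (fun q : ℝ × Eu n => φ q.1 (g q.2)) hU t x (ev i)
  · have : (fun z => φ t (g z)) = id := by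
      funext z
      exact Function.rightInverse_invFun (hφ.bij t).2 z
    simp only [this]
    exact fderiv_id
  · intro τ
    simp only [hfd]
    have h1 : ((fderiv ℝ (φ τ) (g x)).comp (fderiv ℝ g x)).det =
        (fderiv ℝ (φ τ) (g x)).det * (fderiv ℝ g x).det := by
      exact LinearMap.det_comp _ _
    rw [h1, hφ.det, hgd, mul_one]

end

end Pool.Agent.H68.VD
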