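import Pool.Agent.H68.VD.St2
import Pool.Agent.H68.VD.Hs

/-! # Sobolev norms of nonnegative order dominate the `L^1` norm -/

namespace Pool.Agent.H68.VD

open MeasureTheory Set
open scoped ENNReal ContDiff Pointwise

namespace HsSA

variable {n : ℕ}

noncomputable local instance torusSpace : MeasureSpace UnitAddCircle := ⟨AddCircle.haarAddCircle⟩

local instance torusHaar : Measure.IsAddHaarMeasure (volume : Measure UnitAddCircle) :=
  inferInstanceAs (Measure.IsAddHaarMeasure AddCircle.haarAddCircle)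

local instance torusProb : IsProbabilityMeasure (volume : Measure UnitAddCircle) :=
  inferInstanceAs (IsProbabilityMeasure AddCircle.haarAddCircle)

/-- The projection onto the torus. -/
noncomputable def proj (n : ℕ) : C(Eu n, UnitAddTorus (Fin n)) where
  toFun x := fun i => (x i : UnitAddCircle)
  continuous_toFun := by
    refine continuous_pi fun i => ?_
    exact (AddCircle.continuous_mk' (1 : ℝ)).comp
      (EuclideanSpace.proj (𝕜 := ℝ) (ι := Fin n) i).continuous

theorem proj_apply (x : Eu n) (i : Fin n) : proj n x i = (x i : UnitAddCircle) := rfl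

theorem proj_quot : Topology.IsQuotientMap (proj n) := by
  have h1 : IsOpenQuotientMap (Pi.map fun _ : Fin n => (QuotientAddGroup.mk : ℝ → UnitAddCircle)) :=
    IsOpenQuotientMap.piMap fun _ => QuotientAddGroup.isOpenQuotientMap_mk
  have h2 := (PiLp.continuousLinearEquiv 2 ℝ (fun _ : Fin n => ℝ)).toHomeomorph.isQuotientMap
  exact h1.isQuotientMap.comp h2

theorem proj_fib {g : Eu n → ℂ} (hp : Per g) {x y : Eu n} (h : proj n x = proj n y) :
    g x = g y := by
  have h1 : ∀ i, ∃ k : ℤ, x i - y i = k := by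
    intro i
    have h2 : ((x i : ℝ) : UnitAddCircle) = ((y i : ℝ) : UnitAddCircle) := congrFun h i
    have h3 : ((x i - y i : ℝ) : UnitAddCircle) = 0 := by
      rw [AddCircle.coe_sub, h2, sub_self]
    obtain ⟨k, hk⟩ := AddCircle.coe_eq_zero_iff (1 : ℝ) |>.1 h3
    exact ⟨k, by rw [← hk]; simp⟩
  choose k hk using h1
  have h4 : x = y + iv k := by
    ext i
    rw [PiLp.add_apply, HsA.iv_apply, ← hk i]
    ring
  rw [h4]
  exact hp y k

/-- The function on the torus. -/
noncomputable def desc (g : C(Eu n, ℂ)) (hp : Per g) : C(UnitAddTorus (Fin n), ℂ) :=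
  proj_quot.lift g fun _ _ h => proj_fib hp h

theorem desc_apply (g : C(Eu n, ℂ)) (hp : Per g) (x : Eu n) : desc g hp (proj n x) = g x := by
  have := proj_quot.lift_comp g fun _ _ h => proj_fib hp h
  exact congrArg (fun f : C(Eu n, ℂ) => f x) this

theorem torus_int {F : Type*} [NormedAddCommGroup F] [NormedSpace ℝ F]
    (H : UnitAddTorus (Fin n) → F) (h : Eu n → F) (hH : ∀ x, H (proj n x) = h x) :
    ∫ t, H t = ∫ x in cube n, h x := by
  rw [UnitAddTorus.integral_preimage H 0]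
  have h1 : {x : Fin n → ℝ | ∀ i, x i ∈ Ioc ((0 : Fin n → ℝ) i) ((0 : Fin n → ℝ) i + 1)} =ᵐ[volume]
      Set.pi Set.univ fun _ : Fin n => Set.Ico (0 : ℝ) 1 := by
    have h2 : {x : Fin n → ℝ | ∀ i, x i ∈ Ioc ((0 : Fin n → ℝ) i) ((0 : Fin n → ℝ) i + 1)} =
        Set.pi Set.univ fun _ : Fin n => Set.Ioc (0 : ℝ) 1 := by
      ext x
      simp
    rw [h2]
    exact (Measure.univ_pi_Ioc_ae_eq_Icc (μ := fun _ : Fin n => (volume : Measure ℝ))).trans
      (Measure.univ_pi_Ico_ae_eq_Icc (μ := fun _ : Fin n => (volume : Measure ℝ))).symm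
  rw [setIntegral_congr_set h1]
  have h3 : cube n = (MeasurableEquiv.toLp 2 (Fin n → ℝ)).symm ⁻¹'
      (Set.pi Set.univ fun _ : Fin n => Set.Ico (0 : ℝ) 1) := by
    ext x
    simp [cube]
  rw [h3]
  have h4 := (EuclideanSpace.volume_preserving_symm_measurableEquiv_toLp
    (Fin n)).setIntegral_preimage_emb (MeasurableEquiv.measurableEmbedding _)
    (fun x : Fin n → ℝ => H (fun i => (x i : UnitAddCircle)))
    (Set.pi Set.univ fun _ : Fin n => Set.Ico (0 : ℝ) 1)
  rw [← h4]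
  refine integral_congr_ae (Filter.Eventually.of_forall fun x => ?_)
  exact hH x

theorem mf_proj (k : Fin n → ℤ) (x : Eu n) :
    UnitAddTorus.mFourier (-k) (proj n x) = HsA.ex k x := by
  show ∏ i : Fin n, fourier ((-k) i) ((x i : ℝ) : UnitAddCircle) = _
  simp only [fourier_coe_apply]
  rw [← Complex.exp_sum]
  unfold HsA.ex
  congr 1
  rw [Finset.mul_sum, ← Finset.sum_neg_distrib]
  refine Finset.sum_congr rfl fun j _ => ?_
  rw [Pi.neg_apply]
  push_cast
  ring

theorem parseval (g : C(Eu n, ℂ)) (hp : Per g) :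
    HasSum (fun k : Fin n → ℤ => ‖∫ x in cube n, g x * HsA.ex k x‖ ^ 2)
      (∫ x in cube n, ‖g x‖ ^ 2) := by
  set G := desc g hp with hG
  have h1 := UnitAddTorus.hasSum_sq_mFourierCoeff
    (ContinuousMap.toLp (E := ℂ) 2 (volume : Measure (UnitAddTorus (Fin n))) ℂ G)
  have h2 : ∫ t, ‖(ContinuousMap.toLp (E := ℂ) 2 (volume : Measure (UnitAddTorus (Fin n))) ℂ G) t‖
      ^ 2 = ∫ x in cube n, ‖g x‖ ^ 2 := by
    rw [← torus_int (fun t => ‖G t‖ ^ 2) (fun x => ‖g x‖ ^ 2)
      (fun x => by rw [hG, desc_apply])]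
    refine integral_congr_ae ?_
    filter_upwards [ContinuousMap.coeFn_toLp (𝕜 := ℂ) (p := 2)
      (volume : Measure (UnitAddTorus (Fin n))) G] with t ht
    rw [ht]
  have h3 : ∀ k, UnitAddTorus.mFourierCoeff
      (ContinuousMap.toLp (E := ℂ) 2 (volume : Measure (UnitAddTorus (Fin n))) ℂ G) k =
      ∫ x in cube n, g x * HsA.ex k x := by
    intro k
    rw [UnitAddTorus.mFourierCoeff_toLp]
    unfold UnitAddTorus.mFourierCoeff
    refine torus_int _ _ fun x => ?_
    rw [mf_proj, hG, desc_apply, smul_eq_mul, mul_comm]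
  rw [h2] at h1
  simp only [h3] at h1
  exact h1

theorem parseval_fc {u : Eu n → Eu n} (hu : Continuous u) (hp : Per u) :
    HasSum (fun k : Fin n → ℤ => ‖fc u k‖ ^ 2) (∫ x in cube n, ‖u x‖ ^ 2) := by
  have h1 : ∀ i : Fin n, HasSum
      (fun k : Fin n → ℤ => ‖∫ x in cube n, ((u x i : ℝ) : ℂ) * HsA.ex k x‖ ^ 2)
      (∫ x in cube n, u x i ^ 2) := by
    intro i
    have hc : Continuous fun x => ((u x i : ℝ) : ℂ) :=
      Complex.continuous_ofReal.comp (HsA.coord_cont hu i)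
    have hper : Per fun x => ((u x i : ℝ) : ℂ) := by
      intro x k
      show ((u (x + iv k) i : ℝ) : ℂ) = _
      rw [hp x k]
    have h2 := parseval ⟨_, hc⟩ hper
    have h3 : ∫ x in cube n, ‖(⟨_, hc⟩ : C(Eu n, ℂ)) x‖ ^ 2 = ∫ x in cube n, u x i ^ 2 := by
      refine integral_congr_ae (Filter.Eventually.of_forall fun x => ?_)
      show ‖((u x i : ℝ) : ℂ)‖ ^ 2 = u x i ^ 2
      rw [Complex.norm_real, Real.norm_eq_abs, sq_abs]
    rw [h3] at h2
    exact h2
  have h4 := hasSum_sum (s := (Finset.univ : Finset (Fin n))) fun i _ => h1 i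
  have h5 : ∫ x in cube n, ‖u x‖ ^ 2 = ∑ i, ∫ x in cube n, u x i ^ 2 := by
    rw [← integral_finsetSum]
    · refine integral_congr_ae (Filter.Eventually.of_forall fun x => ?_)
      show ‖u x‖ ^ 2 = ∑ i, u x i ^ 2
      rw [EuclideanSpace.norm_sq_eq]
      exact Finset.sum_congr rfl fun i _ => by rw [Real.norm_eq_abs, sq_abs]
    · exact fun i _ => HsA.int_cube ((HsA.coord_cont hu i).pow 2)
  rw [h5]
  refine h4.congr_fun fun k => ?_
  exact HsA.norm_fc_sq u k

theorem parseval_tsum {u : Eu n → Eu n} (hu : Continuous u) (hp : Per u) :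
    ∑' k : Fin n → ℤ, ‖fc u k‖ₑ ^ 2 = ∫⁻ x in cube n, ‖u x‖ₑ ^ (2 : ℝ) := by
  rw [← HsA.ofReal_int hu, ← (parseval_fc hu hp).tsum_eq,
    ENNReal.ofReal_tsum_of_nonneg (fun k => sq_nonneg _) (parseval_fc hu hp).summable]
  refine tsum_congr fun k => ?_
  rw [ENNReal.ofReal_pow (norm_nonneg _), ofReal_norm]

theorem l1_le_l2 {u : Eu n → Eu n} (hu : Continuous u) :
    ∫⁻ x in cube n, ‖u x‖ₑ ≤ (∫⁻ x in cube n, ‖u x‖ₑ ^ (2 : ℝ)) ^ (1 / 2 : ℝ) := by
  have hprob : IsProbabilityMeasure ((volume : Measure (Eu n)).restrict (cube n)) :=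
    ⟨by rw [Measure.restrict_apply_univ, HsA.vol_cube]⟩
  have h1 := eLpNorm_le_eLpNorm_of_exponent_le (p := 1) (q := 2)
    (μ := (volume : Measure (Eu n)).restrict (cube n)) one_le_two hu.aestronglyMeasurable
  rw [eLpNorm_one_eq_lintegral_enorm,
    eLpNorm_eq_lintegral_rpow_enorm_toReal (by norm_num) (by norm_num)] at h1
  simpa using h1

end HsSA

theorem hsStrong : HsStrong := by
  intro n s hs
  refine ⟨1, one_pos, fun u hu hp => ?_⟩
  rw [ENNReal.ofReal_one, one_mul]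
  refine (HsSA.l1_le_l2 hu).trans ?_
  rw [← HsSA.parseval_tsum hu hp, HsA.hsNorm_eq]
  refine ENNReal.rpow_le_rpow (ENNReal.tsum_le_tsum fun k => ?_) (by norm_num)
  have h1 : (1 : ℝ≥0∞) ≤ ENNReal.ofReal (HsA.wt s k) := by
    rw [← ENNReal.ofReal_one]
    exact ENNReal.ofReal_le_ofReal (Real.one_le_rpow (HsA.one_le_base k) hs)
  calc ‖fc u k‖ₑ ^ 2 = 1 * ‖fc u k‖ₑ ^ 2 := (one_mul _).symm
    _ ≤ ENNReal.ofReal (HsA.wt s k) * ‖fc u k‖ₑ ^ 2 := by gcongr

end Pool.Agent.H68.VD
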