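import Pool.Agent.H68.VD.St3

/-! # The definitions of the statement of FlatDiameter

A closed flat manifold is `Eu n / P`, where the deck group `P` is given as a set of maps. A
diffeomorphism of the manifold isotopic to the identity is represented by a lift `f : Eu n → Eu n` that
commutes with `P`. -/

namespace Pool.Agent.H68.VD

open MeasureTheory Set
open scoped ENNReal ContDiff

noncomputable section

variable {n : ℕ}

/-- `P` is the deck group of a closed flat manifold, in affine coordinates in which the lattice is the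
integer lattice: a group of affine maps of Euclidean space that contains the integer translations with
finite index, whose linear parts preserve the integer lattice, and that acts freely. By Bieberbach every
closed flat manifold has such a deck group. -/
structure FlatDeck (P : Set (Eu n → Eu n)) : Prop where
  one : id ∈ P
  mul : ∀ g ∈ P, ∀ h ∈ P, g ∘ h ∈ P
  inv : ∀ g ∈ P, ∃ h ∈ P, g ∘ h = id ∧ h ∘ g = id
  trans : ∀ k : Fin n → ℤ, (fun x => x + iv k) ∈ P
  fin : ∃ R : Set (Eu n → Eu n), R.Finite ∧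
    ∀ g ∈ P, ∃ r ∈ R, ∃ k : Fin n → ℤ, ∀ x, g x = r x + iv k
  aff : ∀ g ∈ P, ∃ L : Eu n → Eu n, (∀ x v, g (x + v) = g x + L v) ∧
    (∀ (c : ℝ) (v : Eu n), L (c • v) = c • L v) ∧
    ∀ k : Fin n → ℤ, ∃ l : Fin n → ℤ, L (iv k) = iv l
  free : ∀ g ∈ P, g ≠ id → ∀ x, g x ≠ x

/-- A smooth path of volume preserving diffeomorphisms of `Eu n` that commute with `P`. -/
structure FPath (P : Set (Eu n → Eu n)) (φ : ℝ → Eu n → Eu n) : Prop where
  smooth : ContDiff ℝ ∞ (fun q : ℝ × Eu n => φ q.1 q.2)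
  bij : ∀ t, Function.Bijective (φ t)
  det : ∀ t x, (fderiv ℝ (φ t) x).det = 1
  equi : ∀ t, ∀ g ∈ P, ∀ x, φ t (g x) = g (φ t x)

/-- `f` is a lift of an element of the identity component of the group of volume preserving
diffeomorphisms of `Eu n / P`. -/
def FG (P : Set (Eu n → Eu n)) (f : Eu n → Eu n) : Prop :=
  ∃ φ : ℝ → Eu n → Eu n, FPath P φ ∧ φ 0 = id ∧ φ 1 = f

/-- The geodesic distance of the diffeomorphisms of `Eu n / P` with lifts `f` and `g` for the norm `N`
on velocity fields: the infimum of the lengths of the paths that join `f` to a lift `γ ∘ g` of the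
second one. -/
def fdist (N : (Eu n → Eu n) → ℝ≥0∞) (P : Set (Eu n → Eu n)) (f g : Eu n → Eu n) : ℝ≥0∞ :=
  ⨅ (φ : ℝ → Eu n → Eu n) (_ : FPath P φ ∧ φ 0 = f ∧ ∃ γ ∈ P, φ 1 = γ ∘ g), len N φ

/-- The diameter of the identity component of the group of volume preserving diffeomorphisms. -/
def fdiam (N : (Eu n → Eu n) → ℝ≥0∞) (P : Set (Eu n → Eu n)) : ℝ≥0∞ :=
  ⨆ (f : Eu n → Eu n) (_ : FG P f) (g : Eu n → Eu n) (_ : FG P g), fdist N P f g

/-- The translation by `m` commutes with `P`: `m` is invariant under the linear parts of `P`. -/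
def FInv (P : Set (Eu n → Eu n)) (m : Eu n) : Prop := ∀ g ∈ P, ∀ x, g (x + m) = g x + m

/-- The translation by `w` is in the centre of `P`. -/
def FCtr (P : Set (Eu n → Eu n)) (w : Eu n) : Prop := (fun x => x + w) ∈ P ∧ FInv P w

/-- The norm of the `k`-th derivative of `v` at `x`. -/
def dnorm (k : ℕ) (v : Eu n → Eu n) (x : Eu n) : ℝ≥0∞ := ENNReal.ofReal ‖iteratedFDeriv ℝ k v x‖

/-- The `q`-th power of the fractional seminorm of order `m + θ`, `0 < θ < 1`, of a periodic field. -/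
def gag (m : ℕ) (θ q : ℝ) (v : Eu n → Eu n) : ℝ≥0∞ :=
  ∫⁻ x in cube n, ∫⁻ h in Metric.ball (0 : Eu n) 1,
    dnorm m (fun y => v (y + h) - v y) x ^ q / ‖h‖ₑ ^ ((n : ℝ) + θ * q)

/-- The `q`-th power of the Sobolev-Slobodeckij norm of order `r ≥ 0` and exponent `q` of a smooth
periodic field: the `L^q` norms of the derivatives of order at most `⌊r⌋` and, if `r` is not an integer,
the fractional seminorm. -/
def slobP (r q : ℝ) (v : Eu n → Eu n) : ℝ≥0∞ :=
  (∑ k ∈ Finset.range (⌊r⌋₊ + 1), ∫⁻ x in cube n, dnorm k v x ^ q) +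
    (if (⌊r⌋₊ : ℝ) < r then gag ⌊r⌋₊ (r - ⌊r⌋₊) q v else 0)

/-- The norm of `W^{s,p}` for every real `s` and `1 < p`: for `s ≥ 0` the Sobolev-Slobodeckij norm, for
`s < 0` the dual norm of `W^{-s,q}`, where `q = p / (p - 1)` is the conjugate exponent. -/
def wspP (s p : ℝ) (u : Eu n → Eu n) : ℝ≥0∞ :=
  if 0 ≤ s then (slobP s p u) ^ (1 / p)
  else ⨆ (v : Eu n → Eu n) (_ : ContDiff ℝ ∞ v ∧ Per v ∧ slobP (-s) (p / (p - 1)) v ≤ 1),
    ENNReal.ofReal |∫ x in cube n, inner ℝ (u x) (v x)|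

/-- A scale of Sobolev norms on vector fields: the `H^s` norms, or the `W^{s,p}` norms for one
exponent `p > 1`. -/
def Scale (N : ℝ → (Eu n → Eu n) → ℝ≥0∞) : Prop :=
  (N = fun s => hsNorm s) ∨ ∃ p : ℝ, 1 < p ∧ N = fun s => wspP s p

/-- The distance is the distance of the flux classes. -/
def FluxDist (N : (Eu n → Eu n) → ℝ≥0∞) (P : Set (Eu n → Eu n)) : Prop :=
  ∀ f g, FG P f → FG P g → fdist N P f g =
    ⨅ (w : Eu n) (_ : FCtr P w), ENNReal.ofReal ‖(∫ x in cube n, (g x - f x)) + w‖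

/-- A diameter `d s` that depends on the order `s` has a transition zero, finite and positive,
infinite. -/
def Transition (d : ℝ → ℝ≥0∞) : Prop :=
  ∃ s₁ s₂ s₃ : ℝ, s₁ < s₂ ∧ s₂ < s₃ ∧ d s₁ = 0 ∧ (0 < d s₂ ∧ d s₂ < ⊤) ∧ d s₃ = ⊤

end

end Pool.Agent.H68.VD
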