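import Pool.Agent.H68.VD.Defs

/-! # Statements of the modules -/

namespace Pool.Agent.H68.VD

open MeasureTheory Set
open scoped ENNReal ContDiff

noncomputable section

variable {n : ℕ}

/-! ### Fam.lean -/

/-- Families and velocities. -/
structure FamKit : Prop where
  inv : ∀ (n : ℕ) (P : Subgroup (Eu n ≃ᵃ[ℝ] Eu n)) (E : Type) [NormedAddCommGroup E]
    [NormedSpace ℝ E] [CompleteSpace E] (F : E → Eu n → Eu n), IsFam P F →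
    IsFam P (fun e => Function.invFun (F e))
  comp : ∀ (n : ℕ) (P : Subgroup (Eu n ≃ᵃ[ℝ] Eu n)) (E : Type) [NormedAddCommGroup E]
    [NormedSpace ℝ E] (F G : E → Eu n → Eu n), IsFam P F → IsFam P G →
    IsFam P (fun e x => F e (G e x))
  re : ∀ (n : ℕ) (P : Subgroup (Eu n ≃ᵃ[ℝ] Eu n)) (E E' : Type) [NormedAddCommGroup E]
    [NormedSpace ℝ E] [NormedAddCommGroup E'] [NormedSpace ℝ E'] (F : E → Eu n → Eu n)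
    (h : E' → E), IsFam P F → ContDiff ℝ ∞ h → IsFam P (fun e => F (h e))
  id : ∀ (n : ℕ) (P : Subgroup (Eu n ≃ᵃ[ℝ] Eu n)) (E : Type) [NormedAddCommGroup E]
    [NormedSpace ℝ E], IsFam P (fun (_ : E) (x : Eu n) => x)
  /-- `vel` is the velocity -/
  velEq : ∀ (n : ℕ) (P : Subgroup (Eu n ≃ᵃ[ℝ] Eu n)) (φ : ℝ → Eu n → Eu n), IsPath P φ →
    ∀ t x, HasDerivAt (fun τ => φ τ x) (vel φ t (φ t x)) t
  velSmooth : ∀ (n : ℕ) (P : Subgroup (Eu n ≃ᵃ[ℝ] Eu n)) (φ : ℝ → Eu n → Eu n), IsPath P φ →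
    ContDiff ℝ ∞ (fun q : ℝ × Eu n => vel φ q.1 q.2)
  velFam : ∀ (n : ℕ) (P : Subgroup (Eu n ≃ᵃ[ℝ] Eu n)) (H : ℝ × ℝ → Eu n → Eu n), IsFam P H →
    Continuous (fun q : (ℝ × ℝ) × Eu n => vel (fun θ => H (q.1.1, θ)) q.1.2 q.2)
  velEqui : ∀ (n : ℕ) (P : Subgroup (Eu n ≃ᵃ[ℝ] Eu n)) (φ : ℝ → Eu n → Eu n), IsPath P φ →
    ∀ g ∈ P, ∀ t x, vel φ t (g x) = g.linear (vel φ t x)
  velComp : ∀ (n : ℕ) (P : Subgroup (Eu n ≃ᵃ[ℝ] Eu n)) (φ ψ : ℝ → Eu n → Eu n), IsPath P φ →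
    IsPath P ψ → ∀ t x, vel (fun t x => φ t (ψ t x)) t (φ t x) =
      vel φ t (φ t x) + fderiv ℝ (φ t) x (vel ψ t x)
  /-- reparametrization -/
  velRe : ∀ (n : ℕ) (P : Subgroup (Eu n ≃ᵃ[ℝ] Eu n)) (φ : ℝ → Eu n → Eu n) (h : ℝ → ℝ),
    IsPath P φ → ∀ t, DifferentiableAt ℝ h t → ∀ x,
    vel (fun t => φ (h t)) t x = deriv h t • vel φ (h t) x
  /-- composition with a fixed map on the right -/
  velConst : ∀ (n : ℕ) (φ : ℝ → Eu n → Eu n) (f : Eu n → Eu n), (∀ t, Function.Bijective (φ t)) →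
    Function.Bijective f → ∀ t x, vel (fun t x => φ t (f x)) t x = vel φ t x

/-! ### VelDiv.lean -/

/-- The velocity of a volume preserving path is divergence free. -/
def VelDiv : Prop := ∀ (n : ℕ) (P : Subgroup (Eu n ≃ᵃ[ℝ] Eu n)) (φ : ℝ → Eu n → Eu n),
  IsPath P φ → ∀ t x, ∑ j, (fderiv ℝ (vel φ t) x (ev j)) j = 0

/-! ### CostK.lean -/

/-- The calculus of costs. -/
structure CostKit : Prop where
  comp : ∀ (n : ℕ) (P : Subgroup (Eu n ≃ᵃ[ℝ] Eu n)) (N : (Eu n → Eu n) → ℝ≥0∞) (p : ℝ),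
    WeakNorm N p → ∀ f g a b, Cost N P f a → Cost N P g b → Cost N P (fun x => f (g x)) (a + b)
  inv : ∀ (n : ℕ) (P : Subgroup (Eu n ≃ᵃ[ℝ] Eu n)) (N : (Eu n → Eu n) → ℝ≥0∞) (p : ℝ),
    WeakNorm N p → ∀ f a, Cost N P f a → Cost N P (Function.invFun f) a
  path : ∀ (n : ℕ) (P : Subgroup (Eu n ≃ᵃ[ℝ] Eu n)) (N : (Eu n → Eu n) → ℝ≥0∞) (p : ℝ),
    WeakNorm N p → ∀ φ, IsPath P φ → φ 0 = id → ∀ T C, 0 ≤ T → 0 ≤ C →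
    (∀ t ∈ Set.Icc (0 : ℝ) T, N (vel φ t) ≤ ENNReal.ofReal C) → Cost N P (φ T) (C * T)
  dist : ∀ (n : ℕ) (P : Subgroup (Eu n ≃ᵃ[ℝ] Eu n)) (N : (Eu n → Eu n) → ℝ≥0∞) (h f g : Eu n → Eu n)
    (a : ℝ), Cost N P h a → InG P f → (∃ γ ∈ P, ∀ x, h (f x) = γ (g x)) →
    gdist N P f g ≤ ENNReal.ofReal a

/-! ### TwistK.lean -/

/-- Twists are volume preserving. -/
def TwistFam : Prop := ∀ (n : ℕ) (E : Type) [NormedAddCommGroup E] [NormedSpace ℝ E] (c : Eu n)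
  (r : ℝ) (A : E → ℝ → (Eu n →L[ℝ] Eu n)), 0 < r → ContDiff ℝ ∞ (fun q : E × ℝ => A q.1 q.2) →
  (∀ e ρ x, ‖A e ρ x‖ = ‖x‖) → (∀ e ρ, (A e ρ).det = 1) →
  (∀ e ρ, r ^ 2 ≤ ρ → A e ρ = ContinuousLinearMap.id ℝ (Eu n)) →
  BallFam c r (fun e => twist c (A e))

/-- The velocity of a path of twists. -/
def TwistVel : Prop := ∀ (n : ℕ) (c : Eu n) (r : ℝ) (A : ℝ → ℝ → (Eu n →L[ℝ] Eu n)),
  0 < r → ContDiff ℝ ∞ (fun q : ℝ × ℝ => A q.1 q.2) →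
  (∀ e ρ x, ‖A e ρ x‖ = ‖x‖) → (∀ e ρ, (A e ρ).det = 1) →
  (∀ e ρ, r ^ 2 ≤ ρ → A e ρ = ContinuousLinearMap.id ℝ (Eu n)) →
  ∀ t x, vel (fun t => twist c (A t)) t (twist c (A t) x) =
    (deriv (fun τ => A τ (‖x - c‖ ^ 2)) t) (x - c)

/-! ### RotK.lean -/

/-- Rotations. -/
structure RotKit : Prop where
  smooth : ∀ (n : ℕ) (i j : Fin n), ContDiff ℝ ∞ (rotR i j)
  iso : ∀ (n : ℕ) (i j : Fin n), i ≠ j → ∀ θ x, ‖rotR i j θ x‖ = ‖x‖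
  det : ∀ (n : ℕ) (i j : Fin n), i ≠ j → ∀ θ, (rotR i j θ).det = 1
  add : ∀ (n : ℕ) (i j : Fin n), i ≠ j → ∀ a b, rotR i j (a + b) = rotR i j a ∘L rotR i j b
  per : ∀ (n : ℕ) (i j : Fin n) (k : ℤ), rotR i j (2 * Real.pi * k) = ContinuousLinearMap.id ℝ (Eu n)
  deriv : ∀ (n : ℕ) (i j : Fin n), i ≠ j → ∀ θ,
    HasDerivAt (fun θ => rotR i j θ) (rotJ i j ∘L rotR i j θ) θ
  orth : ∀ (n : ℕ) (i j : Fin n) (x : Eu n), inner ℝ (rotJ i j x) x = 0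
  normJ : ∀ (n : ℕ) (i j : Fin n) (x : Eu n), ‖rotJ i j x‖ ≤ ‖x‖

/-- The null homotopy of the double rotation in dimension at least three. -/
def Homot : Prop := ∀ (n : ℕ), 3 ≤ n → ∀ i j : Fin n, i ≠ j →
  ∃ K : ℝ → ℝ → (Eu n →L[ℝ] Eu n), ContDiff ℝ ∞ (fun q : ℝ × ℝ => K q.1 q.2) ∧
    (∀ τ y x, ‖K τ y x‖ = ‖x‖) ∧ (∀ τ y, (K τ y).det = 1) ∧
    (∀ y, K 0 y = rotR i j (4 * Real.pi * y)) ∧
    (∀ y, K 1 y = ContinuousLinearMap.id ℝ (Eu n)) ∧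
    (∀ τ (m : ℤ), K τ m = ContinuousLinearMap.id ℝ (Eu n)) ∧
    ∀ τ y, ‖deriv (fun τ => K τ y) τ‖ ≤ 2 * Real.pi

/-! ### Osc.lean -/

/-- The oscillating angle: `a = b - 4π m` with `m` an integer outside of a small set and `a` with a small
primitive. -/
def Osc : Prop := ∀ (b : ℝ → ℝ) (R : ℝ), 0 < R → ContDiff ℝ ∞ b → (∀ ρ, R ≤ ρ → b ρ = 0) →
  ∀ (ν : Measure ℝ) [IsFiniteMeasure ν] (ε δ : ℝ), 0 < ε → 0 < δ →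
  ∃ a m Ψ : ℝ → ℝ, ContDiff ℝ ∞ a ∧ ContDiff ℝ ∞ m ∧ ContDiff ℝ ∞ Ψ ∧
    (∀ ρ, b ρ = a ρ + 4 * Real.pi * m ρ) ∧ (∀ ρ, R ≤ ρ → a ρ = 0 ∧ m ρ = 0 ∧ Ψ ρ = 0) ∧
    (∀ ρ, 2 * deriv Ψ ρ = a ρ) ∧ (∀ ρ, 0 ≤ ρ → |Ψ ρ| ≤ δ) ∧ (∀ ρ, |a ρ| ≤ 8 * Real.pi) ∧
    ν {ρ | ∀ k : ℤ, m ρ ≠ k} ≤ ENNReal.ofReal ε

/-! ### ExtK.lean -/

/-- Extension from small balls. -/
structure ExtKit : Prop where
  smooth : ∀ (n : ℕ) (P : Subgroup (Eu n ≃ᵃ[ℝ] Eu n)), Deck P → ∀ (c : Eu n) (r r' : ℝ), Sep P c r →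
    r' < r → ∀ (E : Type) [NormedAddCommGroup E] [NormedSpace ℝ E] (u : E → Eu n → Eu n),
    ContDiff ℝ ∞ (fun q : E × Eu n => u q.1 q.2) → (∀ e x, r' ≤ dist x c → u e x = 0) →
    ContDiff ℝ ∞ (fun q : E × Eu n => ext P (u q.1) q.2)
  equi : ∀ (n : ℕ) (P : Subgroup (Eu n ≃ᵃ[ℝ] Eu n)) (u : Eu n → Eu n), ∀ g ∈ P, ∀ x,
    ext P u (g x) = g.linear (ext P u x)
  inside : ∀ (n : ℕ) (P : Subgroup (Eu n ≃ᵃ[ℝ] Eu n)) (c : Eu n) (r : ℝ), Sep P c r →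
    ∀ u : Eu n → Eu n, (∀ x, r ≤ dist x c → u x = 0) → ∀ x, dist x c < r → ext P u x = u x
  outside : ∀ (n : ℕ) (P : Subgroup (Eu n ≃ᵃ[ℝ] Eu n)) (u : Eu n → Eu n) (x : Eu n),
    (∀ g ∈ P, u (g x) = 0) → ext P u x = 0
  fam : ∀ (n : ℕ) (P : Subgroup (Eu n ≃ᵃ[ℝ] Eu n)), Deck P → ∀ (c : Eu n) (r r' : ℝ), Sep P c r →
    0 < r' → r' < r → ∀ (E : Type) [NormedAddCommGroup E] [NormedSpace ℝ E] (T : E → Eu n → Eu n),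
    BallFam c r' T → IsFam P (fun e => extMap P (T e))
  comp : ∀ (n : ℕ) (P : Subgroup (Eu n ≃ᵃ[ℝ] Eu n)) (c : Eu n) (r r' : ℝ), Sep P c r → 0 < r' →
    r' < r → ∀ (E : Type) [NormedAddCommGroup E] [NormedSpace ℝ E] (S T : E → Eu n → Eu n),
    BallFam c r' S → BallFam c r' T → ∀ e x,
    extMap P (fun y => S e (T e y)) x = extMap P (S e) (extMap P (T e) x)
  velExt : ∀ (n : ℕ) (P : Subgroup (Eu n ≃ᵃ[ℝ] Eu n)), Deck P → ∀ (c : Eu n) (r r' : ℝ), Sep P c r →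
    0 < r' → r' < r → ∀ (T : ℝ → Eu n → Eu n), BallFam c r' T → ∀ t x,
    vel (fun t => extMap P (T t)) t x = ext P (vel T t) x
  velOut : ∀ (n : ℕ) (c : Eu n) (r' : ℝ) (T : ℝ → Eu n → Eu n), BallFam c r' T → ∀ t x,
    r' ≤ dist x c → vel T t x = 0

/-! ### ExtN.lean -/

/-- Bounds of extensions. -/
structure ExtNorm : Prop where
  sup : ∀ (n : ℕ) (P : Subgroup (Eu n ≃ᵃ[ℝ] Eu n)), Deck P → ∃ C : ℝ, 0 ≤ C ∧ ∀ (c : Eu n) (r : ℝ),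
    Sep P c r → ∀ u : Eu n → Eu n, (∀ x, r ≤ dist x c → u x = 0) → ∀ b : ℝ, (∀ x, ‖u x‖ ≤ b) →
    ∀ x, ‖ext P u x‖ ≤ C * b
  lp : ∀ (n : ℕ) (P : Subgroup (Eu n ≃ᵃ[ℝ] Eu n)), Deck P → ∀ (c : Eu n) (r : ℝ), Sep P c r →
    ∀ p : ℝ, 1 ≤ p → ∃ C : ℝ, 0 ≤ C ∧ ∀ u : Eu n → Eu n, Continuous u →
    (∀ x, r ≤ dist x c → u x = 0) →
    ∫⁻ x in cube n, ‖ext P u x‖ₑ ^ p ≤ ENNReal.ofReal C * ∫⁻ x, ‖u x‖ₑ ^ p
  dvExt : ∀ (n : ℕ) (P : Subgroup (Eu n ≃ᵃ[ℝ] Eu n)), Deck P → ∃ C : ℝ, 0 ≤ C ∧ ∀ (c : Eu n)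
    (r r' : ℝ), Sep P c r → r' < r → ∀ T : Eu n → (Eu n →L[ℝ] Eu n), ContDiff ℝ ∞ T →
    (∀ x, r' ≤ dist x c → T x = 0) → ∀ δ : ℝ, (∀ x, ‖T x‖ ≤ δ) →
    ∃ S : Eu n → (Eu n →L[ℝ] Eu n), ContDiff ℝ ∞ S ∧ Per S ∧ (∀ x, ‖S x‖ ≤ C * δ) ∧
      ∀ x, dv S x = ext P (dv T) x

/-! ### SepU.lean -/

/-- Small balls have disjoint translates. -/
def SepU : Prop := ∀ (n : ℕ) (P : Subgroup (Eu n ≃ᵃ[ℝ] Eu n)), Deck P → ∃ r : ℝ, 0 < r ∧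
  ∀ c : Eu n, Sep P c r

/-! ### SwirlC.lean -/

/-- Twists have cost zero. -/
def SwirlCost : Prop := ∀ (n : ℕ), 3 ≤ n → ∀ (P : Subgroup (Eu n ≃ᵃ[ℝ] Eu n)), Deck P →
  ∀ (N : (Eu n → Eu n) → ℝ≥0∞) (p : ℝ), WeakNorm N p → ∀ (c : Eu n) (r r' : ℝ), Sep P c r →
  0 < r' → r' < r → ∀ i j : Fin n, i ≠ j → ∀ b : ℝ → ℝ, ContDiff ℝ ∞ b →
  (∀ ρ, r' ^ 2 ≤ ρ → b ρ = 0) → ∀ ε : ℝ, 0 < ε →
  Cost N P (extMap P (twist c (fun ρ => rotR i j (b ρ)))) ε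

/-! ### Stream.lean, DensB.lean, DensC.lean -/

/-- The skew gradient `∂_m f e_i - ∂_i f e_m`. -/
def jgrad (i m : Fin n) (f : Eu n → ℝ) (x : Eu n) : Eu n :=
  (fderiv ℝ f x (ev m)) • ev i - (fderiv ℝ f x (ev i)) • ev m

/-- Periodic divergence free fields with mean zero are sums of skew gradients of periodic functions. -/
def Stream : Prop := ∀ (n : ℕ) (v : Eu n → Eu n), ContDiff ℝ ∞ v → Per v →
  (∀ x, ∑ j, (fderiv ℝ v x (ev j)) j = 0) → ∫ x in cube n, v x = 0 →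
  ∃ f : Fin n → Fin n → Eu n → ℝ, (∀ i m, ContDiff ℝ ∞ (f i m)) ∧ (∀ i m, Per (f i m)) ∧
    ∀ x, v x = ∑ i, ∑ m, jgrad i m (f i m) x

/-- A skew gradient of a periodic function is a uniform limit of sums of periodized swirls with small
support. -/
def DensB : Prop := ∀ (n : ℕ) (i m : Fin n), i ≠ m → ∀ f : Eu n → ℝ, ContDiff ℝ ∞ f → Per f →
  ∀ r0 η : ℝ, 0 < r0 → 0 < η → ∃ (K : ℕ) (c : Fin K → Eu n) (β : Fin K → ℝ → ℝ),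
    (∀ k, ContDiff ℝ ∞ (β k)) ∧ (∀ k ρ, r0 ^ 2 ≤ ρ → β k ρ = 0) ∧
    ∀ x, ‖jgrad i m f x - ∑ k, ∑ᶠ l : Fin n → ℤ, swirl (c k) i m (β k) (x + iv l)‖ ≤ η

/-- Density of the sums of extended swirls in the fields that commute with `P`. -/
def Dens : Prop := ∀ (n : ℕ) (P : Subgroup (Eu n ≃ᵃ[ℝ] Eu n)), Deck P → ∀ v : Eu n → Eu n,
  ContDiff ℝ ∞ v → (∀ g ∈ P, ∀ x, v (g x) = g.linear (v x)) →
  (∀ x, ∑ j, (fderiv ℝ v x (ev j)) j = 0) → ∫ x in cube n, v x = 0 → ∀ r0 η : ℝ, 0 < r0 → 0 < η →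
  (∀ c : Eu n, Sep P c r0) →
  ∃ (K : ℕ) (c : Fin K → Eu n) (i j : Fin K → Fin n) (β : Fin K → ℝ → ℝ), (∀ k, i k ≠ j k) ∧
    (∀ k, ContDiff ℝ ∞ (β k)) ∧ (∀ k ρ, (r0 / 2) ^ 2 ≤ ρ → β k ρ = 0) ∧
    ∀ x, ‖v x - ∑ k, ext P (swirl (c k) (i k) (j k) (β k)) x‖ ≤ η

/-! ### Main.lean -/

/-- Exact paths have cost zero. -/
def MainCost : Prop := ∀ (n : ℕ), 3 ≤ n → ∀ (P : Subgroup (Eu n ≃ᵃ[ℝ] Eu n)), Deck P →
  ∀ (N : (Eu n → Eu n) → ℝ≥0∞) (p : ℝ), WeakNorm N p → ∀ φ : ℝ → Eu n → Eu n, IsPath P φ →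
  φ 0 = id → (∀ t, ∫ x in cube n, vel φ t x = 0) → ∀ ε : ℝ, 0 < ε → Cost N P (φ 1) ε

/-! ### Flux.lean -/

/-- Change of variables for periodic functions and the flux. -/
structure FluxKit : Prop where
  cov : ∀ (n : ℕ) (f : Eu n → Eu n), ContDiff ℝ ∞ f → Function.Bijective f →
    (∀ x, (fderiv ℝ f x).det = 1) → (∀ x (k : Fin n → ℤ), f (x + iv k) = f x + iv k) →
    ∀ F : Eu n → Eu n, Continuous F → Per F →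
    ∫ x in cube n, F (f x) = ∫ x in cube n, F x
  /-- a path with mean displacement zero at the end can be changed to a path with mean zero
  velocities -/
  exact : ∀ (n : ℕ) (P : Subgroup (Eu n ≃ᵃ[ℝ] Eu n)), Deck P → ∀ φ : ℝ → Eu n → Eu n, IsPath P φ →
    φ 0 = id → ∫ x in cube n, (φ 1 x - x) = 0 → ∃ ψ : ℝ → Eu n → Eu n, IsPath P ψ ∧ ψ 0 = id ∧
    ψ 1 = φ 1 ∧ ∀ t, ∫ x in cube n, vel ψ t x = 0
  /-- the mean velocity is the derivative of the mean displacement -/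
  mean : ∀ (n : ℕ) (P : Subgroup (Eu n ≃ᵃ[ℝ] Eu n)), Deck P → ∀ φ : ℝ → Eu n → Eu n, IsPath P φ →
    ∀ t, HasDerivAt (fun τ => ∫ x in cube n, (φ τ x - x)) (∫ x in cube n, vel φ t x) t
  /-- the mean displacement is invariant under the linear parts of `P` -/
  invt : ∀ (n : ℕ) (P : Subgroup (Eu n ≃ᵃ[ℝ] Eu n)), Deck P → ∀ f : Eu n → Eu n, InG P f →
    ∀ g ∈ P, g.linear (∫ x in cube n, (f x - x)) = ∫ x in cube n, (f x - x)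

/-! ### Hs.lean -/

/-- The Fourier coefficient of a vector field. -/
def fc (u : Eu n → Eu n) (k : Fin n → ℤ) : EuclideanSpace ℂ (Fin n) :=
  WithLp.toLp 2 (fun i => ∫ x in cube n, ((u x i : ℝ) : ℂ) *
    Complex.exp (-(2 * Real.pi * Complex.I * ∑ j, (k j : ℂ) * (x j : ℂ))))

/-- The Sobolev norm of order `s` of a periodic vector field. -/
def hsNorm (s : ℝ) (u : Eu n → Eu n) : ℝ≥0∞ :=
  (∑' k : Fin n → ℤ, ENNReal.ofReal ((1 + ∑ j, (k j : ℝ) ^ 2) ^ s) * ‖fc u k‖ₑ ^ 2) ^ (1 / 2 : ℝ)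

/-- Negative Sobolev norms are weak norms. -/
def HsWeak : Prop := ∀ (n : ℕ) (s : ℝ), 1 ≤ n → s < 0 → WeakNorm (hsNorm (n := n) s) 2

/-- The Sobolev norm bounds the mean, and is equal to it on constants. -/
def HsMean : Prop := ∀ (n : ℕ) (s : ℝ),
  (∀ u : Eu n → Eu n, Continuous u → ENNReal.ofReal ‖∫ x in cube n, u x‖ ≤ hsNorm s u) ∧
  ∀ m : Eu n, hsNorm s (fun _ : Eu n => m) = ENNReal.ofReal ‖m‖

/-! ### Wsp.lean -/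

/-- The test fields of the Sobolev norm of negative order `-σ` and exponent `p` (with conjugate exponent
`q`): smooth periodic fields whose fractional norm of order `σ` and exponent `q` is at most one. -/
def Test (σ q : ℝ) (v : Eu n → Eu n) : Prop :=
  ContDiff ℝ ∞ v ∧ Per v ∧ (∫⁻ x in cube n, ‖v x‖ₑ ^ q) +
    (∫⁻ x in cube n, ∫⁻ h in Metric.ball (0 : Eu n) 1,
      ‖v (x + h) - v x‖ₑ ^ q / ‖h‖ₑ ^ ((n : ℝ) + σ * q)) ≤ 1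

/-- The Sobolev norm of negative order `-σ` and exponent `p`. -/
def wNorm (σ p : ℝ) (u : Eu n → Eu n) : ℝ≥0∞ :=
  ⨆ (v : Eu n → Eu n) (_ : Test σ (p / (p - 1)) v), ENNReal.ofReal |∫ x in cube n, inner ℝ (u x) (v x)|

/-- The negative fractional norms are weak norms. -/
def WspWeak : Prop := ∀ (n : ℕ) (σ p : ℝ), 1 ≤ n → 0 < σ → σ < 1 → 1 < p → WeakNorm (wNorm (n := n) σ p) p

end

end Pool.Agent.H68.VD
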