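import Mathlib

/-! # Volumorphism groups of closed flat manifolds: definitions

`Eu n` is Euclidean space, a closed flat manifold is `Eu n / P` with `Deck P`; a diffeomorphism of the
manifold isotopic to the identity is represented by a lift `f : Eu n → Eu n` that commutes with `P`. -/

namespace Pool.Agent.H68.VD

open MeasureTheory Set
open scoped ENNReal ContDiff

noncomputable section

/-- Euclidean space of dimension `n`. -/
abbrev Eu (n : ℕ) := EuclideanSpace ℝ (Fin n)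

variable {n : ℕ}

/-- The integer vector `k`. -/
def iv (k : Fin n → ℤ) : Eu n := WithLp.toLp 2 (fun i => (k i : ℝ))

/-- The unit vector `e_i`. -/
def ev (i : Fin n) : Eu n := EuclideanSpace.single i (1 : ℝ)

/-- The unit cube `[0,1)^n`. -/
def cube (n : ℕ) : Set (Eu n) := {x | ∀ i, x i ∈ Set.Ico (0 : ℝ) 1}

/-- `u` is periodic with respect to integer translations. -/
def Per {F : Type*} (u : Eu n → F) : Prop := ∀ (x : Eu n) (k : Fin n → ℤ), u (x + iv k) = u x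

/-- `P` is the deck group of a closed flat manifold: it contains the integer translations with finite
index, its linear parts preserve the integer lattice, and it acts freely. -/
structure Deck (P : Subgroup (Eu n ≃ᵃ[ℝ] Eu n)) : Prop where
  trans : ∀ k : Fin n → ℤ, AffineEquiv.constVAdd ℝ (Eu n) (iv k) ∈ P
  fin : ∃ R : Finset (Eu n ≃ᵃ[ℝ] Eu n), ∀ g ∈ P, ∃ r ∈ R, ∃ k : Fin n → ℤ, ∀ x, g x = r x + iv k
  int : ∀ g ∈ P, ∀ k : Fin n → ℤ, ∃ l : Fin n → ℤ, g.linear (iv k) = iv l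
  free : ∀ g ∈ P, g ≠ 1 → ∀ x, g x ≠ x

/-- A smooth family (parameter space `E`) of volume preserving diffeomorphisms of `Eu n` that commute
with `P`. -/
structure IsFam (P : Subgroup (Eu n ≃ᵃ[ℝ] Eu n)) {E : Type*} [NormedAddCommGroup E]
    [NormedSpace ℝ E] (F : E → Eu n → Eu n) : Prop where
  smooth : ContDiff ℝ ∞ (fun q : E × Eu n => F q.1 q.2)
  bij : ∀ e, Function.Bijective (F e)
  det : ∀ e x, (fderiv ℝ (F e) x).det = 1
  equi : ∀ e, ∀ g ∈ P, ∀ x, F e (g x) = g (F e x)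

/-- A smooth path of volume preserving diffeomorphisms of `Eu n` that commute with `P`. -/
def IsPath (P : Subgroup (Eu n ≃ᵃ[ℝ] Eu n)) (φ : ℝ → Eu n → Eu n) : Prop := IsFam P φ

/-- The (Eulerian) velocity field of a path at time `t`: `(∂_t φ_t) ∘ φ_t⁻¹`. -/
def vel (φ : ℝ → Eu n → Eu n) (t : ℝ) (x : Eu n) : Eu n :=
  deriv (fun τ => φ τ (Function.invFun (φ t) x)) t

/-- The length `∫_0^1 N(velocity) dt` of a path. -/
def len (N : (Eu n → Eu n) → ℝ≥0∞) (φ : ℝ → Eu n → Eu n) : ℝ≥0∞ :=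
  ∫⁻ t in Set.Icc (0 : ℝ) 1, N (vel φ t)

/-- `f` is a lift of an element of the identity component of the group of volume preserving
diffeomorphisms of `Eu n / P`. -/
def InG (P : Subgroup (Eu n ≃ᵃ[ℝ] Eu n)) (f : Eu n → Eu n) : Prop :=
  ∃ φ : ℝ → Eu n → Eu n, IsPath P φ ∧ φ 0 = id ∧ φ 1 = f

/-- The geodesic distance of the diffeomorphisms of `Eu n / P` with lifts `f` and `g`: the infimum of
the lengths of the paths that join `f` to a lift `γ ∘ g` of the second one. -/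
def gdist (N : (Eu n → Eu n) → ℝ≥0∞) (P : Subgroup (Eu n ≃ᵃ[ℝ] Eu n)) (f g : Eu n → Eu n) : ℝ≥0∞ :=
  ⨅ (φ : ℝ → Eu n → Eu n) (_ : IsPath P φ ∧ φ 0 = f ∧ ∃ γ ∈ P, ∀ x, φ 1 x = γ (g x)), len N φ

/-- The divergence of a matrix field. -/
def dv (T : Eu n → (Eu n →L[ℝ] Eu n)) (x : Eu n) : Eu n :=
  ∑ j, (fderiv ℝ T x (ev j)) (ev j)

/-- `N` is a weak norm: homogeneous, bounded by a multiple of the `L^p` norm, and `N (div T)` is small
for periodic matrix fields `T` which are uniformly small and have a bounded divergence. -/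
structure WeakNorm (N : (Eu n → Eu n) → ℝ≥0∞) (p : ℝ) : Prop where
  hp : 1 ≤ p
  smul : ∀ (c : ℝ) (u : Eu n → Eu n), N (fun x => c • u x) = ENNReal.ofReal |c| * N u
  bound : ∃ C : ℝ, 0 ≤ C ∧ ∀ u : Eu n → Eu n, Continuous u → Per u →
    N u ≤ ENNReal.ofReal C * (∫⁻ x in cube n, ‖u x‖ₑ ^ p) ^ (1 / p)
  weak : ∀ B ε : ℝ, 0 < ε → ∃ δ : ℝ, 0 < δ ∧ ∀ T : Eu n → (Eu n →L[ℝ] Eu n), ContDiff ℝ ∞ T →
    Per T → (∀ x, ‖dv T x‖ ≤ B) → (∀ x, ‖T x‖ ≤ δ) → N (dv T) ≤ ENNReal.ofReal ε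

/-- `f` can be joined to the identity by a path of length at most `a` (with a continuous bound of the
speed). -/
def Cost (N : (Eu n → Eu n) → ℝ≥0∞) (P : Subgroup (Eu n ≃ᵃ[ℝ] Eu n)) (f : Eu n → Eu n) (a : ℝ) :
    Prop :=
  ∃ (φ : ℝ → Eu n → Eu n) (l : ℝ → ℝ), IsPath P φ ∧ φ 0 = id ∧ φ 1 = f ∧ Continuous l ∧
    (∀ t, 0 ≤ l t) ∧ (∀ t ∈ Set.Icc (0 : ℝ) 1, N (vel φ t) ≤ ENNReal.ofReal (l t)) ∧
    ∫ t in (0 : ℝ)..1, l t ≤ a

/-! ### Rotations, swirls, twists -/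

/-- The infinitesimal rotation `J x = x_i e_j - x_j e_i`. -/
def rotJ (i j : Fin n) : Eu n →L[ℝ] Eu n :=
  (EuclideanSpace.proj i : Eu n →L[ℝ] ℝ).smulRight (ev j) -
    (EuclideanSpace.proj j : Eu n →L[ℝ] ℝ).smulRight (ev i)

/-- The rotation by the angle `θ` in the plane of `e_i, e_j`: `1 + sin θ J + (1 - cos θ) J²`. -/
def rotR (i j : Fin n) (θ : ℝ) : Eu n →L[ℝ] Eu n :=
  ContinuousLinearMap.id ℝ (Eu n) + Real.sin θ • rotJ i j +
    (1 - Real.cos θ) • (rotJ i j ∘L rotJ i j)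

/-- The swirl field `β(|x-c|²) J (x-c)`. -/
def swirl (c : Eu n) (i j : Fin n) (β : ℝ → ℝ) (x : Eu n) : Eu n :=
  β (‖x - c‖ ^ 2) • rotJ i j (x - c)

/-- The twist `x ↦ c + A(|x-c|²)(x-c)`. -/
def twist (c : Eu n) (A : ℝ → (Eu n →L[ℝ] Eu n)) (x : Eu n) : Eu n :=
  c + A (‖x - c‖ ^ 2) (x - c)

/-! ### Extension from a small ball to the manifold -/

/-- The translates of the ball of centre `c` and radius `r` under `P` are disjoint. -/
def Sep (P : Subgroup (Eu n ≃ᵃ[ℝ] Eu n)) (c : Eu n) (r : ℝ) : Prop :=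
  0 < r ∧ ∀ g ∈ P, g ≠ 1 → ∀ x, dist x c < r → ¬ dist (g x) c < r

/-- The extension of a vector field with support in a small ball: `x ↦ ∑_γ L_γ u(γ⁻¹ x)`. -/
def ext (P : Subgroup (Eu n ≃ᵃ[ℝ] Eu n)) (u : Eu n → Eu n) (x : Eu n) : Eu n :=
  ∑ᶠ g : P, (g : Eu n ≃ᵃ[ℝ] Eu n).linear (u (((g⁻¹ : P) : Eu n ≃ᵃ[ℝ] Eu n) x))

/-- The extension of a map which is the identity outside of a small ball. -/
def extMap (P : Subgroup (Eu n ≃ᵃ[ℝ] Eu n)) (T : Eu n → Eu n) (x : Eu n) : Eu n :=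
  x + ext P (fun y => T y - y) x

/-- A smooth family of volume preserving diffeomorphisms that are the identity outside of the ball
of centre `c` and radius `r`. -/
structure BallFam (c : Eu n) (r : ℝ) {E : Type*} [NormedAddCommGroup E] [NormedSpace ℝ E]
    (T : E → Eu n → Eu n) : Prop where
  smooth : ContDiff ℝ ∞ (fun q : E × Eu n => T q.1 q.2)
  bij : ∀ e, Function.Bijective (T e)
  det : ∀ e x, (fderiv ℝ (T e) x).det = 1
  out : ∀ e x, r ≤ dist x c → T e x = x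

end

end Pool.Agent.H68.VD
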