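import Pool.Agent.H68.VD.St

/-! # Statements of the second group of modules -/

namespace Pool.Agent.H68.VD

open MeasureTheory Set
open scoped ENNReal ContDiff

noncomputable section

variable {n : ℕ}

/-- The diameter of the group of volume preserving diffeomorphisms. -/
def diam (N : (Eu n → Eu n) → ℝ≥0∞) (P : Subgroup (Eu n ≃ᵃ[ℝ] Eu n)) : ℝ≥0∞ :=
  ⨆ (f : Eu n → Eu n) (_ : InG P f) (g : Eu n → Eu n) (_ : InG P g), gdist N P f g

/-- `w` is the vector of a translation of `P` that commutes with `P`. -/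
def Ctr (P : Subgroup (Eu n ≃ᵃ[ℝ] Eu n)) (w : Eu n) : Prop :=
  AffineEquiv.constVAdd ℝ (Eu n) w ∈ P ∧ ∀ g ∈ P, g.linear w = w

/-- `N` dominates the `L^1` norm. -/
def Dominates (N : (Eu n → Eu n) → ℝ≥0∞) : Prop :=
  ∃ c : ℝ, 0 < c ∧ ∀ u : Eu n → Eu n, Continuous u → Per u →
    ENNReal.ofReal c * ∫⁻ x in cube n, ‖u x‖ₑ ≤ N u

/-! ### LatFix.lean -/

/-- The central translations are a lattice in the space of the invariant vectors. -/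
def LatFix : Prop := ∀ (n : ℕ) (P : Subgroup (Eu n ≃ᵃ[ℝ] Eu n)), Deck P → ∃ C : ℝ,
  ∀ v : Eu n, (∀ g ∈ P, g.linear v = v) → ∃ w, Ctr P w ∧ ‖v + w‖ ≤ C

/-! ### PerDiv.lean -/

/-- The divergence of a periodic matrix field has mean zero. -/
def PerDiv : Prop := ∀ (n : ℕ) (S : Eu n → (Eu n →L[ℝ] Eu n)), ContDiff ℝ ∞ S → Per S →
  ∫ x in cube n, dv S x = 0

/-! ### DispLow.lean -/

/-- The `L^1` length is at least the `L^1` displacement. -/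
def DispLow : Prop := ∀ (n : ℕ) (P : Subgroup (Eu n ≃ᵃ[ℝ] Eu n)), Deck P →
  ∀ φ : ℝ → Eu n → Eu n, IsPath P φ →
  ∫⁻ x in cube n, ‖φ 1 x - φ 0 x‖ₑ ≤
    ∫⁻ t in Set.Icc (0 : ℝ) 1, ∫⁻ x in cube n, ‖vel φ t x‖ₑ

/-! ### Shift.lean -/

/-- A volume preserving diffeomorphism with flux zero that shifts a small ball by an integer vector. -/
def Shift : Prop := ∀ (n : ℕ), 2 ≤ n → ∀ (P : Subgroup (Eu n ≃ᵃ[ℝ] Eu n)), Deck P →
  ∃ h : Eu n → Eu n, InG P h ∧ ∫ x in cube n, (h x - x) = 0 ∧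
    ∃ (x0 : Eu n) (k : Fin n → ℤ) (δ : ℝ), iv k ≠ (0 : Eu n) ∧ 0 < δ ∧
      ∀ y, ‖y‖ < δ → h (x0 + y) = x0 + y + iv k

/-! ### InfD.lean -/

/-- The diameter is infinite for norms which dominate the `L^1` norm. -/
def InfDiam : Prop := ∀ (n : ℕ), 2 ≤ n → ∀ (P : Subgroup (Eu n ≃ᵃ[ℝ] Eu n)), Deck P →
  ∀ N : (Eu n → Eu n) → ℝ≥0∞, Dominates N → diam N P = ⊤

/-! ### HsS.lean -/

/-- Sobolev norms of nonnegative order dominate the `L^1` norm. -/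
def HsStrong : Prop := ∀ (n : ℕ) (s : ℝ), 0 ≤ s → Dominates (hsNorm (n := n) s)

/-! ### Exact.lean (head) -/

/-- The exact formula of the distance for normalized weak norms. -/
def Exact : Prop := ∀ (n : ℕ), 3 ≤ n → ∀ (P : Subgroup (Eu n ≃ᵃ[ℝ] Eu n)), Deck P →
  ∀ (N : (Eu n → Eu n) → ℝ≥0∞) (p : ℝ), WeakNorm N p →
  (∀ u : Eu n → Eu n, Continuous u → Per u → ENNReal.ofReal ‖∫ x in cube n, u x‖ ≤ N u) →
  (∀ m : Eu n, N (fun _ => m) ≤ ENNReal.ofReal ‖m‖) →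
  ∀ f g : Eu n → Eu n, InG P f → InG P g →
  gdist N P f g = ⨅ (w : Eu n) (_ : Ctr P w), ENNReal.ofReal ‖(∫ x in cube n, (g x - f x)) + w‖

/-! ### DiamW.lean -/

/-- The diameter for weak norms: finite, and zero exactly if there is no invariant vector. -/
def DiamWeak : Prop := ∀ (n : ℕ), 3 ≤ n → ∀ (P : Subgroup (Eu n ≃ᵃ[ℝ] Eu n)), Deck P →
  ∀ (N : (Eu n → Eu n) → ℝ≥0∞) (p : ℝ), WeakNorm N p →
  (∀ u : Eu n → Eu n, Continuous u → Per u → ENNReal.ofReal ‖∫ x in cube n, u x‖ ≤ N u) →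
  (∀ m : Eu n, N (fun _ => m) ≤ ENNReal.ofReal ‖m‖) →
  diam N P < ⊤ ∧ (diam N P = 0 ↔ ∀ m : Eu n, (∀ g ∈ P, g.linear m = m) → m = 0)

/-! ### WspM.lean -/

/-- The negative fractional norms are normalized. -/
def WspMean : Prop := ∀ (n : ℕ) (σ p : ℝ), 0 < σ → σ < 1 → 1 < p →
  (∀ u : Eu n → Eu n, Continuous u → Per u →
    ENNReal.ofReal ‖∫ x in cube n, u x‖ ≤ wNorm (n := n) σ p u) ∧
  ∀ m : Eu n, wNorm (n := n) σ p (fun _ : Eu n => m) ≤ ENNReal.ofReal ‖m‖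

end

end Pool.Agent.H68.VD
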